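import Pool.Agent.Mg.F655169a.G47c8bf

open Polynomial NumberField Finset

namespace LogPow2

open LogPow

namespace N1L

theorem prod_bd {K₀ y k l M q q' : ℝ} (R : Rel2 K₀ y k l M q q') (hl : 0 < l) (hy : 0 < y) :
    l * (M ^ 2 * q ^ 2) ≤ 0.2814 * y ^ 2 ∧ 0.9996 * (0.2814 * y ^ 2) ≤ l * (M ^ 2 * q ^ 2) := by
  have hk : 0 < k := by linarith [R.hk]
  constructor
  · refine le_of_mul_le_mul_left ?_ hk
    calc k * (l * (M ^ 2 * q ^ 2)) = (k * M ^ 2) * (l * q ^ 2) := by ring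
      _ ≤ (0.67 * y) * (0.42 * y * k) := mul_le_mul R.hM1 R.hq1 (by positivity) (by positivity)
      _ = k * (0.2814 * y ^ 2) := by ring
  · refine le_of_mul_le_mul_left ?_ hk
    have h0 : 0 ≤ k * y ^ 2 := by positivity
    calc k * (0.9996 * (0.2814 * y ^ 2)) ≤ (0.9998 * (0.67 * y)) * (0.9998 * (0.42 * y * k)) := by
          linarith
      _ ≤ (k * M ^ 2) * (l * q ^ 2) := mul_le_mul R.hM2 R.hq2 (by positivity) (by positivity)
      _ = k * (l * (M ^ 2 * q ^ 2)) := by ring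

end N1L

theorem n1 : N1Stmt := by
  intro K₀ y k l M q q' N U V N' U' V' R B B'
  have hK := R.hK
  have hK3 : 8 ≤ K₀ ^ 3 := by
    have := pow_le_pow_left₀ (by norm_num : (0 : ℝ) ≤ 2) hK 3
    linarith
  have hl : 80000000 ≤ l := by linarith [R.hl]
  have hq : 80000000 ≤ q := hl.trans R.hlq
  have hqq : q ≤ q' := by linarith [R.hq3]
  have hqM : q ≤ M := hqq.trans R.hq5
  have hlM : l ≤ M := R.hlq.trans hqM
  have hM : 0 ≤ M ^ 2 := sq_nonneg M
  have hy : 400 * l ≤ y := by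
    have a : 100 * M ^ 2 ≤ k * M ^ 2 := mul_le_mul_of_nonneg_right R.hk hM
    have b : 4 * l ≤ M * M := mul_le_mul (by linarith) hlM (by linarith) (by linarith)
    have c := R.hM1
    linarith
  obtain ⟨h1, h2⟩ := N1L.prod_bd R (by linarith) (by linarith)
  have hP : 0 ≤ M ^ 2 * q ^ 2 := by positivity
  have hN1 : 16 / 9 * (0.9999 * (M ^ 2 * q ^ 2)) ≤ N := by
    have a : 0.9999 * q ^ 2 ≤ (q - 3) ^ 2 := by nlinarith
    have b := mul_le_mul_of_nonneg_left a hM
    have c := B.1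
    linarith
  have hN2 : N ≤ 16 / 9 * (M ^ 2 * q ^ 2) := by linarith [B.2.1]
  have hN1' : 16 / 9 * (1.001 * (M ^ 2 * q ^ 2)) ≤ N' := by
    have a0 : q * (1 + 1 / 2000) ≤ q' - 3 := by linarith [R.hq3]
    have a1 : (q * (1 + 1 / 2000)) ^ 2 ≤ (q' - 3) ^ 2 := pow_le_pow_left₀ (by positivity) a0 2
    have a : 1.001 * q ^ 2 ≤ (q' - 3) ^ 2 := by linarith [sq_nonneg q]
    have b := mul_le_mul_of_nonneg_left a hM
    have c := B'.1
    linarith
  have hP' : 0 ≤ M ^ 2 * q' ^ 2 := by positivity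
  have hS : 10000000 * K₀ ^ 3 * (M ^ 2 * q ^ 2) ≤ l * (M ^ 2 * q ^ 2) :=
    mul_le_mul_of_nonneg_right R.hl hP
  have hlP : 0 ≤ l * (M ^ 2 * q ^ 2) := by positivity
  have hlq : Real.log q ≤ 1.0001 * l := by
    refine le_trans (Real.log_le_log (by linarith) (hqM.trans ?_)) R.hlog1
    have : 1 ≤ 2 * K₀ ^ 2 := by nlinarith
    exact le_mul_of_one_le_left R.hM0 this
  refine ⟨by linarith, by linarith, by linarith, hqq, by linarith [R.hq4], ?_, ?_, ?_,
    by linarith, by linarith [B'.2.1], ?_, ?_⟩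
  · have a : 2 * l ≤ q * q := mul_le_mul (by linarith) R.hlq (by linarith) (by linarith)
    linarith [R.hlog1]
  · have a : 1 * y ≤ y * y := mul_le_mul_of_nonneg_right (by linarith) (by linarith)
    linarith [R.hlog1]
  · have a : (16 / 9 * (0.9999 * (M ^ 2 * q ^ 2))) * (0.999 * l) ≤ N * Real.log q :=
      mul_le_mul hN1 R.hlog2 (by positivity) (by linarith)
    linarith [sq_nonneg y]
  · have a : (16 / 9 * (0.001 * (M ^ 2 * q ^ 2))) * (0.999 * l) ≤ (N' - N) * Real.log q :=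
      mul_le_mul (by linarith) R.hlog2 (by positivity) (by linarith)
    linarith
  · have a : N * Real.log q ≤ (16 / 9 * (M ^ 2 * q ^ 2)) * (1.0001 * l) :=
      mul_le_mul hN2 hlq (Real.log_nonneg (by linarith)) (by positivity)
    linarith [sq_nonneg y]

end LogPow2
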