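import Pool.Agent.Mg.F655169a.Gc9f9fa

section

/-! Definitions for `log α ∉ F(α^β)`, `[F:ℚ] ≤ 2`, or `≤ 4` non-real.
Plan: /team-store/655169_h40_PROOF.md -/

open Polynomial NumberField Finset

namespace LogPow2

open LogPow

/-! ### Criterion -/

/-- The sum over pairs of roots that the resultant controls. -/
noncomputable def pairSum (p q : ℂ[X]) : ℝ :=
  ((p.roots ×ˢ q.roots).map fun r : ℂ × ℂ =>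
    Real.posLog ‖r.1‖ + Real.posLog ‖r.2‖ - Real.log ‖r.1 - r.2‖).sum

/-- An additive height on `K[X]` with the resultant inequality. -/
structure IsHt {K : Type} [Field K] (φ : K →+* ℂ) (h : K[X] → ℝ) : Prop where
  mul : ∀ P Q : K[X], P ≠ 0 → Q ≠ 0 → h (P * Q) = h P + h Q
  nonneg : ∀ P : K[X], P ≠ 0 → 0 ≤ h P
  res : ∀ P Q : K[X], P ≠ 0 → Q ≠ 0 → IsCoprime P Q →
    pairSum (P.map φ) (Q.map φ) ≤ (Q.natDegree : ℝ) * h P + (P.natDegree : ℝ) * h Q +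
      (P.natDegree : ℝ) * (Q.natDegree : ℝ) * Real.log 2

/-- Lower bounds for `W` at five scales. -/
def Five (w : ℂ) (y Λ : ℝ) (P : ℂ[X]) : Prop :=
  0.915 * Λ * y ≤ W w (y ^ 2) P ∧ 0.571 * Λ * y ≤ W w (y ^ 2 / 4) P ∧
    0.278 * Λ * y ≤ W w (y ^ 2 / 16) P ∧ 0.149 * Λ * y ≤ W w (y ^ 2 / 49) P ∧
    0.071 * Λ * y ≤ W w (y ^ 2 / 169) P

/-- What the interpolation determinants supply. -/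
def Aux2 {K : Type} [Field K] (φ : K →+* ℂ) (h : K[X] → ℝ) (w : ℂ) : Prop :=
  ∃ k y₀ : ℝ, 100 ≤ k ∧ ∀ y : ℝ, y₀ ≤ y → ∀ γ : ℂ, ‖γ - w‖ ≤ Real.exp (-(1.01 * y ^ 2)) →
    ∃ (Δ : K[X]) (Λ : ℝ), 0 < Λ ∧ (Δ.map φ).eval γ ≠ 0 ∧ (Δ.natDegree : ℝ) * k ≤ Λ ∧
      h Δ ≤ Λ * k ∧ Five w y Λ (Δ.map φ)

/-- The comparison function. -/
noncomputable def gg (y X : ℝ) : ℝ := min (Real.sqrt X / 2) (min (13 * X / (2 * y)) (y / 2))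

/-! ### Heights -/

/-- Sum over all embeddings of `log M`, minus the logarithm of the norm of the content. -/
noncomputable def hA {K : Type} [Field K] [NumberField K] (P : (𝓞 K)[X]) : ℝ :=
  ∑ σ : K →+* ℂ, (P.map (psi σ)).logMahlerMeasure - Real.log (Ideal.absNorm P.contentIdeal)

/-- How the height sees integral polynomials. -/
def IntBd {K : Type} [Field K] [NumberField K] (φ : K →+* ℂ) (h : K[X] → ℝ) : Prop :=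
  ∀ P : (𝓞 K)[X], P ≠ 0 → ∀ b : ℝ, (∀ σ : K →+* ℂ, (P.map (psi σ)).logMahlerMeasure ≤ b) →
    h (P.map (algebraMap (𝓞 K) K)) ≤ 2 * b ∧ Real.exp (-b) ≤ ‖(P.map (psi φ)).leadingCoeff‖

/-! ### The entries over a commutative ring -/

def lam {R : Type} [CommRing R] (β : R) (x : ℤ × ℤ) : R := (x.1 : R) + (x.2 : R) * β

def mu {R : Type} [CommRing R] (β : R) (a : ℤ) (y : ℤ × ℤ) : R :=
  ((y.2 - a * y.1 : ℤ) : R) + (y.1 : R) * β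

/-- `lam x * mu y = sE x y + (x ⬝ y) β`. -/
def sE (a b : ℤ) (x y : ℤ × ℤ) : ℤ := x.1 * (y.2 - a * y.1) + b * x.2 * y.1

/-- Arithmetic data; `αp`, `αm` stand for `n₀ α` and `n₀ / α`. -/
structure AD (R : Type) [CommRing R] where
  β : R
  αp : R
  αm : R
  a : ℤ
  b : ℤ
  n₀ : ℕ
  A : R[X]
  B : R[X]

namespace AD

variable {R : Type} [CommRing R] (D : AD R)

noncomputable def map {S : Type} [CommRing S] (f : R →+* S) : AD S :=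
  ⟨f D.β, f D.αp, f D.αm, D.a, D.b, D.n₀, D.A.map f, D.B.map f⟩

def cc : ℕ := 1 + D.a.natAbs + D.b.natAbs

/-- `n₀ ^ (cc M²) α ^ s`. -/
def apow (M : ℕ) (s : ℤ) : R :=
  D.αp ^ s.toNat * D.αm ^ (-s).toNat * (D.n₀ : R) ^ (D.cc * M ^ 2 - s.natAbs)

/-- The entry polynomial in row `r = (y, σ)` and column `c = (x, τ)`. -/
noncomputable def ent (M : ℕ) (r c : (ℤ × ℤ) × ℕ) : R[X] :=
  C (D.apow M (sE D.a D.b c.1 r.1)) * X ^ (tri (c.1.1 + r.1.1) + tri (c.1.2 + r.1.2)) *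
    ∑ k ∈ range (r.2 + 1),
      C ((r.2.choose k : R) * (c.2.descFactorial k : R) * mu D.β D.a r.1 ^ (c.2 - k) *
          lam D.β c.1 ^ (r.2 - k)) * D.B ^ (r.2 - k) * D.A ^ k

/-- The square minor on the rows `ι`. -/
noncomputable def minor (M q q' : ℕ) (ι : idx M q → idx M q') : R[X] :=
  (Matrix.of fun i j : idx M q => D.ent M (ι i).1 j.1).det

end AD

/-- `β` is a quadratic irrational integer, of size less than `K₀` with its conjugate. -/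
structure Geo (β : ℂ) (a b : ℤ) (K₀ : ℝ) : Prop where
  hβ : β ^ 2 = a * β + b
  irr : ∀ r : ℚ, β ≠ r
  hK : 2 ≤ K₀
  h₁ : 1 + ‖β‖ ≤ K₀
  h₂ : 1 + ‖β - a‖ ≤ K₀

/-- Size bounds; they are needed for every conjugate of the data. -/
structure Bnd (D : AD ℂ) (K₀ : ℝ) : Prop where
  hK : 2 ≤ K₀
  h₁ : 1 + ‖D.β‖ ≤ K₀
  h₂ : 1 + ‖D.β - D.a‖ ≤ K₀
  hn₀ : 1 ≤ D.n₀
  hp : ‖D.αp‖ ^ D.cc ≤ K₀
  hm : ‖D.αm‖ ^ D.cc ≤ K₀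
  hn : (D.n₀ : ℝ) ^ D.cc ≤ K₀
  hA : ∀ ζ : ℂ, ‖ζ‖ = 1 → ‖D.A.eval ζ‖ ≤ K₀ ∧ ‖D.B.eval ζ‖ ≤ K₀
  hd : (D.A.natDegree : ℝ) ≤ K₀ ∧ (D.B.natDegree : ℝ) ≤ K₀

/-- Behaviour of `log (z / w)` and of `B / A` near `w`. -/
def Lip (A B : ℂ[X]) (w L : ℂ) (K₀ : ℝ) : Prop :=
  ∀ z : ℂ, ‖z - w‖ ≤ 1 / K₀ → ∃ δ T : ℂ, z = w * Complex.exp δ ∧ A.eval z ≠ 0 ∧
    B.eval z = T * A.eval z ∧ ‖δ‖ ≤ K₀ * ‖z - w‖ ∧ ‖T - L‖ ≤ K₀ * ‖z - w‖ ∧ ‖T‖ ≤ K₀ ∧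
    1 ≤ K₀ * ‖T‖ ∧ ‖z‖ ≤ K₀ ∧ ‖A.eval z‖ ≤ K₀

/-- The analytic data at the given embedding. -/
structure An (D : AD ℂ) (L : ℂ) (K₀ : ℝ) : Prop where
  geo : Geo D.β D.a D.b K₀
  bnd : Bnd D K₀
  ep : D.αp = D.n₀ * Complex.exp L
  em : D.αm = D.n₀ * Complex.exp (-L)
  lip : Lip D.A D.B (Complex.exp (D.β * L)) L K₀

/-! ### The normalised matrix -/

/-- The function of column `c = (x, τ)`. -/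
noncomputable def fn (la : ℤ × ℤ → ℂ) (T : ℂ) (c : (ℤ × ℤ) × ℕ) : ℂ → ℂ :=
  fun t => t ^ c.2 * Complex.exp (T * la c.1 * t)

noncomputable def jet (la nu : ℤ × ℤ → ℂ) (T : ℂ) (r c : (ℤ × ℤ) × ℕ) : ℂ :=
  iteratedDeriv r.2 (fn la T c) (nu r.1)

/-- The jet times the exponential of a bilinear form of rank two. -/
noncomputable def nm (la nu : ℤ × ℤ → ℂ) (T : ℂ) (l₁ l₂ : ℤ × ℤ → ℂ) (r c : (ℤ × ℤ) × ℕ) : ℂ :=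
  jet la nu T r c * Complex.exp ((r.1.1 : ℂ) * l₁ c.1 + (r.1.2 : ℂ) * l₂ c.1)

/-- Position of the nodes. -/
structure Nodes (ν : ℤ × ℤ → ℂ) (M : ℕ) (K₀ : ℝ) : Prop where
  le : ∀ x ∈ box M, ‖ν x‖ ≤ K₀ * M
  sep : ∀ x ∈ box M, ∀ x' ∈ box M, x ≠ x' → 1 / (2 * K₀ * M) ≤ ‖ν x - ν x'‖
  prod : ∀ x ∈ box M, Real.exp (-(30 * K₀ * M ^ 2)) ≤
    ∏ x' ∈ (box M).erase x, ‖ν x - ν x'‖ / (2 * K₀ * M)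

/-- Triples `(n, j, i)` with `n < Kk`, `i ≤ j < m`. -/
def kset (Kk m : ℕ) : Finset (ℕ × ℕ × ℕ) :=
  (range Kk ×ˢ range m ×ˢ range m).filter fun t => t.2.2 ≤ t.2.1

/-- Truncated weighted norm. -/
noncomputable def wn (η : ℝ) (t : ℕ) (f : ℂ[X]) : ℝ := ∑ i ∈ range t, ‖f.coeff i‖ * η ^ i

/-- Hypotheses on the nodes of a Hermite interpolation problem. -/
structure HN {ι : Type} [DecidableEq ι] (s : Finset ι) (ν : ι → ℂ) (t : ι → ℕ) (T : ℕ)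
    (ρ η κ : ℝ) : Prop where
  η0 : 0 < η
  η1 : η ≤ 1
  ηρ : η ≤ ρ
  κ0 : 0 < κ
  le : ∀ a ∈ s, ‖ν a‖ ≤ ρ
  tle : ∀ a ∈ s, t a ≤ T
  sep : ∀ a ∈ s, ∀ b ∈ s, a ≠ b → 2 * η ≤ ‖ν a - ν b‖
  prod : ∀ a ∈ s, κ ≤ ∏ b ∈ s.erase a, (‖ν a - ν b‖ / (2 * ρ)) ^ t b

/-- The constant of Hermite interpolation. -/
noncomputable def HC (card N T : ℕ) (ρ η κ : ℝ) : ℝ :=
  card * (3 * 2 ^ N * (2 * ρ / η) ^ T / κ)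

/-- The exponent in the estimate of the determinant, without the error terms. -/
noncomputable def gain (N Y lq m : ℝ) : ℝ :=
  N * m * Y - Y * (m * (m + 1) * (m + 2) / 6) - Y ^ 2 * (m * (m + 1) ^ 2 * (m + 2)) / (48 * lq)

/-- The relations between the real parameters `y, k`, `l = (log y)/2` and the integers `M, q, q'`. -/
structure Rel2 (K₀ y k l M q q' : ℝ) : Prop where
  hK : 2 ≤ K₀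
  hk : 100 ≤ k
  hM0 : 0 ≤ M
  hM1 : k * M ^ 2 ≤ 0.67 * y
  hM2 : 0.9998 * (0.67 * y) ≤ k * M ^ 2
  hq1 : l * q ^ 2 ≤ 0.42 * y * k
  hq2 : 0.9998 * (0.42 * y * k) ≤ l * q ^ 2
  hq3 : q * (1 + 1 / 2000) + 3 ≤ q'
  hq4 : q' ≤ 1.001 * q
  hq5 : q' ≤ M
  hlog1 : Real.log (2 * K₀ ^ 2 * M) ≤ 1.0001 * l
  hlog2 : 0.999 * l ≤ Real.log q
  hkC : 2000 * Real.log K₀ ≤ k ^ 2
  hkc : K₀ * k ^ 2 ≤ l / 1000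
  hl : 10000000 * K₀ ^ 3 ≤ l
  hlq : l ≤ q

end LogPow2

end

section

/-! Statements of the lemmas.  Plan: /team-store/655169_h40_PROOF.md -/

open Polynomial NumberField Finset

namespace LogPow2

open LogPow

/-! ### Criterion -/

def ClMinStmt : Prop :=
  ∀ (w ρ : ℂ) (Y Y' : ℝ), 0 ≤ Y' → Y' ≤ Y → cl w Y' ρ = min (cl w Y ρ) Y'

/-- From five scales to all scales, by concavity of `X ↦ W w X P`. -/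
structure ConcStmt : Prop where
  abs : ∀ (f : ℝ → ℝ) (y Λ X : ℝ), ConcaveOn ℝ (Set.Ici 0) f → MonotoneOn f (Set.Ici 0) → 0 ≤ f 0 →
    0 < y → 0 ≤ Λ → 0 ≤ X → 0.915 * Λ * y ≤ f (y ^ 2) → 0.571 * Λ * y ≤ f (y ^ 2 / 4) →
    0.278 * Λ * y ≤ f (y ^ 2 / 16) → 0.149 * Λ * y ≤ f (y ^ 2 / 49) →
    0.071 * Λ * y ≤ f (y ^ 2 / 169) → 1.82 * Λ * gg y X ≤ f X
  main : ∀ (w : ℂ) (y Λ X : ℝ) (P : ℂ[X]), 0 < y → 0 ≤ Λ → 0 ≤ X → Five w y Λ P →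
    1.82 * Λ * gg y X ≤ W w X P

/-- The test function lies below `gg`; comparison of two scales. -/
structure PsiStmt : Prop where
  test : ∀ y X : ℝ, 0 < y → 0 ≤ X →
    1 / 3 * min X (y ^ 2) + 1 / 3 * min X (y ^ 2 / 4) + 20 / 33 * min X (y ^ 2 / 16) +
      441 / 440 * min X (y ^ 2 / 49) + 169 / 40 * min X (y ^ 2 / 169) ≤ y * gg y X
  lin : ∀ y X : ℝ, gg y X ≤ 13 * X / (2 * y)
  comp : ∀ y y₀ X : ℝ, 0 < y → y ≤ y₀ → 0 ≤ X → X ≤ 1.01 * y ^ 2 → gg y₀ X ≤ 1.005 * gg y X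

/-- The resultant inequality, root by root. -/
def ResMinStmt : Prop :=
  ∀ (K : Type) [Field K] (φ : K →+* ℂ) (h : K[X] → ℝ), IsHt φ h → ∀ (w : ℂ) (Y : ℝ)
    (P Q : K[X]), 0 ≤ Y → P ≠ 0 → Q ≠ 0 → IsCoprime P Q →
    ((Q.map φ).roots.map fun γ => W w (cl w Y γ) (P.map φ)).sum ≤
      (Q.natDegree : ℝ) * h P + (P.natDegree : ℝ) * h Q +
        2 * Real.log 2 * ((P.natDegree : ℝ) * (Q.natDegree : ℝ))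

/-- Selection of an irreducible factor by the test function. -/
def SelStmt : Prop :=
  ∀ (K : Type) [Field K] (φ : K →+* ℂ) (h : K[X] → ℝ), IsHt φ h → ∀ (w : ℂ) (y k Λ : ℝ)
    (Δ : K[X]), 0 < y → 0 < k → 0 < Λ → Δ ≠ 0 → (Δ.natDegree : ℝ) * k ≤ Λ →
    h Δ ≤ Λ * k → Five w y Λ (Δ.map φ) →
    ∃ Q : K[X], Irreducible Q ∧ 1.113 * (((Q.natDegree : ℝ) * k + h Q / k) / 2) <
      ((Q.map φ).roots.map fun γ => gg y (cl w (2 * y ^ 2) γ)).sum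

def Crit2Stmt : Prop :=
  ∀ (K : Type) [Field K] (φ : K →+* ℂ) (h : K[X] → ℝ), IsHt φ h → ∀ w : ℂ, ¬ Aux2 φ h w

/-! ### Heights -/

def NormProdStmt : Prop :=
  ∀ (K : Type) [Field K] [NumberField K] (x : 𝓞 K),
    (Ideal.absNorm (Ideal.span {x}) : ℝ) = ∏ σ : K →+* ℂ, ‖psi σ x‖

def HABasicStmt : Prop :=
  ∀ (K : Type) [Field K] [NumberField K],
    (∀ P Q : (𝓞 K)[X], P ≠ 0 → Q ≠ 0 → hA (P * Q) = hA P + hA Q) ∧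
    (∀ c : 𝓞 K, c ≠ 0 → hA (C c) = 0) ∧
    (∀ P : (𝓞 K)[X], P ≠ 0 → 0 ≤ hA P) ∧
    (∀ P : (𝓞 K)[X], P ≠ 0 → hA P ≤ ∑ σ : K →+* ℂ, (P.map (psi σ)).logMahlerMeasure)

def HAResStmt : Prop :=
  ∀ (K : Type) [Field K] [NumberField K] (P Q : (𝓞 K)[X]), P ≠ 0 → Q ≠ 0 →
    IsCoprime (P.map (algebraMap (𝓞 K) K)) (Q.map (algebraMap (𝓞 K) K)) →
    ∑ σ : K →+* ℂ, pairSum (P.map (psi σ)) (Q.map (psi σ)) ≤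
      (Q.natDegree : ℝ) * hA P + (P.natDegree : ℝ) * hA Q

/-- Two facts on `pairSum`. -/
structure PairStmt : Prop where
  conj : ∀ p q : ℂ[X], pairSum (p.map (starRingEnd ℂ)) (q.map (starRingEnd ℂ)) = pairSum p q
  low : ∀ p q : ℂ[X], IsCoprime p q →
    -((p.natDegree : ℝ) * (q.natDegree : ℝ) * Real.log 2) ≤ pairSum p q

/-- The set of the embeddings that are equal or conjugate to `φ`. -/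
def EmbStmt : Prop :=
  ∀ (K : Type) [Field K] [NumberField K] (φ : K →+* ℂ),
    (Module.finrank ℚ K ≤ 2 ∨ (Module.finrank ℚ K ≤ 4 ∧ ∃ x : K, (φ x).im ≠ 0)) →
    ∃ G : Finset (K →+* ℂ), G.Nonempty ∧ (∀ σ ∈ G, σ = φ ∨ σ = (starRingEnd ℂ).comp φ) ∧
      Fintype.card (K →+* ℂ) ≤ 2 * G.card

/-- The bounds for integral polynomials, with `G` as in `EmbStmt`. -/
def LeadStmt : Prop :=
  ∀ (K : Type) [Field K] [NumberField K] (φ : K →+* ℂ) (G : Finset (K →+* ℂ)), G.Nonempty →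
    (∀ σ ∈ G, σ = φ ∨ σ = (starRingEnd ℂ).comp φ) → Fintype.card (K →+* ℂ) ≤ 2 * G.card →
    ∀ P : (𝓞 K)[X], P ≠ 0 → ∀ b : ℝ, (∀ σ : K →+* ℂ, (P.map (psi σ)).logMahlerMeasure ≤ b) →
      hA P / G.card ≤ 2 * b ∧ Real.exp (-b) ≤ ‖(P.map (psi φ)).leadingCoeff‖

def Ht2Stmt : Prop :=
  ∀ (K : Type) [Field K] [NumberField K] (φ : K →+* ℂ),
    (Module.finrank ℚ K ≤ 2 ∨ (Module.finrank ℚ K ≤ 4 ∧ ∃ x : K, (φ x).im ≠ 0)) →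
    ∃ h : K[X] → ℝ, IsHt φ h ∧ IntBd φ h

/-! ### The entries -/

structure Lat2Stmt : Prop where
  lam_mu : ∀ (β : ℂ) (a b : ℤ) (x y : ℤ × ℤ), β ^ 2 = a * β + b →
    lam β x * mu β a y = (sE a b x y : ℂ) + ((x.1 * y.1 + x.2 * y.2 : ℤ) : ℂ) * β
  sE_le : ∀ (a b : ℤ) (M : ℕ) (x y : ℤ × ℤ), x ∈ box M → y ∈ box M →
    (sE a b x y).natAbs ≤ (1 + a.natAbs + b.natAbs) * M ^ 2
  lam_le : ∀ (β : ℂ) (K₀ : ℝ) (M : ℕ) (x : ℤ × ℤ), 1 + ‖β‖ ≤ K₀ → x ∈ box M → ‖lam β x‖ ≤ K₀ * M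
  mu_le : ∀ (β : ℂ) (a : ℤ) (K₀ : ℝ) (M : ℕ) (x : ℤ × ℤ), 1 + ‖β - a‖ ≤ K₀ → x ∈ box M →
    ‖mu β a x‖ ≤ K₀ * M
  map_ent : ∀ (R S : Type) [CommRing R] [CommRing S] (f : R →+* S) (D : AD R) (M : ℕ)
    (r c : (ℤ × ℤ) × ℕ), (D.ent M r c).map f = (D.map f).ent M r c
  map_minor : ∀ (R S : Type) [CommRing R] [CommRing S] (f : R →+* S) (D : AD R) (M q q' : ℕ)
    (ι : idx M q → idx M q'), (D.minor M q q' ι).map f = (D.map f).minor M q q' ι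

def Deg2Stmt : Prop :=
  ∀ (D : AD ℂ) (K₀ : ℝ) (M q q' : ℕ) (ι : idx M q → idx M q'), Bnd D K₀ → Function.Injective ι →
    ((D.minor M q q' ι).natDegree : ℝ) ≤ UU M q + UU M q' + K₀ * VV M q'

def EntBd2Stmt : Prop :=
  ∀ (D : AD ℂ) (K₀ : ℝ) (M : ℕ) (r c : (ℤ × ℤ) × ℕ) (ζ : ℂ), Bnd D K₀ → 1 ≤ M → r.1 ∈ box M →
    c.1 ∈ box M → c.2 ≤ M ^ 2 → ‖ζ‖ = 1 →
    ‖(D.ent M r c).eval ζ‖ ≤ K₀ ^ (M ^ 2) * (2 * K₀ ^ 2 * M) ^ (r.2 + c.2)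

def HtMinor2Stmt : Prop :=
  ∀ (D : AD ℂ) (K₀ : ℝ) (M q q' : ℕ) (ι : idx M q → idx M q'), Bnd D K₀ → Function.Injective ι →
    1 ≤ M → q ≤ M → D.minor M q q' ι ≠ 0 →
    (D.minor M q q' ι).logMahlerMeasure ≤ NN M q * Real.log (NN M q) +
      NN M q * M ^ 2 * Real.log K₀ + (VV M q + VV M q') * Real.log (2 * K₀ ^ 2 * M)

/-- Near `w` the entries are the normalised entries up to row and column factors. -/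
def FactStmt : Prop :=
  ∀ (D : AD ℂ) (L : ℂ) (K₀ : ℝ) (M : ℕ) (z : ℂ), An D L K₀ → 1 ≤ M →
    ‖z - Complex.exp (D.β * L)‖ ≤ 1 / K₀ →
    ∃ (T : ℂ) (l₁ l₂ : ℤ × ℤ → ℂ) (rf cf : (ℤ × ℤ) × ℕ → ℂ), ‖T‖ ≤ K₀ ∧ 1 ≤ K₀ * ‖T‖ ∧
      (∀ x ∈ box M, ‖l₁ x‖ ≤ 2 * K₀ ^ 3 * M * ‖z - Complex.exp (D.β * L)‖ ∧
        ‖l₂ x‖ ≤ 2 * K₀ ^ 3 * M * ‖z - Complex.exp (D.β * L)‖) ∧
      (∀ r, rf r ≠ 0) ∧ (∀ c, cf c ≠ 0) ∧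
      (∀ r : (ℤ × ℤ) × ℕ, r.1 ∈ box M → r.2 ≤ M ^ 2 → ‖rf r‖ ≤ K₀ ^ (4 * M ^ 2)) ∧
      (∀ c : (ℤ × ℤ) × ℕ, c.1 ∈ box M → ‖cf c‖ ≤ K₀ ^ (2 * M ^ 2)) ∧
      ∀ r c : (ℤ × ℤ) × ℕ, r.1 ∈ box M → c.1 ∈ box M →
        (D.ent M r c).eval z = rf r * cf c * nm (lam D.β) (mu D.β D.a) T l₁ l₂ r c

/-! ### Smallness -/

def Det2Stmt : Prop :=
  ∀ (n κ : Type) [Fintype n] [DecidableEq n] (S : Finset κ) (Mx : Matrix n n ℂ) (cc : n → κ → ℂ)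
    (v : κ → n → ℂ) (r : n → n → ℂ) (cost : κ → ℝ) (B s : ℝ), 0 ≤ B →
    (∀ i j, Mx i j = ∑ t ∈ S, cc i t * v t j + r i j) →
    (∀ i j, ∀ t ∈ S, ‖cc i t * v t j‖ ≤ B * Real.exp (-(cost t))) →
    (∀ i j, ‖r i j‖ ≤ B * Real.exp (-s)) →
    ‖Mx.det‖ ≤ ((S.card : ℝ) + 1) ^ Fintype.card n * (Fintype.card n).factorial *
      B ^ Fintype.card n * Real.exp (-(Fintype.card n * s - ∑ t ∈ S, max (s - cost t) 0))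

structure KsetStmt : Prop where
  card : ∀ Kk m : ℕ, (kset Kk m).card ≤ Kk * m ^ 2
  mem : ∀ (Kk m : ℕ) (t : ℕ × ℕ × ℕ), t ∈ kset Kk m ↔ t.1 < Kk ∧ t.2.1 < m ∧ t.2.2 ≤ t.2.1
  expand : ∀ (Kk m : ℕ) (f : ℕ → ℂ) (u v : ℂ),
    (∑ n ∈ range Kk, f n) * (∑ j ∈ range m, (u + v) ^ j / (j.factorial : ℂ)) =
      ∑ t ∈ kset Kk m, f t.1 * ((t.2.1.choose t.2.2 : ℂ) / (t.2.1.factorial : ℂ) *
        (u ^ t.2.2 * v ^ (t.2.1 - t.2.2)))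
  sum : ∀ (Kk m : ℕ) (l Y : ℝ), 0 < l → 0 ≤ Y →
    ∑ t ∈ kset Kk m, max (m * Y - (t.1 * l + t.2.1 * Y)) 0 ≤
      Y * (m * (m + 1) * (m + 2) / 6) + Y ^ 2 * (m * (m + 1) ^ 2 * (m + 2)) / (24 * l)

/-- Crude sizes, with `S = K₀³ M² q²`. -/
structure SizeStmt : Prop where
  fn_le : ∀ (la : ℤ × ℤ → ℂ) (T : ℂ) (K₀ : ℝ) (M q : ℕ) (c : (ℤ × ℤ) × ℕ) (z : ℂ), 2 ≤ K₀ → 2 ≤ q →
    q ≤ M → Real.log (2 * K₀ ^ 2 * M) ≤ (q : ℝ) ^ 2 → ‖T‖ ≤ K₀ → ‖la c.1‖ ≤ K₀ * M →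
    c.2 ≤ M ^ 2 → ‖z‖ = 2 * Real.exp 1 * (K₀ * M) * (q : ℝ) ^ 2 →
    ‖fn la T c z‖ ≤ Real.exp (7 * (K₀ ^ 3 * M ^ 2 * q ^ 2))
  fact_le : ∀ (K₀ : ℝ) (M q σ : ℕ), 2 ≤ K₀ → 2 ≤ q → q ≤ M →
    Real.log (2 * K₀ ^ 2 * M) ≤ (q : ℝ) ^ 2 → σ ≤ M ^ 2 →
    (σ.factorial : ℝ) ≤ Real.exp (K₀ ^ 3 * M ^ 2 * q ^ 2)
  pow_le : ∀ (K₀ : ℝ) (M q : ℕ), 2 ≤ K₀ → 2 ≤ q → q ≤ M →
    Real.log (2 * K₀ ^ 2 * M) ≤ (q : ℝ) ^ 2 →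
    14 * (4 * K₀ ^ 3 * M ^ 2) ^ 9 ≤ Real.exp (K₀ ^ 3 * M ^ 2 * q ^ 2)
  fn_diff : ∀ (la : ℤ × ℤ → ℂ) (T : ℂ) (c : (ℤ × ℤ) × ℕ), Differentiable ℂ (fn la T c)
  fn_der : ∀ (la : ℤ × ℤ → ℂ) (T : ℂ) (c : (ℤ × ℤ) × ℕ) (n : ℕ),
    iteratedDeriv n (fn la T c) 0 = (n.descFactorial c.2 : ℂ) * (T * la c.1) ^ (n - c.2)

/-- Expansion of one normalised entry. -/
def ExpandStmt : Prop :=
  ∀ (la nu : ℤ × ℤ → ℂ) (T : ℂ) (l₁ l₂ : ℤ × ℤ → ℂ) (K₀ Y : ℝ) (M q m Kk : ℕ)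
    (r c : (ℤ × ℤ) × ℕ), 2 ≤ K₀ → 2 ≤ q → q ≤ M → 1 ≤ m → m ≤ 9 →
    Real.log (2 * K₀ ^ 2 * M) ≤ (q : ℝ) ^ 2 → 2 * Real.log (2 * K₀ ^ 2 * M) ≤ Y →
    m * Y ≤ Kk * (2 * Real.log q) → ‖T‖ ≤ K₀ → r.1 ∈ box M → r.2 ≤ M ^ 2 → c.2 ≤ M ^ 2 →
    ‖la c.1‖ ≤ K₀ * M → ‖nu r.1‖ ≤ K₀ * M → ‖l₁ c.1‖ ≤ 2 * K₀ ^ 3 * M * Real.exp (-Y) →
    ‖l₂ c.1‖ ≤ 2 * K₀ ^ 3 * M * Real.exp (-Y) →
    (∀ t ∈ kset Kk m,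
      ‖(tc (nu r.1) r.2 t.1 * ((t.2.1.choose t.2.2 : ℂ) / (t.2.1.factorial : ℂ)) *
          ((r.1.1 : ℂ) ^ t.2.2 * (r.1.2 : ℂ) ^ (t.2.1 - t.2.2))) *
        (iteratedDeriv t.1 (fn la T c) 0 * (l₁ c.1 ^ t.2.2 * l₂ c.1 ^ (t.2.1 - t.2.2)))‖ ≤
      Real.exp (9 * (K₀ ^ 3 * M ^ 2 * q ^ 2)) *
        Real.exp (-(t.1 * (2 * Real.log q) + t.2.1 * Y))) ∧
    ‖nm la nu T l₁ l₂ r c - ∑ t ∈ kset Kk m,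
      (tc (nu r.1) r.2 t.1 * ((t.2.1.choose t.2.2 : ℂ) / (t.2.1.factorial : ℂ)) *
          ((r.1.1 : ℂ) ^ t.2.2 * (r.1.2 : ℂ) ^ (t.2.1 - t.2.2))) *
        (iteratedDeriv t.1 (fn la T c) 0 * (l₁ c.1 ^ t.2.2 * l₂ c.1 ^ (t.2.1 - t.2.2)))‖ ≤
      Real.exp (9 * (K₀ ^ 3 * M ^ 2 * q ^ 2)) * Real.exp (-(m * Y))

def SmallNStmt : Prop :=
  ∀ (la nu : ℤ × ℤ → ℂ) (T : ℂ) (l₁ l₂ : ℤ × ℤ → ℂ) (K₀ Y : ℝ) (M q q' m : ℕ)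
    (ι : idx M q → idx M q'), 2 ≤ K₀ → 2 ≤ q → q ≤ M → q' ≤ M → 1 ≤ m → m ≤ 9 →
    Real.log (2 * K₀ ^ 2 * M) ≤ (q : ℝ) ^ 2 → 2 * Real.log (2 * K₀ ^ 2 * M) ≤ Y →
    Y ≤ 4 * NN M q * Real.log q → ‖T‖ ≤ K₀ → (∀ x ∈ box M, ‖la x‖ ≤ K₀ * M) →
    (∀ x ∈ box M, ‖nu x‖ ≤ K₀ * M) →
    (∀ x ∈ box M, ‖l₁ x‖ ≤ 2 * K₀ ^ 3 * M * Real.exp (-Y) ∧
      ‖l₂ x‖ ≤ 2 * K₀ ^ 3 * M * Real.exp (-Y)) →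
    ‖(Matrix.of fun i j : idx M q => nm la nu T l₁ l₂ (ι i).1 j.1).det‖ ≤
      Real.exp (-(gain (NN M q) Y (Real.log q) m - 2 * (NN M q : ℝ) ^ 2 -
        11 * (K₀ ^ 3 * M ^ 2 * q ^ 2) * NN M q))

def Small2Stmt : Prop :=
  ∀ (D : AD ℂ) (L : ℂ) (K₀ Y : ℝ) (M q q' m : ℕ) (ι : idx M q → idx M q'), An D L K₀ → 2 ≤ q →
    q ≤ M → q' ≤ M → 1 ≤ m → m ≤ 9 → Real.log (2 * K₀ ^ 2 * M) ≤ (q : ℝ) ^ 2 →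
    2 * Real.log (2 * K₀ ^ 2 * M) ≤ Y → Y ≤ 4 * NN M q * Real.log q →
    ∀ z : ℂ, ‖z - Complex.exp (D.β * L)‖ = Real.exp (-Y) →
      ‖(D.minor M q q' ι).eval z‖ ≤ Real.exp (-(gain (NN M q) Y (Real.log q) m -
        2 * (NN M q : ℝ) ^ 2 - 12 * (K₀ ^ 3 * M ^ 2 * q ^ 2) * NN M q))

/-! ### The zero lemma -/

def LineStmt : Prop :=
  ∀ (θ : ℂ) (M : ℕ), 1 ≤ M → ∃ n₀ ∈ Icc (-(M : ℤ)) M,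
    ((M : ℝ) / (2 * Real.exp 1)) ^ (2 * M) ≤ ∏ n ∈ (Icc (-(M : ℤ)) M).erase n₀, ‖θ - n‖

def SepStmt : Prop :=
  ∀ (β : ℂ) (a b : ℤ) (K₀ : ℝ) (M : ℕ), Geo β a b K₀ → 1 ≤ M →
    ∀ x ∈ box M, ∀ x' ∈ box M, x ≠ x' → 1 / (2 * K₀ * M) ≤ ‖lam β x - lam β x'‖

def NodesStmt : Prop :=
  ∀ (β : ℂ) (a b : ℤ) (K₀ : ℝ) (M : ℕ), Geo β a b K₀ → 1 ≤ M →
    Nodes (lam β) M K₀ ∧ Nodes (mu β a) M K₀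

/-- Division modulo `X ^ t` in the weighted norm. -/
def WtStmt : Prop :=
  ∀ (ι : Type) (s : Finset ι) (δ : ι → ℂ) (e : ι → ℕ) (t : ℕ) (η : ℝ) (f g : ℂ[X]), 0 < η →
    (∀ b ∈ s, 2 * η ≤ ‖δ b‖) → X ^ t ∣ (∏ b ∈ s, (X + C (δ b)) ^ e b) * g - f →
    wn η t g ≤ (∏ b ∈ s, (2 / ‖δ b‖) ^ e b) * wn η t f

/-- Hermite interpolation: values. -/
def HermValStmt : Prop :=
  ∀ (ι : Type) [DecidableEq ι] (s : Finset ι) (ν : ι → ℂ) (t : ι → ℕ) (T : ℕ) (ρ η κ ε : ℝ)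
    (p : ℂ[X]), HN s ν t T ρ η κ → 0 ≤ ε → p.degree < (∑ a ∈ s, t a : ℕ) →
    (∀ a ∈ s, ∀ τ < t a, ‖(derivative^[τ] p).eval (ν a)‖ ≤ ε) →
    ∀ z : ℂ, ‖z‖ ≤ ρ → ‖p.eval z‖ ≤ HC s.card (∑ a ∈ s, t a) T ρ η κ * ε

/-- Hermite interpolation: coefficients. -/
def HermStmt : Prop :=
  ∀ (ι : Type) [DecidableEq ι] (s : Finset ι) (ν : ι → ℂ) (t : ι → ℕ) (T : ℕ) (ρ η κ ε : ℝ)
    (p : ℂ[X]), HN s ν t T ρ η κ → 0 ≤ ε → p.degree < (∑ a ∈ s, t a : ℕ) →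
    (∀ a ∈ s, ∀ τ < t a, ‖(derivative^[τ] p).eval (ν a)‖ ≤ ε) →
    ∀ n : ℕ, ‖p.coeff n‖ * ρ ^ n ≤ HC s.card (∑ a ∈ s, t a) T ρ η κ * ε

/-- Existence of the Hermite basis. -/
def HermExStmt : Prop :=
  ∀ (ι : Type) [DecidableEq ι] (s : Finset ι) (ν : ι → ℂ) (t : ι → ℕ),
    (∀ a ∈ s, ∀ b ∈ s, a ≠ b → ν a ≠ ν b) → ∀ a ∈ s, ∀ τ < t a,
    ∃ p : ℂ[X], p.degree < (∑ b ∈ s, t b : ℕ) ∧ ∀ b ∈ s, ∀ σ < t b,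
      (derivative^[σ] p).eval (ν b) = if b = a ∧ σ = τ then 1 else 0

/-- From moments to coefficients. -/
def DualStmt : Prop :=
  ∀ (ι : Type) [DecidableEq ι] (s : Finset ι) (ν : ι → ℂ) (t : ι → ℕ) (T : ℕ) (ρ η κ mm : ℝ)
    (c : ι → ℕ → ℂ), HN s ν t T ρ η κ → 0 ≤ mm →
    (∀ n < ∑ a ∈ s, t a, ‖∑ a ∈ s, ∑ τ ∈ range (t a),
      c a τ * ((n.descFactorial τ : ℂ) * ν a ^ (n - τ))‖ ≤ mm * ρ ^ n) →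
    ∀ a ∈ s, ∀ τ < t a,
      ‖c a τ‖ ≤ (∑ a ∈ s, t a : ℕ) * HC s.card (∑ a ∈ s, t a) T ρ η κ * mm

/-- The Hermite data of the box, for the nodes `θ ν x`. -/
def BoxHNStmt : Prop :=
  ∀ (ν : ℤ × ℤ → ℂ) (θ : ℂ) (K₀ : ℝ) (M q : ℕ), Nodes ν M K₀ → 2 ≤ K₀ → 2 ≤ q → q ≤ M →
    Real.log (2 * K₀ ^ 2 * M) ≤ (M : ℝ) ^ 2 → θ ≠ 0 → ‖θ‖ ≤ K₀ →
    (NN M q : ℝ) ≤ 2 * M ^ 2 * q ^ 2 →
    HN (box M) (fun x => θ * ν x) (mult M q) (q ^ 2) (‖θ‖ * (K₀ * M)) (‖θ‖ / (4 * K₀ * M))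
      (Real.exp (-(30 * K₀ * M ^ 2 * q ^ 2))) ∧
    HC (box M).card (NN M q) (q ^ 2) (‖θ‖ * (K₀ * M)) (‖θ‖ / (4 * K₀ * M))
      (Real.exp (-(30 * K₀ * M ^ 2 * q ^ 2))) ≤ Real.exp (9 * (K₀ ^ 3 * M ^ 2 * q ^ 2))

/-- From the jets at the row nodes to the Taylor coefficients at `0`. -/
def MomStmt : Prop :=
  ∀ (nu : ℤ × ℤ → ℂ) (K₀ E mx ε : ℝ) (M q' : ℕ) (F : ℂ → ℂ), Nodes nu M K₀ → 2 ≤ K₀ → 2 ≤ q' →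
    q' ≤ M → Real.log (2 * K₀ ^ 2 * M) ≤ (M : ℝ) ^ 2 → (NN M q' : ℝ) ≤ 2 * M ^ 2 * q' ^ 2 →
    Differentiable ℂ F → 1 ≤ E → 0 ≤ ε →
    (∀ z : ℂ, ‖z‖ = 2 * Real.exp 1 * (K₀ * M) * E → ‖F z‖ ≤ mx) →
    (∀ r ∈ idx M q', ‖iteratedDeriv r.2 F (nu r.1)‖ ≤ ε) →
    ∀ n < NN M q', ‖iteratedDeriv n F 0‖ * (K₀ * M) ^ n ≤
      n.factorial * (Real.exp (9 * (K₀ ^ 3 * M ^ 2 * q' ^ 2)) *
        (ε + 2 * (M ^ 2).factorial * mx * (E⁻¹) ^ NN M q'))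

/-- From the Taylor coefficients at `0` to the coefficients of the exponential polynomial. -/
def CoefStmt : Prop :=
  ∀ (la : ℤ × ℤ → ℂ) (T : ℂ) (K₀ E : ℝ) (M q : ℕ) (c : idx M q → ℂ), Nodes la M K₀ → 2 ≤ K₀ →
    2 ≤ q → q ≤ M → Real.log (2 * K₀ ^ 2 * M) ≤ (M : ℝ) ^ 2 → (NN M q : ℝ) ≤ 2 * M ^ 2 * q ^ 2 →
    ‖T‖ ≤ K₀ → 1 ≤ K₀ * ‖T‖ → 0 ≤ E →
    (∀ n < NN M q, ‖∑ j : idx M q, c j * iteratedDeriv n (fn la T j.1) 0‖ * (K₀ * M) ^ n ≤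
      n.factorial * E) →
    ∀ j, ‖c j‖ ≤ Real.exp (10 * (K₀ ^ 3 * M ^ 2 * q ^ 2)) * ((q : ℝ) ^ 2) ^ NN M q * E

def RankNStmt : Prop :=
  ∀ (la nu : ℤ × ℤ → ℂ) (T : ℂ) (l₁ l₂ : ℤ × ℤ → ℂ) (K₀ e₀ : ℝ) (M q q' : ℕ), Nodes la M K₀ →
    Nodes nu M K₀ → 2 ≤ K₀ → 2 ≤ q → q ≤ q' → q' ≤ 2 * q → q' ≤ M →
    Real.log (2 * K₀ ^ 2 * M) ≤ (q : ℝ) ^ 2 → (NN M q : ℝ) ≤ 2 * M ^ 2 * q ^ 2 →
    (NN M q' : ℝ) ≤ 2 * M ^ 2 * q' ^ 2 → ‖T‖ ≤ K₀ → 1 ≤ K₀ * ‖T‖ →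
    100 * (K₀ ^ 3 * M ^ 2 * q ^ 2) ≤ 2 * ((NN M q' : ℝ) - NN M q) * Real.log q →
    e₀ ≤ Real.exp (-(2 * NN M q * Real.log q + 100 * (K₀ ^ 3 * M ^ 2 * q ^ 2))) →
    (∀ x ∈ box M, ‖l₁ x‖ ≤ 2 * K₀ ^ 3 * M * e₀ ∧ ‖l₂ x‖ ≤ 2 * K₀ ^ 3 * M * e₀) →
    ∀ c : idx M q → ℂ, (∀ r ∈ idx M q', ∑ j : idx M q, c j * nm la nu T l₁ l₂ r j.1 = 0) → c = 0

def Rank2Stmt : Prop :=
  ∀ (D : AD ℂ) (L : ℂ) (K₀ : ℝ) (M q q' : ℕ) (γ : ℂ), An D L K₀ → 2 ≤ q → q ≤ q' → q' ≤ 2 * q →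
    q' ≤ M → Real.log (2 * K₀ ^ 2 * M) ≤ (q : ℝ) ^ 2 → (NN M q : ℝ) ≤ 2 * M ^ 2 * q ^ 2 →
    (NN M q' : ℝ) ≤ 2 * M ^ 2 * q' ^ 2 →
    100 * (K₀ ^ 3 * M ^ 2 * q ^ 2) ≤ 2 * ((NN M q' : ℝ) - NN M q) * Real.log q →
    ‖γ - Complex.exp (D.β * L)‖ ≤
      Real.exp (-(2 * NN M q * Real.log q + 100 * (K₀ ^ 3 * M ^ 2 * q ^ 2))) →
    ∀ c : idx M q → ℂ,
      (Matrix.of fun (i : idx M q') (j : idx M q) => (D.ent M i.1 j.1).eval γ).mulVec c = 0 →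
      c = 0

/-! ### Numerics -/

def N0Stmt : Prop :=
  ∀ K₀ : ℝ, 2 ≤ K₀ → ∃ y₀ : ℝ, ∀ y : ℝ, y₀ ≤ y →
    ∃ M q q' : ℕ, Rel2 K₀ y (100 * K₀) (Real.log y / 2) M q q'

def N1Stmt : Prop :=
  ∀ K₀ y k l M q q' N U V N' U' V' : ℝ, Rel2 K₀ y k l M q q' → Bd M q N U V → Bd M q' N' U' V' →
    0 < l ∧ 0 < y ∧ 100000 ≤ q ∧ q ≤ q' ∧ q' ≤ 2 * q ∧ Real.log (2 * K₀ ^ 2 * M) ≤ q ^ 2 ∧
    2 * Real.log (2 * K₀ ^ 2 * M) ≤ y ^ 2 / 169 ∧ y ^ 2 ≤ 4 * N * Real.log q ∧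
    N ≤ 2 * M ^ 2 * q ^ 2 ∧ N' ≤ 2 * M ^ 2 * q' ^ 2 ∧
    100 * (K₀ ^ 3 * M ^ 2 * q ^ 2) ≤ 2 * (N' - N) * Real.log q ∧
    2 * N * Real.log q + 100 * (K₀ ^ 3 * M ^ 2 * q ^ 2) ≤ 1.01 * y ^ 2

def N2Stmt : Prop :=
  ∀ K₀ y k l M q q' N U V N' U' V' : ℝ, Rel2 K₀ y k l M q q' → Bd M q N U V → Bd M q' N' U' V' →
    (U + U' + K₀ * V') * k ≤ 0.272 * y ^ 3 / l

def N3Stmt : Prop :=
  ∀ K₀ y k l M q q' N U V N' U' V' : ℝ, Rel2 K₀ y k l M q q' → Bd M q N U V → Bd M q' N' U' V' →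
    2 * (N * Real.log N + N * M ^ 2 * Real.log K₀ + (V + V') * Real.log (2 * K₀ ^ 2 * M)) ≤
      0.272 * y ^ 3 / l * k

/-- The error terms and the main terms. -/
structure N4Stmt : Prop where
  err : ∀ K₀ y k l M q q' N U V : ℝ, Rel2 K₀ y k l M q q' → Bd M q N U V →
    2 * N ^ 2 + 12 * (K₀ ^ 3 * M ^ 2 * q ^ 2) * N + 0.136 * y ^ 3 / l * k ≤ 0.00002 * (y ^ 4 / l)
  main : ∀ K₀ y k l M q q' N U V u m c : ℝ, Rel2 K₀ y k l M q q' → Bd M q N U V → 0 ≤ u → u ≤ 1 →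
    0 ≤ m → m ≤ 9 →
    0.272 * c + 0.00003 ≤ m * u / 2 - u ^ 2 * (m * (m + 1) ^ 2 * (m + 2)) / (48 * 0.999) →
    c * (0.272 * y ^ 3 / l) * y + 0.00002 * (y ^ 4 / l) ≤ gain N (u * y ^ 2) (Real.log q) m

def Aux2Stmt : Prop :=
  ∀ (K : Type) [Field K] [NumberField K] (φ : K →+* ℂ) (h : K[X] → ℝ) (D : AD (𝓞 K)) (L : ℂ)
    (K₀ : ℝ), IntBd φ h → (∀ σ : K →+* ℂ, Bnd (D.map (psi σ)) K₀) → An (D.map (psi φ)) L K₀ →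
    Aux2 φ h (Complex.exp (psi φ D.β * L))

/-! ### The constant `K₀` -/

def KBndStmt : Prop :=
  ∀ D : AD ℂ, 1 ≤ D.n₀ → ∀ᶠ K₀ : ℝ in Filter.atTop, Bnd D K₀

def KLipStmt : Prop :=
  ∀ (A B : ℂ[X]) (w L : ℂ), w ≠ 0 → L ≠ 0 → A.eval w ≠ 0 → B.eval w = L * A.eval w →
    ∀ᶠ K₀ : ℝ in Filter.atTop, Lip A B w L K₀

end LogPow2

end
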