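import Pool.Agent.Mg.F655169a.Gc9f9fa

/-! Elementary facts on the lattice and the index sets. -/

open Polynomial NumberField Finset

namespace LogPow

namespace LatL

lemma mem_box (M : ℕ) (x : ℤ × ℤ) : x ∈ box M ↔ x.1.natAbs ≤ M ∧ x.2.natAbs ≤ M := by
  unfold box
  rw [Finset.mem_product, Finset.mem_Icc, Finset.mem_Icc]
  omega

lemma prof_le (M q : ℕ) (x : ℤ) : prof M q x ≤ q := by
  unfold prof
  apply Nat.div_le_of_le_mul
  rw [mul_comm (M ^ 2) q]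
  exact Nat.mul_le_mul_left _ (Nat.sub_le _ _)

lemma mult_le (M q : ℕ) (x : ℤ × ℤ) : mult M q x ≤ q ^ 2 := by
  unfold mult
  rw [sq]
  exact Nat.mul_le_mul (prof_le _ _ _) (prof_le _ _ _)

lemma mem_idx (M q : ℕ) (p : (ℤ × ℤ) × ℕ) : p ∈ idx M q ↔ p.1 ∈ box M ∧ p.2 < mult M q p.1 := by
  unfold idx
  rw [Finset.mem_filter, Finset.mem_product, Finset.mem_range]
  constructor
  · rintro ⟨⟨h1, -⟩, h2⟩
    exact ⟨h1, h2⟩
  · rintro ⟨h1, h2⟩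
    exact ⟨⟨h1, lt_of_lt_of_le h2 (mult_le _ _ _)⟩, h2⟩

lemma sum_idx (M q : ℕ) (R : Type) [AddCommMonoid R] (g : (ℤ × ℤ) × ℕ → R) :
    ∑ p ∈ idx M q, g p = ∑ x ∈ box M, ∑ τ ∈ range (mult M q x), g (x, τ) := by
  unfold idx
  rw [Finset.sum_filter, Finset.sum_product]
  refine Finset.sum_congr rfl fun x _ => ?_
  rw [← Finset.sum_filter]
  refine Finset.sum_congr ?_ fun _ _ => rfl
  ext τ
  simp only [Finset.mem_filter, Finset.mem_range]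
  constructor
  · exact fun h => h.2
  · exact fun h => ⟨lt_of_lt_of_le h (mult_le _ _ _), h⟩

lemma NN_eq (M q : ℕ) : NN M q = ∑ x ∈ box M, mult M q x := by
  unfold NN
  rw [Finset.card_eq_sum_ones, sum_idx]
  simp

lemma card_box (M : ℕ) : (box M).card = (2 * M + 1) ^ 2 := by
  unfold box
  rw [Finset.card_product, Int.card_Icc]
  have h : ((M : ℤ) + 1 - -(M : ℤ)).toNat = 2 * M + 1 := by omega
  rw [h, sq]

lemma NN_le (M q : ℕ) (hM : 1 ≤ M) (hq : q ≤ M) : NN M q ≤ 9 * M ^ 4 := by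
  rw [NN_eq]
  have h1 : ∑ x ∈ box M, mult M q x ≤ (box M).card • (M ^ 2) :=
    Finset.sum_le_card_nsmul _ _ _ fun x _ =>
      le_trans (mult_le _ _ _) (Nat.pow_le_pow_left hq 2)
  rw [card_box, smul_eq_mul] at h1
  have h2 : (2 * M + 1) ^ 2 ≤ (3 * M) ^ 2 := Nat.pow_le_pow_left (by omega) 2
  calc _ ≤ (2 * M + 1) ^ 2 * M ^ 2 := h1
    _ ≤ (3 * M) ^ 2 * M ^ 2 := Nat.mul_le_mul_right _ h2
    _ = 9 * M ^ 4 := by ring

lemma two_tri (n : ℤ) : 2 * (tri n : ℤ) = n * (n + 1) := by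
  unfold tri
  have h0 : 0 ≤ n * (n + 1) := by
    rcases le_or_gt 0 n with h | h
    · positivity
    · exact mul_nonneg_of_nonpos_of_nonpos h.le (by omega)
  have h1 : 0 ≤ n * (n + 1) / 2 := Int.ediv_nonneg h0 (by norm_num)
  rw [Int.toNat_of_nonneg h1]
  exact Int.mul_ediv_cancel' (Int.even_mul_succ_self n).two_dvd

lemma tri_add (x y : ℤ) : (tri (x + y) : ℤ) = tri x + tri y + x * y := by
  have h1 := two_tri (x + y)
  have h2 := two_tri x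
  have h3 := two_tri y
  have h4 : 2 * (tri (x + y) : ℤ) = 2 * ((tri x : ℤ) + tri y + x * y) := by
    linear_combination h1 - h2 - h3
  exact mul_left_cancel₀ (by norm_num : (2 : ℤ) ≠ 0) h4

lemma tri_le1 (a b : ℤ) :
    tri (a + b) ≤ a.natAbs ^ 2 + a.natAbs + (b.natAbs ^ 2 + b.natAbs) := by
  have h1 := two_tri (a + b)
  have h2 : (tri (a + b) : ℤ) ≤ |a| ^ 2 + |a| + (|b| ^ 2 + |b|) := by
    rw [sq_abs, sq_abs]
    nlinarith [sq_nonneg (a - b), le_abs_self a, le_abs_self b, abs_nonneg a, abs_nonneg b]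
  zify
  exact h2

lemma tri_le (x y : ℤ × ℤ) : tri (x.1 + y.1) + tri (x.2 + y.2) ≤ uu x + uu y := by
  have h1 := tri_le1 x.1 y.1
  have h2 := tri_le1 x.2 y.2
  unfold uu
  omega

lemma tri_le_sq (M : ℕ) (a : ℤ) (h : a.natAbs ≤ M) : tri a ≤ M ^ 2 := by
  have h1 := two_tri a
  have h2 : |a| ≤ (M : ℤ) := by
    rw [← Int.natCast_natAbs]
    exact_mod_cast h
  have h3 : (M : ℤ) ≤ (M : ℤ) ^ 2 := by exact_mod_cast Nat.le_self_pow (by norm_num) M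
  have h4 : a ^ 2 ≤ (M : ℤ) ^ 2 := by
    rw [← sq_abs a]
    exact pow_le_pow_left₀ (abs_nonneg a) h2 2
  have h5 : (tri a : ℤ) ≤ (M : ℤ) ^ 2 := by nlinarith [le_abs_self a]
  exact_mod_cast h5

lemma tri_box (M : ℕ) (x : ℤ × ℤ) (h : x ∈ box M) : tri x.1 + tri x.2 ≤ 2 * M ^ 2 := by
  rw [mem_box] at h
  have h1 := tri_le_sq M _ h.1
  have h2 := tri_le_sq M _ h.2
  omega

lemma uu_box (M : ℕ) (x : ℤ × ℤ) (h : x ∈ box M) : uu x ≤ 4 * M ^ 2 := by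
  rw [mem_box] at h
  have h1 : x.1.natAbs ^ 2 ≤ M ^ 2 := Nat.pow_le_pow_left h.1 2
  have h2 : x.2.natAbs ^ 2 ≤ M ^ 2 := Nat.pow_le_pow_left h.2 2
  have h3 : M ≤ M ^ 2 := Nat.le_self_pow (by norm_num) M
  have h4 := h.1
  have h5 := h.2
  unfold uu
  omega

lemma lam_mu (D : Data) (x y : ℤ × ℤ) :
    D.lam x * D.mu y = (D.sE x y : ℂ) + ((x.1 * y.1 + x.2 * y.2 : ℤ) : ℂ) * D.β := by
  unfold Data.lam Data.mu Data.sE
  push_cast
  linear_combination ((x.2 : ℂ) * (y.1 : ℂ)) * D.hβ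

lemma sE_le (D : Data) (M : ℕ) (x y : ℤ × ℤ) (hx : x ∈ box M) (hy : y ∈ box M) :
    (D.sE x y).natAbs ≤ (1 + D.a.natAbs + D.b.natAbs) * M ^ 2 := by
  rw [mem_box] at hx hy
  have e : D.sE x y = x.1 * y.2 - D.a * (x.1 * y.1) + D.b * (x.2 * y.1) := by
    unfold Data.sE
    ring
  have h1 : (x.1 * y.2).natAbs ≤ M ^ 2 := by
    rw [Int.natAbs_mul, sq]
    exact Nat.mul_le_mul hx.1 hy.2
  have h2 : (D.a * (x.1 * y.1)).natAbs ≤ D.a.natAbs * M ^ 2 := by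
    rw [Int.natAbs_mul, Int.natAbs_mul, sq]
    exact Nat.mul_le_mul_left _ (Nat.mul_le_mul hx.1 hy.1)
  have h3 : (D.b * (x.2 * y.1)).natAbs ≤ D.b.natAbs * M ^ 2 := by
    rw [Int.natAbs_mul, Int.natAbs_mul, sq]
    exact Nat.mul_le_mul_left _ (Nat.mul_le_mul hx.2 hy.1)
  have h4 := Int.natAbs_add_le (x.1 * y.2 - D.a * (x.1 * y.1)) (D.b * (x.2 * y.1))
  have h5 := Int.natAbs_sub_le (x.1 * y.2) (D.a * (x.1 * y.1))
  rw [e, add_mul, add_mul, one_mul]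
  omega

lemma norm_int_le (M : ℕ) (a : ℤ) (h : a.natAbs ≤ M) : ‖(a : ℂ)‖ ≤ M := by
  rw [Complex.norm_intCast, ← Int.cast_abs, ← Int.natCast_natAbs]
  exact_mod_cast h

lemma lam_le (D : Data) (M : ℕ) (x : ℤ × ℤ) (hx : x ∈ box M) : ‖D.lam x‖ ≤ D.K₀ * M := by
  rw [mem_box] at hx
  have h1 := norm_int_le M _ hx.1
  have h2 := norm_int_le M _ hx.2
  have h3 := D.hKβ
  have h4 : ‖D.lam x‖ ≤ ‖(x.1 : ℂ)‖ + ‖(x.2 : ℂ)‖ * ‖D.β‖ := by
    unfold Data.lam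
    rw [← norm_mul]
    exact norm_add_le _ _
  have h5 : ‖(x.2 : ℂ)‖ * ‖D.β‖ ≤ M * ‖D.β‖ := mul_le_mul_of_nonneg_right h2 (norm_nonneg _)
  have h6 : (0 : ℝ) ≤ M := Nat.cast_nonneg M
  nlinarith [abs_nonneg (D.a : ℝ), mul_le_mul_of_nonneg_right h3 h6,
    mul_nonneg (abs_nonneg (D.a : ℝ)) h6]

lemma mu_le (D : Data) (M : ℕ) (x : ℤ × ℤ) (hx : x ∈ box M) : ‖D.mu x‖ ≤ D.K₀ * M := by
  rw [mem_box] at hx
  have h1 := norm_int_le M _ hx.1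
  have h2 := norm_int_le M _ hx.2
  have h3 := D.hKβ
  have e : D.mu x = (x.2 : ℂ) - (D.a : ℂ) * (x.1 : ℂ) + (x.1 : ℂ) * D.β := by
    unfold Data.mu
    push_cast
    ring
  have h4 : ‖D.mu x‖ ≤ ‖(x.2 : ℂ)‖ + |(D.a : ℝ)| * ‖(x.1 : ℂ)‖ + ‖(x.1 : ℂ)‖ * ‖D.β‖ := by
    rw [e, ← norm_mul, ← Complex.norm_intCast D.a, ← norm_mul]
    exact le_trans (norm_add_le _ _) (add_le_add_left (norm_sub_le _ _) _)
  have h5 : ‖(x.1 : ℂ)‖ * ‖D.β‖ ≤ M * ‖D.β‖ := mul_le_mul_of_nonneg_right h1 (norm_nonneg _)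
  have h6 : (0 : ℝ) ≤ M := Nat.cast_nonneg M
  have h7 : |(D.a : ℝ)| * ‖(x.1 : ℂ)‖ ≤ |(D.a : ℝ)| * M :=
    mul_le_mul_of_nonneg_left h1 (abs_nonneg _)
  nlinarith [mul_le_mul_of_nonneg_right h3 h6]

lemma one_le_norm (D : Data) (m n : ℤ) (h : ¬ (m = 0 ∧ n = 0)) :
    1 ≤ ‖(m : ℂ) + (n : ℂ) * D.β‖ := by
  refine D.hS _ (D.S.add_mem (intCast_mem D.S m) (D.S.mul_mem (intCast_mem D.S n) D.hβS)) ?_
  intro h0
  apply h
  have h1 := congrArg Complex.im h0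
  simp only [Complex.add_im, Complex.intCast_im, Complex.mul_im, Complex.intCast_re, zero_mul,
    add_zero, zero_add, Complex.zero_im, mul_eq_zero] at h1
  have hn : n = 0 := by
    rcases h1 with h1 | h1
    · exact_mod_cast h1
    · exact absurd h1 D.him
  rw [hn] at h0
  refine ⟨?_, hn⟩
  simpa using h0

lemma lam_sep (D : Data) (x y : ℤ × ℤ) (h : x ≠ y) : 1 ≤ ‖D.lam x - D.lam y‖ := by
  have e : D.lam x - D.lam y = ((x.1 - y.1 : ℤ) : ℂ) + ((x.2 - y.2 : ℤ) : ℂ) * D.β := by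
    unfold Data.lam
    push_cast
    ring
  rw [e]
  refine one_le_norm D _ _ fun h0 => h (Prod.ext ?_ ?_)
  · exact sub_eq_zero.1 h0.1
  · exact sub_eq_zero.1 h0.2

lemma mu_sep (D : Data) (x y : ℤ × ℤ) (h : x ≠ y) : 1 ≤ ‖D.mu x - D.mu y‖ := by
  have e : D.mu x - D.mu y =
      ((x.2 - y.2 - D.a * (x.1 - y.1) : ℤ) : ℂ) + ((x.1 - y.1 : ℤ) : ℂ) * D.β := by
    unfold Data.mu
    push_cast
    ring
  rw [e]
  refine one_le_norm D _ _ fun h0 => h (Prod.ext ?_ ?_)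
  · exact sub_eq_zero.1 h0.2
  · have h1 := h0.1
    rw [h0.2, mul_zero, sub_zero] at h1
    exact sub_eq_zero.1 h1

end LatL

theorem latStmt : LatStmt where
  mem_box := LatL.mem_box
  prof_le := LatL.prof_le
  mult_le := LatL.mult_le
  mem_idx := LatL.mem_idx
  sum_idx := LatL.sum_idx
  NN_eq := LatL.NN_eq
  NN_le := LatL.NN_le
  tri_add := LatL.tri_add
  tri_le := LatL.tri_le
  tri_box := LatL.tri_box
  uu_box := LatL.uu_box
  lam_mu := LatL.lam_mu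
  sE_le := LatL.sE_le
  lam_le := LatL.lam_le
  mu_le := LatL.mu_le
  lam_sep := LatL.lam_sep
  mu_sep := LatL.mu_sep

end LogPow
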