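import Pool.Agent.Mg.F655169a.Gc9f9fa
import Pool.Agent.Mg.F655169a.G47c8bf
import Pool.Agent.Mg.F655169a.Gfc2d0b

section

open Polynomial NumberField Finset

namespace LogPow

namespace TaylorL

lemma fac (σ n : ℕ) (h : σ ≤ n) :
    (n.factorial : ℝ) / (n - σ).factorial ≤ σ.factorial * Real.exp 1 ^ n := by
  have h1 : (n.factorial : ℝ) = (n - σ).factorial * n.descFactorial σ := by
    exact_mod_cast (Nat.factorial_mul_descFactorial h).symm
  have h2 : (n.descFactorial σ : ℝ) ≤ (n : ℝ) ^ σ := by exact_mod_cast Nat.descFactorial_le_pow n σ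
  have h3 := Real.pow_div_factorial_le_exp (n : ℝ) (Nat.cast_nonneg n) σ
  rw [div_le_iff₀ (by positivity)] at h3
  rw [h1, mul_div_cancel_left₀ _ (by positivity), ← Real.exp_nat_mul, mul_one, mul_comm]
  exact h2.trans h3

lemma term {f : ℂ → ℂ} {μ : ℂ} (σ : ℕ) {ρ E m : ℝ} (hf : Differentiable ℂ f) (hρ : 1 ≤ ρ)
    (hE : 1 ≤ E) (hμ : ‖μ‖ ≤ ρ) (hm : ∀ z : ℂ, ‖z‖ = 2 * Real.exp 1 * ρ * E → ‖f z‖ ≤ m)
    (h0 : 0 ≤ m) (n : ℕ) :
    ‖tc μ σ n * iteratedDeriv n f 0‖ ≤ σ.factorial * m * (E⁻¹) ^ n * (1 / 2) ^ n := by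
  unfold tc
  split_ifs with h
  · have h1 := Complex.norm_iteratedDeriv_le_of_forall_mem_sphere_norm_le (c := 0) (f := f) n
      (by positivity : 0 < 2 * Real.exp 1 * ρ * E) hf.diffContOnCl fun z hz => hm z (by simpa using hz)
    have h2 : ‖μ‖ ^ (n - σ) ≤ ρ ^ n :=
      (pow_le_pow_left₀ (norm_nonneg _) hμ _).trans (pow_le_pow_right₀ hρ (Nat.sub_le _ _))
    rw [norm_mul, norm_div, norm_pow, Complex.norm_natCast]
    calc _ ≤ ρ ^ n / (n - σ).factorial * (n.factorial * m / (2 * Real.exp 1 * ρ * E) ^ n) := by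
          gcongr
      _ = (n.factorial : ℝ) / (n - σ).factorial * (m * (E⁻¹) ^ n * (1 / 2) ^ n / Real.exp 1 ^ n) := by
          simp only [mul_pow, inv_pow, one_div]
          field_simp
      _ ≤ σ.factorial * Real.exp 1 ^ n * (m * (E⁻¹) ^ n * (1 / 2) ^ n / Real.exp 1 ^ n) := by
          gcongr
          exact fac σ n h
      _ = _ := by field_simp
  · rw [zero_mul, norm_zero]
    positivity

lemma ser {f : ℂ → ℂ} (μ : ℂ) (σ : ℕ) (hf : Differentiable ℂ f) :
    HasSum (fun n => tc μ σ n * iteratedDeriv n f 0) (iteratedDeriv σ f μ) := by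
  have h1 : Differentiable ℂ (iteratedDeriv σ f) :=
    (hf.contDiff (n := ⊤)).differentiable_iteratedDeriv σ (by simp)
  have h2 := Complex.hasSum_taylorSeries_of_entire h1 0 μ
  rw [← hasSum_nat_add_iff' σ, sum_eq_zero fun i hi => by
    rw [tc, if_neg (by simpa using hi), zero_mul], sub_zero]
  refine h2.congr_fun fun n => ?_
  rw [tc, if_pos (Nat.le_add_left _ _), Nat.add_sub_cancel, sub_zero, iteratedDeriv_eq_iterate,
    iteratedDeriv_eq_iterate, iteratedDeriv_eq_iterate, Function.iterate_add_apply, smul_eq_mul,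
    smul_eq_mul]
  ring

end TaylorL

theorem taylorStmt : TaylorStmt := by
  intro f μ σ Kk ρ E m hf hρ hE hμ hm
  have h0 : 0 ≤ m := (norm_nonneg _).trans (hm ((2 * Real.exp 1 * ρ * E : ℝ) : ℂ)
    (by rw [Complex.norm_real, Real.norm_of_nonneg (by positivity)]))
  have h1 := TaylorL.term σ hf hρ hE hμ hm h0
  have hE' : E⁻¹ ≤ 1 := inv_le_one_of_one_le₀ hE
  refine ⟨fun n => (h1 n).trans (mul_le_of_le_one_right (by positivity)
    (pow_le_one₀ (by norm_num) (by norm_num))), ?_⟩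
  have h2 := (hasSum_nat_add_iff' Kk).2 (TaylorL.ser μ σ hf)
  have h3 := hasSum_geometric_two.mul_left (σ.factorial * m * (E⁻¹) ^ Kk)
  refine (h2.norm_le_of_bounded h3 fun n => (h1 _).trans ?_).trans_eq (by ring)
  refine mul_le_mul (mul_le_mul_of_nonneg_left
    (pow_le_pow_of_le_one (by positivity) hE' (Nat.le_add_left _ _)) (by positivity))
    (pow_le_pow_of_le_one (by norm_num) (by norm_num) (Nat.le_add_right _ _)) (by positivity)
    (by positivity)

end LogPow

end

section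

open Polynomial NumberField Finset

namespace LogPow2

open LogPow

namespace MomL

/-- The Taylor polynomial with given derivatives at zero. -/
noncomputable def tp (d : ℕ → ℂ) (N : ℕ) : ℂ[X] :=
  ∑ n ∈ range N, C (d n / (n.factorial : ℂ)) * X ^ n

theorem tp_degree (d : ℕ → ℂ) (N : ℕ) : (tp d N).degree < N := by
  rw [degree_lt_iff_coeff_zero]
  intro m hm
  unfold tp
  rw [finsetSum_coeff]
  refine sum_eq_zero fun n hn => ?_
  rw [coeff_C_mul_X_pow, if_neg]
  have := mem_range.1 hn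
  omega

theorem tp_coeff (d : ℕ → ℂ) {N n : ℕ} (h : n < N) :
    (tp d N).coeff n = d n / (n.factorial : ℂ) := by
  unfold tp
  rw [finsetSum_coeff, sum_eq_single n]
  · rw [coeff_C_mul_X_pow, if_pos rfl]
  · intro m _ hm
    rw [coeff_C_mul_X_pow, if_neg hm.symm]
  · intro hn
    exact absurd (mem_range.2 h) hn

theorem tp_eval (d : ℕ → ℂ) (N s : ℕ) (v : ℂ) :
    (derivative^[s] (tp d N)).eval v = ∑ n ∈ range N, tc v s n * d n := by
  unfold tp
  rw [iterate_derivative_sum, eval_finsetSum]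
  refine sum_congr rfl fun n _ => ?_
  rw [iterate_derivative_C_mul, iterate_derivative_X_pow_eq_C_mul, eval_mul, eval_mul, eval_C,
    eval_C, eval_pow, eval_X]
  unfold tc
  split_ifs with h
  · have h1 : ((n - s).factorial : ℂ) * (n.descFactorial s : ℂ) = n.factorial := by
      exact_mod_cast Nat.factorial_mul_descFactorial h
    have h2 : ((n - s).factorial : ℂ) ≠ 0 := by exact_mod_cast Nat.factorial_ne_zero _
    have h3 : (n.descFactorial s : ℂ) ≠ 0 := by
      exact_mod_cast (Nat.descFactorial_pos.2 h).ne'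
    rw [← h1]
    field_simp
  · rw [Nat.descFactorial_of_lt (not_le.1 h)]
    simp

end MomL

theorem momStmt (h1 : HermStmt) (h2 : BoxHNStmt) : MomStmt := by
  intro nu K₀ E mx ε M q' F hnu hK hq hqM hlog hN hF hE hε hmx hjet n hn
  obtain ⟨h3, h4⟩ := h2 nu 1 K₀ M q' hnu hK hq hqM hlog one_ne_zero
    (by rw [norm_one]; linarith) hN
  simp only [norm_one, one_mul] at h3 h4
  have hM : (1 : ℝ) ≤ M := by exact_mod_cast (show 1 ≤ M by omega)
  have hρ : 1 ≤ K₀ * M := by nlinarith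
  have h0 : 0 ≤ mx := (norm_nonneg _).trans (hmx ((2 * Real.exp 1 * (K₀ * M) * E : ℝ) : ℂ)
    (by rw [Complex.norm_real, Real.norm_eq_abs, abs_of_nonneg (by positivity)]))
  have hε' : 0 ≤ ε + 2 * (M ^ 2).factorial * mx * (E⁻¹) ^ NN M q' := by positivity
  have h5 := h1 _ (box M) _ (mult M q') _ _ _ _ _
    (MomL.tp (fun n => iteratedDeriv n F 0) (NN M q')) h3 hε'
    (by rw [← latStmt.NN_eq]; exact MomL.tp_degree _ _) (by
      intro a ha τ hτ
      rw [MomL.tp_eval]
      have h6 := (taylorStmt F (nu a) τ (NN M q') (K₀ * M) E mx hF hρ hE (hnu.le a ha) hmx).2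
      have h7 := hjet (a, τ) ((latStmt.mem_idx M q' (a, τ)).2 ⟨ha, hτ⟩)
      have h8 : (τ.factorial : ℝ) ≤ (M ^ 2).factorial := by
        exact_mod_cast Nat.factorial_le
          (hτ.le.trans ((latStmt.mult_le M q' a).trans (Nat.pow_le_pow_left hqM 2)))
      have h9 : 2 * (τ.factorial : ℝ) * mx * (E⁻¹) ^ NN M q' ≤
          2 * (M ^ 2).factorial * mx * (E⁻¹) ^ NN M q' := by gcongr
      have h10 := norm_sub_norm_le (∑ n ∈ range (NN M q'), tc (nu a) τ n * iteratedDeriv n F 0)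
        (iteratedDeriv τ F (nu a))
      rw [norm_sub_rev] at h10
      linarith) n
  rw [← latStmt.NN_eq, MomL.tp_coeff _ hn, norm_div, Complex.norm_natCast, div_mul_eq_mul_div,
    div_le_iff₀ (by exact_mod_cast Nat.factorial_pos n)] at h5
  refine h5.trans ?_
  rw [mul_comm]
  gcongr

end LogPow2

end
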