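import Pool.Agent.Mg.F655169a.Gc9f9fa
import Pool.Agent.Mg.F655169a.G47c8bf
import Pool.Agent.Mg.F655169a.Gfc2d0b

section

open Polynomial NumberField Finset

namespace LogPow

namespace IntDegL

theorem ins_iff (S : Subring ℂ) (P : ℂ[X]) : InS S P ↔ P ∈ liftsRing S.subtype := by
  rw [← lifts_iff_liftsRing, lifts_iff_coeff_lifts]
  exact forall_congr' fun i => ⟨fun h => ⟨⟨_, h⟩, rfl⟩, fun ⟨x, hx⟩ => hx ▸ x.2⟩

theorem C_mem {S : Subring ℂ} {x : ℂ} (h : x ∈ S) : C x ∈ liftsRing S.subtype :=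
  ⟨C ⟨x, h⟩, by simp⟩

theorem X_mem (S : Subring ℂ) : (X : ℂ[X]) ∈ liftsRing S.subtype := ⟨X, by simp⟩

theorem cst_mem (D : Data) (N : ℕ) (s : ℤ) (h : s.natAbs ≤ N) :
    (D.n₀ : ℂ) ^ N * Complex.exp D.L ^ s ∈ D.S := by
  obtain ⟨t, rfl⟩ := Nat.exists_eq_add_of_le h
  obtain ⟨n, rfl | rfl⟩ := Int.eq_nat_or_neg s
  · have e : (D.n₀ : ℂ) ^ ((n : ℤ).natAbs + t) * Complex.exp D.L ^ (n : ℤ) =
        ((D.n₀ : ℂ) * Complex.exp D.L) ^ n * (D.n₀ : ℂ) ^ t := by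
      rw [Int.natAbs_natCast, zpow_natCast]
      ring
    rw [e]
    exact mul_mem (pow_mem D.h₁ _) (pow_mem (natCast_mem _ _) _)
  · have e : (D.n₀ : ℂ) ^ ((-(n : ℤ)).natAbs + t) * Complex.exp D.L ^ (-(n : ℤ)) =
        ((D.n₀ : ℂ) * Complex.exp (-D.L)) ^ n * (D.n₀ : ℂ) ^ t := by
      rw [Int.natAbs_neg, Int.natAbs_natCast, zpow_neg, zpow_natCast, Complex.exp_neg, ← inv_pow]
      ring
    rw [e]
    exact mul_mem (pow_mem D.h₂ _) (pow_mem (natCast_mem _ _) _)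

theorem entry_mem (hl : LatStmt) (D : Data) (M : ℕ) (r c : (ℤ × ℤ) × ℕ) (hr : r.1 ∈ box M)
    (hc : c.1 ∈ box M) : D.entry M r c ∈ liftsRing D.S.subtype := by
  refine mul_mem (mul_mem (C_mem (cst_mem D _ _ (hl.sE_le D M _ _ hc hr))) (pow_mem (X_mem _) _))
    (sum_mem fun k _ => mul_mem (mul_mem (C_mem ?_) (pow_mem ((ins_iff _ _).1 D.hB) _))
      (pow_mem ((ins_iff _ _).1 D.hA) _))
  exact mul_mem (mul_mem (mul_mem (natCast_mem _ _) (natCast_mem _ _))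
    (pow_mem (add_mem (intCast_mem _ _) (mul_mem (intCast_mem _ _) D.hβS)) _))
    (pow_mem (add_mem (intCast_mem _ _) (mul_mem (intCast_mem _ _) D.hβS)) _)

theorem entry_deg (hl : LatStmt) (D : Data) (M : ℕ) (r c : (ℤ × ℤ) × ℕ) :
    (D.entry M r c).natDegree ≤ uu c.1 + (uu r.1 + max D.A.natDegree D.B.natDegree * r.2) := by
  rw [← add_assoc]
  refine natDegree_mul_le.trans (add_le_add ((natDegree_C_mul_le _ _).trans
    ((natDegree_X_pow_le _).trans (hl.tri_le _ _))) (natDegree_sum_le_of_forall_le _ _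
      fun k hk => ?_))
  have h1 : k ≤ r.2 := Nat.lt_succ_iff.1 (mem_range.1 hk)
  rw [mul_assoc]
  refine (natDegree_C_mul_le _ _).trans (natDegree_mul_le.trans ?_)
  have h2 := natDegree_pow_le_of_le (r.2 - k) (le_max_right D.A.natDegree D.B.natDegree)
  have h3 := natDegree_pow_le_of_le k (le_max_left D.A.natDegree D.B.natDegree)
  refine (add_le_add h2 h3).trans (le_of_eq ?_)
  rw [← add_mul, Nat.sub_add_cancel h1, mul_comm]

theorem sum_le {α : Type} {s t : Finset α} (ι : s → t) (hι : Function.Injective ι) (f : α → ℕ) :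
    ∑ i, f (ι i).1 ≤ ∑ p ∈ t, f p := by
  rw [← sum_coe_sort t f]
  exact (sum_map univ ⟨ι, hι⟩ fun p : t => f p.1).symm.trans_le
    (sum_le_sum_of_subset (subset_univ _))

end IntDegL

open IntDegL in
theorem intStmt (hl : LatStmt) : IntStmt := by
  intro D M q q' ι
  rw [ins_iff, Data.minor, Matrix.det_apply']
  refine sum_mem fun σ _ => mul_mem (intCast_mem _ _) (prod_mem fun i _ => ?_)
  exact entry_mem hl D M _ _ ((hl.mem_idx _ _ _).1 (ι (σ i)).2).1 ((hl.mem_idx _ _ _).1 i.2).1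

open IntDegL in
theorem degStmt (hl : LatStmt) : DegStmt := by
  intro D M q q' ι hι
  have h1 : (D.minor M q q' ι).natDegree ≤
      UU M q + (UU M q' + max D.A.natDegree D.B.natDegree * VV M q') := by
    rw [Data.minor, Matrix.det_apply']
    refine natDegree_sum_le_of_forall_le _ _ fun σ _ => ?_
    rw [← C_eq_intCast]
    refine (natDegree_C_mul_le _ _).trans ((natDegree_prod_le _ _).trans
      ((sum_le_sum fun i _ => entry_deg hl D M (ι (σ i)).1 i.1).trans ?_))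
    rw [sum_add_distrib, sum_coe_sort (idx M q) fun p => uu p.1, UU, UU, VV, mul_sum,
      ← sum_add_distrib]
    exact Nat.add_le_add_left (sum_le (ι ∘ σ) (hι.comp σ.injective)
      fun p => uu p.1 + max D.A.natDegree D.B.natDegree * p.2) _
  have h2 : ((max D.A.natDegree D.B.natDegree : ℕ) : ℝ) ≤ D.K₀ := by
    rw [Nat.cast_max]
    exact max_le D.hKd.1 D.hKd.2
  have h3 : ((D.minor M q q' ι).natDegree : ℝ) ≤
      UU M q + (UU M q' + (max D.A.natDegree D.B.natDegree : ℕ) * VV M q') := by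
    exact_mod_cast h1
  have h4 := mul_le_mul_of_nonneg_right h2 (Nat.cast_nonneg (α := ℝ) (VV M q'))
  linarith

end LogPow

end

section

/-! Elementary facts on the entries. -/

open Polynomial NumberField Finset

namespace LogPow2

open LogPow

namespace Lat2L

lemma lam_mu (β : ℂ) (a b : ℤ) (x y : ℤ × ℤ) (h : β ^ 2 = a * β + b) :
    lam β x * mu β a y = (sE a b x y : ℂ) + ((x.1 * y.1 + x.2 * y.2 : ℤ) : ℂ) * β := by
  unfold lam mu sE
  push_cast
  linear_combination ((x.2 : ℂ) * (y.1 : ℂ)) * h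

lemma sE_le (a b : ℤ) (M : ℕ) (x y : ℤ × ℤ) (hx : x ∈ box M) (hy : y ∈ box M) :
    (sE a b x y).natAbs ≤ (1 + a.natAbs + b.natAbs) * M ^ 2 := by
  rw [LatL.mem_box] at hx hy
  have e : sE a b x y = x.1 * y.2 - a * (x.1 * y.1) + b * (x.2 * y.1) := by
    unfold sE
    ring
  have h1 : (x.1 * y.2).natAbs ≤ M ^ 2 := by
    rw [Int.natAbs_mul, sq]
    exact Nat.mul_le_mul hx.1 hy.2
  have h2 : (a * (x.1 * y.1)).natAbs ≤ a.natAbs * M ^ 2 := by
    rw [Int.natAbs_mul, Int.natAbs_mul, sq]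
    exact Nat.mul_le_mul_left _ (Nat.mul_le_mul hx.1 hy.1)
  have h3 : (b * (x.2 * y.1)).natAbs ≤ b.natAbs * M ^ 2 := by
    rw [Int.natAbs_mul, Int.natAbs_mul, sq]
    exact Nat.mul_le_mul_left _ (Nat.mul_le_mul hx.2 hy.1)
  have h4 := Int.natAbs_add_le (x.1 * y.2 - a * (x.1 * y.1)) (b * (x.2 * y.1))
  have h5 := Int.natAbs_sub_le (x.1 * y.2) (a * (x.1 * y.1))
  rw [e, add_mul, add_mul, one_mul]
  omega

lemma lin_le (γ : ℂ) (K₀ : ℝ) (M : ℕ) (m n : ℤ) (h : 1 + ‖γ‖ ≤ K₀) (hm : m.natAbs ≤ M)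
    (hn : n.natAbs ≤ M) : ‖(m : ℂ) + (n : ℂ) * γ‖ ≤ K₀ * M := by
  have h1 := LatL.norm_int_le M _ hm
  have h2 := LatL.norm_int_le M _ hn
  have h4 : ‖(m : ℂ) + (n : ℂ) * γ‖ ≤ ‖(m : ℂ)‖ + ‖(n : ℂ)‖ * ‖γ‖ := by
    rw [← norm_mul]
    exact norm_add_le _ _
  have h5 : ‖(n : ℂ)‖ * ‖γ‖ ≤ M * ‖γ‖ := mul_le_mul_of_nonneg_right h2 (norm_nonneg _)
  have h6 : (0 : ℝ) ≤ M := Nat.cast_nonneg M
  nlinarith [mul_le_mul_of_nonneg_right h h6]

lemma lam_le (β : ℂ) (K₀ : ℝ) (M : ℕ) (x : ℤ × ℤ) (h : 1 + ‖β‖ ≤ K₀) (hx : x ∈ box M) :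
    ‖lam β x‖ ≤ K₀ * M := by
  rw [LatL.mem_box] at hx
  exact lin_le β K₀ M _ _ h hx.1 hx.2

lemma mu_le (β : ℂ) (a : ℤ) (K₀ : ℝ) (M : ℕ) (x : ℤ × ℤ) (h : 1 + ‖β - a‖ ≤ K₀)
    (hx : x ∈ box M) : ‖mu β a x‖ ≤ K₀ * M := by
  rw [LatL.mem_box] at hx
  have e : mu β a x = (x.2 : ℂ) + (x.1 : ℂ) * (β - a) := by
    unfold mu
    push_cast
    ring
  rw [e]
  exact lin_le (β - a) K₀ M _ _ h hx.2 hx.1

lemma map_ent (R S : Type) [CommRing R] [CommRing S] (f : R →+* S) (D : AD R) (M : ℕ)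
    (r c : (ℤ × ℤ) × ℕ) : (D.ent M r c).map f = (D.map f).ent M r c := by
  simp only [AD.ent, AD.apow, lam, mu, AD.map, AD.cc, Polynomial.map_mul, Polynomial.map_pow,
    Polynomial.map_sum, Polynomial.map_C, Polynomial.map_X, map_mul f, map_pow f, map_add f,
    map_natCast f, map_intCast f]

lemma map_minor (R S : Type) [CommRing R] [CommRing S] (f : R →+* S) (D : AD R) (M q q' : ℕ)
    (ι : idx M q → idx M q') : (D.minor M q q' ι).map f = (D.map f).minor M q q' ι := by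
  unfold AD.minor
  rw [← coe_mapRingHom, RingHom.map_det]
  congr 1
  ext1 i j
  exact map_ent R S f D M _ _

lemma ent_deg (D : AD ℂ) (M : ℕ) (r c : (ℤ × ℤ) × ℕ) :
    (D.ent M r c).natDegree ≤ uu c.1 + (uu r.1 + max D.A.natDegree D.B.natDegree * r.2) := by
  rw [← add_assoc]
  refine natDegree_mul_le.trans (add_le_add ((natDegree_C_mul_le _ _).trans
    ((natDegree_X_pow_le _).trans (LatL.tri_le _ _))) (natDegree_sum_le_of_forall_le _ _
      fun k hk => ?_))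
  have h1 : k ≤ r.2 := Nat.lt_succ_iff.1 (mem_range.1 hk)
  rw [mul_assoc]
  refine (natDegree_C_mul_le _ _).trans (natDegree_mul_le.trans ?_)
  have h2 := natDegree_pow_le_of_le (r.2 - k) (le_max_right D.A.natDegree D.B.natDegree)
  have h3 := natDegree_pow_le_of_le k (le_max_left D.A.natDegree D.B.natDegree)
  refine (add_le_add h2 h3).trans (le_of_eq ?_)
  rw [← add_mul, Nat.sub_add_cancel h1, mul_comm]

end Lat2L

theorem lat2 : Lat2Stmt where
  lam_mu := Lat2L.lam_mu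
  sE_le := Lat2L.sE_le
  lam_le := Lat2L.lam_le
  mu_le := Lat2L.mu_le
  map_ent := Lat2L.map_ent
  map_minor := Lat2L.map_minor

theorem deg2 : Deg2Stmt := by
  intro D K₀ M q q' ι hB hι
  have h1 : (D.minor M q q' ι).natDegree ≤
      UU M q + (UU M q' + max D.A.natDegree D.B.natDegree * VV M q') := by
    rw [AD.minor, Matrix.det_apply']
    refine natDegree_sum_le_of_forall_le _ _ fun σ _ => ?_
    rw [← C_eq_intCast]
    refine (natDegree_C_mul_le _ _).trans ((natDegree_prod_le _ _).trans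
      ((sum_le_sum fun i _ => Lat2L.ent_deg D M (ι (σ i)).1 i.1).trans ?_))
    rw [sum_add_distrib, sum_coe_sort (idx M q) fun p => uu p.1, UU, UU, VV, mul_sum,
      ← sum_add_distrib]
    exact Nat.add_le_add_left (IntDegL.sum_le (ι ∘ σ) (hι.comp σ.injective)
      fun p => uu p.1 + max D.A.natDegree D.B.natDegree * p.2) _
  have h2 : ((max D.A.natDegree D.B.natDegree : ℕ) : ℝ) ≤ K₀ := by
    rw [Nat.cast_max]
    exact max_le hB.hd.1 hB.hd.2
  have h3 : ((D.minor M q q' ι).natDegree : ℝ) ≤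
      UU M q + (UU M q' + (max D.A.natDegree D.B.natDegree : ℕ) * VV M q') := by
    exact_mod_cast h1
  have h4 := mul_le_mul_of_nonneg_right h2 (Nat.cast_nonneg (α := ℝ) (VV M q'))
  linarith

end LogPow2

end

section

/-! From the normalised matrix to the minors: smallness and the zero lemma. -/

open Polynomial NumberField Finset

namespace LogPow2

open LogPow

namespace Small2L

theorem mem {M q : ℕ} (h : q ≤ M) (p : idx M q) : p.1.1 ∈ box M ∧ p.1.2 ≤ M ^ 2 := by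
  have h1 := Finset.mem_product.1 (Finset.mem_filter.1 p.2).1
  exact ⟨h1.1, (Finset.mem_range.1 h1.2).le.trans (Nat.pow_le_pow_left h 2)⟩

theorem exp_le {K Y : ℝ} (hK : 0 < K) (h : Real.log K ≤ Y) : Real.exp (-Y) ≤ 1 / K := by
  rw [one_div, ← Real.exp_log hK, ← Real.exp_neg, Real.exp_le_exp]
  linarith

theorem det_fac {n : Type} [Fintype n] [DecidableEq n] (u v : n → ℂ) (A : n → n → ℂ) :
    (Matrix.of fun i j => u i * v j * A i j).det = (∏ i, u i) * (∏ j, v j) * (Matrix.of A).det := by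
  have h1 := Matrix.det_mul_column u (Matrix.of fun i j => v j * A i j)
  have h2 := Matrix.det_mul_row v (Matrix.of A)
  simp only [Matrix.of_apply] at h1 h2
  simp only [mul_assoc]
  rw [h1, h2]

theorem prod_le {n : Type} [Fintype n] (u : n → ℂ) (B : ℝ) (h : ∀ i, ‖u i‖ ≤ B) :
    ‖∏ i, u i‖ ≤ B ^ Fintype.card n := by
  rw [norm_prod, ← Finset.card_univ, ← Finset.prod_const]
  exact Finset.prod_le_prod (fun _ _ => norm_nonneg _) fun i _ => h i

theorem pow_le_exp {K : ℝ} {M q : ℕ} (hK : 2 ≤ K) (hq : 2 ≤ q) :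
    K ^ (4 * M ^ 2) * K ^ (2 * M ^ 2) ≤ Real.exp (K ^ 3 * M ^ 2 * q ^ 2) := by
  have hq' : (2 : ℝ) ≤ q := by exact_mod_cast hq
  have h1 : K ≤ Real.exp K := by linarith [Real.add_one_le_exp K]
  rw [← pow_add]
  refine (pow_le_pow_left₀ (by linarith) h1 _).trans ?_
  rw [← Real.exp_nat_mul, Real.exp_le_exp]
  have h2 : (2 : ℝ) ^ 2 * 2 ^ 2 ≤ K ^ 2 * (q : ℝ) ^ 2 := by gcongr
  have h3 : 0 ≤ K * (M : ℝ) ^ 2 := by positivity
  push_cast
  nlinarith

end Small2L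

open Small2L

theorem small2 (hl : Lat2Stmt) (hf : FactStmt) (hs : SmallNStmt) : Small2Stmt := by
  intro D L K₀ Y M q q' m ι hA hq2 hqM hq'M hm1 hm9 hl0 hY hYN z hz
  have hK := hA.geo.hK
  have hM : 1 ≤ M := by omega
  have hM' : (1 : ℝ) ≤ M := by exact_mod_cast hM
  have h1 : Real.log K₀ ≤ Real.log (2 * K₀ ^ 2 * M) :=
    Real.log_le_log (by linarith) (by nlinarith)
  have h2 : 0 ≤ Real.log K₀ := Real.log_nonneg (by linarith)
  obtain ⟨T, l₁, l₂, rf, cf, hT, -, hl12, -, -, hrf, hcf, hent⟩ := hf D L K₀ M z hA hM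
    (by rw [hz]; exact exp_le (by linarith) (by linarith))
  rw [hz] at hl12
  have key := hs (lam D.β) (mu D.β D.a) T l₁ l₂ K₀ Y M q q' m ι hK hq2 hqM hq'M hm1 hm9 hl0 hY
    hYN hT (fun x hx => hl.lam_le _ _ _ _ hA.geo.h₁ hx)
    (fun x hx => hl.mu_le _ _ _ _ _ hA.geo.h₂ hx) hl12
  have e1 : (D.minor M q q' ι).eval z =
      (Matrix.of fun i j : idx M q => (D.ent M (ι i).1 j.1).eval z).det := by
    unfold AD.minor
    rw [← coe_evalRingHom, RingHom.map_det]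
    rfl
  have e2 : (Matrix.of fun i j : idx M q => (D.ent M (ι i).1 j.1).eval z) =
      Matrix.of fun i j : idx M q =>
        rf (ι i).1 * cf j.1 * nm (lam D.β) (mu D.β D.a) T l₁ l₂ (ι i).1 j.1 := by
    ext i j
    exact hent _ _ (mem hq'M (ι i)).1 (mem hqM j).1
  have e3 : Fintype.card (idx M q) = NN M q := Fintype.card_coe _
  have a1 := prod_le (fun i : idx M q => rf (ι i).1) _
    fun i => hrf _ (mem hq'M (ι i)).1 (mem hq'M (ι i)).2
  have a2 := prod_le (fun j : idx M q => cf j.1) _ fun j => hcf _ (mem hqM j).1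
  rw [e3] at a1 a2
  rw [e1, e2, det_fac, norm_mul, norm_mul]
  have a3 := pow_le_exp (M := M) hK hq2
  calc _ ≤ (K₀ ^ (4 * M ^ 2)) ^ NN M q * (K₀ ^ (2 * M ^ 2)) ^ NN M q *
        Real.exp (-(gain (NN M q) Y (Real.log q) m - 2 * (NN M q : ℝ) ^ 2 -
          11 * (K₀ ^ 3 * M ^ 2 * q ^ 2) * NN M q)) := by gcongr
    _ ≤ Real.exp (K₀ ^ 3 * M ^ 2 * q ^ 2) ^ NN M q *
        Real.exp (-(gain (NN M q) Y (Real.log q) m - 2 * (NN M q : ℝ) ^ 2 -
          11 * (K₀ ^ 3 * M ^ 2 * q ^ 2) * NN M q)) := by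
        rw [← mul_pow]
        gcongr
    _ = _ := by
        rw [← Real.exp_nat_mul, ← Real.exp_add]
        congr 1
        ring

theorem rank2 (hn : NodesStmt) (hf : FactStmt) (hr : RankNStmt) : Rank2Stmt := by
  intro D L K₀ M q q' γ hA hq2 hqq hq2q hq'M hl0 hN hN' hgap hγ c hc
  have hK := hA.geo.hK
  have hM : 1 ≤ M := by omega
  have hM' : (1 : ℝ) ≤ M := by exact_mod_cast hM
  have hq' : (2 : ℝ) ≤ q := by exact_mod_cast hq2
  have h1 : Real.log K₀ ≤ 2 * NN M q * Real.log q + 100 * (K₀ ^ 3 * M ^ 2 * q ^ 2) := by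
    have b1 : Real.log K₀ ≤ K₀ := (Real.log_le_sub_one_of_pos (by linarith)).trans (by linarith)
    have b2 : 0 ≤ Real.log q := Real.log_nonneg (by linarith)
    have b3 : 0 ≤ 2 * (NN M q : ℝ) * Real.log q := by positivity
    have b4 : K₀ ^ 1 * 1 ^ 2 * 1 ^ 2 ≤ K₀ ^ 3 * (M : ℝ) ^ 2 * (q : ℝ) ^ 2 := by
      gcongr <;> linarith
    have b5 : 0 ≤ K₀ ^ 3 * (M : ℝ) ^ 2 * (q : ℝ) ^ 2 := by positivity
    simp only [pow_one, one_pow, mul_one] at b4
    linarith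
  obtain ⟨T, l₁, l₂, rf, cf, hT, hT', hl12, hrf, hcf, -, -, hent⟩ := hf D L K₀ M γ hA hM
    (hγ.trans (exp_le (by linarith) h1))
  obtain ⟨n1, n2⟩ := hn D.β D.a D.b K₀ M hA.geo hM
  have key := hr (lam D.β) (mu D.β D.a) T l₁ l₂ K₀ _ M q q' n1 n2 hK hq2 hqq hq2q hq'M hl0 hN hN'
    hT hT' hgap hγ hl12 (fun j => cf j.1 * c j) fun r hr' => by
      have b1 := congrFun hc ⟨r, hr'⟩
      simp only [Matrix.mulVec, dotProduct, Matrix.of_apply, Pi.zero_apply] at b1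
      refine mul_left_cancel₀ (hrf r) ?_
      rw [mul_zero, ← b1, Finset.mul_sum]
      refine Finset.sum_congr rfl fun j _ => ?_
      rw [hent r j.1 (mem hq'M ⟨r, hr'⟩).1 (mem (hqq.trans hq'M) j).1]
      ring
  funext j
  exact (mul_eq_zero.1 (congrFun key j)).resolve_left (hcf _)

end LogPow2

end
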