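import Pool.Agent.Mg.F655169a.Gc9f9fa

section

/-! Elementary facts on `cl` and `W`. -/

open Polynomial NumberField Finset

namespace LogPow

namespace ClL

lemma mpos (d Y : ℝ) : 0 < max (min 1 d) (Real.exp (-Y)) :=
  lt_of_lt_of_le (Real.exp_pos _) (le_max_right _ _)

lemma exp_neg_cl (w ρ : ℂ) (Y : ℝ) :
    Real.exp (-(cl w Y ρ)) = max (min 1 ‖ρ - w‖) (Real.exp (-Y)) := by
  unfold cl
  rw [neg_neg, Real.exp_log (mpos _ _)]

lemma nonneg (w ρ : ℂ) (Y : ℝ) (hY : 0 ≤ Y) : 0 ≤ cl w Y ρ := by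
  unfold cl
  have h1 : max (min 1 ‖ρ - w‖) (Real.exp (-Y)) ≤ 1 :=
    max_le (min_le_left _ _) (Real.exp_le_one_iff.2 (by linarith))
  have := Real.log_nonpos (mpos ‖ρ - w‖ Y).le h1
  linarith

lemma le (w ρ : ℂ) (Y : ℝ) : cl w Y ρ ≤ Y := by
  unfold cl
  have h := Real.log_le_log (Real.exp_pos (-Y))
    (le_max_right (min 1 ‖ρ - w‖) (Real.exp (-Y)))
  rw [Real.log_exp] at h
  linarith

lemma self (w : ℂ) (Y : ℝ) : cl w Y w = Y := by
  unfold cl
  rw [sub_self, norm_zero, min_eq_right (zero_le_one' ℝ), max_eq_right (Real.exp_pos _).le,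
    Real.log_exp, neg_neg]

lemma dist (w ρ : ℂ) (Y : ℝ) (h : 0 < cl w Y ρ) : ‖ρ - w‖ ≤ Real.exp (-(cl w Y ρ)) := by
  have h1 : Real.exp (-(cl w Y ρ)) < 1 := Real.exp_lt_one_iff.2 (by linarith)
  rw [exp_neg_cl] at h1 ⊢
  have h2 : min 1 ‖ρ - w‖ < 1 := lt_of_le_of_lt (le_max_left _ _) h1
  have h3 : min 1 ‖ρ - w‖ = ‖ρ - w‖ := by
    rcases le_total 1 ‖ρ - w‖ with h4 | h4
    · rw [min_eq_left h4] at h2
      exact absurd h2 (lt_irrefl _)
    · exact min_eq_right h4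
  rw [h3]
  exact le_max_left _ _

lemma scale (w ρ : ℂ) (Y Y' c : ℝ) (h0 : 0 ≤ Y') (hY : Y' ≤ Y) (hc : 1 ≤ c)
    (h : cl w Y ρ ≤ c * Y') : cl w Y ρ ≤ c * cl w Y' ρ := by
  rcases le_total (Real.exp (-Y')) (min 1 ‖ρ - w‖) with h1 | h1
  · have h2 : Real.exp (-Y) ≤ min 1 ‖ρ - w‖ :=
      le_trans (Real.exp_le_exp.2 (by linarith)) h1
    have h3 : cl w Y ρ = cl w Y' ρ := by
      unfold cl
      rw [max_eq_left h1, max_eq_left h2]
    have h4 := nonneg w ρ Y' h0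
    rw [h3]
    nlinarith
  · have h3 : cl w Y' ρ = Y' := by
      unfold cl
      rw [max_eq_right h1, Real.log_exp, neg_neg]
    rw [h3]
    exact h

lemma log_sub_le (ρ ρ' : ℂ) (hne : ρ ≠ ρ') :
    Real.log ‖ρ - ρ'‖ ≤ Real.log 2 + Real.posLog ‖ρ‖ + Real.posLog ‖ρ'‖ := by
  have hpos : 0 < ‖ρ - ρ'‖ := norm_pos_iff.2 (sub_ne_zero.2 hne)
  have h1 : ‖ρ - ρ'‖ ≤ ‖ρ‖ + ‖ρ'‖ := norm_sub_le _ _
  have h2 : Real.log ‖ρ - ρ'‖ ≤ Real.log (‖ρ‖ + ‖ρ'‖) := Real.log_le_log hpos h1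
  have h3 : Real.log (‖ρ‖ + ‖ρ'‖) ≤ Real.posLog (‖ρ‖ + ‖ρ'‖) := le_max_right _ _
  have h4 : Real.posLog (‖ρ‖ + ‖ρ'‖) ≤ Real.log 2 + Real.posLog ‖ρ‖ + Real.posLog ‖ρ'‖ :=
    Real.posLog_add
  linarith

lemma min_le (w ρ ρ' : ℂ) (Y : ℝ) (hne : ρ ≠ ρ') :
    min (cl w Y ρ) (cl w Y ρ') ≤
      Real.posLog ‖ρ‖ + Real.posLog ‖ρ'‖ - Real.log ‖ρ - ρ'‖ + Real.log 2 := by
  rcases le_or_gt (min (cl w Y ρ) (cl w Y ρ')) 0 with h0 | h0
  · have := log_sub_le ρ ρ' hne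
    linarith
  · set t := min (cl w Y ρ) (cl w Y ρ') with ht
    have ha : t ≤ cl w Y ρ := min_le_left _ _
    have hb : t ≤ cl w Y ρ' := min_le_right _ _
    have h1 : ‖ρ - w‖ ≤ Real.exp (-t) :=
      le_trans (dist w ρ Y (by linarith)) (Real.exp_le_exp.2 (by linarith))
    have h2 : ‖ρ' - w‖ ≤ Real.exp (-t) :=
      le_trans (dist w ρ' Y (by linarith)) (Real.exp_le_exp.2 (by linarith))
    have h3 : ‖ρ - ρ'‖ ≤ 2 * Real.exp (-t) := by
      have h4 : ρ - ρ' = (ρ - w) - (ρ' - w) := by ring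
      have h5 := norm_sub_le (ρ - w) (ρ' - w)
      rw [← h4] at h5
      linarith
    have hpos : 0 < ‖ρ - ρ'‖ := norm_pos_iff.2 (sub_ne_zero.2 hne)
    have h6 := Real.log_le_log hpos h3
    rw [Real.log_mul (by norm_num) (Real.exp_pos _).ne', Real.log_exp] at h6
    have h7 : 0 ≤ Real.posLog ‖ρ‖ := Real.posLog_nonneg
    have h8 : 0 ≤ Real.posLog ‖ρ'‖ := Real.posLog_nonneg
    linarith

lemma pair (w ρ ρ' : ℂ) (Y : ℝ) (hY : 0 < Y) (hne : ρ ≠ ρ') : cl w Y ρ * cl w Y ρ' ≤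
    Y * (Real.posLog ‖ρ‖ + Real.posLog ‖ρ'‖ - Real.log ‖ρ - ρ'‖ + Real.log 2) := by
  have h1 := min_le w ρ ρ' Y hne
  have ha := nonneg w ρ Y hY.le
  have hb := nonneg w ρ' Y hY.le
  have ha' := le w ρ Y
  have hb' := le w ρ' Y
  have h2 : cl w Y ρ * cl w Y ρ' ≤ Y * min (cl w Y ρ) (cl w Y ρ') := by
    rcases le_total (cl w Y ρ) (cl w Y ρ') with h | h
    · rw [min_eq_left h]
      nlinarith
    · rw [min_eq_right h]
      nlinarith
  exact le_trans h2 (mul_le_mul_of_nonneg_left h1 hY.le)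

lemma cont_cl (w ρ : ℂ) : Continuous fun Y : ℝ => cl w Y ρ := by
  unfold cl
  refine Continuous.neg ?_
  refine Continuous.log ?_ fun Y => (mpos _ _).ne'
  exact continuous_const.max (Real.continuous_exp.comp continuous_neg)

lemma cont (w : ℂ) (P : ℂ[X]) : Continuous fun Y : ℝ => W w Y P := by
  unfold W
  exact continuous_multiset_sum P.roots fun ρ _ => cont_cl w ρ

lemma mul (w : ℂ) (Y : ℝ) (P Q : ℂ[X]) (hP : P ≠ 0) (hQ : Q ≠ 0) :
    W w Y (P * Q) = W w Y P + W w Y Q := by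
  unfold W
  rw [roots_mul (mul_ne_zero hP hQ), Multiset.map_add, Multiset.sum_add]

lemma const (w : ℂ) (Y : ℝ) (c : ℂ) : W w Y (C c) = 0 := by
  unfold W
  rw [roots_C, Multiset.map_zero, Multiset.sum_zero]

lemma Wnonneg (w : ℂ) (Y : ℝ) (P : ℂ[X]) (hY : 0 ≤ Y) : 0 ≤ W w Y P := by
  unfold W
  refine Multiset.sum_nonneg fun x hx => ?_
  obtain ⟨ρ, -, rfl⟩ := Multiset.mem_map.1 hx
  exact nonneg w ρ Y hY

lemma bdd (w : ℂ) (P : ℂ[X]) (hP : P.eval w ≠ 0) : ∃ b : ℝ, ∀ Y : ℝ, W w Y P ≤ b := by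
  refine ⟨(P.roots.map fun ρ => - Real.log (min 1 ‖ρ - w‖)).sum, fun Y => ?_⟩
  unfold W
  refine Multiset.sum_map_le_sum_map _ _ fun ρ hρ => ?_
  have hne : ρ ≠ w := by
    rintro rfl
    exact hP (isRoot_of_mem_roots hρ)
  have hpos : 0 < min 1 ‖ρ - w‖ := lt_min one_pos (norm_pos_iff.2 (sub_ne_zero.2 hne))
  have h := Real.log_le_log hpos (le_max_left (min 1 ‖ρ - w‖) (Real.exp (-Y)))
  unfold cl
  linarith

lemma root (w : ℂ) (Y : ℝ) (P : ℂ[X]) (hY : 0 ≤ Y) (hP : P ≠ 0) (h : P.eval w = 0) :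
    Y ≤ W w Y P := by
  unfold W
  have hm : w ∈ P.roots := (mem_roots hP).2 h
  have h1 : cl w Y w ∈ P.roots.map (cl w Y) := Multiset.mem_map_of_mem _ hm
  have h2 := Multiset.single_le_sum (s := P.roots.map (cl w Y)) (fun x hx => by
    obtain ⟨ρ, -, rfl⟩ := Multiset.mem_map.1 hx
    exact nonneg w ρ Y hY) _ h1
  rwa [self] at h2

end ClL

theorem clStmt : ClStmt where
  nonneg := ClL.nonneg
  le := ClL.le
  self := ClL.self
  dist := ClL.dist
  scale := ClL.scale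
  pair := ClL.pair
  cont := ClL.cont
  mul := ClL.mul
  const := ClL.const
  Wnonneg := ClL.Wnonneg
  bdd := ClL.bdd
  root := ClL.root

end LogPow

end

section

open Polynomial NumberField Finset

namespace LogPow

namespace SumMinL

lemma key (l Y : ℝ) (hl : 0 < l) (hY : 0 ≤ Y) (N : ℕ) :
    2 * l * ∑ m ∈ range (N + 1), max (Y - m * l) 0 ≤
      2 * l * Y + (Y ^ 2 - (max (Y - N * l) 0) ^ 2) := by
  induction N with
  | zero => simp [max_eq_left hY]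
  | succ N ih =>
    rw [sum_range_succ, mul_add]
    have h : 2 * l * max (Y - ((N + 1 : ℕ) : ℝ) * l) 0 ≤
        (max (Y - N * l) 0) ^ 2 - (max (Y - ((N + 1 : ℕ) : ℝ) * l) 0) ^ 2 := by
      push_cast
      rcases le_total (Y - ((N : ℝ) + 1) * l) 0 with h | h
      · rw [max_eq_right h]
        nlinarith [sq_nonneg (max (Y - N * l) 0)]
      · rw [max_eq_left h, max_eq_left (by linarith)]
        nlinarith [sq_nonneg l]
    linarith

open MeasureTheory Set Real Filter in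
lemma mah (p : ℂ[X]) (b : ℝ) (hb : 0 < b) (h : ∀ z : ℂ, ‖z‖ = 1 → ‖p.eval z‖ ≤ b) :
    p.mahlerMeasure ≤ b := by
  by_cases hp : p = 0
  · simp [hp, hb.le]
  rw [show b = rexp (circleAverage (fun _ ↦ log b) 0 1)
    by simp [circleAverage_def, mul_assoc, exp_log hb], mahlerMeasure_def_of_ne_zero hp,
    circleAverage_def, smul_eq_mul]
  gcongr
  apply intervalIntegral.integral_mono_ae_restrict (by positivity)
    p.intervalIntegrable_mahlerMeasure (by simp)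
  rw [EventuallyLE, eventually_iff_exists_mem]
  use {x : ℝ | eval (circleMap 0 1 x) p ≠ 0}
  constructor
  · rw [mem_ae_iff, compl_def, Measure.restrict_apply' (by simp)]
    apply (Set.Finite.of_sdiff _ <| Set.finite_singleton (2 * π)).measure_zero
    simp only [ne_eq, Set.mem_ofPred_eq, Decidable.not_not, Set.inter_sdiff_assoc,
      Set.Icc_sdiff_right]
    rw [Set.ofPred_inter_eq_sep]
    apply Set.Finite.of_finite_image (f := circleMap 0 1)
      ((Multiset.finite_toSet p.roots).subset _)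
      <| fun _ h _ k l ↦ injOn_circleMap_of_abs_sub_le' one_ne_zero (by linarith) h.1 k.1 l
    simp [hp]
  · intro x hx
    exact Real.log_le_log (norm_pos_iff.2 hx) (h _ (by simp))

end SumMinL

theorem sumMin : SumMinStmt := by
  intro N l Y hl hY
  have e : ∑ m ∈ range N, min ((m : ℝ) * l) Y = N * Y - ∑ m ∈ range N, max (Y - m * l) 0 := by
    rw [show (N : ℝ) * Y = ∑ _m ∈ range N, Y by simp, ← sum_sub_distrib]
    refine sum_congr rfl fun m _ => ?_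
    rcases le_total ((m : ℝ) * l) Y with h | h
    · rw [min_eq_left h, max_eq_left (by linarith)]; ring
    · rw [min_eq_right h, max_eq_right (by linarith)]; ring
  have h1 := SumMinL.key l Y hl hY N
  rw [sum_range_succ] at h1
  have h2 : 0 ≤ max (Y - N * l) 0 := le_max_right _ _
  have h3 : ∑ m ∈ range N, max (Y - m * l) 0 ≤ Y + Y ^ 2 / (2 * l) := by
    have h4 : Y + Y ^ 2 / (2 * l) = (2 * l * Y + Y ^ 2) / (2 * l) := by field_simp
    rw [h4, le_div_iff₀ (by positivity)]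
    nlinarith [sq_nonneg (max (Y - N * l) 0), mul_nonneg hl.le h2]
  rw [e]
  linarith

theorem mahlerStmt : MahlerStmt := by
  intro P b h
  have hb : 0 ≤ b := (norm_nonneg _).trans (h 1 (by simp))
  refine le_of_forall_pos_le_add fun ε hε => ?_
  exact SumMinL.mah P (b + ε) (by linarith) fun z hz => (h z hz).trans (by linarith)

end LogPow

end
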