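import Pool.Agent.Mg.F655169a.Gc9f9fa
import Pool.Agent.Mg.F655169a.G47c8bf
import Pool.Agent.Mg.F655169a.G7edb1d

section

/-! The resultant inequality for `W`. -/

open Polynomial NumberField Finset

namespace LogPow

namespace ResWL

theorem sum_mul_sum (s t : Multiset ℂ) (f g : ℂ → ℝ) :
    (s.map f).sum * (t.map g).sum = ((s ×ˢ t).map fun r : ℂ × ℂ => f r.1 * g r.2).sum := by
  induction s using Multiset.induction_on with
  | empty => simp
  | cons a s ih =>
    rw [Multiset.cons_product, Multiset.map_add, Multiset.sum_add, ← ih, Multiset.map_cons,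
      Multiset.sum_cons, add_mul, Multiset.map_map]
    congr 1
    rw [← Multiset.sum_map_mul_left]
    rfl

theorem ne_of_coprime {P Q : ℂ[X]} (h : IsCoprime P Q) {a b : ℂ} (ha : a ∈ P.roots)
    (hb : b ∈ Q.roots) : a ≠ b := by
  rintro rfl
  obtain ⟨u, v, huv⟩ := h
  have h1 : P.eval a = 0 := (isRoot_of_mem_roots ha)
  have h2 : Q.eval a = 0 := (isRoot_of_mem_roots hb)
  have := congrArg (eval a) huv
  simp [h1, h2] at this

end ResWL

open ResWL

theorem resW (hc : ClStmt) : ResWStmt := by
  intro K _ φ S H w Y P Q hY hP hQ hPQ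
  have hco : IsCoprime (P.map φ) (Q.map φ) := by
    have := hPQ.map (mapRingHom φ)
    simpa using this
  have hres := H.res P Q hP hQ hPQ
  have hcP : Multiset.card (P.map φ).roots = P.natDegree := by
    rw [IsAlgClosed.card_roots_eq_natDegree, natDegree_map]
  have hcQ : Multiset.card (Q.map φ).roots = Q.natDegree := by
    rw [IsAlgClosed.card_roots_eq_natDegree, natDegree_map]
  unfold W
  rw [sum_mul_sum]
  set T := (P.map φ).roots ×ˢ (Q.map φ).roots with hT
  have hcard : (Multiset.card T : ℝ) = (P.natDegree : ℝ) * (Q.natDegree : ℝ) := by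
    rw [hT, Multiset.card_product, hcP, hcQ]
    push_cast
    ring
  have hle : (T.map fun r : ℂ × ℂ => cl w Y r.1 * cl w Y r.2).sum ≤
      (T.map fun r : ℂ × ℂ => Y * ((Real.posLog ‖r.1‖ + Real.posLog ‖r.2‖ -
        Real.log ‖r.1 - r.2‖) + Real.log 2)).sum := by
    apply Multiset.sum_map_le_sum_map
    rintro ⟨a, b⟩ hab
    rw [hT, Multiset.mem_product] at hab
    exact hc.pair w a b Y hY (ne_of_coprime hco hab.1 hab.2)
  refine hle.trans ?_
  rw [Multiset.sum_map_mul_left, Multiset.sum_map_add]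
  apply mul_le_mul_of_nonneg_left _ hY.le
  have hconst : (T.map fun _ : ℂ × ℂ => Real.log 2).sum =
      (P.natDegree : ℝ) * (Q.natDegree : ℝ) * Real.log 2 := by
    rw [Multiset.map_const', Multiset.sum_replicate, nsmul_eq_mul, hcard]
  rw [hconst]
  linarith

end LogPow

end

section

/-! The resultant inequality for the height of integral polynomials. -/

open Polynomial NumberField Finset

namespace LogPow

namespace HOResL

theorem log_prod (s : Multiset ℂ) (f : ℂ → ℂ) (h : (s.map f).prod ≠ 0) :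
    Real.log ‖(s.map f).prod‖ = (s.map fun x => Real.log ‖f x‖).sum := by
  induction s using Multiset.induction_on with
  | empty => simp
  | cons a s ih =>
    rw [Multiset.map_cons, Multiset.prod_cons] at h
    rw [Multiset.map_cons, Multiset.prod_cons, Multiset.map_cons, Multiset.sum_cons, norm_mul,
      Real.log_mul (norm_ne_zero_iff.2 (left_ne_zero_of_mul h))
        (norm_ne_zero_iff.2 (right_ne_zero_of_mul h)), ih (right_ne_zero_of_mul h)]

theorem sum_prod (s t : Multiset ℂ) (f : ℂ × ℂ → ℝ) :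
    ((s ×ˢ t).map f).sum = (s.map fun a => (t.map fun b => f (a, b)).sum).sum := by
  induction s using Multiset.induction_on with
  | empty => simp
  | cons a s ih =>
    rw [Multiset.cons_product, Multiset.map_add, Multiset.sum_add, ih, Multiset.map_cons,
      Multiset.sum_cons, Multiset.map_map]
    rfl

theorem row (q : ℂ[X]) (ρ : ℂ) (h : q.eval ρ ≠ 0) :
    (q.roots.map fun b => Real.posLog ‖ρ‖ + Real.posLog ‖b‖ - Real.log ‖ρ - b‖).sum =
      q.natDegree * Real.posLog ‖ρ‖ + q.logMahlerMeasure - Real.log ‖q.eval ρ‖ := by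
  have e := (IsAlgClosed.splits q).eval_eq_prod_roots ρ
  rw [e] at h
  rw [e, norm_mul, Real.log_mul (norm_ne_zero_iff.2 (left_ne_zero_of_mul h))
    (norm_ne_zero_iff.2 (right_ne_zero_of_mul h)), log_prod _ _ (right_ne_zero_of_mul h),
    logMahlerMeasure_eq_log_leadingCoeff_add_sum_log_roots, Multiset.sum_map_sub,
    Multiset.sum_map_add, Multiset.map_const', Multiset.sum_replicate,
    (IsAlgClosed.splits q).natDegree_eq_card_roots, nsmul_eq_mul]
  ring

theorem cplx (p q : ℂ[X]) (h : p.resultant q ≠ 0) :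
    ((p.roots ×ˢ q.roots).map fun r : ℂ × ℂ =>
        Real.posLog ‖r.1‖ + Real.posLog ‖r.2‖ - Real.log ‖r.1 - r.2‖).sum =
      q.natDegree * p.logMahlerMeasure + p.natDegree * q.logMahlerMeasure -
        Real.log ‖p.resultant q‖ := by
  have e := resultant_eq_prod_eval p q q.natDegree le_rfl (IsAlgClosed.splits p)
  rw [e] at h
  have h2 := right_ne_zero_of_mul h
  have h3 : ∀ ρ ∈ p.roots, q.eval ρ ≠ 0 := fun ρ hρ h0 =>
    h2 (Multiset.prod_eq_zero (Multiset.mem_map.2 ⟨ρ, hρ, h0⟩))
  rw [sum_prod, Multiset.map_congr rfl fun ρ hρ => row q ρ (h3 ρ hρ), e, norm_mul,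
    Real.log_mul (norm_ne_zero_iff.2 (left_ne_zero_of_mul h)) (norm_ne_zero_iff.2 h2),
    log_prod _ _ h2, norm_pow, Real.log_pow,
    logMahlerMeasure_eq_log_leadingCoeff_add_sum_log_roots p, Multiset.sum_map_sub,
    Multiset.sum_map_add, Multiset.map_const', Multiset.sum_replicate, Multiset.sum_map_mul_left,
    ← (IsAlgClosed.splits p).natDegree_eq_card_roots, nsmul_eq_mul]
  ring

end HOResL

theorem hORes (h : ResMemStmt) : HOResStmt := by
  intro K _ _ φ hN P Q _ _ hc
  have hi : Function.Injective (psi φ) :=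
    φ.injective.comp (FaithfulSMul.algebraMap_injective (𝓞 K) K)
  have e : (P.map (psi φ)).resultant (Q.map (psi φ)) = psi φ (P.resultant Q) := by
    rw [natDegree_map_eq_of_injective hi, natDegree_map_eq_of_injective hi, resultant_map_map]
  have hc' : IsCoprime (P.map (psi φ)) (Q.map (psi φ)) := by
    have := hc.map (mapRingHom φ)
    simpa only [coe_mapRingHom, Polynomial.map_map, psi] using this
  have h0 := resultant_ne_zero _ _ hc'
  rw [HOResL.cplx _ _ h0, natDegree_map_eq_of_injective hi P, natDegree_map_eq_of_injective hi Q]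
  rw [e] at h0
  have h1 := Ideal.absNorm_dvd_absNorm_of_le ((Ideal.span_singleton_le_iff_mem _).2 (h _ P Q))
  have h2 := hN (P.resultant Q)
  have h3 : (0 : ℝ) < ‖psi φ (P.resultant Q)‖ := norm_pos_iff.2 h0
  have h4 : Ideal.absNorm (Ideal.span {P.resultant Q}) ≠ 0 := by
    intro h5
    rw [h5, Nat.cast_zero] at h2
    exact (pow_pos h3 2).ne h2
  have h5 := Nat.le_of_dvd (Nat.pos_of_ne_zero h4) h1
  have h6 := ne_zero_of_dvd_ne_zero h4 h1
  rw [map_mul, map_pow, map_pow] at h5 h6
  have h7 : ((Ideal.absNorm P.contentIdeal : ℝ)) ^ Q.natDegree *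
      (Ideal.absNorm Q.contentIdeal : ℝ) ^ P.natDegree ≤ ‖psi φ (P.resultant Q)‖ ^ 2 := by
    rw [← h2]
    exact_mod_cast h5
  have a1 : ((Ideal.absNorm P.contentIdeal : ℝ)) ^ Q.natDegree ≠ 0 := by
    exact_mod_cast left_ne_zero_of_mul h6
  have a2 : ((Ideal.absNorm Q.contentIdeal : ℝ)) ^ P.natDegree ≠ 0 := by
    exact_mod_cast right_ne_zero_of_mul h6
  have h8 := Real.log_le_log (lt_of_le_of_ne (by positivity) (mul_ne_zero a1 a2).symm) h7
  rw [Real.log_mul a1 a2, Real.log_pow, Real.log_pow, Real.log_pow] at h8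
  have e' : resultant (P.map (psi φ)) (Q.map (psi φ)) P.natDegree Q.natDegree =
      psi φ (P.resultant Q) := resultant_map_map _ _ _ _ _
  rw [e']
  unfold hO
  push_cast at h8
  linarith

end LogPow

end

section

/-! The resultant inequality with a minimum, and two facts on `pairSum`. -/

open Polynomial NumberField Finset

namespace LogPow2

open LogPow

namespace ResMinL

theorem const_sum (p q : ℂ[X]) (c : ℝ) :
    ((p.roots ×ˢ q.roots).map fun _ : ℂ × ℂ => c).sum =
      (p.natDegree : ℝ) * (q.natDegree : ℝ) * c := by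
  rw [Multiset.map_const', Multiset.sum_replicate, nsmul_eq_mul, Multiset.card_product,
    IsAlgClosed.card_roots_eq_natDegree, IsAlgClosed.card_roots_eq_natDegree, Nat.cast_mul]

theorem swap (s t : Multiset ℂ) (f : ℂ → ℂ → ℝ) :
    (t.map fun b => (s.map fun a => f a b).sum).sum =
      ((s ×ˢ t).map fun r : ℂ × ℂ => f r.1 r.2).sum := by
  rw [HOResL.sum_prod]
  exact (Multiset.sum_map_sum_map s t (f := f)).symm

end ResMinL

open ResMinL

theorem resMin (h : ClMinStmt) : ResMinStmt := by
  intro K _ φ ht H w Y P Q hY hP hQ hPQ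
  have hco : IsCoprime (P.map φ) (Q.map φ) := by
    have := hPQ.map (mapRingHom φ)
    simpa using this
  have hres := H.res P Q hP hQ hPQ
  have hc := const_sum (P.map φ) (Q.map φ) (Real.log 2)
  rw [natDegree_map, natDegree_map] at hc
  unfold W
  rw [swap (P.map φ).roots (Q.map φ).roots fun ρ γ => cl w (cl w Y γ) ρ]
  have hle : (((P.map φ).roots ×ˢ (Q.map φ).roots).map
      fun r : ℂ × ℂ => cl w (cl w Y r.2) r.1).sum ≤
      (((P.map φ).roots ×ˢ (Q.map φ).roots).map fun r : ℂ × ℂ =>
        (Real.posLog ‖r.1‖ + Real.posLog ‖r.2‖ - Real.log ‖r.1 - r.2‖) + Real.log 2).sum := by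
    apply Multiset.sum_map_le_sum_map
    rintro ⟨a, b⟩ hab
    rw [Multiset.mem_product] at hab
    dsimp only
    rw [h w a Y _ (ClL.nonneg w b Y hY) (ClL.le w b Y)]
    exact ClL.min_le w a b Y (ResWL.ne_of_coprime hco hab.1 hab.2)
  refine hle.trans ?_
  rw [Multiset.sum_map_add, hc]
  unfold pairSum at hres
  linarith

theorem pairStmt : PairStmt where
  conj := fun p q => by
    unfold pairSum
    rw [(IsAlgClosed.splits p).roots_map, (IsAlgClosed.splits q).roots_map, HOResL.sum_prod,
      HOResL.sum_prod, Multiset.map_map]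
    refine congrArg Multiset.sum (Multiset.map_congr rfl fun a _ => ?_)
    simp only [Function.comp_apply, Multiset.map_map]
    refine congrArg Multiset.sum (Multiset.map_congr rfl fun b _ => ?_)
    simp only [← map_sub, Complex.norm_conj]
  low := fun p q hpq => by
    have hc := const_sum p q (-Real.log 2)
    rw [← mul_neg, ← hc]
    unfold pairSum
    apply Multiset.sum_map_le_sum_map
    rintro ⟨a, b⟩ hab
    rw [Multiset.mem_product] at hab
    have := ClL.log_sub_le a b (ResWL.ne_of_coprime hpq hab.1 hab.2)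
    dsimp only
    linarith

end LogPow2

end

section

open Polynomial NumberField Finset

namespace LogPow

namespace ResMemL

theorem prod_mem {R : Type} [CommRing R] (I : Ideal R) {n : ℕ} (x : Fin n → R)
    (h : ∀ i, x i ∈ I) : ∏ i, x i ∈ I ^ n := by
  have := Ideal.prod_mem_prod (s := (univ : Finset (Fin n))) (I := fun _ => I) (x := x)
    fun i _ => h i
  rwa [prod_const, card_univ, Fintype.card_fin] at this

end ResMemL

theorem resMem : ResMemStmt := by
  intro R _ P Q
  rw [resultant, Matrix.det_apply']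
  refine Ideal.sum_mem _ fun σ _ => Ideal.mul_mem_left _ _ ?_
  rw [Fin.prod_univ_add, mul_comm]
  refine Ideal.mul_mem_mul (ResMemL.prod_mem _ _ fun j => ?_) (ResMemL.prod_mem _ _ fun j => ?_)
  · rw [sylvester, Matrix.of_apply, Fin.addCases_left]
    split_ifs
    · exact coeff_mem_contentIdeal _ _
    · exact zero_mem _
  · rw [sylvester, Matrix.of_apply, Fin.addCases_right]
    split_ifs
    · exact coeff_mem_contentIdeal _ _
    · exact zero_mem _

end LogPow

end

section

/-! The resultant inequality for the absolute height of integral polynomials. -/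

open Polynomial NumberField Finset

namespace LogPow2

open LogPow

namespace HAResL

variable {K : Type} [Field K] [NumberField K]

omit [NumberField K] in
theorem one (φ : K →+* ℂ) (P Q : (𝓞 K)[X])
    (hc : IsCoprime (P.map (algebraMap (𝓞 K) K)) (Q.map (algebraMap (𝓞 K) K))) :
    psi φ (P.resultant Q) ≠ 0 ∧ pairSum (P.map (psi φ)) (Q.map (psi φ)) =
      Q.natDegree * (P.map (psi φ)).logMahlerMeasure +
        P.natDegree * (Q.map (psi φ)).logMahlerMeasure - Real.log ‖psi φ (P.resultant Q)‖ := by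
  have hi : Function.Injective (psi φ) :=
    φ.injective.comp (FaithfulSMul.algebraMap_injective (𝓞 K) K)
  have e : (P.map (psi φ)).resultant (Q.map (psi φ)) = psi φ (P.resultant Q) := by
    rw [natDegree_map_eq_of_injective hi, natDegree_map_eq_of_injective hi, resultant_map_map]
  have hc' : IsCoprime (P.map (psi φ)) (Q.map (psi φ)) := by
    have := hc.map (mapRingHom φ)
    simpa only [coe_mapRingHom, Polynomial.map_map, psi] using this
  have h0 := resultant_ne_zero _ _ hc'
  refine ⟨e ▸ h0, ?_⟩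
  rw [pairSum, HOResL.cplx _ _ h0, e, natDegree_map_eq_of_injective hi P,
    natDegree_map_eq_of_injective hi Q]

theorem low (P Q : (𝓞 K)[X]) (h4 : Ideal.absNorm (Ideal.span {P.resultant Q}) ≠ 0) :
    Q.natDegree * Real.log (Ideal.absNorm P.contentIdeal) +
      P.natDegree * Real.log (Ideal.absNorm Q.contentIdeal) ≤
        Real.log (Ideal.absNorm (Ideal.span {P.resultant Q})) := by
  have h1 := Ideal.absNorm_dvd_absNorm_of_le
    ((Ideal.span_singleton_le_iff_mem _).2 (resMem _ P Q))
  have h5 := Nat.le_of_dvd (Nat.pos_of_ne_zero h4) h1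
  have h6 := ne_zero_of_dvd_ne_zero h4 h1
  rw [map_mul, map_pow, map_pow] at h5 h6
  have h7 : ((Ideal.absNorm P.contentIdeal : ℝ)) ^ Q.natDegree *
      (Ideal.absNorm Q.contentIdeal : ℝ) ^ P.natDegree ≤
        Ideal.absNorm (Ideal.span {P.resultant Q}) := by
    exact_mod_cast h5
  have a1 : ((Ideal.absNorm P.contentIdeal : ℝ)) ^ Q.natDegree ≠ 0 := by
    exact_mod_cast left_ne_zero_of_mul h6
  have a2 : ((Ideal.absNorm Q.contentIdeal : ℝ)) ^ P.natDegree ≠ 0 := by
    exact_mod_cast right_ne_zero_of_mul h6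
  have h8 := Real.log_le_log (lt_of_le_of_ne (by positivity) (mul_ne_zero a1 a2).symm) h7
  rwa [Real.log_mul a1 a2, Real.log_pow, Real.log_pow] at h8

end HAResL

theorem hARes (h : NormProdStmt) : HAResStmt := by
  intro K _ _ P Q _ _ hc
  have h1 := fun σ : K →+* ℂ => HAResL.one σ P Q hc
  have h2 := h K (P.resultant Q)
  have h3 : ∀ σ ∈ (univ : Finset (K →+* ℂ)), ‖psi σ (P.resultant Q)‖ ≠ 0 :=
    fun σ _ => norm_ne_zero_iff.2 (h1 σ).1
  have h4 : Ideal.absNorm (Ideal.span {P.resultant Q}) ≠ 0 := by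
    intro h5
    rw [h5, Nat.cast_zero] at h2
    exact prod_ne_zero_iff.2 h3 h2.symm
  have h5 := HAResL.low P Q h4
  rw [h2, Real.log_prod h3] at h5
  rw [sum_congr rfl fun σ _ => (h1 σ).2, sum_sub_distrib, sum_add_distrib, ← mul_sum, ← mul_sum]
  unfold hA
  linarith

end LogPow2

end
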