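import Pool.Agent.Mg.F655169a.Gc9f9fa

/-! Choice of the parameters. -/

namespace LogPow
open Polynomial NumberField Finset

namespace Num0L

lemma floor_sq {x c d : ℝ} (hx : 10000 ≤ x) (hc : 0 < c) (h : c * x ^ 2 = d) :
    c * (⌊x⌋₊ : ℝ) ^ 2 ≤ d ∧ 0.9998 * d ≤ c * (⌊x⌋₊ : ℝ) ^ 2 ∧ (⌊x⌋₊ : ℝ) ≤ x ∧
      x - 1 ≤ (⌊x⌋₊ : ℝ) := by
  have h1 : (⌊x⌋₊ : ℝ) ≤ x := Nat.floor_le (by linarith)
  have h2 : x - 1 ≤ (⌊x⌋₊ : ℝ) := by linarith [Nat.lt_floor_add_one x]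
  have h3 : 0.9999 * x ≤ (⌊x⌋₊ : ℝ) := by linarith
  have h4 : (0.9999 * x) ^ 2 ≤ (⌊x⌋₊ : ℝ) ^ 2 := pow_le_pow_left₀ (by linarith) h3 2
  have h5 : (⌊x⌋₊ : ℝ) ^ 2 ≤ x ^ 2 := pow_le_pow_left₀ (Nat.cast_nonneg _) h1 2
  refine ⟨h ▸ mul_le_mul_of_nonneg_left h5 hc.le, ?_, h1, h2⟩
  have h6 : 0.9998 * x ^ 2 ≤ (⌊x⌋₊ : ℝ) ^ 2 := by nlinarith [sq_nonneg x]
  calc 0.9998 * d = c * (0.9998 * x ^ 2) := by rw [← h]; ring
    _ ≤ _ := mul_le_mul_of_nonneg_left h6 hc.le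

lemma exp_ge {l : ℝ} (hl : 4 ≤ l) : l ^ 4 ≤ Real.exp (2 * l) := by
  have h := Real.pow_div_factorial_le_exp (2 * l) (by linarith) 5
  have h1 : (0 : ℝ) ≤ l ^ 4 := by positivity
  have h2 : ((Nat.factorial 5 : ℕ) : ℝ) = 120 := by norm_num [Nat.factorial]
  rw [h2] at h
  nlinarith

lemma log_le {l : ℝ} (hl : 1000000 ≤ l) : Real.log l ≤ 0.002 * l := by
  have h1 : Real.log l = Real.log (l / 1000) + Real.log 1000 := by
    rw [← Real.log_mul (by positivity) (by norm_num)]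
    congr 1
    ring
  have h2 := Real.log_le_sub_one_of_pos (show 0 < l / 1000 by positivity)
  have h3 := Real.log_le_sub_one_of_pos (show (0 : ℝ) < 1000 by norm_num)
  linarith

lemma div_bd (q : ℕ) : (q : ℝ) * (1 + 1 / 2000) + 3 ≤ (q + q / 2000 + 4 : ℕ) ∧
    ((q + q / 2000 + 4 : ℕ) : ℝ) ≤ q + q / 2000 + 4 := by
  have h1 : 2000 * (q / 2000) ≤ q := Nat.mul_div_le q 2000
  have h2 : q ≤ 2000 * (q / 2000) + 2000 := by omega
  have h3 : (2000 : ℝ) * ((q / 2000 : ℕ) : ℝ) ≤ q := by exact_mod_cast h1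
  have h4 : (q : ℝ) ≤ 2000 * ((q / 2000 : ℕ) : ℝ) + 2000 := by exact_mod_cast h2
  rw [Nat.cast_add, Nat.cast_add, Nat.cast_ofNat]
  constructor <;> linarith

lemma main {K₀ k l : ℝ} (hK : 2 ≤ K₀) (hk : 100 * K₀ ≤ k) (hk2 : 10000 * K₀ ^ 2 * k ^ 2 ≤ 2 * l)
    (hl : 10000000 * K₀ ^ 3 ≤ l) (hG : 2 * K₀ ^ 3 * (1 + Real.exp 4000) ≤ l) :
    ∃ M q q' : ℕ, Rel K₀ (Real.exp (2 * l)) k l M q q' := by
  have hK2 : 4 ≤ K₀ ^ 2 := by nlinarith
  have hK3 : 2 * K₀ ^ 2 ≤ K₀ ^ 3 := by nlinarith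
  have hl0 : 80000000 ≤ l := by linarith
  have hk0 : 200 ≤ k := by linarith
  have hkk : 20000 * k ^ 2 ≤ l := by
    have := mul_le_mul_of_nonneg_right hK2 (sq_nonneg k)
    linarith
  have hkl : k ≤ l := by
    have := mul_le_mul_of_nonneg_right hk0 (show 0 ≤ k by linarith)
    linarith
  have hy := exp_ge (l := l) (by linarith)
  have hye : Real.exp (2 * l) = Real.exp l ^ 2 := by rw [← Real.exp_nat_mul]; norm_num
  have hlogy : Real.log (Real.exp (2 * l)) = 2 * l := Real.log_exp _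
  set y := Real.exp (2 * l) with hydef
  have hlp : 0 < l := by linarith
  have hl2 : 80000000 * l ≤ l ^ 2 := by
    have := mul_le_mul_of_nonneg_right hl0 hlp.le
    linarith
  have hl3 : 80000000 * l ^ 2 ≤ l ^ 3 := by
    have := mul_le_mul_of_nonneg_right hl0 (pow_pos hlp 2).le
    linarith
  have hl4 : 80000000 * l ^ 3 ≤ l ^ 4 := by
    have := mul_le_mul_of_nonneg_right hl0 (pow_pos hlp 3).le
    linarith
  have hy0 : 0 < y := Real.exp_pos _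
  obtain ⟨m, hm0, hm⟩ : ∃ m : ℝ, 0 ≤ m ∧ 7 * k * m ^ 2 = 4 * y :=
    ⟨Real.sqrt (4 * y / (7 * k)), Real.sqrt_nonneg _, by
      rw [Real.sq_sqrt (by positivity)]; field_simp⟩
  obtain ⟨p, hp0, hp⟩ : ∃ p : ℝ, 0 ≤ p ∧ 7 * l * p ^ 2 = 5 * y * k :=
    ⟨Real.sqrt (5 * y * k / (7 * l)), Real.sqrt_nonneg _, by
      rw [Real.sq_sqrt (by positivity)]; field_simp⟩
  have hpl : l + 1 ≤ p := by
    refine le_of_sq_le_sq ?_ hp0
    have h1 : y * 200 ≤ y * k := mul_le_mul_of_nonneg_left hk0 hy0.le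
    have h2 : 7 * l * (l + 1) ^ 2 ≤ 7 * l * p ^ 2 := by
      rw [hp]
      linarith
    exact le_of_mul_le_mul_left h2 (by linarith)
  have hpm : 2 * p ≤ m := by
    refine le_of_sq_le_sq ?_ hm0
    have h1 : y * (20000 * k ^ 2) ≤ y * l := mul_le_mul_of_nonneg_left hkk hy0.le
    have h2 : 7 * k * l * (2 * p) ^ 2 = 20 * (y * k ^ 2) := by linear_combination 4 * k * hp
    have h3 : 7 * k * l * m ^ 2 = 4 * (y * l) := by linear_combination l * hm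
    have h4 : 0 ≤ y * k ^ 2 := by positivity
    have h5 : 7 * k * l * (2 * p) ^ 2 ≤ 7 * k * l * m ^ 2 := by rw [h2, h3]; linarith
    exact le_of_mul_le_mul_left h5 (by positivity)
  have hme : m ≤ Real.exp l := by
    refine le_of_sq_le_sq ?_ (Real.exp_pos _).le
    rw [← hye]
    have := mul_le_mul_of_nonneg_right hk0 (sq_nonneg m)
    linarith [sq_nonneg m]
  obtain ⟨a1, a2, a3, a4⟩ := floor_sq (x := m) (by linarith) (by positivity) hm
  obtain ⟨b1, b2, b3, b4⟩ := floor_sq (x := p) (by linarith) (by positivity) hp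
  obtain ⟨c1, c2⟩ := div_bd ⌊p⌋₊
  refine ⟨⌊m⌋₊, ⌊p⌋₊, ⌊p⌋₊ + ⌊p⌋₊ / 2000 + 4, hK, by linarith, by linarith, a1, a2, b1, b2, c1,
    by linarith, by linarith, ?_, ?_, ?_, ?_, by linarith, by linarith, ?_⟩
  · have h0 : (0 : ℝ) < ⌊m⌋₊ := by linarith
    rw [Real.log_mul (by positivity) h0.ne']
    have h1 := Real.log_le_sub_one_of_pos (show 0 < 2 * K₀ ^ 2 by positivity)
    have h2 : Real.log (⌊m⌋₊ : ℝ) ≤ l := by
      rw [Real.log_le_iff_le_exp h0]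
      linarith
    linarith
  · have h0 : (0 : ℝ) < ⌊p⌋₊ := by linarith
    have h1 : y * 200 ≤ y * k := mul_le_mul_of_nonneg_left hk0 hy0.le
    have h2 : y ≤ l * (⌊p⌋₊ : ℝ) ^ 2 := by linarith
    have h3 := Real.log_le_log hy0 h2
    rw [hlogy, Real.log_mul (by positivity) (by positivity), Real.log_pow] at h3
    have h4 := log_le (l := l) (by linarith)
    push_cast at h3
    linarith
  · have h1 := Real.log_le_sub_one_of_pos (show 0 < K₀ by positivity)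
    have h2 : (100 * K₀) ^ 2 ≤ k ^ 2 := pow_le_pow_left₀ (by positivity) hk 2
    have h3 := mul_le_mul_of_nonneg_right hK (show 0 ≤ K₀ by positivity)
    linarith
  · have h1 : 2 * (K₀ * k ^ 2) ≤ K₀ * (K₀ * k ^ 2) :=
      mul_le_mul_of_nonneg_right hK (by positivity)
    linarith
  · have h1 : (1 : ℝ) ≤ ⌊p⌋₊ := by linarith
    have h2 := mul_le_mul_of_nonneg_right h1 (show (0 : ℝ) ≤ ⌊p⌋₊ by linarith)
    linarith

end Num0L

theorem num0 : Num0Stmt := by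
  intro K₀ hK
  refine ⟨Real.exp (2 * (10000000 * K₀ ^ 3 + 2 * K₀ ^ 3 * (1 + Real.exp 4000))), ?_⟩
  intro y k hy hk hk'
  have hy0 : 0 < y := lt_of_lt_of_le (Real.exp_pos _) hy
  have h1 := (Real.le_log_iff_exp_le hy0).2 hy
  have h2 : 0 ≤ 10000000 * K₀ ^ 3 := by positivity
  have h3 : 0 ≤ 2 * K₀ ^ 3 * (1 + Real.exp 4000) := by positivity
  have h4 : 100 * K₀ * k ≤ Real.sqrt (Real.log y) := by
    have h5 := mul_le_mul_of_nonneg_left hk' (show 0 ≤ 100 * K₀ by positivity)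
    rwa [← mul_assoc, mul_one_div_cancel (by positivity), one_mul] at h5
  have h6 : (100 * K₀ * k) ^ 2 ≤ Real.log y := by
    have h7 := pow_le_pow_left₀ (mul_nonneg (by positivity) (by linarith)) h4 2
    rwa [Real.sq_sqrt (by linarith)] at h7
  have h8 := Num0L.main (l := Real.log y / 2) hK hk (by linarith) (by linarith) (by linarith)
  rwa [mul_div_cancel₀ _ (two_ne_zero), Real.exp_log hy0] at h8

end LogPow
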