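import Pool.Agent.Mg.F655169a.G47c8bf

/-! The error terms and the main terms. -/

open Polynomial NumberField Finset

namespace LogPow2

open LogPow

namespace N4L

theorem base {K₀ y k l M q q' N U V : ℝ} (h : Rel2 K₀ y k l M q q') (hb : Bd M q N U V) :
    ∃ Z : ℝ, y ^ 2 = Z * l ∧ 80000000 ≤ l ∧ 0 < y ∧ 100000000 ≤ Z ∧ 100000 * k ≤ y ∧
      M ^ 2 * q ^ 2 ≤ 0.2814 * Z ∧ 0.5 * Z ≤ N ∧ N ≤ 0.5003 * Z := by
  obtain ⟨b1, b2, -, -⟩ := hb
  obtain ⟨hK, hk, -, m1, m2, q1, q2, r1, -, r3, -, -, -, -, l1, l2⟩ := h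
  have K3 : 8 ≤ K₀ ^ 3 := by
    have := pow_le_pow_left₀ (by norm_num) hK 3
    linarith
  have l0 : 0 < l := by linarith
  have k0 : 0 < k := by linarith
  have q0 : 80000000 ≤ q := by linarith
  have M0 : 80000000 ≤ M := by linarith
  have M2 : (1000 : ℝ) ^ 2 ≤ M ^ 2 := pow_le_pow_left₀ (by norm_num) (by linarith) 2
  have ky : k * 1000 ^ 2 ≤ k * M ^ 2 := mul_le_mul_of_nonneg_left M2 k0.le
  have y0 : 0 < y := by linarith
  obtain ⟨Z, hZ⟩ : ∃ Z, y ^ 2 = Z * l := ⟨y ^ 2 / l, by field_simp⟩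
  have kl : 0 < k * l := by positivity
  have u1 : M ^ 2 * q ^ 2 ≤ 0.2814 * Z := by
    have h := mul_le_mul m1 q1 (by positivity) (by positivity)
    refine le_of_mul_le_mul_left ?_ kl
    have e : 0.67 * y * (0.42 * y * k) = 0.2814 * (k * l) * Z := by
      linear_combination 0.2814 * k * hZ
    rw [e] at h
    linarith
  have u2 : 0.9998 ^ 2 * 0.2814 * Z ≤ M ^ 2 * q ^ 2 := by
    have h := mul_le_mul m2 q2 (by positivity) (by positivity)
    refine le_of_mul_le_mul_left ?_ kl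
    have e : 0.9998 * (0.67 * y) * (0.9998 * (0.42 * y * k)) =
        0.9998 ^ 2 * 0.2814 * (k * l) * Z := by
      linear_combination 0.9998 ^ 2 * 0.2814 * k * hZ
    rw [e] at h
    linarith
  have u3 : (10000 : ℝ) ^ 2 * 1 ^ 2 ≤ M ^ 2 * q ^ 2 :=
    mul_le_mul (pow_le_pow_left₀ (by norm_num) (by linarith) 2)
      (pow_le_pow_left₀ (by norm_num) (by linarith) 2) (by norm_num) (by positivity)
  have u4 : (4 / 3 * M * (0.99999 * q)) ^ 2 ≤ (4 / 3 * M * (q - 3)) ^ 2 :=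
    pow_le_pow_left₀ (by positivity)
      (mul_le_mul_of_nonneg_left (by linarith) (by positivity)) 2
  have u5 : (4 / 3 * M * (0.99999 * q)) ^ 2 = 16 / 9 * 0.99999 ^ 2 * (M ^ 2 * q ^ 2) := by ring
  have Z0 : 100000000 ≤ Z := by linarith
  refine ⟨Z, hZ, by linarith, y0, Z0, by linarith, u1, by linarith, by linarith⟩

theorem err (K₀ y k l M q q' N U V : ℝ) (h : Rel2 K₀ y k l M q q') (hb : Bd M q N U V) :
    2 * N ^ 2 + 12 * (K₀ ^ 3 * M ^ 2 * q ^ 2) * N + 0.136 * y ^ 3 / l * k ≤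
      0.00002 * (y ^ 4 / l) := by
  obtain ⟨Z, hZ, l0, y0, Z0, ky, hP, hN, hN'⟩ := base h hb
  have hl := h.hl
  have hK : 0 ≤ K₀ ^ 3 := pow_nonneg (by linarith [h.hK]) 3
  have l1 : l ≠ 0 := by linarith [show 0 < l by linarith] |> ne_of_gt
  have e1 : y ^ 4 / l = Z * Z * l := by
    rw [div_eq_iff l1]
    linear_combination (y ^ 2 + Z * l) * hZ
  have e2 : 0.136 * y ^ 3 / l * k = 0.136 * (y * Z * k) := by
    rw [div_mul_eq_mul_div, div_eq_iff l1]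
    linear_combination 0.136 * y * k * hZ
  have N0 : 0 ≤ N := by linarith
  have ZZ : 0 ≤ Z * Z := mul_self_nonneg Z
  have a4 : N ^ 2 ≤ (0.5003 * Z) ^ 2 := pow_le_pow_left₀ N0 hN' 2
  have a5 : M ^ 2 * q ^ 2 * N ≤ 0.2814 * Z * (0.5003 * Z) := mul_le_mul hP hN' N0 (by linarith)
  have a6 : K₀ ^ 3 * (M ^ 2 * q ^ 2 * N) ≤ K₀ ^ 3 * (0.2814 * Z * (0.5003 * Z)) :=
    mul_le_mul_of_nonneg_left a5 hK
  have a7 : Z * Z * (10000000 * K₀ ^ 3) ≤ Z * Z * l := mul_le_mul_of_nonneg_left hl ZZ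
  have a8 : Z * Z * 80000000 ≤ Z * Z * l := mul_le_mul_of_nonneg_left l0 ZZ
  have a9 : y * Z * (100000 * k) ≤ y * Z * y :=
    mul_le_mul_of_nonneg_left ky (mul_nonneg y0.le (by linarith))
  have e3 : y * Z * y = Z * Z * l := by linear_combination Z * hZ
  rw [e1, e2]
  linarith

theorem main (K₀ y k l M q q' N U V u m c : ℝ) (h : Rel2 K₀ y k l M q q') (hb : Bd M q N U V)
    (u0 : 0 ≤ u) (u1 : u ≤ 1) (m0 : 0 ≤ m) (m9 : m ≤ 9)
    (hc : 0.272 * c + 0.00003 ≤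
      m * u / 2 - u ^ 2 * (m * (m + 1) ^ 2 * (m + 2)) / (48 * 0.999)) :
    c * (0.272 * y ^ 3 / l) * y + 0.00002 * (y ^ 4 / l) ≤
      gain N (u * y ^ 2) (Real.log q) m := by
  obtain ⟨Z, hZ, l0, y0, Z0, -, -, hN, -⟩ := base h hb
  have lq := h.hlog2
  have lp : 0 < l := by linarith
  have l1 : l ≠ 0 := lp.ne'
  have e1 : y ^ 4 / l = y ^ 2 * Z := by
    rw [div_eq_iff l1]
    linear_combination y ^ 2 * hZ
  have e2 : c * (0.272 * y ^ 3 / l) * y = 0.272 * c * (y ^ 2 * Z) := by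
    rw [← e1]
    ring
  rw [e1, e2, gain]
  generalize y ^ 2 = Y at hZ ⊢
  have Y0 : 0 ≤ Y := by rw [hZ]; positivity
  have YZ : 0 ≤ Y * Z := by positivity
  have a0 := mul_le_mul_of_nonneg_right hc YZ
  have a1 : 0.5 * Z * (m * (u * Y)) ≤ N * (m * (u * Y)) :=
    mul_le_mul_of_nonneg_right hN (by positivity)
  have b1 : m * (m + 1) * (m + 2) ≤ 9 * 10 * 11 :=
    mul_le_mul (mul_le_mul m9 (by linarith) (by linarith) (by norm_num)) (by linarith)
      (by linarith) (by norm_num)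
  have b2 : u * Y ≤ 1 * Y := mul_le_mul_of_nonneg_right u1 Y0
  have a2 : u * Y * (m * (m + 1) * (m + 2) / 6) ≤ 1 * Y * 165 :=
    mul_le_mul b2 (by linarith) (by positivity) (by positivity)
  have a3 : Y * 100000000 ≤ Y * Z := mul_le_mul_of_nonneg_left Z0 Y0
  have a4 : (u * Y) ^ 2 * (m * (m + 1) ^ 2 * (m + 2)) / (48 * Real.log q) ≤
      (u * Y) ^ 2 * (m * (m + 1) ^ 2 * (m + 2)) / (48 * (0.999 * l)) :=
    div_le_div_of_nonneg_left (by positivity) (by positivity) (by linarith)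
  have e3 : (u * Y) ^ 2 * (m * (m + 1) ^ 2 * (m + 2)) / (48 * (0.999 * l)) =
      u ^ 2 * (m * (m + 1) ^ 2 * (m + 2)) / (48 * 0.999) * (Y * Z) := by
    rw [hZ]
    field_simp
  rw [e3] at a4
  linarith

end N4L

theorem n4 : N4Stmt where
  err := N4L.err
  main := N4L.main

end LogPow2
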