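import Pool.Agent.Mg.F655169a.G47c8bf
import Pool.Agent.Mg.F655169a.G48bb37

/-! Choice of the parameters. -/

open Polynomial NumberField Finset

namespace LogPow2

open LogPow

namespace N0L

lemma main {K₀ k l : ℝ} (hK : 2 ≤ K₀) (hk : k = 100 * K₀) (hl : 10000000 * K₀ ^ 3 ≤ l) :
    ∃ M q q' : ℕ, Rel2 K₀ (Real.exp (2 * l)) k l M q q' := by
  have hK2 : 4 ≤ K₀ ^ 2 := by nlinarith
  have hK3 : 2 * K₀ ^ 2 ≤ K₀ ^ 3 := by nlinarith
  have hl0 : 80000000 ≤ l := by linarith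
  have hk0 : 200 ≤ k := by linarith
  have hk2 : k ^ 2 = 10000 * K₀ ^ 2 := by rw [hk]; ring
  have hkk : 2000 * k ^ 2 ≤ l := by linarith
  have hy := Num0L.exp_ge (l := l) (by linarith)
  have hye : Real.exp (2 * l) = Real.exp l ^ 2 := by rw [← Real.exp_nat_mul]; norm_num
  have hlogy : Real.log (Real.exp (2 * l)) = 2 * l := Real.log_exp _
  set y := Real.exp (2 * l) with hydef
  have hlp : 0 < l := by linarith
  have hl2 : 80000000 * l ≤ l ^ 2 := by
    have := mul_le_mul_of_nonneg_right hl0 hlp.le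
    linarith
  have hl3 : 80000000 * l ^ 2 ≤ l ^ 3 := by
    have := mul_le_mul_of_nonneg_right hl0 (pow_pos hlp 2).le
    linarith
  have hl4 : 80000000 * l ^ 3 ≤ l ^ 4 := by
    have := mul_le_mul_of_nonneg_right hl0 (pow_pos hlp 3).le
    linarith
  have hy0 : 0 < y := Real.exp_pos _
  obtain ⟨m, hm0, hm⟩ : ∃ m : ℝ, 0 ≤ m ∧ k * m ^ 2 = 0.67 * y :=
    ⟨Real.sqrt (0.67 * y / k), Real.sqrt_nonneg _, by
      rw [Real.sq_sqrt (by positivity)]; field_simp⟩
  obtain ⟨p, hp0, hp⟩ : ∃ p : ℝ, 0 ≤ p ∧ l * p ^ 2 = 0.42 * y * k :=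
    ⟨Real.sqrt (0.42 * y * k / l), Real.sqrt_nonneg _, by
      rw [Real.sq_sqrt (by positivity)]; field_simp⟩
  have hpl : l + 1 ≤ p := by
    refine le_of_sq_le_sq ?_ hp0
    have h1 : y * 200 ≤ y * k := mul_le_mul_of_nonneg_left hk0 hy0.le
    have h2 : l * (l + 1) ^ 2 ≤ l * p ^ 2 := by
      rw [hp]
      linarith
    exact le_of_mul_le_mul_left h2 hlp
  have hpm : 2 * p ≤ m := by
    refine le_of_sq_le_sq ?_ hm0
    have h1 : y * (2000 * k ^ 2) ≤ y * l := mul_le_mul_of_nonneg_left hkk hy0.le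
    have h2 : k * l * (2 * p) ^ 2 = 1.68 * (y * k ^ 2) := by linear_combination 4 * k * hp
    have h3 : k * l * m ^ 2 = 0.67 * (y * l) := by linear_combination l * hm
    have h4 : 0 ≤ y * k ^ 2 := by positivity
    have h5 : k * l * (2 * p) ^ 2 ≤ k * l * m ^ 2 := by rw [h2, h3]; linarith
    exact le_of_mul_le_mul_left h5 (by positivity)
  have hme : m ≤ Real.exp l := by
    refine le_of_sq_le_sq ?_ (Real.exp_pos _).le
    rw [← hye]
    have := mul_le_mul_of_nonneg_right hk0 (sq_nonneg m)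
    linarith [sq_nonneg m]
  obtain ⟨a1, a2, a3, a4⟩ := Num0L.floor_sq (x := m) (by linarith) (by positivity) hm
  obtain ⟨b1, b2, b3, b4⟩ := Num0L.floor_sq (x := p) (by linarith) hlp hp
  obtain ⟨c1, c2⟩ := Num0L.div_bd ⌊p⌋₊
  refine ⟨⌊m⌋₊, ⌊p⌋₊, ⌊p⌋₊ + ⌊p⌋₊ / 2000 + 4, hK, by linarith, Nat.cast_nonneg _, a1, a2, b1, b2,
    c1, by linarith, by linarith, ?_, ?_, ?_, ?_, hl, by linarith⟩
  · have h0 : (0 : ℝ) < ⌊m⌋₊ := by linarith
    rw [Real.log_mul (by positivity) h0.ne']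
    have h1 := Real.log_le_sub_one_of_pos (show 0 < 2 * K₀ ^ 2 by positivity)
    have h2 : Real.log (⌊m⌋₊ : ℝ) ≤ l := by
      rw [Real.log_le_iff_le_exp h0]
      linarith
    linarith
  · have h0 : (0 : ℝ) < ⌊p⌋₊ := by linarith
    have h1 : y * 200 ≤ y * k := mul_le_mul_of_nonneg_left hk0 hy0.le
    have h2 : y ≤ l * (⌊p⌋₊ : ℝ) ^ 2 := by linarith
    have h3 := Real.log_le_log hy0 h2
    rw [hlogy, Real.log_mul (by positivity) (by positivity), Real.log_pow] at h3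
    have h4 := Num0L.log_le (l := l) (by linarith)
    push_cast at h3
    linarith
  · have h1 := Real.log_le_sub_one_of_pos (show 0 < K₀ by positivity)
    have h3 := mul_le_mul_of_nonneg_right hK (show 0 ≤ K₀ by positivity)
    linarith
  · rw [hk2]
    linarith

end N0L

theorem n0 : N0Stmt := by
  intro K₀ hK
  refine ⟨Real.exp (2 * (10000000 * K₀ ^ 3)), fun y hy => ?_⟩
  have hy0 : 0 < y := lt_of_lt_of_le (Real.exp_pos _) hy
  have h1 := (Real.le_log_iff_exp_le hy0).2 hy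
  have h8 := N0L.main (l := Real.log y / 2) hK rfl (by linarith)
  rwa [mul_div_cancel₀ _ (two_ne_zero), Real.exp_log hy0] at h8

end LogPow2
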