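import Pool.Agent.Mg.F655169a.Gc9f9fa

open Polynomial NumberField Finset

namespace LogPow

namespace ProfL

theorem poly (a b c : ℝ) (M : ℕ) :
    ∑ x ∈ Icc (-(M : ℤ)) M, (a + b * (x : ℝ) ^ 2 + c * (x : ℝ) ^ 4) =
      a * (2 * M + 1) + b * (M * (M + 1) * (2 * M + 1) / 3) +
        c * (M * (M + 1) * (2 * M + 1) * (3 * M ^ 2 + 3 * M - 1) / 15) := by
  induction M with
  | zero => simp
  | succ M ih =>
    rw [Nat.cast_succ, sum_Icc_succ_eq_add_endpoints, ih]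
    push_cast
    ring

theorem abs_le {M : ℕ} {x : ℤ} (hx : x ∈ Icc (-(M : ℤ)) M) : x.natAbs ≤ M := by
  rw [mem_Icc] at hx
  omega

theorem sq_abs (x : ℤ) : ((x.natAbs : ℕ) : ℝ) ^ 2 = (x : ℝ) ^ 2 := by
  rw [Nat.cast_natAbs, Int.cast_abs, _root_.sq_abs]

theorem bd {M : ℕ} (hM : 0 < M) (q : ℕ) {x : ℤ} (hx : x ∈ Icc (-(M : ℤ)) M) :
    (prof M q x : ℝ) ≤ q - q / M ^ 2 * x ^ 2 ∧ q - q / M ^ 2 * x ^ 2 - 1 ≤ (prof M q x : ℝ) := by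
  have h1 : x.natAbs ^ 2 ≤ M ^ 2 := Nat.pow_le_pow_left (abs_le hx) 2
  have h2 : (0 : ℝ) < M := Nat.cast_pos.2 hM
  have h3 : ((q * (M ^ 2 - x.natAbs ^ 2) : ℕ) : ℝ) / ((M ^ 2 : ℕ) : ℝ) =
      q - q / M ^ 2 * x ^ 2 := by
    rw [Nat.cast_mul, Nat.cast_sub h1, Nat.cast_pow, Nat.cast_pow, sq_abs]
    field_simp
  rw [← h3, prof, ← Nat.floor_div_eq_div (K := ℝ)]
  exact ⟨Nat.floor_le (by positivity), (Nat.sub_one_lt_floor _).le⟩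

theorem sums {M q : ℕ} (h3 : 3 ≤ q) (hq : q ≤ M) :
    4 / 3 * (M : ℝ) * (q - 3) ≤ ∑ x ∈ Icc (-(M : ℤ)) M, (prof M q x : ℝ) ∧
    ∑ x ∈ Icc (-(M : ℤ)) M, (prof M q x : ℝ) ≤ 4 / 3 * q * M ∧
    ∑ x ∈ Icc (-(M : ℤ)) M, (prof M q x : ℝ) * (x.natAbs ^ 2 + x.natAbs) ≤
      4 / 15 * q * M ^ 3 + 2 * q * M ^ 2 ∧
    ∑ x ∈ Icc (-(M : ℤ)) M, (prof M q x : ℝ) ^ 2 ≤ 16 / 15 * q ^ 2 * M := by
  have hM : 0 < M := by omega
  have h3' : (3 : ℝ) ≤ q := by exact_mod_cast h3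
  have hq' : (q : ℝ) ≤ M := by exact_mod_cast hq
  have h2 : (0 : ℝ) < M := by linarith
  obtain ⟨k, hk⟩ : ∃ k : ℝ, k = q / M ^ 2 := ⟨_, rfl⟩
  have hk0 : 0 ≤ k := by rw [hk]; positivity
  have hk1 : (q : ℝ) = k * M ^ 2 := by rw [hk]; field_simp
  have hb := fun x (hx : x ∈ Icc (-(M : ℤ)) M) => hk ▸ bd hM q hx
  have hkM : 0 ≤ k * M := by positivity
  have hkM1 : k * M ≤ 1 := by
    refine le_of_mul_le_mul_right ?_ h2
    nlinarith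
  have u0 : ∑ x ∈ Icc (-(M : ℤ)) M, (prof M q x : ℝ) ≤ 4 / 3 * q * M := by
    refine (sum_le_sum (g := fun x : ℤ => q + (-k) * (x : ℝ) ^ 2 + 0 * (x : ℝ) ^ 4)
      fun x hx => by linarith [(hb x hx).1]).trans ?_
    rw [poly, hk1]
    linarith
  refine ⟨?_, u0, ?_, ?_⟩
  · refine le_trans ?_ (sum_le_sum (f := fun x : ℤ => (q - 1) + (-k) * (x : ℝ) ^ 2 +
      0 * (x : ℝ) ^ 4) fun x hx => by linarith [(hb x hx).2])
    rw [poly, hk1]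
    linarith
  · have u1 : ∑ x ∈ Icc (-(M : ℤ)) M, (prof M q x : ℝ) * (x.natAbs : ℝ) ^ 2 ≤
        4 / 15 * q * M ^ 3 := by
      refine (sum_le_sum (g := fun x : ℤ => 0 + q * (x : ℝ) ^ 2 + (-k) * (x : ℝ) ^ 4)
        fun x hx => ?_).trans ?_
      · rw [sq_abs]
        linarith [mul_le_mul_of_nonneg_right (hb x hx).1 (sq_nonneg (x : ℝ))]
      · have h5 : 0 ≤ k * M * (5 * M ^ 2 - 1) := mul_nonneg hkM (by nlinarith)
        rw [poly, hk1]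
        linarith
    have u2 : ∑ x ∈ Icc (-(M : ℤ)) M, (prof M q x : ℝ) * (x.natAbs : ℝ) ≤
        (∑ x ∈ Icc (-(M : ℤ)) M, (prof M q x : ℝ)) * M := by
      rw [sum_mul]
      exact sum_le_sum fun x hx =>
        mul_le_mul_of_nonneg_left (Nat.cast_le.2 (abs_le hx)) (Nat.cast_nonneg _)
    have u3 := mul_le_mul_of_nonneg_right u0 h2.le
    have u4 : (0 : ℝ) ≤ q * M ^ 2 := by positivity
    simp only [mul_add, sum_add_distrib]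
    linarith
  · refine (sum_le_sum (g := fun x : ℤ => q ^ 2 + (-2 * q * k) * (x : ℝ) ^ 2 +
      k ^ 2 * (x : ℝ) ^ 4) fun x hx => ?_).trans ?_
    · linarith [pow_le_pow_left₀ (Nat.cast_nonneg _) (hb x hx).1 2]
    · have h5 : 0 ≤ k ^ 2 * M := by positivity
      rw [poly, hk1]
      linarith

theorem tri_le (m : ℕ) : ((∑ τ ∈ range m, τ : ℕ) : ℝ) ≤ (m : ℝ) ^ 2 / 2 := by
  have h1 : (∑ τ ∈ range m, τ) * 2 ≤ m ^ 2 := by
    rw [sum_range_id_mul_two, sq]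
    exact Nat.mul_le_mul_left _ (Nat.sub_le _ _)
  have h2 : ((∑ τ ∈ range m, τ : ℕ) : ℝ) * 2 ≤ (m : ℝ) ^ 2 := by exact_mod_cast h1
  linarith

end ProfL

theorem profStmt (hl : LatStmt) : ProfStmt := by
  intro M q h3 hq
  obtain ⟨s1, s2, s3, s4⟩ := ProfL.sums h3 hq
  have h3' : (3 : ℝ) ≤ q := by exact_mod_cast h3
  have hN : (NN M q : ℝ) = (∑ x ∈ Icc (-(M : ℤ)) M, (prof M q x : ℝ)) ^ 2 := by
    rw [hl.NN_eq, box, sum_product, sq, sum_mul_sum]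
    simp only [mult, Nat.cast_sum, Nat.cast_mul]
  have hU : (UU M q : ℝ) =
      2 * ((∑ x ∈ Icc (-(M : ℤ)) M, (prof M q x : ℝ) * (x.natAbs ^ 2 + x.natAbs)) *
        ∑ x ∈ Icc (-(M : ℤ)) M, (prof M q x : ℝ)) := by
    rw [UU, hl.sum_idx, box, sum_product, two_mul]
    nth_rw 2 [mul_comm]
    rw [sum_mul_sum, sum_mul_sum, ← sum_add_distrib, Nat.cast_sum]
    refine sum_congr rfl fun x _ => ?_
    rw [← sum_add_distrib, Nat.cast_sum]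
    refine sum_congr rfl fun y _ => ?_
    simp only [sum_const, card_range, smul_eq_mul, mult, uu, Nat.cast_mul, Nat.cast_add,
      Nat.cast_pow]
    ring
  have hV : (VV M q : ℝ) ≤ (∑ x ∈ Icc (-(M : ℤ)) M, (prof M q x : ℝ) ^ 2) ^ 2 / 2 := by
    rw [VV, hl.sum_idx, Nat.cast_sum]
    refine (sum_le_sum fun x _ => ProfL.tri_le _).trans (le_of_eq ?_)
    rw [← sum_div, box, sum_product, sq (∑ x ∈ Icc (-(M : ℤ)) M, _), sum_mul_sum]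
    simp only [mult, Nat.cast_mul, mul_pow]
  have p0 : 0 ≤ 4 / 3 * (M : ℝ) * (q - 3) := mul_nonneg (by positivity) (by linarith)
  refine ⟨?_, ?_, ?_, ?_⟩
  · rw [hN]
    exact pow_le_pow_left₀ p0 s1 2
  · rw [hN]
    linarith [pow_le_pow_left₀ (p0.trans s1) s2 2]
  · rw [hU]
    linarith [mul_le_mul s3 s2 (p0.trans s1) (by positivity)]
  · linarith [pow_le_pow_left₀ (sum_nonneg fun _ _ => sq_nonneg _) s4 2]

end LogPow
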