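import Pool.Agent.Mg.F655169a.G47c8bf
import Pool.Agent.Mg.F655169a.G0e1328

open Polynomial NumberField Finset

namespace LogPow2

open LogPow

namespace ExpandL

theorem int_le {M : ℕ} {x : ℤ} (hx : x ∈ Icc (-(M : ℤ)) M) : ‖(x : ℂ)‖ ≤ M := by
  rw [Complex.norm_intCast]
  exact_mod_cast abs_le.2 (mem_Icc.1 hx)

theorem ch_le {j i : ℕ} (h : i ≤ j) : ‖(j.choose i : ℂ) / (j.factorial : ℂ)‖ ≤ 1 := by
  have h1 : j.choose i ≤ j.factorial := Nat.le_of_dvd j.factorial_pos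
    ⟨_, by rw [← Nat.choose_mul_factorial_mul_factorial h, mul_assoc]⟩
  rw [norm_div, Complex.norm_natCast, Complex.norm_natCast]
  exact div_le_one_of_le₀ (Nat.cast_le.2 h1) (Nat.cast_nonneg _)

theorem ex_le {x : ℂ} (hx : ‖x‖ ≤ 1) {m : ℕ} (hm : 1 ≤ m) :
    ‖Complex.exp x - ∑ j ∈ range m, x ^ j / (j.factorial : ℂ)‖ ≤ 2 * ‖x‖ ^ m ∧
      ‖∑ j ∈ range m, x ^ j / (j.factorial : ℂ)‖ ≤ 5 := by
  have h1 : (1 : ℝ) ≤ m := by exact_mod_cast hm
  have h2 := Complex.exp_bound' (x := x) (n := m) (by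
    rw [div_le_iff₀ (by positivity)]
    push_cast
    linarith)
  have h3 : ‖x‖ ^ m / m.factorial ≤ ‖x‖ ^ m :=
    div_le_self (by positivity) (by exact_mod_cast m.factorial_pos)
  have h4 : ‖x‖ ^ m ≤ 1 := pow_le_one₀ (norm_nonneg _) hx
  have h5 := (Complex.norm_exp_le_exp_norm x).trans (Real.exp_le_exp.2 hx)
  have h6 := norm_le_norm_add_norm_sub (Complex.exp x) (∑ j ∈ range m, x ^ j / (j.factorial : ℂ))
  exact ⟨by linarith, by linarith [Real.exp_one_lt_d9]⟩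

theorem two {J Sn x : ℂ} {B G e F : ℝ} {m : ℕ} (hm : 1 ≤ m) (hm9 : m ≤ 9) (hG : 1 ≤ G)
    (he : 0 ≤ e) (hGe : G * e ≤ 1) (hx : ‖x‖ ≤ G * e) (hB : 0 ≤ B) (hJ : ‖J‖ ≤ 2 * B)
    (hS : ‖J - Sn‖ ≤ 2 * B * e ^ m) (hF : 14 * G ^ 9 ≤ F) :
    ‖J * Complex.exp x - Sn * ∑ j ∈ range m, x ^ j / (j.factorial : ℂ)‖ ≤ B * F * e ^ m := by
  obtain ⟨h1, h2⟩ := ex_le (hx.trans hGe) hm
  obtain ⟨s, hs⟩ : ∃ s, s = ∑ j ∈ range m, x ^ j / (j.factorial : ℂ) := ⟨_, rfl⟩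
  rw [← hs] at h1 h2 ⊢
  have h3 : ‖x‖ ^ m ≤ G ^ 9 * e ^ m := by
    refine (pow_le_pow_left₀ (norm_nonneg _) hx m).trans ?_
    rw [mul_pow]
    exact mul_le_mul_of_nonneg_right (pow_le_pow_right₀ hG hm9) (by positivity)
  have h4 : 1 ≤ G ^ 9 := one_le_pow₀ hG
  have h5 : 0 ≤ B * e ^ m := by positivity
  have e1 : J * Complex.exp x - Sn * s = J * (Complex.exp x - s) + (J - Sn) * s := by ring
  have h6 : ‖J * (Complex.exp x - s)‖ ≤ 2 * B * (2 * (G ^ 9 * e ^ m)) := by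
    rw [norm_mul]
    exact mul_le_mul hJ (by linarith) (norm_nonneg _) (by positivity)
  have h7 : ‖(J - Sn) * s‖ ≤ 2 * B * e ^ m * 5 := by
    rw [norm_mul]
    exact mul_le_mul hS h2 (norm_nonneg _) (by positivity)
  rw [e1]
  linarith [norm_add_le (J * (Complex.exp x - s)) ((J - Sn) * s),
    mul_le_mul_of_nonneg_left h4 h5, mul_le_mul_of_nonneg_left hF h5]

end ExpandL

open ExpandL in
theorem expandStmt (hk : KsetStmt) (hs : SizeStmt) : ExpandStmt := by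
  intro la nu T l₁ l₂ K₀ Y M q m Kk r c hK hq2 hqM hm1 hm9 hl hY hKk hT hr hr2 hc2 hla hnu h1 h2
  have hM : (2 : ℝ) ≤ M := by exact_mod_cast hq2.trans hqM
  have hq : (2 : ℝ) ≤ q := by exact_mod_cast hq2
  have hfn := fun z => hs.fn_le la T K₀ M q c z hK hq2 hqM hl hT hla hc2
  have hfa := hs.fact_le K₀ M q r.2 hK hq2 hqM hl hr2
  have hpw := hs.pow_le K₀ M q hK hq2 hqM hl
  obtain ⟨S, hS⟩ : ∃ S : ℝ, S = K₀ ^ 3 * M ^ 2 * q ^ 2 := ⟨_, rfl⟩
  obtain ⟨G, hG⟩ : ∃ G : ℝ, G = 4 * K₀ ^ 3 * M ^ 2 := ⟨_, rfl⟩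
  rw [← hS] at hfn hfa hpw ⊢
  rw [← hG] at hpw
  have ht := fun n => taylorStmt (fn la T c) (nu r.1) r.2 n (K₀ * M) ((q : ℝ) ^ 2) _
    (hs.fn_diff la T c) (by nlinarith) (by nlinarith) hnu hfn
  have eE : ∀ n : ℕ, (((q : ℝ) ^ 2)⁻¹) ^ n = Real.exp (-(n * (2 * Real.log q))) := fun n => by
    have : Real.exp (2 * Real.log q) = (q : ℝ) ^ 2 := by
      rw [two_mul, Real.exp_add, Real.exp_log (by linarith), sq]
    rw [Real.exp_neg, Real.exp_nat_mul, this, inv_pow]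
  have eY : ∀ n : ℕ, Real.exp (-Y) ^ n = Real.exp (-(n * Y)) := fun n => by
    rw [← Real.exp_nat_mul, mul_neg]
  have hB : r.2.factorial * Real.exp (7 * S) ≤ Real.exp (8 * S) := by
    rw [show 8 * S = S + 7 * S by ring, Real.exp_add]
    exact mul_le_mul_of_nonneg_right hfa (Real.exp_pos _).le
  have e9 : Real.exp (9 * S) = Real.exp (8 * S) * Real.exp S := by
    rw [← Real.exp_add]
    congr 1
    ring
  have hK3 : (1 : ℝ) ≤ K₀ ^ 3 := one_le_pow₀ (by linarith)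
  have hG1 : 1 ≤ G := by rw [hG]; nlinarith
  have he := (Real.exp_pos (-Y)).le
  have hGe : G * Real.exp (-Y) ≤ 1 := by
    have a1 : Real.exp (2 * Real.log (2 * K₀ ^ 2 * M)) = (2 * K₀ ^ 2 * M) ^ 2 := by
      rw [two_mul (Real.log _), Real.exp_add, Real.exp_log (by positivity), sq (2 * K₀ ^ 2 * M)]
    have a2 : G ≤ (2 * K₀ ^ 2 * M) ^ 2 := by
      have : 0 ≤ G * (K₀ - 1) := mul_nonneg (by linarith) (by linarith)
      rw [hG] at this ⊢
      linarith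
    rw [Real.exp_neg, ← div_eq_mul_inv, div_le_one (Real.exp_pos _)]
    exact a2.trans (a1 ▸ Real.exp_le_exp.2 hY)
  have huv : ∀ (x : ℤ) (l : ℂ), x ∈ Icc (-(M : ℤ)) M → ‖l‖ ≤ 2 * K₀ ^ 3 * M * Real.exp (-Y) →
      ‖(x : ℂ) * l‖ ≤ G * Real.exp (-Y) / 2 := fun x l hx h => by
    rw [norm_mul, hG]
    linarith [mul_le_mul (int_le hx) h (norm_nonneg _) (by positivity)]
  have hu := huv _ _ (mem_product.1 hr).1 h1
  have hv := huv _ _ (mem_product.1 hr).2 h2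
  have h0 : 0 ≤ G * Real.exp (-Y) := by positivity
  have e0 : ∀ t : ℕ × ℕ × ℕ,
      (tc (nu r.1) r.2 t.1 * ((t.2.1.choose t.2.2 : ℂ) / (t.2.1.factorial : ℂ)) *
          ((r.1.1 : ℂ) ^ t.2.2 * (r.1.2 : ℂ) ^ (t.2.1 - t.2.2))) *
        (iteratedDeriv t.1 (fn la T c) 0 * (l₁ c.1 ^ t.2.2 * l₂ c.1 ^ (t.2.1 - t.2.2))) =
      tc (nu r.1) r.2 t.1 * iteratedDeriv t.1 (fn la T c) 0 *
        ((t.2.1.choose t.2.2 : ℂ) / (t.2.1.factorial : ℂ) *
          (((r.1.1 : ℂ) * l₁ c.1) ^ t.2.2 * ((r.1.2 : ℂ) * l₂ c.1) ^ (t.2.1 - t.2.2))) := fun t => by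
    rw [mul_pow, mul_pow]
    ring
  simp only [e0]
  refine ⟨fun t ht' => ?_, ?_⟩
  · obtain ⟨-, a1, a2⟩ := (hk.mem _ _ _).1 ht'
    have a3 : ‖tc (nu r.1) r.2 t.1 * iteratedDeriv t.1 (fn la T c) 0‖ ≤
        Real.exp (8 * S) * Real.exp (-(t.1 * (2 * Real.log q))) := by
      rw [← eE]
      exact ((ht 0).1 t.1).trans (mul_le_mul_of_nonneg_right hB (by positivity))
    have a4 : ‖((r.1.1 : ℂ) * l₁ c.1) ^ t.2.2 * ((r.1.2 : ℂ) * l₂ c.1) ^ (t.2.1 - t.2.2)‖ ≤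
        Real.exp S * Real.exp (-(t.2.1 * Y)) := by
      rw [norm_mul, norm_pow, norm_pow, ← eY]
      calc _ ≤ (G * Real.exp (-Y)) ^ t.2.2 * (G * Real.exp (-Y)) ^ (t.2.1 - t.2.2) := by
            gcongr <;> linarith
        _ = G ^ t.2.1 * Real.exp (-Y) ^ t.2.1 := by
            rw [← pow_add, Nat.add_sub_cancel' a2, mul_pow]
        _ ≤ _ := by
            refine mul_le_mul_of_nonneg_right ?_ (by positivity)
            have b1 : G ^ t.2.1 ≤ G ^ 9 := pow_le_pow_right₀ hG1 (by omega)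
            have b2 : 0 ≤ G ^ 9 := by positivity
            linarith
    rw [norm_mul, norm_mul (_ / _), e9, neg_add, Real.exp_add, mul_mul_mul_comm]
    refine mul_le_mul a3 ?_ (by positivity) (by positivity)
    exact (mul_le_of_le_one_left (norm_nonneg _) (ch_le a2)).trans a4
  · rw [← hk.expand Kk m fun n => tc (nu r.1) r.2 n * iteratedDeriv n (fn la T c) 0, e9, ← eY]
    refine two hm1 hm9 hG1 he hGe ((norm_add_le _ _).trans (by linarith)) (Real.exp_pos _).le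
      ?_ ?_ hpw
    · have := (ht 0).2
      rw [sum_range_zero, sub_zero, pow_zero] at this
      exact this.trans (by linarith)
    · refine (ht Kk).2.trans ?_
      rw [eE, eY, mul_assoc 2]
      exact mul_le_mul (by linarith) (Real.exp_le_exp.2 (neg_le_neg hKk)) (Real.exp_pos _).le
        (by positivity)

end LogPow2
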