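import Pool.Agent.Mg.F655169a.G47c8bf
import Pool.Agent.Mg.F655169a.Gfc2d0b
import Pool.Agent.Mg.F655169a.G0e1328

/-! The sharp zero lemma for the normalised matrix. -/

open Polynomial NumberField Finset

namespace LogPow2

open LogPow

namespace RankNL

theorem four_le {S : ℝ} (hS : 16 ≤ S) : 4 * S ≤ Real.exp S := by
  have h1 : S / 2 ≤ Real.exp (S / 2) := by linarith [Real.add_one_le_exp (S / 2)]
  have h2 : Real.exp S = Real.exp (S / 2) * Real.exp (S / 2) := by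
    rw [← Real.exp_add]; congr 1; ring
  have h3 : S / 2 * (S / 2) ≤ Real.exp (S / 2) * Real.exp (S / 2) := by gcongr
  nlinarith

theorem der_sum {ι : Type} [Fintype ι] (c : ι → ℂ) (f : ι → ℂ → ℂ)
    (hf : ∀ j, Differentiable ℂ (f j)) (n : ℕ) (z : ℂ) :
    iteratedDeriv n (fun t => ∑ j, c j * f j t) z = ∑ j, c j * iteratedDeriv n (f j) z := by
  rw [iteratedDeriv_fun_sum fun j _ => (contDiff_const.mul (hf j).contDiff).contDiffAt]
  exact sum_congr rfl fun j _ => iteratedDeriv_const_mul_field _ _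

theorem sum_le {ι : Type} [Fintype ι] (c g : ι → ℂ) (b : ℝ) (h : ∀ j, ‖g j‖ ≤ b) :
    ‖∑ j, c j * g j‖ ≤ Fintype.card ι * (‖c‖ * b) := by
  refine (norm_sum_le _ _).trans ?_
  rw [← card_univ, ← nsmul_eq_mul]
  refine sum_le_card_nsmul _ _ _ fun j _ => ?_
  rw [norm_mul]
  exact mul_le_mul (norm_le_pi_norm c j) (h j) (norm_nonneg _) (norm_nonneg _)

theorem int_le {M : ℕ} {x : ℤ} (h : x.natAbs ≤ M) : ‖(x : ℂ)‖ ≤ M := by
  rw [Complex.norm_intCast, ← Int.cast_abs, ← Nat.cast_natAbs]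
  exact_mod_cast h

theorem close {S cm e₀ Q Q' : ℝ} (hS : 16 ≤ S) (hc : 0 ≤ cm)
    (h1 : Q * e₀ ≤ Real.exp (-(100 * S))) (h2 : Q * Q' ≤ Real.exp (-(100 * S))) :
    Real.exp (10 * S) * Q * (Real.exp (36 * S) * (cm * Real.exp (10 * S) * e₀ +
      cm * Real.exp (10 * S) * Q')) ≤ cm / 2 := by
  have e1 : Real.exp (10 * S) * Real.exp (36 * S) * Real.exp (10 * S) * Real.exp (-(100 * S)) =
      Real.exp (-(44 * S)) := by
    rw [← Real.exp_add, ← Real.exp_add, ← Real.exp_add]; congr 1; ring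
  have e2 : Real.exp (-(44 * S)) ≤ 1 / 4 := by
    rw [Real.exp_neg, one_div]
    exact inv_anti₀ (by norm_num) (by linarith [Real.add_one_le_exp (44 * S)])
  calc _ = cm * (Real.exp (10 * S) * Real.exp (36 * S) * Real.exp (10 * S) * (Q * e₀ + Q * Q')) := by
        ring
    _ ≤ cm * (Real.exp (10 * S) * Real.exp (36 * S) * Real.exp (10 * S) *
        (Real.exp (-(100 * S)) + Real.exp (-(100 * S)))) := by gcongr
    _ = cm * (2 * Real.exp (-(44 * S))) := by rw [← e1]; ring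
    _ ≤ cm * (2 * (1 / 4)) := by gcongr
    _ = _ := by ring

theorem card_idx (M q : ℕ) : (Fintype.card (idx M q) : ℝ) = NN M q := by
  rw [Fintype.card_coe]; rfl

end RankNL

attribute [local irreducible] NN idx

open RankNL in
theorem rankN (hs : SizeStmt) (h1 : MomStmt) (h2 : CoefStmt) : RankNStmt := by
  intro la nu T l₁ l₂ K₀ e₀ M q q' hla hnu hK hq hqq hq2 hq'M hl0 hN hN' hT hT' hgap he hl c hc
  have hqM : q ≤ M := hqq.trans hq'M
  have hq' : (2 : ℝ) ≤ q := by exact_mod_cast hq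
  have hM' : (2 : ℝ) ≤ M := by exact_mod_cast hq.trans hqM
  have hqM' : (q : ℝ) ≤ M := by exact_mod_cast hqM
  have hq2' : (q' : ℝ) ≤ 2 * q := by exact_mod_cast hq2
  have hlog : 0 < Real.log q := Real.log_pos (by linarith)
  have k3 : (8 : ℝ) ≤ K₀ ^ 3 := by
    calc (8 : ℝ) = 2 ^ 3 := by norm_num
      _ ≤ _ := by gcongr
  have m2 : (4 : ℝ) ≤ (M : ℝ) ^ 2 := by nlinarith
  have q2 : (4 : ℝ) ≤ (q : ℝ) ^ 2 := by nlinarith
  have hlM : Real.log (2 * K₀ ^ 2 * M) ≤ (M : ℝ) ^ 2 := hl0.trans (by gcongr)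
  have hfn := fun (j : (ℤ × ℤ) × ℕ) (z : ℂ) => hs.fn_le la T K₀ M q j z hK hq hqM hl0 hT
  have hfa := fun σ : ℕ => hs.fact_le K₀ M q σ hK hq hqM hl0
  have s4 : K₀ ^ 3 * M ^ 2 * q' ^ 2 ≤ 4 * (K₀ ^ 3 * M ^ 2 * q ^ 2) := by
    calc K₀ ^ 3 * M ^ 2 * q' ^ 2 ≤ K₀ ^ 3 * M ^ 2 * (2 * q) ^ 2 := by gcongr
      _ = _ := by ring
  have s1 : 4 * (K₀ ^ 3 * M ^ 2) ≤ K₀ ^ 3 * M ^ 2 * q ^ 2 := by
    have : 0 ≤ K₀ ^ 3 * M ^ 2 := by positivity
    nlinarith
  have s2 : 8 * ((M : ℝ) ^ 2 * q ^ 2) ≤ K₀ ^ 3 * M ^ 2 * q ^ 2 := by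
    rw [mul_assoc]; gcongr
  have s3 : (16 : ℝ) ≤ (M : ℝ) ^ 2 * q ^ 2 := by nlinarith
  have hcoef := fun E : ℝ => h2 la T K₀ E M q c hla hK hq hqM hlM hN hT hT'
  set S : ℝ := K₀ ^ 3 * M ^ 2 * q ^ 2 with hS
  have S16 : 16 ≤ S := by linarith
  have eS := four_le S16
  have NS : (NN M q : ℝ) ≤ Real.exp S := by linarith
  have mem : ∀ {t : ℕ}, t ≤ M → ∀ p ∈ idx M t, p.1 ∈ box M ∧ p.2 ≤ M ^ 2 := fun {t} h p hp => by
    obtain ⟨a, b⟩ := (latStmt.mem_idx M t p).1 hp
    exact ⟨a, (b.le.trans (latStmt.mult_le M t _)).trans (Nat.pow_le_pow_left h 2)⟩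
  have e0 : 0 ≤ e₀ := by
    have a := (hl (0, 0) ((latStmt.mem_box M _).2 (by simp))).1
    exact nonneg_of_mul_nonneg_right ((norm_nonneg _).trans a) (by positivity)
  have eQ : ∀ n : ℕ, ((q : ℝ) ^ 2) ^ n = Real.exp (2 * n * Real.log q) := fun n => by
    rw [← pow_mul, show 2 * (n : ℝ) * Real.log q = ((2 * n : ℕ) : ℝ) * Real.log q by push_cast; ring,
      Real.exp_nat_mul, Real.exp_log (by linarith)]
  have n0 : 0 ≤ 2 * (NN M q : ℝ) * Real.log q := by positivity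
  have e1 : S * e₀ ≤ 1 := by
    calc S * e₀ ≤ Real.exp S * Real.exp (-S) :=
          mul_le_mul (by linarith) (he.trans (Real.exp_le_exp.2 (by linarith))) e0 (by positivity)
      _ = 1 := by rw [← Real.exp_add]; simp
  have card := card_idx M q
  have c0 : 0 ≤ ‖c‖ := norm_nonneg _
  have hNN : NN M q ≤ NN M q' := by
    have a : 0 ≤ 2 * ((NN M q' : ℝ) - NN M q) * Real.log q := by linarith
    have b := nonneg_of_mul_nonneg_left a hlog
    exact_mod_cast (by linarith : (NN M q : ℝ) ≤ NN M q')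
  have mom := h1 nu K₀ ((q : ℝ) ^ 2) (‖c‖ * Real.exp (8 * S)) (‖c‖ * Real.exp (10 * S) * e₀) M q'
    (fun t => ∑ j : idx M q, c j * fn la T j.1 t) hnu hK (hq.trans hqq) hq'M hlM hN'
    (Differentiable.fun_sum fun j _ => (hs.fn_diff la T j.1).const_mul _) (by linarith)
    (by positivity)
    (fun z hz => by
      refine (sum_le c (fun j : idx M q => fn la T j.1 z) _ fun j =>
        hfn j.1 z (hla.le _ (mem hqM _ j.2).1) (mem hqM _ j.2).2 hz).trans ?_
      rw [card, show 8 * S = S + 7 * S by ring, Real.exp_add]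
      calc _ ≤ Real.exp S * (‖c‖ * Real.exp (7 * S)) := by gcongr
        _ = _ := by ring)
    (fun r hr => by
      obtain ⟨r1, r2⟩ := mem hq'M r hr
      obtain ⟨y1, y2⟩ := (latStmt.mem_box M _).1 r1
      rw [der_sum c (fun j : idx M q => fn la T j.1) fun j => hs.fn_diff la T j.1]
      have a0 : ∑ j : idx M q, c j * iteratedDeriv r.2 (fn la T j.1) (nu r.1) =
          -∑ j : idx M q, c j * (jet la nu T r j.1 *
            (Complex.exp ((r.1.1 : ℂ) * l₁ j.1.1 + (r.1.2 : ℂ) * l₂ j.1.1) - 1)) := by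
        rw [eq_neg_iff_add_eq_zero, ← sum_add_distrib, ← hc r hr]
        refine sum_congr rfl fun j _ => ?_
        unfold nm jet
        ring
      rw [a0, norm_neg]
      refine (sum_le c _ (2 * Real.exp (8 * S) * (2 * (S * e₀))) fun j => ?_).trans ?_
      · obtain ⟨j1, j2⟩ := mem hqM _ j.2
        have b1 := (taylorStmt (fn la T j.1) (nu r.1) r.2 0 (K₀ * M) ((q : ℝ) ^ 2)
          (Real.exp (7 * S)) (hs.fn_diff la T j.1) (by nlinarith) (by linarith) (hnu.le _ r1)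
          fun z hz => hfn j.1 z (hla.le _ j1) j2 hz).2
        rw [sum_range_zero, sub_zero, pow_zero, mul_one] at b1
        have b2 : ‖jet la nu T r j.1‖ ≤ 2 * Real.exp (8 * S) := by
          refine b1.trans ?_
          rw [show 8 * S = S + 7 * S by ring, Real.exp_add, mul_assoc]
          have := hfa r.2 r2
          gcongr
        have b3 : ‖(r.1.1 : ℂ) * l₁ j.1.1 + (r.1.2 : ℂ) * l₂ j.1.1‖ ≤ S * e₀ := by
          refine (norm_add_le _ _).trans ?_
          rw [norm_mul, norm_mul]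
          have := int_le y1
          have := int_le y2
          have := (hl _ j1).1
          have := (hl _ j1).2
          calc _ ≤ M * (2 * K₀ ^ 3 * M * e₀) + M * (2 * K₀ ^ 3 * M * e₀) := by gcongr
            _ = 4 * (K₀ ^ 3 * M ^ 2) * e₀ := by ring
            _ ≤ _ := by gcongr
        rw [norm_mul]
        exact mul_le_mul b2 ((Complex.norm_exp_sub_one_le (b3.trans e1)).trans (by gcongr))
          (norm_nonneg _) (by positivity)
      · rw [card, show 10 * S = S + 8 * S + S by ring, Real.exp_add, Real.exp_add]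
        calc _ = NN M q * Real.exp (8 * S) * (4 * S) * (‖c‖ * e₀) := by ring
          _ ≤ Real.exp S * Real.exp (8 * S) * Real.exp S * (‖c‖ * e₀) := by gcongr
          _ = _ := by ring)
  have fin := hcoef (Real.exp (36 * S) * (‖c‖ * Real.exp (10 * S) * e₀ +
    ‖c‖ * Real.exp (10 * S) * (((q : ℝ) ^ 2)⁻¹) ^ NN M q')) (by positivity) fun n hn => by
      have a := mom n (hn.trans_le hNN)
      rw [der_sum c (fun j : idx M q => fn la T j.1) fun j => hs.fn_diff la T j.1] at a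
      refine a.trans ?_
      have b1 : 2 * ((M ^ 2).factorial : ℝ) * (‖c‖ * Real.exp (8 * S)) ≤
          ‖c‖ * Real.exp (10 * S) := by
        rw [show 10 * S = S + S + 8 * S by ring, Real.exp_add, Real.exp_add]
        have := hfa (M ^ 2) le_rfl
        have : 2 ≤ Real.exp S := by linarith
        calc _ ≤ Real.exp S * Real.exp S * (‖c‖ * Real.exp (8 * S)) := by gcongr
          _ = _ := by ring
      have b2 : 9 * (K₀ ^ 3 * M ^ 2 * q' ^ 2) ≤ 36 * S := by linarith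
      gcongr
  have cl := close (e₀ := e₀) (Q := ((q : ℝ) ^ 2) ^ NN M q) (Q' := (((q : ℝ) ^ 2)⁻¹) ^ NN M q')
    S16 c0
    (by
      rw [eQ]
      refine (mul_le_mul_of_nonneg_left he (Real.exp_pos _).le).trans (le_of_eq ?_)
      rw [← Real.exp_add]; congr 1; ring)
    (by
      rw [inv_pow, eQ, eQ, ← Real.exp_neg, ← Real.exp_add, Real.exp_le_exp]
      linarith)
  have hfin : ‖c‖ ≤ ‖c‖ / 2 :=
    (pi_norm_le_iff_of_nonneg (by positivity)).2 fun j => (fin j).trans cl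
  exact norm_le_zero_iff.1 (by linarith)

end LogPow2
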