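import Pool.Agent.MP_655169_nt.H83.Defs

section

/-! Statements of the lemmas.  Plan: /team-store/655169_h83_PROOF.md -/

open Polynomial NumberField Finset

namespace LogPow

/-! ### Criterion -/

/-- Elementary facts on `cl` and `W`. -/
structure ClStmt : Prop where
  nonneg : ∀ (w ρ : ℂ) (Y : ℝ), 0 ≤ Y → 0 ≤ cl w Y ρ
  le : ∀ (w ρ : ℂ) (Y : ℝ), cl w Y ρ ≤ Y
  self : ∀ (w : ℂ) (Y : ℝ), cl w Y w = Y
  dist : ∀ (w ρ : ℂ) (Y : ℝ), 0 < cl w Y ρ → ‖ρ - w‖ ≤ Real.exp (-(cl w Y ρ))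
  scale : ∀ (w ρ : ℂ) (Y Y' c : ℝ), 0 ≤ Y' → Y' ≤ Y → 1 ≤ c → cl w Y ρ ≤ c * Y' →
    cl w Y ρ ≤ c * cl w Y' ρ
  pair : ∀ (w ρ ρ' : ℂ) (Y : ℝ), 0 < Y → ρ ≠ ρ' → cl w Y ρ * cl w Y ρ' ≤
    Y * (Real.posLog ‖ρ‖ + Real.posLog ‖ρ'‖ - Real.log ‖ρ - ρ'‖ + Real.log 2)
  cont : ∀ (w : ℂ) (P : ℂ[X]), Continuous fun Y : ℝ => W w Y P
  mul : ∀ (w : ℂ) (Y : ℝ) (P Q : ℂ[X]), P ≠ 0 → Q ≠ 0 → W w Y (P * Q) = W w Y P + W w Y Q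
  const : ∀ (w : ℂ) (Y : ℝ) (c : ℂ), W w Y (C c) = 0
  Wnonneg : ∀ (w : ℂ) (Y : ℝ) (P : ℂ[X]), 0 ≤ Y → 0 ≤ W w Y P
  bdd : ∀ (w : ℂ) (P : ℂ[X]), P.eval w ≠ 0 → ∃ b : ℝ, ∀ Y : ℝ, W w Y P ≤ b
  root : ∀ (w : ℂ) (Y : ℝ) (P : ℂ[X]), 0 ≤ Y → P ≠ 0 → P.eval w = 0 → Y ≤ W w Y P

/-- (R) -/
def ResWStmt : Prop :=
  ∀ (K : Type) [Field K] (φ : K →+* ℂ) (S : Subring ℂ) (H : HtData K φ S) (w : ℂ) (Y : ℝ)
    (P Q : K[X]), 0 < Y → P ≠ 0 → Q ≠ 0 → IsCoprime P Q →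
    W w Y (P.map φ) * W w Y (Q.map φ) ≤
      Y * ((Q.natDegree : ℝ) * H.h P + (P.natDegree : ℝ) * H.h Q +
        (P.natDegree : ℝ) * (Q.natDegree : ℝ) * Real.log 2)

/-- (B) -/
def ClaimBStmt : Prop :=
  ∀ (K : Type) [Field K] (φ : K →+* ℂ) (S : Subring ℂ) (H : HtData K φ S) (w : ℂ)
    (C₀ C c y₀ : ℝ), 10 ≤ C → AuxK φ H.h w C₀ C c y₀ →
    ∀ (Q : K[X]) (γ : ℂ) (y k : ℝ), Irreducible Q → (Q.map φ).eval γ = 0 → 0 < y → y₀ ≤ y →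
      C ≤ k → k ≤ c * Real.sqrt (Real.log y) → ‖γ - w‖ ≤ Real.exp (-(C₀ * y ^ 2)) →
      71 / 50 * W w (y ^ 2) (Q.map φ) ≤
        y * ((Q.natDegree : ℝ) * k + (H.h Q + (Q.natDegree : ℝ)) / k)

/-- (N) -/
def NotRootStmt : Prop :=
  ∀ (K : Type) [Field K] (φ : K →+* ℂ) (S : Subring ℂ) (H : HtData K φ S) (w : ℂ)
    (C₀ C c y₀ : ℝ), 10 ≤ C → 0 < c → AuxK φ H.h w C₀ C c y₀ →
    ∀ Q : K[X], Irreducible Q → (Q.map φ).eval w ≠ 0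

/-- (S1), the selection of an irreducible factor. -/
def SelectStmt : Prop :=
  ∀ (K : Type) [Field K] (φ : K →+* ℂ) (S : Subring ℂ) (H : HtData K φ S) (w : ℂ)
    (Y s t : ℝ) (P : K[X]), P ≠ 0 →
    s * (P.natDegree : ℝ) + t * H.h P < W w Y (P.map φ) →
    ∃ Q : K[X], Irreducible Q ∧ s * (Q.natDegree : ℝ) + t * H.h Q < W w Y (Q.map φ)

/-- (S2) -/
def BalStmt : Prop :=
  ∀ (K : Type) [Field K] (φ : K →+* ℂ) (S : Subring ℂ) (H : HtData K φ S) (w : ℂ)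
    (C₀ C c y₀ : ℝ), 1 ≤ C₀ → 10 ≤ C → 0 < c → AuxK φ H.h w C₀ C c y₀ →
    ∃ y₁ : ℝ, ∀ y : ℝ, y₁ ≤ y → ∀ Q : K[X], Irreducible Q →
      0.7 * y * ((Q.natDegree : ℝ) * Real.sqrt (Real.sqrt (Real.log y)) +
        H.h Q / Real.sqrt (Real.sqrt (Real.log y))) ≤ W w (y ^ 2) (Q.map φ) →
      C ^ 2 * (Q.natDegree : ℝ) ≤ H.h Q ∧ H.h Q ≤ c ^ 2 * Real.log y * (Q.natDegree : ℝ)

/-- (S3) -/
def FinStmt : Prop :=
  ∀ (K : Type) [Field K] (φ : K →+* ℂ) (S : Subring ℂ) (H : HtData K φ S) (w : ℂ)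
    (C₀ C c y₀ : ℝ), 10 ≤ C → 0 < c → AuxK φ H.h w C₀ C c y₀ →
    ∀ (Q : K[X]) (y : ℝ), Irreducible Q → (Q.map φ).eval w ≠ 0 → 1 ≤ y → y₀ ≤ y →
      C ^ 2 * (Q.natDegree : ℝ) ≤ H.h Q → H.h Q ≤ c ^ 2 * Real.log y * (Q.natDegree : ℝ) →
      Real.sqrt 2 * y * Real.sqrt ((Q.natDegree : ℝ) * H.h Q) ≤ W w (y ^ 2) (Q.map φ) → False

def CritStmt : Prop :=
  ∀ (K : Type) [Field K] (φ : K →+* ℂ) (S : Subring ℂ), HtData K φ S → ∀ w : ℂ, ¬ Aux S w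

/-! ### Heights -/

def ContentMulStmt : Prop :=
  ∀ (R : Type) [CommRing R] [IsDedekindDomain R] (P Q : R[X]),
    (P * Q).contentIdeal = P.contentIdeal * Q.contentIdeal

def ResMemStmt : Prop :=
  ∀ (R : Type) [CommRing R] (P Q : R[X]),
    P.resultant Q ∈ P.contentIdeal ^ Q.natDegree * Q.contentIdeal ^ P.natDegree

/-- The field norm is the squared absolute value. -/
def NormSq {K : Type} [Field K] [NumberField K] (φ : K →+* ℂ) : Prop :=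
  ∀ x : 𝓞 K, (Ideal.absNorm (Ideal.span {x}) : ℝ) = ‖psi φ x‖ ^ 2

def HOBasicStmt : Prop :=
  ∀ (K : Type) [Field K] [NumberField K] (φ : K →+* ℂ), NormSq φ →
    (∀ P Q : (𝓞 K)[X], P ≠ 0 → Q ≠ 0 → hO φ (P * Q) = hO φ P + hO φ Q) ∧
    (∀ c : 𝓞 K, c ≠ 0 → hO φ (C c) = 0) ∧
    (∀ P : (𝓞 K)[X], P ≠ 0 → 0 ≤ hO φ P) ∧
    (∀ P : (𝓞 K)[X], P ≠ 0 → hO φ P ≤ (P.map (psi φ)).logMahlerMeasure)

def HOResStmt : Prop :=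
  ∀ (K : Type) [Field K] [NumberField K] (φ : K →+* ℂ), NormSq φ →
    ∀ P Q : (𝓞 K)[X], P ≠ 0 → Q ≠ 0 →
      IsCoprime (P.map (algebraMap (𝓞 K) K)) (Q.map (algebraMap (𝓞 K) K)) →
      (((P.map (psi φ)).roots ×ˢ (Q.map (psi φ)).roots).map fun r : ℂ × ℂ =>
          Real.posLog ‖r.1‖ + Real.posLog ‖r.2‖ - Real.log ‖r.1 - r.2‖).sum
        ≤ (Q.natDegree : ℝ) * hO φ P + (P.natDegree : ℝ) * hO φ Q

def HtStmt : Prop :=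
  ∀ (K : Type) [Field K] [NumberField K] (φ : K →+* ℂ), NormSq φ → Nonempty (HtData K φ (SK φ))

/-! ### Analytic lemmas -/

def DetStmt : Prop :=
  ∀ (n : Type) [Fintype n] [DecidableEq n] (Kk : ℕ) (Mx : Matrix n n ℂ) (cc : n → ℕ → ℂ)
    (v : ℕ → n → ℂ) (r : n → n → ℂ) (B l s : ℝ), 0 ≤ B → 0 ≤ l →
    (∀ i j, Mx i j = ∑ m ∈ range Kk, cc i m * v m j + r i j) →
    (∀ i m j, m < Kk → ‖cc i m * v m j‖ ≤ B * Real.exp (-(m * l))) →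
    (∀ i j, ‖r i j‖ ≤ B * Real.exp (-s)) →
    ‖Mx.det‖ ≤ ((Kk : ℝ) + 1) ^ Fintype.card n * (Fintype.card n).factorial * B ^ Fintype.card n *
      Real.exp (-(∑ m ∈ range (Fintype.card n), min (m * l) s))

def SumMinStmt : Prop :=
  ∀ (N : ℕ) (l Y : ℝ), 0 < l → 0 ≤ Y →
    N * Y - Y - Y ^ 2 / (2 * l) ≤ ∑ m ∈ range N, min (m * l) Y

/-- Taylor coefficient of the functional `∂^σ` at `μ`. -/
noncomputable def tc (μ : ℂ) (σ n : ℕ) : ℂ :=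
  if σ ≤ n then μ ^ (n - σ) / ((n - σ).factorial : ℂ) else 0

def TaylorStmt : Prop :=
  ∀ (f : ℂ → ℂ) (μ : ℂ) (σ Kk : ℕ) (ρ E m : ℝ), Differentiable ℂ f → 1 ≤ ρ → 1 ≤ E → ‖μ‖ ≤ ρ →
    (∀ z : ℂ, ‖z‖ = 2 * Real.exp 1 * ρ * E → ‖f z‖ ≤ m) →
    (∀ n : ℕ, ‖tc μ σ n * iteratedDeriv n f 0‖ ≤ σ.factorial * m * (E⁻¹) ^ n) ∧
    ‖iteratedDeriv σ f μ - ∑ n ∈ range Kk, tc μ σ n * iteratedDeriv n f 0‖ ≤
      2 * σ.factorial * m * (E⁻¹) ^ Kk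

def MahlerStmt : Prop :=
  ∀ (P : ℂ[X]) (b : ℝ), (∀ z : ℂ, ‖z‖ = 1 → ‖P.eval z‖ ≤ b) → P.mahlerMeasure ≤ b

def JensenStmt : Prop :=
  ∀ (P : ℂ[X]) (w : ℂ) (Y b : ℝ), 1 ≤ ‖P.leadingCoeff‖ → 0 ≤ Y →
    (∀ z : ℂ, ‖z - w‖ = Real.exp (-Y) → ‖P.eval z‖ ≤ Real.exp (-b)) → b ≤ W w Y P

def DlZeroStmt : Prop :=
  ∀ (f : ℂ → ℂ) (l : List ℂ) (Ω ρ m : ℝ), Differentiable ℂ f → 0 ≤ Ω → 0 < ρ →
    (∀ x ∈ l, ‖x‖ ≤ Ω) → (∀ z : ℂ, ‖z‖ = ρ → ‖f z‖ ≤ m) →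
    ‖Dl l f 0‖ ≤ m * l.length.factorial / ρ ^ l.length * Real.exp (Ω * ρ)

def GrowStmt : Prop :=
  ∀ (f : ℂ → ℂ) (l : List ℂ) (Ω : ℝ), Differentiable ℂ f → 0 ≤ Ω → (∀ x ∈ l, ‖x‖ ≤ Ω) →
    Dl l f = 0 → ∀ z : ℂ, ‖f z‖ ≤ Real.exp (Ω * ‖z‖) *
      ∑ k ∈ range l.length, ‖Dl (l.take k) f 0‖ * ‖z‖ ^ k / k.factorial

/-- Growth of an exponential polynomial (Balkema–Tijdeman). -/
def EpGrowStmt : Prop :=
  ∀ (ι : Type) (s : Finset ι) (ω : ι → ℂ) (T : ι → ℕ) (p : ι → ℂ[X]) (Ω ρ G m : ℝ),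
    (∀ i ∈ s, (p i).degree < T i) → 0 ≤ Ω → (∀ i ∈ s, ‖ω i‖ ≤ Ω) → 0 < ρ → 1 ≤ G →
    (∀ z : ℂ, ‖z‖ = ρ → ‖ep s ω p z‖ ≤ m) →
    ∀ z : ℂ, ‖z‖ ≤ G * ρ → ‖ep s ω p z‖ ≤
      (∑ i ∈ s, T i : ℕ) * G ^ (∑ i ∈ s, T i) * Real.exp (Ω * ρ * (1 + G)) * m

/-- The coefficients of an exponential polynomial are bounded by its maximum. -/
def EpCoeffStmt : Prop :=
  ∀ (ι : Type) (s : Finset ι) (ω : ι → ℂ) (T : ι → ℕ) (p : ι → ℂ[X]) (η Ω ρ m : ℝ),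
    (∀ i ∈ s, (p i).degree < T i) → 0 < η → η ≤ 1 →
    (∀ i ∈ s, ∀ j ∈ s, i ≠ j → η ≤ ‖ω i - ω j‖) → 0 ≤ Ω → (∀ i ∈ s, ‖ω i‖ ≤ Ω) → 1 ≤ ρ →
    (∀ z : ℂ, ‖z‖ = ρ → ‖ep s ω p z‖ ≤ m) →
    ∀ i ∈ s, ∀ τ : ℕ, ‖(p i).coeff τ‖ ≤
      (2 / η) ^ (∑ i ∈ s, T i) * ((∑ i ∈ s, T i : ℕ) : ℝ) ^ (∑ i ∈ s, T i) *
        Real.exp (Ω * ρ) * m

/-- Newton scheme with small data. -/
def NewtonStmt : Prop :=
  ∀ (κ : Type) (u : Finset κ) (μ : κ → ℂ) (Sg : κ → ℕ) (F : ℕ) (ρ ε : ℝ) (f : ℂ → ℂ),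
    Differentiable ℂ f → 1 ≤ ρ → (∀ k ∈ u, ‖μ k‖ ≤ ρ) →
    (∀ k ∈ u, ∀ l ∈ u, k ≠ l → 1 ≤ ‖μ k - μ l‖) → (∀ k ∈ u, Sg k ≤ F) → 0 ≤ ε →
    (∀ k ∈ u, ∀ σ < Sg k, ‖iteratedDeriv σ f (μ k)‖ ≤ σ.factorial * ε) →
    ∃ g : ℂ → ℂ, Differentiable ℂ g ∧ ∀ z : ℂ,
      ‖f z - (∏ k ∈ u, (z - μ k) ^ Sg k) * g z‖ ≤
        (∑ k ∈ u, Sg k : ℕ) * ((F + 1) * (‖z‖ + ρ)) ^ (∑ k ∈ u, Sg k) * ε

/-- Quantitative zero lemma. -/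
def QZStmt : Prop :=
  ∀ (ι κ : Type) (s : Finset ι) (u : Finset κ) (ω : ι → ℂ) (T : ι → ℕ) (p : ι → ℂ[X])
    (μ : κ → ℂ) (Sg : κ → ℕ) (F : ℕ) (η Ω ρ G ε : ℝ),
    (∀ i ∈ s, (p i).degree < T i) → 0 < η → η ≤ 1 →
    (∀ i ∈ s, ∀ j ∈ s, i ≠ j → η ≤ ‖ω i - ω j‖) → 0 ≤ Ω → (∀ i ∈ s, ‖ω i‖ ≤ Ω) → 1 ≤ ρ →
    (∀ k ∈ u, ‖μ k‖ ≤ ρ) → (∀ k ∈ u, ∀ l ∈ u, k ≠ l → 1 ≤ ‖μ k - μ l‖) →
    (∀ k ∈ u, Sg k ≤ F) → 3 ≤ G →
    (4 / G) ^ (∑ k ∈ u, Sg k) * ((∑ i ∈ s, T i : ℕ) * G ^ (∑ i ∈ s, T i) *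
      Real.exp (Ω * ρ * (1 + G))) ≤ 1 / 2 → 0 ≤ ε →
    (∀ k ∈ u, ∀ σ < Sg k, ‖iteratedDeriv σ (ep s ω p) (μ k)‖ ≤ ε) →
    ∀ i ∈ s, ∀ τ : ℕ, ‖(p i).coeff τ‖ ≤
      (2 / η) ^ (∑ i ∈ s, T i) * ((∑ i ∈ s, T i : ℕ) : ℝ) ^ (∑ i ∈ s, T i) * Real.exp (Ω * ρ) *
        (4 * ((∑ k ∈ u, Sg k : ℕ) * ((F + 1) * ((G + 1) * ρ)) ^ (∑ k ∈ u, Sg k) * ε))

def MinorStmt : Prop :=
  ∀ (I J : Type) [Fintype I] [Fintype J] [DecidableEq J] (Mx : Matrix I J ℂ),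
    (∀ c : J → ℂ, Mx.mulVec c = 0 → c = 0) →
    ∃ ι : J → I, Function.Injective ι ∧ (Mx.submatrix ι id).det ≠ 0

/-! ### The entries -/

/-- Elementary facts on the lattice and the index sets. -/
structure LatStmt : Prop where
  mem_box : ∀ (M : ℕ) (x : ℤ × ℤ), x ∈ box M ↔ x.1.natAbs ≤ M ∧ x.2.natAbs ≤ M
  prof_le : ∀ (M q : ℕ) (x : ℤ), prof M q x ≤ q
  mult_le : ∀ (M q : ℕ) (x : ℤ × ℤ), mult M q x ≤ q ^ 2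
  mem_idx : ∀ (M q : ℕ) (p : (ℤ × ℤ) × ℕ), p ∈ idx M q ↔ p.1 ∈ box M ∧ p.2 < mult M q p.1
  sum_idx : ∀ (M q : ℕ) (R : Type) [AddCommMonoid R] (g : (ℤ × ℤ) × ℕ → R),
    ∑ p ∈ idx M q, g p = ∑ x ∈ box M, ∑ τ ∈ range (mult M q x), g (x, τ)
  NN_eq : ∀ M q : ℕ, NN M q = ∑ x ∈ box M, mult M q x
  NN_le : ∀ M q : ℕ, 1 ≤ M → q ≤ M → NN M q ≤ 9 * M ^ 4
  tri_add : ∀ x y : ℤ, (tri (x + y) : ℤ) = tri x + tri y + x * y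
  tri_le : ∀ x y : ℤ × ℤ, tri (x.1 + y.1) + tri (x.2 + y.2) ≤ uu x + uu y
  tri_box : ∀ (M : ℕ) (x : ℤ × ℤ), x ∈ box M → tri x.1 + tri x.2 ≤ 2 * M ^ 2
  uu_box : ∀ (M : ℕ) (x : ℤ × ℤ), x ∈ box M → uu x ≤ 4 * M ^ 2
  lam_mu : ∀ (D : Data) (x y : ℤ × ℤ),
    D.lam x * D.mu y = (D.sE x y : ℂ) + ((x.1 * y.1 + x.2 * y.2 : ℤ) : ℂ) * D.β
  sE_le : ∀ (D : Data) (M : ℕ) (x y : ℤ × ℤ), x ∈ box M → y ∈ box M →
    (D.sE x y).natAbs ≤ (1 + D.a.natAbs + D.b.natAbs) * M ^ 2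
  lam_le : ∀ (D : Data) (M : ℕ) (x : ℤ × ℤ), x ∈ box M → ‖D.lam x‖ ≤ D.K₀ * M
  mu_le : ∀ (D : Data) (M : ℕ) (x : ℤ × ℤ), x ∈ box M → ‖D.mu x‖ ≤ D.K₀ * M
  lam_sep : ∀ (D : Data) (x y : ℤ × ℤ), x ≠ y → 1 ≤ ‖D.lam x - D.lam y‖
  mu_sep : ∀ (D : Data) (x y : ℤ × ℤ), x ≠ y → 1 ≤ ‖D.mu x - D.mu y‖

def ProfStmt : Prop :=
  ∀ M q : ℕ, 3 ≤ q → q ≤ M → Bd M q (NN M q) (UU M q) (VV M q)

def EvalStmt : Prop :=
  ∀ (D : Data) (M : ℕ) (r c : (ℤ × ℤ) × ℕ), (D.entry M r c).eval D.w =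
    D.rowF M r * D.colF c * iteratedDeriv r.2 (D.fn c) (D.mu r.1)

def IntStmt : Prop :=
  ∀ (D : Data) (M q q' : ℕ) (ι : idx M q → idx M q'), InS D.S (D.minor M q q' ι)

def DegStmt : Prop :=
  ∀ (D : Data) (M q q' : ℕ) (ι : idx M q → idx M q'), Function.Injective ι →
    ((D.minor M q q' ι).natDegree : ℝ) ≤ UU M q + UU M q' + D.K₀ * VV M q'

def EntBdStmt : Prop :=
  ∀ (D : Data) (M : ℕ) (r c : (ℤ × ℤ) × ℕ) (ζ : ℂ), 1 ≤ M → r.1 ∈ box M → c.1 ∈ box M →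
    c.2 ≤ M ^ 2 → ‖ζ‖ ≤ ‖D.w‖ + 1 →
    ‖(D.entry M r c).eval ζ‖ ≤ D.K₀ ^ (M ^ 2) * (max 1 ‖ζ‖) ^ (uu r.1 + uu c.1) *
      (2 * D.K₀ ^ 2 * M) ^ (r.2 + c.2)

/-- Lipschitz bound of the entries near `w`. -/
def EntLipStmt : Prop :=
  ∀ (D : Data) (M : ℕ) (r c : (ℤ × ℤ) × ℕ) (ζ : ℂ), 1 ≤ M → r.1 ∈ box M → c.1 ∈ box M →
    r.2 ≤ M ^ 2 → c.2 ≤ M ^ 2 → ‖ζ - D.w‖ < 1 →
    ‖(D.entry M r c).eval ζ - (D.entry M r c).eval D.w‖ ≤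
      2 * Real.exp (7 * M ^ 2 * D.l0 M) * ‖ζ - D.w‖

def HtMinorStmt : Prop :=
  ∀ (D : Data) (M q q' : ℕ) (ι : idx M q → idx M q'), Function.Injective ι → 1 ≤ M → q ≤ M →
    D.minor M q q' ι ≠ 0 →
    (D.minor M q q' ι).logMahlerMeasure ≤ NN M q * Real.log (NN M q) +
      NN M q * M ^ 2 * Real.log D.K₀ + (VV M q + VV M q') * D.l0 M

def SmallStmt : Prop :=
  ∀ (D : Data) (M q q' : ℕ) (ι : idx M q → idx M q') (Y : ℝ), 2 ≤ q → q ≤ M → q' ≤ M →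
    D.l0 M ≤ (q : ℝ) ^ 2 → 0 < Y → Y ≤ 2 * NN M q * Real.log q →
    ∀ z : ℂ, ‖z - D.w‖ = Real.exp (-Y) →
      ‖(D.minor M q q' ι).eval z‖ ≤ Real.exp (-(NN M q * Y - Y - Y ^ 2 / (4 * Real.log q) -
        2 * (NN M q : ℝ) ^ 2 - 8 * D.K₀ ^ 3 * M ^ 2 * q ^ 2 * NN M q))

def RankStmt : Prop :=
  ∀ (D : Data) (M q q' : ℕ) (γ : ℂ), 1 ≤ M → q ≤ M → q' ≤ M →
    1001 * (NN M q : ℝ) ≤ 1000 * NN M q' → (NN M q' : ℝ) ≤ 2 * NN M q →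
    2 * D.K₀ ^ 3 * M ^ 2 * (1 + Real.exp 4000) ≤ NN M q →
    ‖γ - D.w‖ ≤ Real.exp (-((2100 + D.K₀ ^ 3) * NN M q' * D.l0 M)) →
    ∀ c : idx M q → ℂ,
      (Matrix.of fun (i : idx M q') (j : idx M q) => (D.entry M i.1 j.1).eval γ).mulVec c = 0 →
      c = 0

/-! ### Numerics -/

def Num0Stmt : Prop :=
  ∀ K₀ : ℝ, 2 ≤ K₀ → ∃ y₀ : ℝ, ∀ y k : ℝ, y₀ ≤ y → 100 * K₀ ≤ k →
    k ≤ 1 / (100 * K₀) * Real.sqrt (Real.log y) →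
    ∃ M q q' : ℕ, Rel K₀ y k (Real.log y / 2) M q q'

def Num1Stmt : Prop :=
  ∀ K₀ y k l M q q' N U V N' U' V' : ℝ, Rel K₀ y k l M q q' → Bd M q N U V → Bd M q' N' U' V' →
    0 < l ∧ 100000 ≤ q ∧ q ≤ q' ∧ Real.log (2 * K₀ ^ 2 * M) ≤ q ^ 2 ∧
    1001 * N ≤ 1000 * N' ∧ N' ≤ 2 * N ∧ 2 * K₀ ^ 3 * M ^ 2 * (1 + Real.exp 4000) ≤ N ∧
    y ^ 2 ≤ 2 * N * Real.log q ∧
    (2100 + K₀ ^ 3) * N' * Real.log (2 * K₀ ^ 2 * M) ≤ 2 * (2100 + K₀ ^ 3) * y ^ 2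

def Num2Stmt : Prop :=
  ∀ K₀ y k l M q q' N U V N' U' V' : ℝ, Rel K₀ y k l M q q' → Bd M q N U V → Bd M q' N' U' V' →
    (U + U' + K₀ * V') * k ≤ y ^ 3 / (3 * l)

def Num3Stmt : Prop :=
  ∀ K₀ y k l M q q' N U V N' U' V' : ℝ, Rel K₀ y k l M q q' → Bd M q N U V → Bd M q' N' U' V' →
    N * Real.log N + N * M ^ 2 * Real.log K₀ + (V + V') * Real.log (2 * K₀ ^ 2 * M) ≤
      y ^ 3 / (3 * l) * k

def Num4Stmt : Prop :=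
  ∀ K₀ y k l M q q' N U V : ℝ, Rel K₀ y k l M q q' → Bd M q N U V →
    71 / 50 * (y ^ 3 / (3 * l)) * y ≤ N * y ^ 2 - y ^ 2 - (y ^ 2) ^ 2 / (4 * Real.log q) -
      2 * N ^ 2 - 8 * K₀ ^ 3 * M ^ 2 * q ^ 2 * N

def AuxStmt : Prop := ∀ D : Data, Aux D.S D.w

/-! ### The field `ℚ(β)` -/

def NormStmt : Prop :=
  ∀ (β : ℂ) (a b : ℤ), β ^ 2 = a * β + b → β.im ≠ 0 →
    ∃ _ : NumberField (IntermediateField.adjoin ℚ {β}),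
      NormSq (IntermediateField.adjoin ℚ {β}).val.toRingHom

def ClearStmt : Prop :=
  ∀ (K : Type) [Field K] [NumberField K] (φ : K →+* ℂ),
    (∀ x : K, ∃ n : ℕ, 1 ≤ n ∧ (n : ℂ) * φ x ∈ SK φ) ∧
    (∀ P : K[X], ∃ n : ℕ, 1 ≤ n ∧ InS (SK φ) (C (n : ℂ) * P.map φ)) ∧
    (∀ x : K, IsIntegral ℤ (φ x) → φ x ∈ SK φ) ∧
    (NormSq φ → ∀ x ∈ SK φ, x ≠ 0 → 1 ≤ ‖x‖)

/-- Choice of the constant `K₀`. -/
def K0Stmt : Prop :=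
  ∀ (β L : ℂ) (a b : ℤ) (n₀ : ℕ) (A B : ℂ[X]), L ≠ 0 → A.eval (Complex.exp (β * L)) ≠ 0 →
    ∃ K₀ : ℝ, 2 ≤ K₀ ∧ 1 + |(a : ℝ)| + ‖β‖ ≤ K₀ ∧ ‖L‖ ≤ K₀ ∧ 1 ≤ K₀ * ‖L‖ ∧
      ((n₀ : ℝ) * Real.exp ‖L‖) ^ (1 + a.natAbs + b.natAbs) ≤ K₀ ∧
      ‖Complex.exp (β * L)‖ + 1 ≤ K₀ ∧ 1 ≤ K₀ * ‖Complex.exp (β * L)‖ ∧
      (∀ ζ : ℂ, ‖ζ‖ ≤ ‖Complex.exp (β * L)‖ + 1 → ‖A.eval ζ‖ ≤ K₀ ∧ ‖B.eval ζ‖ ≤ K₀) ∧
      1 ≤ K₀ * ‖A.eval (Complex.exp (β * L))‖ ∧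
      ((A.natDegree : ℝ) ≤ K₀ ∧ (B.natDegree : ℝ) ≤ K₀)

end LogPow

end

section

/-! A matrix with trivial kernel has a non-zero maximal minor. -/

open Polynomial NumberField Finset

namespace LogPow

theorem minorStmt : MinorStmt := by
  intro I J _ _ _ Mx h
  have hinj : Function.Injective Mx.mulVecLin := by
    rw [← LinearMap.ker_eq_bot, LinearMap.ker_eq_bot']
    intro c hc
    exact h c hc
  have hrank : Mx.rank = Fintype.card J := by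
    rw [Matrix.rank, LinearMap.finrank_range_of_inj hinj, Module.finrank_fintype_fun_eq_card]
  obtain ⟨κ, a, ha, hspan, hli⟩ := exists_linearIndependent' ℂ Mx.row
  have : Finite κ := Finite.of_injective a ha
  have : Fintype κ := Fintype.ofFinite κ
  have hcard : Fintype.card J = Fintype.card κ := by
    rw [← hrank, Matrix.rank_eq_finrank_span_row, ← hspan, finrank_span_eq_card hli]
  let e : J ≃ κ := Fintype.equivOfCardEq hcard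
  refine ⟨a ∘ e, ha.comp e.injective, ?_⟩
  have hli' : LinearIndependent ℂ (Mx.submatrix (a ∘ e) id).row := hli.comp e e.injective
  rw [Matrix.linearIndependent_rows_iff_isUnit, Matrix.isUnit_iff_isUnit_det] at hli'
  exact hli'.ne_zero

end LogPow

end

section

open Polynomial NumberField Finset

namespace LogPow

namespace JensenL

theorem one (w ρ : ℂ) (Y : ℝ) : Real.exp (-cl w Y ρ) ≤
    ((X - C ρ).comp (C (Real.exp (-Y) : ℂ) * X + C w)).mahlerMeasure := by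
  have h0 := Real.exp_pos (-Y)
  have e : (X - C ρ).comp (C (Real.exp (-Y) : ℂ) * X + C w) =
      C (Real.exp (-Y) : ℂ) * X + C (w - ρ) := by
    rw [sub_comp, X_comp, C_comp, C_sub, add_sub_assoc]
  rw [e, mahlerMeasure_C_mul_X_add_C (by exact_mod_cast h0.ne'), cl, neg_neg,
    Real.exp_log (lt_max_of_lt_right h0), Complex.norm_real, Real.norm_of_nonneg h0.le, max_comm,
    norm_sub_rev w]
  exact max_le_max le_rfl (min_le_right _ _)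

theorem many (w : ℂ) (Y : ℝ) (s : Multiset ℂ) : Real.exp (-(s.map (cl w Y)).sum) ≤
    ((s.map fun ρ => X - C ρ).prod.comp (C (Real.exp (-Y) : ℂ) * X + C w)).mahlerMeasure := by
  induction s using Multiset.induction_on with
  | empty => simp
  | cons ρ s ih =>
    rw [Multiset.map_cons, Multiset.map_cons, Multiset.sum_cons, Multiset.prod_cons, mul_comp,
      mahlerMeasure_mul, neg_add, Real.exp_add]
    exact mul_le_mul (one w ρ Y) ih (Real.exp_pos _).le (mahlerMeasure_nonneg _)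

end JensenL

theorem jensenStmt (hm : MahlerStmt) : JensenStmt := by
  intro P w Y b h1 _ h
  have h0 := Real.exp_pos (-Y)
  have h2 := hm (P.comp (C (Real.exp (-Y) : ℂ) * X + C w)) (Real.exp (-b)) fun z hz => by
    rw [eval_comp]
    refine h _ ?_
    rw [eval_add, eval_mul, eval_C, eval_C, eval_X, add_sub_cancel_right, norm_mul, hz, mul_one,
      Complex.norm_real, Real.norm_of_nonneg h0.le]
  rw [(IsAlgClosed.splits P).eq_prod_roots, mul_comp, C_comp, mahlerMeasure_mul,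
    mahlerMeasure_const] at h2
  have h3 := (JensenL.many w Y P.roots).trans
    ((le_mul_of_one_le_left (mahlerMeasure_nonneg _) h1).trans h2)
  exact neg_le_neg_iff.1 (Real.exp_le_exp.1 h3)

end LogPow

end

section

open Polynomial NumberField Finset

namespace LogPow

namespace HtL

variable {K : Type} [Field K] [NumberField K]

theorem inj : Function.Injective (algebraMap (𝓞 K) K) := IsFractionRing.injective (𝓞 K) K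

/-- `P₁` is an integral multiple of `P`. -/
def Mult (P : K[X]) (P₁ : (𝓞 K)[X]) : Prop :=
  ∃ b : 𝓞 K, b ≠ 0 ∧ P₁.map (algebraMap (𝓞 K) K) = C (algebraMap (𝓞 K) K b) * P

theorem ex (P : K[X]) : ∃ P₁, Mult P P₁ := by
  obtain ⟨b, hb, h⟩ := IsLocalization.integerNormalization_spec (nonZeroDivisors (𝓞 K)) P
  exact ⟨_, b, nonZeroDivisors.ne_zero hb, by rw [h, ← smul_eq_C_mul, algebraMap_smul]⟩

theorem cne {b : 𝓞 K} (hb : b ≠ 0) : algebraMap (𝓞 K) K b ≠ 0 :=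
  (map_ne_zero_iff _ inj).2 hb

theorem Mult.ne {P : K[X]} {P₁ : (𝓞 K)[X]} (h : Mult P P₁) (hP : P ≠ 0) : P₁ ≠ 0 := by
  obtain ⟨b, hb, h⟩ := h
  rintro rfl
  rw [Polynomial.map_zero] at h
  exact mul_ne_zero (C_ne_zero.2 (cne hb)) hP h.symm

theorem Mult.mul {P Q : K[X]} {P₁ Q₁ : (𝓞 K)[X]} (h : Mult P P₁) (h' : Mult Q Q₁) :
    Mult (P * Q) (P₁ * Q₁) := by
  obtain ⟨b, hb, h⟩ := h
  obtain ⟨c, hc, h'⟩ := h'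
  refine ⟨b * c, mul_ne_zero hb hc, ?_⟩
  rw [Polynomial.map_mul, h, h', map_mul, map_mul]
  ring

theorem Mult.deg {P : K[X]} {P₁ : (𝓞 K)[X]} (h : Mult P P₁) : P₁.natDegree = P.natDegree := by
  obtain ⟨b, hb, h⟩ := h
  rw [← natDegree_map_eq_of_injective inj, h, natDegree_C_mul (cne hb)]

theorem Mult.roots (φ : K →+* ℂ) {P : K[X]} {P₁ : (𝓞 K)[X]} (h : Mult P P₁) :
    (P₁.map (psi φ)).roots = (P.map φ).roots := by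
  obtain ⟨b, hb, h⟩ := h
  rw [psi, ← Polynomial.map_map, h, Polynomial.map_mul, map_C,
    roots_C_mul _ ((map_ne_zero_iff _ φ.injective).2 (cne hb))]

theorem Mult.cop {P Q : K[X]} {P₁ Q₁ : (𝓞 K)[X]} (h : Mult P P₁) (h' : Mult Q Q₁)
    (hc : IsCoprime P Q) :
    IsCoprime (P₁.map (algebraMap (𝓞 K) K)) (Q₁.map (algebraMap (𝓞 K) K)) := by
  obtain ⟨b, hb, h⟩ := h
  obtain ⟨c, hc', h'⟩ := h'
  rw [h, h', isCoprime_mul_unit_left_left (isUnit_C.2 (cne hb).isUnit),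
    isCoprime_mul_unit_left_right (isUnit_C.2 (cne hc').isUnit)]
  exact hc

theorem Mult.uniq (h1 : HOBasicStmt) {φ : K →+* ℂ} (hN : NormSq φ) {P : K[X]}
    {P₁ P₂ : (𝓞 K)[X]} (h : Mult P P₁) (h' : Mult P P₂) (hP : P ≠ 0) : hO φ P₁ = hO φ P₂ := by
  obtain ⟨a1, a2, -, -⟩ := h1 K φ hN
  have n1 := h.ne hP
  have n2 := h'.ne hP
  obtain ⟨b, hb, h⟩ := h
  obtain ⟨c, hc, h'⟩ := h'
  have e : C c * P₁ = C b * P₂ := Polynomial.map_injective _ inj (by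
    rw [Polynomial.map_mul, Polynomial.map_mul, map_C, map_C, h, h']
    ring)
  have e1 := a1 _ _ (C_ne_zero.2 hc) n1
  rw [e, a1 _ _ (C_ne_zero.2 hb) n2, a2 b hb, a2 c hc] at e1
  linarith

end HtL

open HtL in
theorem htStmt (h1 : HOBasicStmt) (h2 : HOResStmt) : HtStmt := by
  intro K _ _ φ hN
  choose f hf using ex (K := K)
  obtain ⟨a1, -, a3, a4⟩ := h1 K φ hN
  refine ⟨⟨fun P => hO φ (f P), fun P Q hP hQ => ?_, fun P hP => a3 _ ((hf P).ne hP),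
    fun P hP hS => ?_, fun P Q hP hQ hc => ?_, ?_⟩⟩
  · rw [(hf (P * Q)).uniq h1 hN ((hf P).mul (hf Q)) (mul_ne_zero hP hQ),
      a1 _ _ ((hf P).ne hP) ((hf Q).ne hQ)]
  · obtain ⟨P₁, e⟩ := (mem_lifts _).1 ((lifts_iff_coeff_lifts (f := psi φ) (P.map φ)).2 hS)
    have e' : P₁.map (algebraMap (𝓞 K) K) = P :=
      Polynomial.map_injective φ φ.injective (by rw [Polynomial.map_map]; exact e)
    have hm : Mult P P₁ := ⟨1, one_ne_zero, by rw [e', map_one, map_one, one_mul]⟩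
    rw [(hf P).uniq h1 hN hm hP, ← e]
    exact a4 _ (hm.ne hP)
  · have e := h2 K φ hN _ _ ((hf P).ne hP) ((hf Q).ne hQ) ((hf P).cop (hf Q) hc)
    rwa [(hf P).roots, (hf Q).roots, (hf P).deg, (hf Q).deg] at e
  · rintro _ ⟨x, rfl⟩
    exact ⟨_, rfl⟩

end LogPow

end

section

/-! Clearing denominators and the choice of the constant. -/

open Polynomial NumberField Finset

namespace LogPow

namespace ClearL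

theorem mem_of_integral {K : Type} [Field K] (φ : K →+* ℂ) {x : K} (h : IsIntegral ℤ x) :
    φ x ∈ SK φ := ⟨⟨x, h⟩, rfl⟩

theorem one {K : Type} [Field K] [NumberField K] (φ : K →+* ℂ) (x : K) :
    ∃ n : ℕ, 1 ≤ n ∧ (n : ℂ) * φ x ∈ SK φ := by
  have hx : IsAlgebraic ℤ x :=
    (IsFractionRing.isAlgebraic_iff ℤ ℚ K).2 (Algebra.IsAlgebraic.isAlgebraic x)
  obtain ⟨y, hy, h⟩ := hx.exists_integral_multiple
  refine ⟨y.natAbs, Int.natAbs_pos.2 hy, ?_⟩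
  have h1 := mem_of_integral φ h
  rw [zsmul_eq_mul, map_mul, map_intCast] at h1
  rcases Int.natAbs_eq y with e | e
  · have : ((y.natAbs : ℕ) : ℂ) = (y : ℂ) := by
      conv_rhs => rw [e]
      simp
    rw [this]
    exact h1
  · have : ((y.natAbs : ℕ) : ℂ) = -(y : ℂ) := by
      conv_rhs => rw [e]
      simp
    rw [this, neg_mul]
    exact neg_mem h1

theorem inv_ev {c : ℝ} (hc : 0 < c) : ∀ᶠ K₀ : ℝ in Filter.atTop, 1 ≤ K₀ * c :=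
  (Filter.eventually_ge_atTop (1 / c)).mono fun _ h => (div_le_iff₀ hc).1 h

theorem bd_ev (A : ℂ[X]) (r : ℝ) :
    ∀ᶠ K₀ : ℝ in Filter.atTop, ∀ ζ : ℂ, ‖ζ‖ ≤ r → ‖A.eval ζ‖ ≤ K₀ := by
  obtain ⟨c, hc⟩ := (isCompact_closedBall (0 : ℂ) r).exists_bound_of_continuousOn
    A.continuous.continuousOn
  exact (Filter.eventually_ge_atTop c).mono fun _ h ζ hζ =>
    (hc ζ (by simpa using hζ)).trans h

end ClearL

theorem clearStmt : ClearStmt := by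
  intro K _ _ φ
  refine ⟨ClearL.one φ, fun P => ?_, fun x hx => ?_, fun hN x hx h0 => ?_⟩
  · choose n hn hn' using fun i : ℕ => ClearL.one φ (P.coeff i)
    refine ⟨∏ i ∈ P.support, n i, one_le_prod' fun i _ => hn i, fun i => ?_⟩
    rw [coeff_C_mul, coeff_map]
    by_cases hi : i ∈ P.support
    · rw [← prod_erase_mul _ _ hi, Nat.cast_mul, mul_assoc]
      exact mul_mem (natCast_mem _ _) (hn' i)
    · rw [notMem_support_iff.1 hi, map_zero, mul_zero]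
      exact zero_mem _
  · exact ClearL.mem_of_integral φ
      ((isIntegral_algHom_iff φ.toIntAlgHom φ.injective).1 hx)
  · obtain ⟨y, rfl⟩ := hx
    have hy : y ≠ 0 := fun h => h0 (by rw [h, map_zero])
    have h1 : Ideal.absNorm (Ideal.span {y}) ≠ 0 := by
      rw [Ne, Ideal.absNorm_eq_zero_iff, Ideal.span_singleton_eq_bot]
      exact hy
    have h2 : (1 : ℝ) ≤ ‖psi φ y‖ ^ 2 := by
      rw [← hN y]
      exact_mod_cast Nat.one_le_iff_ne_zero.2 h1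
    exact (one_le_sq_iff_one_le_abs _).1 h2 |>.trans_eq (abs_of_nonneg (norm_nonneg _))

theorem k0Stmt : K0Stmt := by
  intro β L a b n₀ A B hL hA
  have h : ∀ᶠ K₀ : ℝ in Filter.atTop, 2 ≤ K₀ ∧ 1 + |(a : ℝ)| + ‖β‖ ≤ K₀ ∧ ‖L‖ ≤ K₀ ∧
      1 ≤ K₀ * ‖L‖ ∧ ((n₀ : ℝ) * Real.exp ‖L‖) ^ (1 + a.natAbs + b.natAbs) ≤ K₀ ∧
      ‖Complex.exp (β * L)‖ + 1 ≤ K₀ ∧ 1 ≤ K₀ * ‖Complex.exp (β * L)‖ ∧
      (∀ ζ : ℂ, ‖ζ‖ ≤ ‖Complex.exp (β * L)‖ + 1 → ‖A.eval ζ‖ ≤ K₀ ∧ ‖B.eval ζ‖ ≤ K₀) ∧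
      1 ≤ K₀ * ‖A.eval (Complex.exp (β * L))‖ ∧
      ((A.natDegree : ℝ) ≤ K₀ ∧ (B.natDegree : ℝ) ≤ K₀) := by
    filter_upwards [Filter.eventually_ge_atTop (2 : ℝ),
      Filter.eventually_ge_atTop (1 + |(a : ℝ)| + ‖β‖), Filter.eventually_ge_atTop ‖L‖,
      ClearL.inv_ev (norm_pos_iff.2 hL),
      Filter.eventually_ge_atTop (((n₀ : ℝ) * Real.exp ‖L‖) ^ (1 + a.natAbs + b.natAbs)),
      Filter.eventually_ge_atTop (‖Complex.exp (β * L)‖ + 1),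
      ClearL.inv_ev (norm_pos_iff.2 (Complex.exp_ne_zero (β * L))),
      ClearL.bd_ev A (‖Complex.exp (β * L)‖ + 1), ClearL.bd_ev B (‖Complex.exp (β * L)‖ + 1),
      ClearL.inv_ev (norm_pos_iff.2 hA), Filter.eventually_ge_atTop (A.natDegree : ℝ),
      Filter.eventually_ge_atTop (B.natDegree : ℝ)] with K₀ h1 h2 h3 h4 h5 h6 h7 h8 h9 h10 h11 h12
    exact ⟨h1, h2, h3, h4, h5, h6, h7, fun ζ hζ => ⟨h8 ζ hζ, h9 ζ hζ⟩, h10, h11, h12⟩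
  exact h.exists

end LogPow

end

section

namespace LogPow

open Polynomial NumberField Finset

namespace EvalL

theorem der (t s : ℕ) (c z : ℂ) :
    iteratedDeriv s (fun z : ℂ => z ^ t * Complex.exp (c * z)) z =
      ∑ k ∈ range (s + 1), (s.choose k : ℂ) * ((t.descFactorial k : ℂ) * z ^ (t - k)) *
        (c ^ (s - k) * Complex.exp (c * z)) := by
  have h := iteratedDeriv_mul (n := s) (x := z) (f := fun z : ℂ => z ^ t)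
    (g := fun z : ℂ => Complex.exp (c * z)) (by fun_prop) (by fun_prop)
  refine h.trans (sum_congr rfl fun k _ => ?_)
  rw [iteratedDeriv_pow, iteratedDeriv_cexp_const_mul]

theorem pw (hl : LatStmt) {w : ℂ} (hw : w ≠ 0) (x y : ℤ) :
    w ^ tri (x + y) = w ^ tri x * w ^ tri y * w ^ (x * y) := by
  rw [← zpow_natCast, hl.tri_add, zpow_add₀ hw, zpow_add₀ hw, zpow_natCast, zpow_natCast]

end EvalL

theorem evalStmt (hl : LatStmt) : EvalStmt := by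
  intro D M r c
  have hw : D.w ≠ 0 := Complex.exp_ne_zero _
  have hAB : D.B.eval D.w = D.L * D.A.eval D.w := D.hAB
  have he : Complex.exp (D.lam c.1 * D.L * D.mu r.1) =
      Complex.exp D.L ^ (D.sE c.1 r.1) * (D.w ^ (c.1.1 * r.1.1) * D.w ^ (c.1.2 * r.1.2)) := by
    rw [← zpow_add₀ hw, Data.w, ← Complex.exp_int_mul, ← Complex.exp_int_mul, ← Complex.exp_add,
      mul_right_comm, hl.lam_mu]
    congr 1
    ring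
  unfold Data.entry Data.rowF Data.colF Data.fn
  rw [EvalL.der, he]
  simp only [eval_mul, eval_C, eval_pow, eval_X, eval_finset_sum, hAB, mul_sum]
  refine sum_congr rfl fun k hk => ?_
  obtain ⟨j, hj⟩ := Nat.exists_eq_add_of_le (Nat.lt_succ_iff.1 (mem_range.1 hk))
  rw [pow_add D.w, EvalL.pw hl hw, EvalL.pw hl hw, hj, Nat.add_sub_cancel_left]
  ring

end LogPow

end
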