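import Pool.Agent.Mg.F655169a.G47c8bf
import Pool.Agent.Mg.F655169a.Gc9f9fa

section

/-! The test function and the truncation of `cl`. -/

open Polynomial NumberField Finset

namespace LogPow2

open LogPow

theorem clMin : ClMinStmt := by
  intro w ρ Y Y' _ hY
  have h0 : Real.exp (-Y) ≤ Real.exp (-Y') := Real.exp_le_exp.2 (by linarith)
  have h1 : 0 < max (min 1 ‖ρ - w‖) (Real.exp (-Y)) := lt_max_of_lt_right (Real.exp_pos _)
  have h2 : max (min 1 ‖ρ - w‖) (Real.exp (-Y')) =
      max (max (min 1 ‖ρ - w‖) (Real.exp (-Y))) (Real.exp (-Y')) := by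
    rw [max_assoc, max_eq_right h0]
  unfold cl
  rw [h2]
  generalize max (min 1 ‖ρ - w‖) (Real.exp (-Y)) = c at h1
  rcases le_total c (Real.exp (-Y')) with h | h
  · have h3 := Real.log_le_log h1 h
    rw [Real.log_exp] at h3
    rw [max_eq_right h, Real.log_exp, neg_neg, min_eq_right (by linarith)]
  · have h3 := Real.log_le_log (Real.exp_pos _) h
    rw [Real.log_exp] at h3
    rw [max_eq_left h, min_eq_left (by linarith)]

namespace PsiL

lemma chord (y s a b c d e : ℝ) (hy : 0 < y) (hs : 0 ≤ s) (a1 : a ≤ s ^ 2) (a2 : a ≤ y ^ 2)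
    (b1 : b ≤ s ^ 2) (b2 : b ≤ y ^ 2 / 4) (c1 : c ≤ s ^ 2) (c2 : c ≤ y ^ 2 / 16)
    (d1 : d ≤ s ^ 2) (d2 : d ≤ y ^ 2 / 49) (e1 : e ≤ s ^ 2) (e2 : e ≤ y ^ 2 / 169) :
    1 / 3 * a + 1 / 3 * b + 20 / 33 * c + 441 / 440 * d + 169 / 40 * e ≤ y * (s / 2) := by
  rcases le_total s (y / 13) with h1 | h1
  · nlinarith [mul_nonneg hs (sub_nonneg.2 h1)]
  rcases le_total s (y / 7) with h2 | h2
  · nlinarith [mul_nonneg (sub_nonneg.2 h1) (sub_nonneg.2 h2)]
  rcases le_total s (y / 4) with h3 | h3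
  · nlinarith [mul_nonneg (sub_nonneg.2 h2) (sub_nonneg.2 h3)]
  rcases le_total s (y / 2) with h4 | h4
  · nlinarith [mul_nonneg (sub_nonneg.2 h3) (sub_nonneg.2 h4)]
  rcases le_total s y with h5 | h5
  · nlinarith [mul_nonneg (sub_nonneg.2 h4) (sub_nonneg.2 h5)]
  · nlinarith [mul_nonneg hy.le (sub_nonneg.2 h5)]

end PsiL

theorem psiStmt : PsiStmt where
  test := by
    intro y X hy hX
    have a1 := min_le_left X (y ^ 2)
    have a2 := min_le_right X (y ^ 2)
    have b1 := min_le_left X (y ^ 2 / 4)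
    have b2 := min_le_right X (y ^ 2 / 4)
    have c1 := min_le_left X (y ^ 2 / 16)
    have c2 := min_le_right X (y ^ 2 / 16)
    have d1 := min_le_left X (y ^ 2 / 49)
    have d2 := min_le_right X (y ^ 2 / 49)
    have e1 := min_le_left X (y ^ 2 / 169)
    have e2 := min_le_right X (y ^ 2 / 169)
    have hs := Real.sq_sqrt hX
    rw [gg, mul_min_of_nonneg _ _ hy.le, mul_min_of_nonneg _ _ hy.le]
    refine le_min ?_ (le_min ?_ ?_)
    · exact PsiL.chord y _ _ _ _ _ _ hy (Real.sqrt_nonneg X) (by rwa [hs]) a2 (by rwa [hs]) b2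
        (by rwa [hs]) c2 (by rwa [hs]) d2 (by rwa [hs]) e2
    · have h : y * (13 * X / (2 * y)) = 13 * X / 2 := by field_simp
      rw [h]
      linarith
    · nlinarith
  lin := fun y X => (min_le_right _ _).trans (min_le_left _ _)
  comp := by
    intro y y₀ X hy hyy hX hXy
    have h1 : gg y₀ X ≤ Real.sqrt X / 2 := min_le_left _ _
    have h2 : gg y₀ X ≤ 13 * X / (2 * y₀) := (min_le_right _ _).trans (min_le_left _ _)
    have h3 : 13 * X / (2 * y₀) ≤ 13 * X / (2 * y) :=
      div_le_div_of_nonneg_left (by positivity) (by positivity) (by linarith)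
    have h4 : 0 ≤ 13 * X / (2 * y) := by positivity
    have h5 := Real.sqrt_nonneg X
    have h6 : Real.sqrt X ≤ 1.005 * y := by
      rw [Real.sqrt_le_left (by positivity)]
      nlinarith [sq_nonneg y]
    have h7 : (0 : ℝ) ≤ 1.005 := by norm_num
    rw [show gg y X = min (Real.sqrt X / 2) (min (13 * X / (2 * y)) (y / 2)) from rfl,
      mul_min_of_nonneg _ _ h7, mul_min_of_nonneg _ _ h7]
    refine le_min ?_ (le_min ?_ ?_) <;> linarith

end LogPow2

end

section

open Polynomial NumberField Finset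

namespace LogPow

namespace DetL

theorem mono_sum {F : ℕ → ℝ} (hF : Monotone F) (U : Finset ℕ) :
    ∑ m ∈ range U.card, F m ≤ ∑ u ∈ U, F u := by
  induction U using Finset.induction_on_max with
  | empty => simp
  | insert a t ht ih =>
    have ha : a ∉ t := fun h => lt_irrefl _ (ht a h)
    have h1 : t.card ≤ a := by
      simpa using card_le_card (show t ⊆ range a from fun x hx => mem_range.2 (ht x hx))
    rw [card_insert_of_notMem ha, sum_range_succ, sum_insert ha, add_comm]
    exact add_le_add (hF h1) ih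

theorem inj_sum {n : Type} [Fintype n] {F : ℕ → ℝ} (hF : Monotone F) {ψ : n → ℕ}
    (hψ : Function.Injective ψ) : ∑ m ∈ range (Fintype.card n), F m ≤ ∑ i, F (ψ i) := by
  have h := mono_sum hF (univ.image ψ)
  rwa [card_image_of_injective _ hψ, card_univ, sum_image fun _ _ _ _ h => hψ h] at h

theorem det_le {n : Type} [Fintype n] [DecidableEq n] (A : Matrix n n ℂ) (x : n → ℝ)
    (h : ∀ i j, ‖A i j‖ ≤ x i) : ‖A.det‖ ≤ (Fintype.card n).factorial * ∏ i, x i := by
  rw [Matrix.det_apply']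
  refine (norm_sum_le _ _).trans ?_
  refine (sum_le_card_nsmul _ _ (∏ i, x i) fun σ _ => ?_).trans ?_
  · have h1 : ‖((Equiv.Perm.sign σ : ℤ) : ℂ)‖ = 1 := by
      rcases Int.units_eq_one_or (Equiv.Perm.sign σ) with h | h <;> simp [h]
    rw [norm_mul, h1, one_mul, norm_prod, ← Equiv.prod_comp σ x]
    exact prod_le_prod (fun _ _ => norm_nonneg _) fun i _ => h _ _
  · rw [card_univ, Fintype.card_perm, nsmul_eq_mul]

end DetL

open DetL in
theorem detStmt : DetStmt := by
  intro n _ _ Kk Mx cc v r B l s hB hl hM hc hr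
  let c : n → Option (Fin Kk) → ℂ := fun i o => o.elim 1 fun m => cc i m
  let u : n → Option (Fin Kk) → n → ℂ := fun i o => o.elim (r i) fun m => v m
  have h1 : Mx = fun i => ∑ o, c i o • u i o := by
    funext i j
    rw [hM, Fintype.sum_option, add_comm, sum_range]
    simp [c, u, Finset.sum_apply]
  have h2 : Mx.det = ∑ φ : n → Option (Fin Kk),
      Matrix.det (Matrix.of fun i => c i (φ i) • u i (φ i)) := by
    rw [h1]
    exact (Matrix.detRowAlternating (n := n) (R := ℂ)).toMultilinearMap.map_sum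
      fun i o => c i o • u i o
  rw [h2]
  refine (norm_sum_le _ _).trans ?_
  refine (sum_le_card_nsmul _ _ ((Fintype.card n).factorial * B ^ Fintype.card n *
    Real.exp (-(∑ m ∈ range (Fintype.card n), min (m * l) s))) fun φ _ => ?_).trans ?_
  swap
  · rw [card_univ, Fintype.card_fun, Fintype.card_option, Fintype.card_fin, nsmul_eq_mul]
    push_cast
    exact le_of_eq (by ring)
  by_cases h3 : ∃ i i' m, i ≠ i' ∧ φ i = some m ∧ φ i' = some m
  · obtain ⟨i, i', m, h4, h5, h6⟩ := h3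
    have h7 : Matrix.det (Matrix.of fun i => c i (φ i) • u i (φ i)) = 0 := by
      have h8 := (Matrix.detRowAlternating (n := n) (R := ℂ)).toMultilinearMap.map_smul_univ
        (fun i => c i (φ i)) fun i => u i (φ i)
      have h9 := (Matrix.detRowAlternating (n := n) (R := ℂ)).map_eq_zero_of_eq
        (fun i => u i (φ i)) (i := i) (j := i') (by simp [u, h5, h6]) h4
      exact h8.trans (by rw [AlternatingMap.coe_multilinearMap, h9, smul_zero])
    rw [h7, norm_zero]
    positivity
  let e := Fintype.equivFin n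
  let ψ : n → ℕ := fun i => (φ i).elim (Kk + e i) fun m => m
  have hψ : Function.Injective ψ := by
    intro i i' h
    by_contra h4
    rcases h5 : φ i with _ | m <;> rcases h6 : φ i' with _ | m' <;>
      simp only [ψ, h5, h6, Option.elim] at h
    · exact h4 (e.injective (Fin.ext (by omega)))
    · omega
    · omega
    · exact h3 ⟨i, i', m, h4, h5, by rw [h6, Fin.ext h]⟩
  have h4 := inj_sum (F := fun m : ℕ => min (m * l) s) (fun a b hab => min_le_min_right _
    (mul_le_mul_of_nonneg_right (Nat.cast_le.2 hab) hl)) hψ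
  refine (det_le _ (fun i => B * Real.exp (-min (ψ i * l) s)) fun i j => ?_).trans ?_
  · rcases h5 : φ i with _ | m
    · simp only [Matrix.of_apply, c, u, h5, Option.elim, one_smul]
      exact (hr i j).trans (mul_le_mul_of_nonneg_left
        (Real.exp_le_exp.2 (neg_le_neg (min_le_right _ _))) hB)
    · simp only [Matrix.of_apply, c, u, ψ, h5, Option.elim, Pi.smul_apply, smul_eq_mul]
      exact (hc i m j m.2).trans (mul_le_mul_of_nonneg_left
        (Real.exp_le_exp.2 (neg_le_neg (min_le_left _ _))) hB)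
  · rw [prod_mul_distrib, prod_const, card_univ, ← Real.exp_sum, sum_neg_distrib, ← mul_assoc]
    exact mul_le_mul_of_nonneg_left (Real.exp_le_exp.2 (neg_le_neg h4)) (by positivity)

end LogPow

end

section

open Polynomial NumberField Finset

namespace LogPow2

open LogPow

namespace LineL

theorem split (c : ℤ) (i j : ℕ) (F : ℤ → ℝ) :
    ∏ n ∈ (Icc (c - i) (c + j)).erase c, F n =
      (∏ k ∈ range i, F (c - (k + 1 : ℕ))) * ∏ k ∈ range j, F (c + (k + 1 : ℕ)) := by
  have e : (Icc (c - i) (c + j)).erase c =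
      (range i).image (fun k : ℕ => c - (k + 1 : ℕ)) ∪
        (range j).image (fun k : ℕ => c + (k + 1 : ℕ)) := by
    ext n
    simp only [mem_erase, mem_Icc, mem_union, mem_image, mem_range]
    constructor
    · rintro ⟨h1, h2, h3⟩
      rcases lt_or_gt_of_ne h1 with h | h
      · exact Or.inl ⟨(c - n - 1).toNat, by omega, by omega⟩
      · exact Or.inr ⟨(n - c - 1).toNat, by omega, by omega⟩
    · rintro (⟨k, h1, h2⟩ | ⟨k, h1, h2⟩) <;> omega
  rw [e, prod_union, prod_image, prod_image]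
  · intro x _ y _ h
    simp only at h
    omega
  · intro x _ y _ h
    simp only at h
    omega
  · rw [disjoint_left]
    intro n h1 h2
    obtain ⟨k, _, h1⟩ := mem_image.1 h1
    obtain ⟨l, _, h2⟩ := mem_image.1 h2
    omega

theorem half (i : ℕ) : ∏ k ∈ range i, (((k + 1 : ℕ) : ℝ) / 2) = (i.factorial : ℝ) / 2 ^ i := by
  rw [prod_div_distrib, prod_const, card_range, ← Nat.cast_prod,
    prod_range_add_one_eq_factorial]

theorem fac (i j M : ℕ) (h : i + j = 2 * M) :
    M.factorial * M.factorial ≤ i.factorial * j.factorial := by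
  have h1 : (2 * M).choose i * i.factorial * j.factorial = (2 * M).factorial := by
    have := Nat.choose_mul_factorial_mul_factorial (show i ≤ 2 * M by omega)
    rwa [show 2 * M - i = j by omega] at this
  have h2 : M.centralBinom * M.factorial * M.factorial = (2 * M).factorial := by
    have := Nat.choose_mul_factorial_mul_factorial (show M ≤ 2 * M by omega)
    rwa [show 2 * M - M = M by omega] at this
  have h3 : (2 * M).choose i ≤ M.centralBinom := Nat.choose_le_centralBinom i M
  refine Nat.le_of_mul_le_mul_left ?_ M.centralBinom_pos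
  calc M.centralBinom * (M.factorial * M.factorial) = (2 * M).choose i *
        (i.factorial * j.factorial) := by rw [← mul_assoc, ← mul_assoc, h1, h2]
    _ ≤ _ := Nat.mul_le_mul_right _ h3

theorem stir (M : ℕ) : ((M : ℝ) / Real.exp 1) ^ M ≤ M.factorial := by
  have h := Real.pow_div_factorial_le_exp (M : ℝ) (Nat.cast_nonneg M) M
  have f0 : (0 : ℝ) < M.factorial := by exact_mod_cast M.factorial_pos
  rw [div_pow, ← Real.exp_nat_mul, mul_one, div_le_iff₀ (Real.exp_pos _)]
  rw [div_le_iff₀ f0] at h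
  linarith

theorem nz {β : ℂ} (h : ∀ r : ℚ, β ≠ r) {u v : ℤ} (huv : u ≠ 0 ∨ v ≠ 0) :
    (u : ℂ) + v * β ≠ 0 := by
  intro e
  by_cases hv : v = 0
  · subst hv
    simp only [Int.cast_zero, zero_mul, add_zero, Int.cast_eq_zero] at e
    omega
  · have hv' : (v : ℂ) ≠ 0 := by exact_mod_cast hv
    refine h (-(u : ℚ) / v) ?_
    push_cast
    field_simp
    linear_combination e

end LineL

open LineL

theorem lineStmt : LineStmt := by
  intro θ M hM
  obtain ⟨c, hc, hmin⟩ := exists_min_image (Icc (-(M : ℤ)) M) (fun n : ℤ => |θ.re - n|)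
    ⟨0, by simp⟩
  refine ⟨c, hc, ?_⟩
  obtain ⟨c1, c2⟩ := mem_Icc.1 hc
  obtain ⟨i, hi⟩ := Int.eq_ofNat_of_zero_le (show 0 ≤ c + M by omega)
  obtain ⟨j, hj⟩ := Int.eq_ofNat_of_zero_le (show 0 ≤ M - c by omega)
  have hij : i + j = 2 * M := by omega
  have h1 : ∏ n ∈ (Icc (-(M : ℤ)) M).erase c, |(n : ℝ) - c| / 2 ≤
      ∏ n ∈ (Icc (-(M : ℤ)) M).erase c, ‖θ - n‖ := by
    refine prod_le_prod (fun _ _ => by positivity) fun n hn => ?_
    have a := hmin n (mem_of_mem_erase hn)
    have b : |θ.re - n| ≤ ‖θ - n‖ := by simpa using Complex.abs_re_le_norm (θ - n)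
    have d : |(n : ℝ) - c| ≤ |θ.re - c| + |θ.re - n| := by
      have := abs_sub (θ.re - c) (θ.re - n)
      rwa [show θ.re - c - (θ.re - n) = (n : ℝ) - c by ring] at this
    linarith
  refine le_trans ?_ h1
  rw [show Icc (-(M : ℤ)) M = Icc (c - i) (c + j) by congr 1 <;> omega,
    split c i j fun n : ℤ => |(n : ℝ) - c| / 2]
  have e1 : ∀ k : ℕ, |((c - (k + 1 : ℕ) : ℤ) : ℝ) - c| / 2 = ((k + 1 : ℕ) : ℝ) / 2 := by
    intro k
    rw [Int.cast_sub, Int.cast_natCast, sub_sub_cancel_left, abs_neg, Nat.abs_cast]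
  have e2 : ∀ k : ℕ, |((c + (k + 1 : ℕ) : ℤ) : ℝ) - c| / 2 = ((k + 1 : ℕ) : ℝ) / 2 := by
    intro k
    rw [Int.cast_add, Int.cast_natCast, add_sub_cancel_left, Nat.abs_cast]
  simp only [e1, e2, half]
  rw [div_mul_div_comm, ← pow_add, hij, mul_comm 2 (Real.exp 1), ← div_div, div_pow]
  refine div_le_div_of_nonneg_right ?_ (by positivity)
  have f : ((M.factorial * M.factorial : ℕ) : ℝ) ≤ (i.factorial * j.factorial : ℕ) := by
    exact_mod_cast fac i j M hij
  push_cast at f
  refine le_trans ?_ f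
  rw [two_mul, pow_add]
  exact mul_le_mul (stir M) (stir M) (by positivity) (by positivity)

theorem sepStmt : SepStmt := by
  intro β a b K₀ M G hM x hx x' hx' hne
  obtain ⟨p1, p2⟩ := mem_product.1 hx
  obtain ⟨q1, q2⟩ := mem_product.1 hx'
  rw [mem_Icc] at p1 p2 q1 q2
  obtain ⟨u, hu⟩ : ∃ u, u = x.1 - x'.1 := ⟨_, rfl⟩
  obtain ⟨v, hv⟩ : ∃ v, v = x.2 - x'.2 := ⟨_, rfl⟩
  have huv : u ≠ 0 ∨ v ≠ 0 := by
    by_contra h
    exact hne (Prod.ext (by omega) (by omega))
  have e : lam β x - lam β x' = (u : ℂ) + v * β := by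
    rw [hu, hv, lam, lam]
    push_cast
    ring
  have irr' : ∀ r : ℚ, (a : ℂ) - β ≠ r := by
    intro r h
    refine G.irr ((a : ℚ) - r) ?_
    push_cast
    linear_combination -h
  have n1 := nz G.irr huv
  have n2 := nz irr' huv
  have pr : ((u : ℂ) + v * β) * ((u : ℂ) + v * (a - β)) =
      ((u ^ 2 + a * u * v - b * v ^ 2 : ℤ) : ℂ) := by
    push_cast
    linear_combination (-(v : ℂ) ^ 2) * G.hβ
  have n3 : (u ^ 2 + a * u * v - b * v ^ 2 : ℤ) ≠ 0 := by
    intro h
    rw [h, Int.cast_zero] at pr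
    exact mul_ne_zero n1 n2 pr
  have n4 : 1 ≤ ‖(u : ℂ) + v * β‖ * ‖(u : ℂ) + v * (a - β)‖ := by
    rw [← norm_mul, pr, Complex.norm_intCast]
    exact_mod_cast Int.one_le_abs n3
  have bu : |(u : ℝ)| ≤ 2 * M := by
    have : |u| ≤ 2 * (M : ℤ) := abs_le.2 ⟨by omega, by omega⟩
    exact_mod_cast this
  have bv : |(v : ℝ)| ≤ 2 * M := by
    have : |v| ≤ 2 * (M : ℤ) := abs_le.2 ⟨by omega, by omega⟩
    exact_mod_cast this
  have M0 : (1 : ℝ) ≤ M := by exact_mod_cast hM
  have n5 : ‖(u : ℂ) + v * (a - β)‖ ≤ 2 * K₀ * M := by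
    refine (norm_add_le _ _).trans ?_
    rw [norm_mul, Complex.norm_intCast, Complex.norm_intCast, norm_sub_rev]
    have s := mul_le_mul_of_nonneg_right bv (norm_nonneg (β - a))
    have t := mul_le_mul_of_nonneg_left G.h₂ (show (0 : ℝ) ≤ 2 * M by linarith)
    linarith
  have K0 := G.hK
  rw [e, div_le_iff₀ (by positivity)]
  exact n4.trans (mul_le_mul_of_nonneg_left n5 (norm_nonneg _))

end LogPow2

end
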