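import Pool.Agent.Mg.F655169a.G47c8bf
import Pool.Agent.Mg.F655169a.Gfc2d0b
import Pool.Agent.Mg.F655169a.Gc9f9fa

section

open Polynomial NumberField Finset

namespace LogPow2

open LogPow

namespace FactL

theorem pow_bd {x K : ℝ} {k n : ℕ} (hx : 0 ≤ x) (hK : 1 ≤ K) (h : x ≤ K) (hk : k ≤ n) :
    x ^ k ≤ K ^ n :=
  (pow_le_pow_left₀ hx h k).trans (pow_le_pow_right₀ hK hk)

theorem apow_eq (D : AD ℂ) (L : ℂ) (hp : D.αp = D.n₀ * Complex.exp L)
    (hm : D.αm = D.n₀ * Complex.exp (-L)) (M : ℕ) (s : ℤ) (hs : s.natAbs ≤ D.cc * M ^ 2) :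
    D.apow M s = (D.n₀ : ℂ) ^ (D.cc * M ^ 2) * Complex.exp (s * L) := by
  obtain ⟨j, hj⟩ := Nat.exists_eq_add_of_le hs
  rw [AD.apow, hp, hm, hj, Nat.add_sub_cancel_left]
  obtain ⟨n, rfl | rfl⟩ := s.eq_nat_or_neg
  · simp only [Int.toNat_natCast, Int.toNat_neg_natCast, Int.natAbs_natCast, Int.cast_natCast,
      Complex.exp_nat_mul]
    ring
  · simp only [neg_neg, Int.toNat_natCast, Int.toNat_neg_natCast, Int.natAbs_neg,
      Int.natAbs_natCast, Int.cast_neg, Int.cast_natCast]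
    rw [neg_mul, ← mul_neg, Complex.exp_nat_mul]
    ring

theorem int_le {a : ℤ} {M : ℕ} (h : a.natAbs ≤ M) : ‖(a : ℂ)‖ ≤ M := by
  rw [Complex.norm_intCast, ← Int.cast_abs, Int.abs_eq_natAbs, Int.cast_natCast]
  exact_mod_cast h

end FactL

open FactL in
theorem factStmt (hl : Lat2Stmt) : FactStmt := by
  intro D L K₀ M z hD hM hz
  obtain ⟨δ, T, hzw, hA, hB, hδ, hT, hT1, hT2, hzK, hAK⟩ := hD.lip z hz
  have hK := hD.bnd.hK
  have hK1 : (1 : ℝ) ≤ K₀ := by linarith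
  have hz0 : z ≠ 0 := hzw ▸ mul_ne_zero (Complex.exp_ne_zero _) (Complex.exp_ne_zero _)
  have hn0 : (D.n₀ : ℂ) ≠ 0 := Nat.cast_ne_zero.2 (by have := hD.bnd.hn₀; omega)
  refine ⟨T, fun x => (L - T) * lam D.β x * (D.β - D.a) + δ * x.1,
    fun x => (L - T) * lam D.β x + δ * x.2,
    fun r => (D.n₀ : ℂ) ^ (D.cc * M ^ 2) * z ^ (tri r.1.1 + tri r.1.2) * D.A.eval z ^ r.2,
    fun c => z ^ (tri c.1.1 + tri c.1.2), hT1, hT2, fun x hx => ?_,
    fun r => mul_ne_zero (mul_ne_zero (pow_ne_zero _ hn0) (pow_ne_zero _ hz0)) (pow_ne_zero _ hA),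
    fun c => pow_ne_zero _ hz0, fun r hr h2 => ?_, fun c hc => ?_, fun r c hr hc => ?_⟩
  · obtain ⟨x1, x2⟩ := (latStmt.mem_box M x).1 hx
    have a1 := int_le x1
    have a2 := int_le x2
    have a3 := hl.lam_le D.β K₀ M x hD.bnd.h₁ hx
    have a4 : ‖D.β - D.a‖ ≤ K₀ := by linarith [hD.bnd.h₂]
    rw [norm_sub_rev] at hT
    have hd := norm_nonneg (z - Complex.exp (D.β * L))
    generalize ‖z - Complex.exp (D.β * L)‖ = d at hδ hT hd
    have b1 : K₀ * d * M ≤ K₀ ^ 3 * d * M := by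
      gcongr
      exact le_self_pow₀ hK1 (by norm_num)
    have b2 : K₀ ^ 2 * d * M ≤ K₀ ^ 3 * d * M := by
      gcongr
      norm_num
    constructor
    · refine (norm_add_le _ _).trans ?_
      simp only [norm_mul]
      calc _ ≤ K₀ * d * (K₀ * M) * K₀ + K₀ * d * M := by gcongr
        _ ≤ _ := by linarith
    · refine (norm_add_le _ _).trans ?_
      simp only [norm_mul]
      calc _ ≤ K₀ * d * (K₀ * M) + K₀ * d * M := by gcongr
        _ ≤ _ := by linarith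
  · have a1 : ‖(D.n₀ : ℂ) ^ (D.cc * M ^ 2)‖ ≤ K₀ ^ (M ^ 2) := by
      rw [norm_pow, pow_mul, Complex.norm_natCast]
      exact pow_le_pow_left₀ (by positivity) hD.bnd.hn _
    have a2 : ‖z ^ (tri r.1.1 + tri r.1.2)‖ ≤ K₀ ^ (2 * M ^ 2) := by
      rw [norm_pow]
      exact pow_bd (norm_nonneg _) hK1 hzK (latStmt.tri_box M _ hr)
    have a3 : ‖D.A.eval z ^ r.2‖ ≤ K₀ ^ (M ^ 2) := by
      rw [norm_pow]
      exact pow_bd (norm_nonneg _) hK1 hAK h2
    rw [norm_mul, norm_mul]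
    calc _ ≤ K₀ ^ (M ^ 2) * K₀ ^ (2 * M ^ 2) * K₀ ^ (M ^ 2) := by gcongr
      _ = _ := by rw [← pow_add, ← pow_add]; congr 1; ring
  · rw [norm_pow]
    exact pow_bd (norm_nonneg _) hK1 hzK (latStmt.tri_box M _ hc)
  · have h1 := apow_eq D L hD.ep hD.em M _ (hl.sE_le D.a D.b M c.1 r.1 hc hr)
    have h2 := hl.lam_mu D.β D.a D.b c.1 r.1 hD.geo.hβ
    have he : Complex.exp (sE D.a D.b c.1 r.1 * L) * (z ^ (c.1.1 * r.1.1) * z ^ (c.1.2 * r.1.2)) =
        Complex.exp (T * lam D.β c.1 * mu D.β D.a r.1) *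
          Complex.exp ((r.1.1 : ℂ) * ((L - T) * lam D.β c.1 * (D.β - D.a) + δ * c.1.1) +
            (r.1.2 : ℂ) * ((L - T) * lam D.β c.1 + δ * c.1.2)) := by
      rw [← zpow_add₀ hz0, hzw, ← Complex.exp_add (D.β * L), ← Complex.exp_int_mul,
        ← Complex.exp_add, ← Complex.exp_add]
      congr 1
      have h3 : mu D.β D.a r.1 = r.1.2 + r.1.1 * (D.β - D.a) := by
        simp only [mu]
        push_cast
        ring
      push_cast at h2 ⊢
      linear_combination (-L) * h2 + (L - T) * lam D.β c.1 * h3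
    unfold AD.ent nm jet fn
    rw [EvalL.der, h1]
    simp only [eval_mul, eval_C, eval_pow, eval_X, eval_finsetSum, hB, mul_sum, sum_mul]
    refine sum_congr rfl fun k hk => ?_
    obtain ⟨j, hj⟩ := Nat.exists_eq_add_of_le (Nat.lt_succ_iff.1 (mem_range.1 hk))
    rw [pow_add z, EvalL.pw latStmt hz0, EvalL.pw latStmt hz0, hj, Nat.add_sub_cancel_left]
    linear_combination ((D.n₀ : ℂ) ^ (D.cc * M ^ 2) * z ^ (tri r.1.1 + tri r.1.2) *
      D.A.eval z ^ (k + j) * z ^ (tri c.1.1 + tri c.1.2) * ((k + j).choose k : ℂ) *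
      (c.2.descFactorial k : ℂ) * mu D.β D.a r.1 ^ (c.2 - k) * (T * lam D.β c.1) ^ j) * he

end LogPow2

end

section

/-! Crude sizes. -/

open Polynomial NumberField Finset

namespace LogPow2

open LogPow

namespace SizeL

lemma base {K M q : ℝ} (hK : 2 ≤ K) (hq : 2 ≤ q) (hM : q ≤ M)
    (hl : Real.log (2 * K ^ 2 * M) ≤ q ^ 2) (n : ℕ) :
    (2 * K ^ 2 * M) ^ n ≤ Real.exp (n * q ^ 2) := by
  have h0 : 0 < 2 * K ^ 2 * M := by
    have : 0 < M := by linarith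
    positivity
  rw [Real.exp_nat_mul]
  exact pow_le_pow_left₀ h0.le ((Real.log_le_iff_le_exp h0).1 hl) n

lemma cube {K : ℝ} (hK : 2 ≤ K) : 8 ≤ K ^ 3 := by
  have := pow_le_pow_left₀ (by norm_num) hK 3
  linarith

lemma pw {x a : ℝ} {t : ℕ} {N : ℝ} (hx : 0 ≤ x) (ha : 0 ≤ a) (h : x ≤ Real.exp a)
    (ht : (t : ℝ) ≤ N) : x ^ t ≤ Real.exp (N * a) := by
  refine (pow_le_pow_left₀ hx h t).trans ?_
  rw [← Real.exp_nat_mul]
  exact Real.exp_le_exp.2 (mul_le_mul_of_nonneg_right ht ha)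

end SizeL

theorem sizeStmt : SizeStmt where
  fn_le := by
    intro la T K M q c z hK hq hM hl hT hla hc hz
    have hq' : (2 : ℝ) ≤ q := by exact_mod_cast hq
    have hM' : (q : ℝ) ≤ M := by exact_mod_cast hM
    have hc' : (c.2 : ℝ) ≤ (M : ℝ) ^ 2 := by exact_mod_cast hc
    have hK0 : 0 < K := by linarith
    have hM0 : (0 : ℝ) < M := by linarith
    have h3 := SizeL.cube hK
    have hz1 : ‖z‖ ≤ 6 * (K * M) * (q : ℝ) ^ 2 := by
      rw [hz]
      have : 2 * Real.exp 1 ≤ 6 := by linarith [Real.exp_one_lt_d9]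
      gcongr
    have hz2 : ‖z‖ ≤ Real.exp (3 * (q : ℝ) ^ 2) := by
      refine hz1.trans (le_trans ?_ (by exact_mod_cast SizeL.base hK hq' hM' hl 3))
      have a1 : (q : ℝ) ^ 2 ≤ (M : ℝ) ^ 2 := by gcongr
      have a2 : (1 : ℝ) ≤ K ^ 5 := one_le_pow₀ (by linarith)
      calc 6 * (K * M) * (q : ℝ) ^ 2 ≤ 8 * (K * M) * (M : ℝ) ^ 2 * K ^ 5 := by
            refine le_trans ?_ (le_mul_of_one_le_right (by positivity) a2)
            gcongr
            norm_num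
        _ = (2 * K ^ 2 * M) ^ 3 := by ring
    have h1 := SizeL.pw (norm_nonneg z) (by positivity) hz2 hc'
    have h2 : ‖Complex.exp (T * la c.1 * z)‖ ≤ Real.exp (6 * (K ^ 3 * M ^ 2 * q ^ 2)) := by
      refine (Complex.norm_exp_le_exp_norm _).trans (Real.exp_le_exp.2 ?_)
      rw [norm_mul, norm_mul]
      calc ‖T‖ * ‖la c.1‖ * ‖z‖ ≤ K * (K * M) * (6 * (K * M) * (q : ℝ) ^ 2) := by gcongr
        _ = _ := by ring
    rw [fn, norm_mul, norm_pow]
    refine (mul_le_mul h1 h2 (norm_nonneg _) (Real.exp_pos _).le).trans ?_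
    rw [← Real.exp_add]
    refine Real.exp_le_exp.2 ?_
    have h4 : 0 ≤ (M : ℝ) ^ 2 * (q : ℝ) ^ 2 := by positivity
    nlinarith
  fact_le := by
    intro K M q σ hK hq hM hl hσ
    have hq' : (2 : ℝ) ≤ q := by exact_mod_cast hq
    have hM' : (q : ℝ) ≤ M := by exact_mod_cast hM
    have hσ' : (σ : ℝ) ≤ (M : ℝ) ^ 2 := by exact_mod_cast hσ
    have hM0 : (0 : ℝ) < M := by linarith
    have h3 := SizeL.cube hK
    have h1 : (σ.factorial : ℝ) ≤ (σ : ℝ) ^ σ := by exact_mod_cast Nat.factorial_le_pow σ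
    have h2 : (σ : ℝ) ≤ Real.exp (2 * (q : ℝ) ^ 2) := by
      refine hσ'.trans (le_trans ?_ (by exact_mod_cast SizeL.base hK hq' hM' hl 2))
      refine pow_le_pow_left₀ hM0.le (le_mul_of_one_le_left hM0.le ?_) 2
      nlinarith
    refine h1.trans ((SizeL.pw (Nat.cast_nonneg σ) (by positivity) h2 hσ').trans
      (Real.exp_le_exp.2 ?_))
    have h4 : 0 ≤ (M : ℝ) ^ 2 * (q : ℝ) ^ 2 := by positivity
    nlinarith
  pow_le := by
    intro K M q hK hq hM hl
    have hq' : (2 : ℝ) ≤ q := by exact_mod_cast hq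
    have hM' : (q : ℝ) ≤ M := by exact_mod_cast hM
    have hK0 : 0 < K := by linarith
    have h3 := SizeL.cube hK
    have h4 : (4 : ℝ) ≤ (M : ℝ) ^ 2 := by nlinarith
    have h5 : 32 ≤ K ^ 3 * (M : ℝ) ^ 2 := by nlinarith
    have h6 : 4 * K ^ 3 * (M : ℝ) ^ 2 ≤ (2 * K ^ 2 * M) ^ 2 := by nlinarith
    have h7 := SizeL.base hK hq' hM' hl 20
    calc 14 * (4 * K ^ 3 * (M : ℝ) ^ 2) ^ 9
        ≤ (2 * K ^ 2 * M) ^ 2 * ((2 * K ^ 2 * M) ^ 2) ^ 9 := by
          gcongr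
          linarith
      _ = (2 * K ^ 2 * M) ^ 20 := by ring
      _ ≤ _ := by
          refine h7.trans (Real.exp_le_exp.2 ?_)
          have h8 : 0 ≤ (q : ℝ) ^ 2 := by positivity
          push_cast
          nlinarith
  fn_diff := by
    intro la T c
    unfold fn
    fun_prop
  fn_der := by
    intro la T c n
    unfold fn
    rw [EvalL.der, sum_eq_single c.2]
    · rw [Nat.descFactorial_self, Nat.descFactorial_eq_factorial_mul_choose]
      simp only [Nat.sub_self, pow_zero, mul_zero, Complex.exp_zero, mul_one]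
      push_cast
      ring
    · intro k _ hk
      rcases lt_or_gt_of_ne hk with h | h
      · rw [zero_pow (Nat.sub_ne_zero_of_lt h)]
        simp
      · rw [Nat.descFactorial_eq_zero_iff_lt.2 h]
        simp
    · intro h
      rw [Nat.choose_eq_zero_of_lt (by simpa using h)]
      simp

end LogPow2

end
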