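import Pool.Agent.Mg.F655169a.Gc9f9fa
import Pool.Agent.Mg.F655169a.G47c8bf
import Pool.Agent.Mg.F655169a.Gfc2d0b

section

open Polynomial NumberField Finset

namespace LogPow

namespace HOBasicL

variable {K : Type} [Field K] [NumberField K]

theorem psi_inj (φ : K →+* ℂ) : Function.Injective (psi φ) :=
  φ.injective.comp (IsFractionRing.injective (𝓞 K) K)

theorem map_ne (φ : K →+* ℂ) {P : (𝓞 K)[X]} (hP : P ≠ 0) : P.map (psi φ) ≠ 0 :=
  (Polynomial.map_ne_zero_iff (psi_inj φ)).2 hP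

theorem one_le_norm {P : (𝓞 K)[X]} (hP : P ≠ 0) :
    (1 : ℝ) ≤ (Ideal.absNorm P.contentIdeal : ℕ) := by
  have h : Ideal.absNorm P.contentIdeal ≠ 0 := fun h =>
    hP ((contentIdeal_eq_bot_iff P).1 (Ideal.absNorm_eq_zero_iff.1 h))
  exact_mod_cast Nat.one_le_iff_ne_zero.2 h

end HOBasicL

open HOBasicL in
theorem hOBasic (h : ContentMulStmt) : HOBasicStmt := by
  intro K _ _ φ hN
  refine ⟨fun P Q hP hQ => ?_, fun c hc => ?_, fun P hP => ?_, fun P hP => ?_⟩
  · have a := one_le_norm hP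
    have b := one_le_norm hQ
    unfold hO
    rw [h _ P Q, Polynomial.map_mul, logMahlerMeasure_mul_eq_add_logMahlerMeasure
      (mul_ne_zero (map_ne φ hP) (map_ne φ hQ)), map_mul, Nat.cast_mul,
      Real.log_mul (by linarith) (by linarith)]
    ring
  · unfold hO
    rw [map_C, logMahlerMeasure_const, contentIdeal_C, hN c, Real.log_pow]
    push_cast
    ring
  · have a := one_le_norm hP
    have hl : P.leadingCoeff ≠ 0 := leadingCoeff_ne_zero.2 hP
    have hle : Ideal.span {P.leadingCoeff} ≤ P.contentIdeal :=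
      (Ideal.span_singleton_le_iff_mem _).2 (coeff_mem_contentIdeal P _)
    have h0 : Ideal.absNorm (Ideal.span {P.leadingCoeff}) ≠ 0 := fun h0 =>
      hl (Ideal.span_singleton_eq_bot.1 (Ideal.absNorm_eq_zero_iff.1 h0))
    have h1 : ((Ideal.absNorm P.contentIdeal : ℕ) : ℝ) ≤
        (Ideal.absNorm (Ideal.span {P.leadingCoeff}) : ℕ) := by
      exact_mod_cast Nat.le_of_dvd (Nat.pos_of_ne_zero h0) (Ideal.absNorm_dvd_absNorm_of_le hle)
    have h2 := (P.map (psi φ)).leadingCoeff_le_mahlerMeasure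
    rw [leadingCoeff_map_of_injective (psi_inj φ)] at h2
    rw [hN] at h1
    have h3 : ((Ideal.absNorm P.contentIdeal : ℕ) : ℝ) ≤ (P.map (psi φ)).mahlerMeasure ^ 2 :=
      h1.trans (pow_le_pow_left₀ (norm_nonneg _) h2 2)
    have h4 := Real.log_le_log (by linarith) h3
    rw [Real.log_pow] at h4
    unfold hO
    rw [logMahlerMeasure_eq_log_MahlerMeasure]
    push_cast at h4
    linarith
  · have := Real.log_nonneg (one_le_norm hP)
    unfold hO
    linarith

end LogPow

end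

section

open Polynomial NumberField Finset

namespace LogPow

namespace ContentMulL

theorem pid (R : Type) [CommRing R] [IsDomain R] [IsPrincipalIdealRing R] (P Q : R[X]) :
    (P * Q).contentIdeal = P.contentIdeal * Q.contentIdeal := by
  classical
  let _ : StrongNormalizationMonoid R := UniqueFactorizationMonoid.strongNormalizationMonoid
  let _ : NormalizedGCDMonoid R := UniqueFactorizationMonoid.toNormalizedGCDMonoid R
  rw [Submodule.IsPrincipal.contentIdeal_eq_span_content_of_isPrincipal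
      (IsPrincipalIdealRing.principal (P * Q).contentIdeal),
    Submodule.IsPrincipal.contentIdeal_eq_span_content_of_isPrincipal
      (IsPrincipalIdealRing.principal P.contentIdeal),
    Submodule.IsPrincipal.contentIdeal_eq_span_content_of_isPrincipal
      (IsPrincipalIdealRing.principal Q.contentIdeal),
    Ideal.span_singleton_mul_span_singleton, Ideal.span_singleton_eq_span_singleton]
  exact associated_content_mul P Q

end ContentMulL

theorem contentMul : ContentMulStmt := by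
  intro R _ _ P Q
  apply Ideal.eq_of_localization_maximal
  intro M hM
  have : IsDedekindDomain (Localization.AtPrime M) :=
    IsLocalization.isDedekindDomain R (M := M.primeCompl) M.primeCompl_le_nonZeroDivisors _
  have : IsPrincipalIdealRing (Localization.AtPrime M) := inferInstance
  rw [Ideal.map_mul, ← contentIdeal_map_eq_map_contentIdeal,
    ← contentIdeal_map_eq_map_contentIdeal, ← contentIdeal_map_eq_map_contentIdeal,
    Polynomial.map_mul]
  exact ContentMulL.pid _ _ _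

end LogPow

end

section

open Polynomial NumberField Finset

namespace LogPow2

open LogPow

theorem normProd : NormProdStmt := by
  intro K _ _ x
  have h3 := Algebra.norm_eq_prod_embeddings ℚ ℂ (x : K)
  rw [← Algebra.coe_norm_int] at h3
  have h4 : ((Algebra.norm ℤ x : ℤ) : ℂ) = ∏ σ : K →ₐ[ℚ] ℂ, σ (x : K) := by
    rw [← map_intCast (algebraMap ℚ ℂ)]
    exact h3
  have h5 := congrArg norm h4
  rw [norm_prod, Complex.norm_intCast] at h5
  rw [Ideal.absNorm_span_singleton, Nat.cast_natAbs, Int.cast_abs, h5]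
  exact (Fintype.prod_equiv (RingHom.equivRatAlgHom K ℂ) _ _ fun σ => rfl).symm

open HOBasicL in
theorem hABasic (h : NormProdStmt) : HABasicStmt := by
  intro K _ _
  refine ⟨fun P Q hP hQ => ?_, fun c hc => ?_, fun P hP => ?_, fun P hP => ?_⟩
  · have a := one_le_norm hP
    have b := one_le_norm hQ
    have hs : ∑ σ : K →+* ℂ, ((P * Q).map (psi σ)).logMahlerMeasure =
        ∑ σ : K →+* ℂ, (P.map (psi σ)).logMahlerMeasure +
          ∑ σ : K →+* ℂ, (Q.map (psi σ)).logMahlerMeasure := by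
      rw [← sum_add_distrib]
      refine sum_congr rfl fun σ _ => ?_
      rw [Polynomial.map_mul, logMahlerMeasure_mul_eq_add_logMahlerMeasure
        (mul_ne_zero (map_ne σ hP) (map_ne σ hQ))]
    unfold hA
    rw [hs, contentMul _ P Q, map_mul, Nat.cast_mul, Real.log_mul (by linarith) (by linarith)]
    ring
  · have hne : ∀ σ : K →+* ℂ, ‖psi σ c‖ ≠ 0 := fun σ =>
      norm_ne_zero_iff.2 fun h0 => hc (psi_inj σ (by rw [h0, map_zero]))
    unfold hA
    rw [contentIdeal_C, h K c, Real.log_prod fun σ _ => hne σ, sub_eq_zero]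
    refine sum_congr rfl fun σ _ => ?_
    rw [map_C, logMahlerMeasure_const]
  · have a := one_le_norm hP
    have hl : P.leadingCoeff ≠ 0 := leadingCoeff_ne_zero.2 hP
    have hle : Ideal.span {P.leadingCoeff} ≤ P.contentIdeal :=
      (Ideal.span_singleton_le_iff_mem _).2 (coeff_mem_contentIdeal P _)
    have h0 : Ideal.absNorm (Ideal.span {P.leadingCoeff}) ≠ 0 := fun h0 =>
      hl (Ideal.span_singleton_eq_bot.1 (Ideal.absNorm_eq_zero_iff.1 h0))
    have h1 : ((Ideal.absNorm P.contentIdeal : ℕ) : ℝ) ≤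
        (Ideal.absNorm (Ideal.span {P.leadingCoeff}) : ℕ) := by
      exact_mod_cast Nat.le_of_dvd (Nat.pos_of_ne_zero h0) (Ideal.absNorm_dvd_absNorm_of_le hle)
    rw [h K] at h1
    have hne : ∀ σ : K →+* ℂ, ‖psi σ P.leadingCoeff‖ ≠ 0 := fun σ =>
      norm_ne_zero_iff.2 fun h0 => hl (psi_inj σ (by rw [h0, map_zero]))
    have h4 := Real.log_le_log (by linarith) h1
    rw [Real.log_prod fun σ _ => hne σ] at h4
    have h5 : ∑ σ : K →+* ℂ, Real.log ‖psi σ P.leadingCoeff‖ ≤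
        ∑ σ : K →+* ℂ, (P.map (psi σ)).logMahlerMeasure := by
      refine sum_le_sum fun σ _ => ?_
      have h2 := (P.map (psi σ)).leadingCoeff_le_mahlerMeasure
      rw [leadingCoeff_map_of_injective (psi_inj σ)] at h2
      rw [logMahlerMeasure_eq_log_MahlerMeasure]
      exact Real.log_le_log (lt_of_le_of_ne (norm_nonneg _) (hne σ).symm) h2
    unfold hA
    linarith
  · have := Real.log_nonneg (one_le_norm hP)
    unfold hA
    linarith

end LogPow2

end

section

/-! Position of the nodes. -/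

open Polynomial NumberField Finset

namespace LogPow2

open LogPow

namespace NodesL

lemma num1 (K : ℝ) (M : ℕ) (hK : 2 ≤ K) (hM : 1 ≤ M) :
    Real.exp (-(8 * K * M)) * (2 * K * M) ^ (2 * M) ≤ ((M : ℝ) / (2 * Real.exp 1)) ^ (2 * M) := by
  have hM' : (1 : ℝ) ≤ M := by exact_mod_cast hM
  have h1 : Real.exp (-(8 * K * M)) = Real.exp (-(4 * K)) ^ (2 * M) := by
    rw [← Real.exp_nat_mul]; congr 1; push_cast; ring
  rw [h1, ← mul_pow]
  refine pow_le_pow_left₀ (by positivity) ?_ _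
  have h2 : 4 * K ≤ Real.exp (4 * K - 1) := by linarith [Real.add_one_le_exp (4 * K - 1)]
  have h3 : Real.exp (-(4 * K)) * Real.exp 1 * Real.exp (4 * K - 1) = 1 := by
    rw [← Real.exp_add, ← Real.exp_add]; simp
  rw [le_div_iff₀ (by positivity)]
  have h4 : 0 < Real.exp (-(4 * K)) * Real.exp 1 := by positivity
  have h5 : Real.exp (-(4 * K)) * Real.exp 1 * (4 * K) ≤ 1 :=
    (mul_le_mul_of_nonneg_left h2 h4.le).trans h3.le
  nlinarith

lemma num2 (t : ℝ) (ht : 0 < t) : Real.exp (-(2 * t)) ≤ 1 / (2 * t) / (2 * t) := by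
  have h1 : 2 * t ≤ Real.exp t := by
    have h2 : t ≤ Real.exp (t - 1) := by linarith [Real.add_one_le_exp (t - 1)]
    have h3 : (2 : ℝ) ≤ Real.exp 1 := by linarith [Real.add_one_le_exp (1 : ℝ)]
    have h4 : Real.exp t = Real.exp 1 * Real.exp (t - 1) := by rw [← Real.exp_add]; simp
    rw [h4]
    exact mul_le_mul h3 h2 ht.le (by positivity)
  rw [div_div, Real.exp_neg, one_div]
  refine inv_anti₀ (by positivity) ?_
  rw [two_mul t, Real.exp_add, ← two_mul]
  exact mul_le_mul h1 h1 (by positivity) (by positivity)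

lemma mem_box {M : ℕ} {x : ℤ × ℤ} :
    x ∈ box M ↔ x.1 ∈ Icc (-(M : ℤ)) M ∧ x.2 ∈ Icc (-(M : ℤ)) M := mem_product

lemma card_Icc' (M : ℕ) : (Icc (-(M : ℤ)) M).card = 2 * M + 1 := by
  rw [Int.card_Icc]; omega

lemma lam_nodes (hl : Lat2Stmt) (h1 : LineStmt) (h2 : SepStmt) (β : ℂ) (a b : ℤ) (K₀ : ℝ) (M : ℕ)
    (hG : Geo β a b K₀) (hM : 1 ≤ M) : Nodes (lam β) M K₀ := by
  have hK := hG.hK
  have hM' : (1 : ℝ) ≤ M := by exact_mod_cast hM
  have hpos : 0 < 2 * K₀ * M := by positivity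
  refine ⟨fun x hx => hl.lam_le β K₀ M x hG.h₁ hx, h2 β a b K₀ M hG hM, fun x hx => ?_⟩
  let F : ℤ × ℤ → ℝ := fun x' => if x' = x then 1 else ‖lam β x - lam β x'‖ / (2 * K₀ * M)
  have hF : ∏ x' ∈ (box M).erase x, ‖lam β x - lam β x'‖ / (2 * K₀ * M) = ∏ x' ∈ box M, F x' := by
    rw [← mul_prod_erase (box M) F hx]
    simp only [F, if_true, one_mul]
    exact prod_congr rfl fun x' hx' => by rw [if_neg (ne_of_mem_erase hx')]
  have hrow : ∀ y ∈ Icc (-(M : ℤ)) M,
      Real.exp (-(10 * K₀ * M)) ≤ ∏ n ∈ Icc (-(M : ℤ)) M, F (n, y) := by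
    intro y hy
    obtain ⟨n₀, hn₀, hle⟩ := h1 ((x.1 : ℂ) + ((x.2 : ℂ) - y) * β) M hM
    have he : ∀ n : ℤ, lam β x - lam β (n, y) = (x.1 : ℂ) + ((x.2 : ℂ) - y) * β - n := by
      intro n; simp only [lam]; ring
    have ha : 1 / (2 * K₀ * M) / (2 * K₀ * M) ≤ F (n₀, y) := by
      have h4 : 1 ≤ 2 * K₀ * M := by nlinarith
      simp only [F]
      split_ifs with h
      · rw [div_le_one hpos, div_le_iff₀ hpos]; nlinarith
      · exact div_le_div_of_nonneg_right
          (h2 β a b K₀ M hG hM x hx _ (mem_box.2 ⟨hn₀, hy⟩) (Ne.symm h)) hpos.le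
    have hb : Real.exp (-(8 * K₀ * M)) ≤ ∏ n ∈ (Icc (-(M : ℤ)) M).erase n₀, F (n, y) := by
      have h5 : ∏ n ∈ (Icc (-(M : ℤ)) M).erase n₀,
          ‖(x.1 : ℂ) + ((x.2 : ℂ) - y) * β - n‖ / (2 * K₀ * M) ≤
          ∏ n ∈ (Icc (-(M : ℤ)) M).erase n₀, F (n, y) := by
        refine prod_le_prod (fun n _ => by positivity) fun n _ => ?_
        rw [← he]
        simp only [F]
        split_ifs with h
        · rw [h]; simp
        · exact le_rfl
      refine le_trans ?_ h5
      rw [prod_div_distrib, prod_const, card_erase_of_mem hn₀, card_Icc', Nat.add_sub_cancel,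
        le_div_iff₀ (by positivity)]
      exact (num1 K₀ M hK hM).trans hle
    rw [← mul_prod_erase _ (fun n => F (n, y)) hn₀]
    have h6 := num2 (K₀ * M) (by positivity)
    rw [← mul_assoc] at h6
    calc Real.exp (-(10 * K₀ * M)) = Real.exp (-(2 * K₀ * M)) * Real.exp (-(8 * K₀ * M)) := by
          rw [← Real.exp_add]; congr 1; ring
      _ ≤ _ := mul_le_mul (h6.trans ha) hb (by positivity) ((h6.trans ha).trans' (by positivity))
  have hP : ∏ x' ∈ box M, F x' =
      ∏ y ∈ Icc (-(M : ℤ)) M, ∏ n ∈ Icc (-(M : ℤ)) M, F (n, y) := prod_product_right _ _ _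
  rw [hF, hP]
  calc Real.exp (-(30 * K₀ * M ^ 2)) ≤ Real.exp (-(10 * K₀ * M)) ^ (2 * M + 1) := by
        rw [← Real.exp_nat_mul]
        refine Real.exp_le_exp.2 ?_
        push_cast
        have : 0 ≤ K₀ * M * (M - 1) := by
          have : 0 ≤ (M : ℝ) - 1 := by linarith
          positivity
        nlinarith
    _ = ∏ _y ∈ Icc (-(M : ℤ)) M, Real.exp (-(10 * K₀ * M)) := by rw [prod_const, card_Icc']
    _ ≤ _ := prod_le_prod (fun _ _ => by positivity) hrow

lemma mu_eq (β : ℂ) (a : ℤ) (y : ℤ × ℤ) : mu β a y = lam (β - a) y.swap := by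
  simp only [mu, lam, Prod.fst_swap, Prod.snd_swap]
  push_cast
  ring

lemma swap_mem {M : ℕ} {x : ℤ × ℤ} (hx : x ∈ box M) : x.swap ∈ box M :=
  mem_box.2 (mem_box.1 hx).symm

end NodesL

open NodesL in
theorem nodesStmt (hl : Lat2Stmt) (h1 : LineStmt) (h2 : SepStmt) : NodesStmt := by
  intro β a b K₀ M hG hM
  refine ⟨lam_nodes hl h1 h2 β a b K₀ M hG hM, ?_⟩
  have hG' : Geo (β - a) (-a) b K₀ := by
    refine ⟨?_, fun r hr => hG.irr (r + a) ?_, hG.hK, hG.h₂, ?_⟩
    · push_cast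
      linear_combination hG.hβ
    · push_cast
      linear_combination hr
    · have : β - a - ((-a : ℤ) : ℂ) = β := by push_cast; ring
      rw [this]; exact hG.h₁
  have hN := lam_nodes hl h1 h2 _ _ _ K₀ M hG' hM
  refine ⟨fun x hx => ?_, fun x hx x' hx' hne => ?_, fun x hx => ?_⟩
  · rw [mu_eq]; exact hN.le _ (swap_mem hx)
  · rw [mu_eq, mu_eq]
    exact hN.sep _ (swap_mem hx) _ (swap_mem hx') fun h => hne (Prod.swap_injective h)
  · refine (hN.prod _ (swap_mem hx)).trans (le_of_eq ?_)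
    refine prod_bij' (fun y _ => y.swap) (fun y _ => y.swap) (fun y hy => ?_) (fun y hy => ?_)
      (fun y _ => Prod.swap_swap y) (fun y _ => Prod.swap_swap y) fun y _ => ?_
    · rw [mem_erase] at hy ⊢
      exact ⟨fun h => hy.1 (by rw [← h, Prod.swap_swap]), swap_mem hy.2⟩
    · rw [mem_erase] at hy ⊢
      exact ⟨fun h => hy.1 (Prod.swap_injective h), swap_mem hy.2⟩
    · rw [mu_eq, mu_eq, Prod.swap_swap]

end LogPow2

end

section

open Polynomial NumberField Finset

namespace LogPow2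

open LogPow

namespace CoefL

theorem mom {A E K₀ t M q : ℝ} {n N : ℕ} (hK : 2 ≤ K₀) (hq : 2 ≤ q) (hM : q ≤ M)
    (ht : 1 ≤ K₀ * t) (hE : 0 ≤ E) (hn : n < N) (hN : (N : ℝ) ≤ 2 * M ^ 2 * q ^ 2)
    (h : A * (K₀ * M) ^ n ≤ n.factorial * E) : A ≤ E * (q ^ 2) ^ N * (t * (K₀ * M)) ^ n := by
  have hM0 : 0 < M := by linarith
  have hK0 : 0 < K₀ := by linarith
  have ht0 : 0 < t := by
    by_contra h0
    have := mul_nonpos_of_nonneg_of_nonpos hK0.le (not_lt.1 h0)
    linarith
  have hp : 0 < (K₀ * M) ^ n := by positivity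
  have h1 : (n : ℝ) ≤ q ^ 2 * (t * (K₀ * M)) * (K₀ * M) := by
    have e1 : (n : ℝ) ≤ N := by exact_mod_cast hn.le
    have e2 : 2 ≤ K₀ * t * K₀ := by nlinarith
    have e3 : 0 ≤ M ^ 2 * q ^ 2 := by positivity
    nlinarith [mul_le_mul_of_nonneg_right e2 e3]
  have h2 : (n.factorial : ℝ) ≤ (q ^ 2) ^ N * (t * (K₀ * M)) ^ n * (K₀ * M) ^ n := by
    have e1 : (n.factorial : ℝ) ≤ (n : ℝ) ^ n := by exact_mod_cast Nat.factorial_le_pow n
    have e2 := pow_le_pow_left₀ (Nat.cast_nonneg n) h1 n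
    have e3 : (q ^ 2) ^ n ≤ (q ^ 2) ^ N := pow_le_pow_right₀ (by nlinarith) hn.le
    rw [mul_pow, mul_pow (q ^ 2)] at e2
    refine e1.trans (e2.trans ?_)
    gcongr
  refine le_of_mul_le_mul_right (h.trans ?_) hp
  have := mul_le_mul_of_nonneg_right h2 hE
  linarith

end CoefL

theorem coefStmt (h1 : DualStmt) (h2 : BoxHNStmt) (hs : SizeStmt) : CoefStmt := by
  classical
  intro la T K₀ E M q c hN hK hq hqM hlog hNN hT hT' hE hc j
  have hT0 : T ≠ 0 := by
    rintro rfl
    norm_num at hT'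
  obtain ⟨hHN, hHC⟩ := h2 la T K₀ M q hN hK hq hqM hlog hT0 hT hNN
  let c' : ℤ × ℤ → ℕ → ℂ := fun x τ => if h : (x, τ) ∈ idx M q then c ⟨_, h⟩ else 0
  have hc' : ∀ i : idx M q, c' i.1.1 i.1.2 = c i := fun i => dif_pos i.2
  have hq' : (2 : ℝ) ≤ q := by exact_mod_cast hq
  have hqM' : (q : ℝ) ≤ M := by exact_mod_cast hqM
  have hj := (latStmt.mem_idx M q j.1).1 j.2
  have key := h1 _ (box M) (fun x => T * la x) (mult M q) (q ^ 2) _ _ _ (E * ((q : ℝ) ^ 2) ^ NN M q)
    c' hHN (by positivity) (by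
      intro n hn
      rw [← latStmt.NN_eq] at hn
      refine CoefL.mom hK hq' hqM' hT' hE hn hNN (le_of_eq_of_le ?_ (hc n hn))
      rw [← latStmt.sum_idx M q ℂ
        (fun p => c' p.1 p.2 * ((n.descFactorial p.2 : ℂ) * (T * la p.1) ^ (n - p.2))),
        ← Finset.sum_coe_sort]
      simp only [hc', hs.fn_der]) j.1.1 hj.1 j.1.2 hj.2
  rw [hc', ← latStmt.NN_eq] at key
  refine key.trans ?_
  have h3 : (NN M q : ℝ) ≤ Real.exp (K₀ ^ 3 * M ^ 2 * q ^ 2) := by
    have e1 := Real.add_one_le_exp (K₀ ^ 3 * M ^ 2 * q ^ 2)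
    have e2 : 2 ^ 3 ≤ K₀ ^ 3 := pow_le_pow_left₀ (by norm_num) hK 3
    have e3 : (0 : ℝ) ≤ M ^ 2 * q ^ 2 := by positivity
    nlinarith [mul_le_mul_of_nonneg_right e2 e3]
  have h4 : Real.exp (10 * (K₀ ^ 3 * M ^ 2 * q ^ 2)) =
      Real.exp (K₀ ^ 3 * M ^ 2 * q ^ 2) * Real.exp (9 * (K₀ ^ 3 * M ^ 2 * q ^ 2)) := by
    rw [← Real.exp_add]
    congr 1
    ring
  have h5 := (mul_le_mul_of_nonneg_left hHC (Nat.cast_nonneg (NN M q))).trans
    (mul_le_mul_of_nonneg_right h3 (Real.exp_pos _).le)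
  rw [h4, mul_assoc _ _ E, mul_comm _ E]
  exact mul_le_mul_of_nonneg_right h5 (by positivity)

end LogPow2

end
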