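import Pool.Agent.Mg.F655169a.Gc9f9fa
import Pool.Agent.Mg.F655169a.G47c8bf
import Pool.Agent.Mg.F655169a.G7edb1d
import Pool.Agent.Mg.F655169a.Gfc2d0b

section

/-! Size and Lipschitz bounds for the entries. -/

open Polynomial NumberField Finset

namespace LogPow

namespace EntBdL

lemma const_le (D : Data) (M : ℕ) (s : ℤ)
    (hs : s.natAbs ≤ (1 + D.a.natAbs + D.b.natAbs) * M ^ 2) :
    ‖(D.n₀ : ℂ) ^ ((1 + D.a.natAbs + D.b.natAbs) * M ^ 2) * Complex.exp D.L ^ s‖ ≤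
      D.K₀ ^ (M ^ 2) := by
  set c := 1 + D.a.natAbs + D.b.natAbs with hc
  have h1 : ‖Complex.exp D.L ^ s‖ ≤ Real.exp ‖D.L‖ ^ (c * M ^ 2) := by
    rw [← Complex.exp_int_mul, ← Real.exp_nat_mul]
    refine (Complex.norm_exp_le_exp_norm _).trans (Real.exp_le_exp.2 ?_)
    rw [norm_mul]
    refine mul_le_mul_of_nonneg_right ?_ (norm_nonneg _)
    have : ‖(s : ℂ)‖ = (s.natAbs : ℝ) := by
      rw [Complex.norm_intCast, Nat.cast_natAbs, Int.cast_abs]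
    rw [this]
    exact_mod_cast hs
  rw [norm_mul, norm_pow, Complex.norm_natCast]
  calc (D.n₀ : ℝ) ^ (c * M ^ 2) * ‖Complex.exp D.L ^ s‖
      ≤ (D.n₀ : ℝ) ^ (c * M ^ 2) * Real.exp ‖D.L‖ ^ (c * M ^ 2) :=
        mul_le_mul_of_nonneg_left h1 (by positivity)
    _ = (((D.n₀ : ℝ) * Real.exp ‖D.L‖) ^ c) ^ (M ^ 2) := by rw [← mul_pow, pow_mul]
    _ ≤ D.K₀ ^ (M ^ 2) := pow_le_pow_left₀ (by positivity) D.hKα _

lemma term_le (σ τ k : ℕ) (μ l A B : ℂ) (ρ K : ℝ) (hρ : 1 ≤ ρ) (hK : 0 ≤ K) (hk : k ≤ σ)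
    (hτ : (τ : ℝ) ≤ ρ ^ 2) (hμ : ‖μ‖ ≤ ρ) (hl : ‖l‖ ≤ ρ) (hA : ‖A‖ ≤ K) (hB : ‖B‖ ≤ K) :
    ‖(σ.choose k : ℂ) * (τ.descFactorial k : ℂ) * μ ^ (τ - k) * l ^ (σ - k) * B ^ (σ - k) *
      A ^ k‖ ≤ (σ.choose k : ℝ) * (ρ ^ (σ + τ) * K ^ σ) := by
  have hρ0 : 0 ≤ ρ := by linarith
  by_cases h : τ < k
  · rw [Nat.descFactorial_of_lt h]
    simp only [Nat.cast_zero, mul_zero, zero_mul, norm_zero]
    positivity
  · push Not at h
    have h1 : (τ.descFactorial k : ℝ) ≤ ρ ^ (2 * k) := by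
      calc (τ.descFactorial k : ℝ) ≤ (τ : ℝ) ^ k := by exact_mod_cast Nat.descFactorial_le_pow τ k
        _ ≤ (ρ ^ 2) ^ k := pow_le_pow_left₀ (Nat.cast_nonneg _) hτ _
        _ = ρ ^ (2 * k) := by rw [pow_mul]
    simp only [norm_mul, norm_pow, Complex.norm_natCast]
    calc (σ.choose k : ℝ) * (τ.descFactorial k : ℝ) * ‖μ‖ ^ (τ - k) * ‖l‖ ^ (σ - k) *
          ‖B‖ ^ (σ - k) * ‖A‖ ^ k
        ≤ (σ.choose k : ℝ) * ρ ^ (2 * k) * ρ ^ (τ - k) * ρ ^ (σ - k) * K ^ (σ - k) * K ^ k := by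
          gcongr
      _ = (σ.choose k : ℝ) * (ρ ^ (2 * k + (τ - k) + (σ - k)) * K ^ (σ - k + k)) := by
          rw [pow_add, pow_add, pow_add]; ring
      _ = (σ.choose k : ℝ) * (ρ ^ (σ + τ) * K ^ σ) := by
          rw [show 2 * k + (τ - k) + (σ - k) = σ + τ by omega, show σ - k + k = σ by omega]

end EntBdL

theorem entBd (hl : LatStmt) : EntBdStmt := by
  intro D M r c ζ hM hr hc hτ hζ
  have hK : 2 ≤ D.K₀ := D.hK
  have hM1 : (1 : ℝ) ≤ M := by exact_mod_cast hM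
  have hρ : 1 ≤ D.K₀ * M := by nlinarith
  obtain ⟨hA, hB⟩ := D.hKA ζ hζ
  have hτ' : (c.2 : ℝ) ≤ (D.K₀ * M) ^ 2 := by
    have h1 : (c.2 : ℝ) ≤ (M : ℝ) ^ 2 := by exact_mod_cast hτ
    have h2 : (M : ℝ) ≤ D.K₀ * M := by nlinarith
    exact h1.trans (pow_le_pow_left₀ (by positivity) h2 2)
  have hconst := EntBdL.const_le D M (D.sE c.1 r.1) (hl.sE_le D M c.1 r.1 hc hr)
  have hpow : ‖ζ ^ (tri (c.1.1 + r.1.1) + tri (c.1.2 + r.1.2))‖ ≤
      (max 1 ‖ζ‖) ^ (uu r.1 + uu c.1) := by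
    rw [norm_pow]
    refine (pow_le_pow_left₀ (norm_nonneg _) (le_max_right 1 ‖ζ‖) _).trans ?_
    refine pow_le_pow_right₀ (le_max_left _ _) ?_
    have := hl.tri_le c.1 r.1
    omega
  have hsum : ‖∑ k ∈ range (r.2 + 1), (r.2.choose k : ℂ) * (c.2.descFactorial k : ℂ) *
      D.mu r.1 ^ (c.2 - k) * D.lam c.1 ^ (r.2 - k) * D.B.eval ζ ^ (r.2 - k) * D.A.eval ζ ^ k‖ ≤
      (2 * D.K₀ ^ 2 * M) ^ (r.2 + c.2) := by
    refine (norm_sum_le _ _).trans ?_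
    have h1 : ∀ k ∈ range (r.2 + 1), ‖(r.2.choose k : ℂ) * (c.2.descFactorial k : ℂ) *
        D.mu r.1 ^ (c.2 - k) * D.lam c.1 ^ (r.2 - k) * D.B.eval ζ ^ (r.2 - k) *
        D.A.eval ζ ^ k‖ ≤ (r.2.choose k : ℝ) * ((D.K₀ * M) ^ (r.2 + c.2) * D.K₀ ^ r.2) := by
      intro k hk
      exact EntBdL.term_le r.2 c.2 k _ _ _ _ _ _ hρ (by linarith)
        (Nat.lt_succ_iff.1 (mem_range.1 hk)) hτ' (hl.mu_le D M r.1 hr) (hl.lam_le D M c.1 hc) hA hB
    refine (sum_le_sum h1).trans ?_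
    rw [← sum_mul, ← Nat.cast_sum, Nat.sum_range_choose]
    push_cast
    calc (2 : ℝ) ^ r.2 * ((D.K₀ * M) ^ (r.2 + c.2) * D.K₀ ^ r.2)
        = (2 * D.K₀) ^ r.2 * (D.K₀ * M) ^ (r.2 + c.2) := by rw [mul_pow 2]; ring
      _ ≤ (2 * D.K₀) ^ (r.2 + c.2) * (D.K₀ * M) ^ (r.2 + c.2) := by
          refine mul_le_mul_of_nonneg_right ?_ (by positivity)
          exact pow_le_pow_right₀ (by linarith) (Nat.le_add_right _ _)
      _ = (2 * D.K₀ ^ 2 * M) ^ (r.2 + c.2) := by rw [← mul_pow]; congr 1; ring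
  have heval : (D.entry M r c).eval ζ =
      ((D.n₀ : ℂ) ^ ((1 + D.a.natAbs + D.b.natAbs) * M ^ 2) * Complex.exp D.L ^ (D.sE c.1 r.1)) *
      ζ ^ (tri (c.1.1 + r.1.1) + tri (c.1.2 + r.1.2)) *
      ∑ k ∈ range (r.2 + 1), (r.2.choose k : ℂ) * (c.2.descFactorial k : ℂ) *
        D.mu r.1 ^ (c.2 - k) * D.lam c.1 ^ (r.2 - k) * D.B.eval ζ ^ (r.2 - k) *
        D.A.eval ζ ^ k := by
    simp only [Data.entry, eval_mul, eval_C, eval_pow, eval_X, eval_finsetSum]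
  rw [heval, norm_mul, norm_mul]
  have hK0 : 0 ≤ D.K₀ := by linarith
  gcongr

theorem entLip (hl : LatStmt) (hb : EntBdStmt) : EntLipStmt := by
  intro D M r c ζ hM hr hc hσ hτ hζ
  have hK : 2 ≤ D.K₀ := D.hK
  have hM1 : (1 : ℝ) ≤ M := by exact_mod_cast hM
  have hb1 : D.K₀ ^ 2 ≤ 2 * D.K₀ ^ 2 * M := by nlinarith
  have hb2 : 1 ≤ 2 * D.K₀ ^ 2 * M := by nlinarith
  have hE : Real.exp (7 * M ^ 2 * D.l0 M) = (2 * D.K₀ ^ 2 * M) ^ (7 * M ^ 2) := by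
    rw [show (7 * M ^ 2 * D.l0 M : ℝ) = ((7 * M ^ 2 : ℕ) : ℝ) * D.l0 M by push_cast; ring,
      Real.exp_nat_mul, Data.l0, Real.exp_log (by linarith)]
  have hbd : ∀ z ∈ Metric.ball D.w 1, ‖(D.entry M r c).eval z‖ ≤
      Real.exp (7 * M ^ 2 * D.l0 M) := by
    intro z hz
    have hz1 : ‖z‖ ≤ ‖D.w‖ + 1 := by
      have h1 : ‖z - D.w‖ < 1 := by simpa [dist_eq_norm] using hz
      have h2 : ‖z‖ ≤ ‖D.w‖ + ‖z - D.w‖ := by
        simpa using norm_add_le D.w (z - D.w)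
      linarith
    have hz2 : max 1 ‖z‖ ≤ D.K₀ := max_le (by linarith) (hz1.trans D.hKw)
    refine (hb D M r c z hM hr hc hτ hz1).trans ?_
    rw [hE]
    have h1 : (max 1 ‖z‖) ^ (uu r.1 + uu c.1) ≤ D.K₀ ^ (9 * M ^ 2) := by
      refine (pow_le_pow_left₀ (by positivity) hz2 _).trans ?_
      refine pow_le_pow_right₀ (by linarith) ?_
      have h3 := hl.uu_box M r.1 hr
      have h4 := hl.uu_box M c.1 hc
      omega
    have h2 : (2 * D.K₀ ^ 2 * M) ^ (r.2 + c.2) ≤ (2 * D.K₀ ^ 2 * M) ^ (2 * M ^ 2) :=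
      pow_le_pow_right₀ hb2 (by omega)
    have hK0 : 0 ≤ D.K₀ := by linarith
    calc D.K₀ ^ (M ^ 2) * (max 1 ‖z‖) ^ (uu r.1 + uu c.1) * (2 * D.K₀ ^ 2 * M) ^ (r.2 + c.2)
        ≤ D.K₀ ^ (M ^ 2) * D.K₀ ^ (9 * M ^ 2) * (2 * D.K₀ ^ 2 * M) ^ (2 * M ^ 2) := by gcongr
      _ = (D.K₀ ^ 2) ^ (5 * M ^ 2) * (2 * D.K₀ ^ 2 * M) ^ (2 * M ^ 2) := by
          rw [← pow_add, ← pow_mul]; congr 2; ring
      _ ≤ (2 * D.K₀ ^ 2 * M) ^ (5 * M ^ 2) * (2 * D.K₀ ^ 2 * M) ^ (2 * M ^ 2) := by gcongr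
      _ = (2 * D.K₀ ^ 2 * M) ^ (7 * M ^ 2) := by rw [← pow_add]; congr 1; ring
  have hmaps : Set.MapsTo (fun z => (D.entry M r c).eval z) (Metric.ball D.w 1)
      (Metric.closedBall ((D.entry M r c).eval D.w) (2 * Real.exp (7 * M ^ 2 * D.l0 M))) := by
    intro z hz
    rw [Metric.mem_closedBall, dist_eq_norm]
    have h1 := hbd z hz
    have h2 := hbd D.w (Metric.mem_ball_self one_pos)
    have h3 := norm_sub_le ((D.entry M r c).eval z) ((D.entry M r c).eval D.w)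
    linarith
  have := Complex.dist_le_div_mul_dist_of_mapsTo_ball
    (f := fun z => (D.entry M r c).eval z) (c := D.w) (R₁ := 1) (z := ζ)
    (D.entry M r c).differentiable.differentiableOn hmaps
    (by rw [Metric.mem_ball, dist_eq_norm]; exact hζ)
  simpa only [dist_eq_norm, div_one] using this

end LogPow

end

section

open Polynomial NumberField Finset

namespace LogPow

namespace HtMinorL

theorem det_le {n : Type} [Fintype n] [DecidableEq n] (A : Matrix n n ℂ) (a b : n → ℝ)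
    (h : ∀ i j, ‖A i j‖ ≤ a i * b j) :
    ‖A.det‖ ≤ (Fintype.card n).factorial * ((∏ i, a i) * ∏ j, b j) := by
  rw [Matrix.det_apply]
  refine (norm_sum_le _ _).trans ?_
  have h1 : ∀ σ : Equiv.Perm n, ‖Equiv.Perm.sign σ • ∏ i, A (σ i) i‖ ≤ (∏ i, a i) * ∏ j, b j := by
    intro σ
    have h2 : ‖Equiv.Perm.sign σ • ∏ i, A (σ i) i‖ = ‖∏ i, A (σ i) i‖ := by
      rcases Int.units_eq_one_or (Equiv.Perm.sign σ) with h | h <;> simp [h]
    rw [h2, norm_prod, ← Equiv.prod_comp σ a, ← prod_mul_distrib]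
    exact prod_le_prod (fun _ _ => norm_nonneg _) fun i _ => h _ _
  refine (sum_le_card_nsmul _ _ _ fun σ _ => h1 σ).trans ?_
  rw [card_univ, Fintype.card_perm, nsmul_eq_mul]

theorem sum_le (M q q' : ℕ) (ι : idx M q → idx M q') (hι : Function.Injective ι) :
    ∑ i, (ι i).1.2 ≤ VV M q' := by
  classical
  unfold VV
  rw [← sum_coe_sort (idx M q') fun p => p.2,
    ← sum_image (s := univ) (g := ι) (f := fun p : idx M q' => p.1.2) hι.injOn]
  exact sum_le_sum_of_subset (subset_univ _)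

end HtMinorL

theorem htMinor (hl : LatStmt) (hb : EntBdStmt) (hm : MahlerStmt) : HtMinorStmt := by
  intro D M q q' ι hι hM hq hne
  have hK := D.hK
  have hK0 : 0 < D.K₀ := by linarith
  have hM' : (1 : ℝ) ≤ M := by exact_mod_cast hM
  have hb1 : (1 : ℝ) ≤ 2 * D.K₀ ^ 2 * M := by nlinarith
  have hN : Fintype.card (idx M q) = NN M q := Fintype.card_coe _
  have h1 : ∀ z : ℂ, ‖z‖ = 1 → ‖(D.minor M q q' ι).eval z‖ ≤
      (NN M q : ℝ) ^ NN M q * (D.K₀ ^ (NN M q * M ^ 2) *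
        (2 * D.K₀ ^ 2 * M) ^ (VV M q + VV M q')) := by
    intro z hz
    have h2 : (D.minor M q q' ι).eval z =
        (Matrix.of fun i j : idx M q => (D.entry M (ι i).1 j.1).eval z).det := by
      unfold Data.minor
      rw [← coe_evalRingHom, RingHom.map_det]
      rfl
    rw [h2]
    refine (HtMinorL.det_le _ (fun i => D.K₀ ^ (M ^ 2) * (2 * D.K₀ ^ 2 * M) ^ (ι i).1.2)
      (fun j => (2 * D.K₀ ^ 2 * M) ^ j.1.2) fun i j => ?_).trans ?_
    · have h3 := (hl.mem_idx M q' _).1 (ι i).2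
      have h4 := (hl.mem_idx M q _).1 j.2
      have h5 : j.1.2 ≤ M ^ 2 :=
        h4.2.le.trans ((hl.mult_le M q _).trans (Nat.pow_le_pow_left hq 2))
      have h6 := hb D M (ι i).1 j.1 z hM h3.1 h4.1 h5 (by
        rw [hz]
        linarith [norm_nonneg D.w])
      rw [hz, max_self, one_pow, mul_one, pow_add, ← mul_assoc] at h6
      exact h6
    · rw [prod_mul_distrib, prod_const, card_univ, hN, prod_pow_eq_pow_sum, prod_pow_eq_pow_sum,
        ← pow_mul, mul_assoc, ← pow_add, mul_comm (M ^ 2)]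
      have h3 : ((NN M q).factorial : ℝ) ≤ (NN M q : ℝ) ^ NN M q := by
        exact_mod_cast Nat.factorial_le_pow _
      have h4 : ∑ i, (ι i).1.2 + ∑ j : idx M q, j.1.2 ≤ VV M q + VV M q' := by
        have h5 := HtMinorL.sum_le M q q' ι hι
        have h6 : ∑ j : idx M q, j.1.2 = VV M q := sum_coe_sort (idx M q) fun p => p.2
        omega
      exact mul_le_mul h3 (mul_le_mul_of_nonneg_left (pow_le_pow_right₀ hb1 h4) (by positivity))
        (by positivity) (by positivity)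
  have h2 := hm _ _ h1
  rw [logMahlerMeasure_eq_log_MahlerMeasure]
  refine (Real.log_le_log (mahlerMeasure_pos_of_ne_zero hne) h2).trans (le_of_eq ?_)
  have h3 : (NN M q : ℝ) ^ NN M q ≠ 0 := by
    rcases Nat.eq_zero_or_pos (NN M q) with h | h
    · simp [h]
    · positivity
  rw [Real.log_mul h3 (by positivity), Real.log_mul (by positivity) (by positivity), Real.log_pow,
    Real.log_pow, Real.log_pow]
  unfold Data.l0
  push_cast
  ring

end LogPow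

end

section

/-! Size of the entries on the unit circle and height of the minors. -/

open Polynomial NumberField Finset

namespace LogPow2

open LogPow

namespace EntBd2L

lemma apow_le (D : AD ℂ) (K₀ : ℝ) (hB : Bnd D K₀) (M : ℕ) (s : ℤ)
    (hs : s.natAbs ≤ D.cc * M ^ 2) : ‖D.apow M s‖ ≤ K₀ ^ (M ^ 2) := by
  obtain ⟨x, h1, h2, h3, h4⟩ : ∃ x : ℝ, ‖D.αp‖ ≤ x ∧ ‖D.αm‖ ≤ x ∧ (D.n₀ : ℝ) ≤ x ∧
      x ^ D.cc ≤ K₀ := by
    refine ⟨max (max ‖D.αp‖ ‖D.αm‖) D.n₀, (le_max_left _ _).trans (le_max_left _ _),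
      (le_max_right _ _).trans (le_max_left _ _), le_max_right _ _, ?_⟩
    rcases max_choice (max ‖D.αp‖ ‖D.αm‖) (D.n₀ : ℝ) with h | h
    · rcases max_choice ‖D.αp‖ ‖D.αm‖ with h' | h'
      · rw [h, h']; exact hB.hp
      · rw [h, h']; exact hB.hm
    · rw [h]; exact hB.hn
  have h0 : 0 ≤ x := (norm_nonneg _).trans h1
  rw [AD.apow, norm_mul, norm_mul, norm_pow, norm_pow, norm_pow, Complex.norm_natCast]
  calc ‖D.αp‖ ^ s.toNat * ‖D.αm‖ ^ (-s).toNat * (D.n₀ : ℝ) ^ (D.cc * M ^ 2 - s.natAbs)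
      ≤ x ^ s.toNat * x ^ (-s).toNat * x ^ (D.cc * M ^ 2 - s.natAbs) := by gcongr
    _ = (x ^ D.cc) ^ (M ^ 2) := by
        rw [← pow_add, ← pow_add, ← pow_mul]
        congr 1
        omega
    _ ≤ K₀ ^ (M ^ 2) := pow_le_pow_left₀ (by positivity) h4 _

end EntBd2L

theorem entBd2 (hl : Lat2Stmt) : EntBd2Stmt := by
  intro D K₀ M r c ζ hD hM hr hc hτ hζ
  have hK : 2 ≤ K₀ := hD.hK
  have hM1 : (1 : ℝ) ≤ M := by exact_mod_cast hM
  have hρ : 1 ≤ K₀ * M := by nlinarith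
  obtain ⟨hA, hB⟩ := hD.hA ζ hζ
  have hτ' : (c.2 : ℝ) ≤ (K₀ * M) ^ 2 := by
    have h1 : (c.2 : ℝ) ≤ (M : ℝ) ^ 2 := by exact_mod_cast hτ
    have h2 : (M : ℝ) ≤ K₀ * M := by nlinarith
    exact h1.trans (pow_le_pow_left₀ (by positivity) h2 2)
  have hconst := EntBd2L.apow_le D K₀ hD M (sE D.a D.b c.1 r.1)
    (hl.sE_le D.a D.b M c.1 r.1 hc hr)
  have hsum : ‖∑ k ∈ range (r.2 + 1), (r.2.choose k : ℂ) * (c.2.descFactorial k : ℂ) *
      mu D.β D.a r.1 ^ (c.2 - k) * lam D.β c.1 ^ (r.2 - k) * D.B.eval ζ ^ (r.2 - k) *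
      D.A.eval ζ ^ k‖ ≤ (2 * K₀ ^ 2 * M) ^ (r.2 + c.2) := by
    refine (norm_sum_le _ _).trans ?_
    have h1 : ∀ k ∈ range (r.2 + 1), ‖(r.2.choose k : ℂ) * (c.2.descFactorial k : ℂ) *
        mu D.β D.a r.1 ^ (c.2 - k) * lam D.β c.1 ^ (r.2 - k) * D.B.eval ζ ^ (r.2 - k) *
        D.A.eval ζ ^ k‖ ≤ (r.2.choose k : ℝ) * ((K₀ * M) ^ (r.2 + c.2) * K₀ ^ r.2) := by
      intro k hk
      exact EntBdL.term_le r.2 c.2 k _ _ _ _ _ _ hρ (by linarith)
        (Nat.lt_succ_iff.1 (mem_range.1 hk)) hτ' (hl.mu_le _ _ _ M r.1 hD.h₂ hr)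
        (hl.lam_le _ _ M c.1 hD.h₁ hc) hA hB
    refine (sum_le_sum h1).trans ?_
    rw [← sum_mul, ← Nat.cast_sum, Nat.sum_range_choose]
    push_cast
    calc (2 : ℝ) ^ r.2 * ((K₀ * M) ^ (r.2 + c.2) * K₀ ^ r.2)
        = (2 * K₀) ^ r.2 * (K₀ * M) ^ (r.2 + c.2) := by rw [mul_pow 2]; ring
      _ ≤ (2 * K₀) ^ (r.2 + c.2) * (K₀ * M) ^ (r.2 + c.2) := by
          refine mul_le_mul_of_nonneg_right ?_ (by positivity)
          exact pow_le_pow_right₀ (by linarith) (Nat.le_add_right _ _)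
      _ = (2 * K₀ ^ 2 * M) ^ (r.2 + c.2) := by rw [← mul_pow]; congr 1; ring
  have heval : (D.ent M r c).eval ζ = D.apow M (sE D.a D.b c.1 r.1) *
      ζ ^ (tri (c.1.1 + r.1.1) + tri (c.1.2 + r.1.2)) *
      ∑ k ∈ range (r.2 + 1), (r.2.choose k : ℂ) * (c.2.descFactorial k : ℂ) *
        mu D.β D.a r.1 ^ (c.2 - k) * lam D.β c.1 ^ (r.2 - k) * D.B.eval ζ ^ (r.2 - k) *
        D.A.eval ζ ^ k := by
    simp only [AD.ent, eval_mul, eval_C, eval_pow, eval_X, eval_finsetSum]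
  rw [heval, norm_mul, norm_mul, norm_pow, hζ, one_pow, mul_one]
  have hK0 : 0 ≤ K₀ := by linarith
  gcongr

theorem htMinor2 (h : EntBd2Stmt) : HtMinor2Stmt := by
  intro D K₀ M q q' ι hD hι hM hq hne
  have hl := latStmt
  have hK := hD.hK
  have hK0 : 0 < K₀ := by linarith
  have hM' : (1 : ℝ) ≤ M := by exact_mod_cast hM
  have hb1 : (1 : ℝ) ≤ 2 * K₀ ^ 2 * M := by nlinarith
  have hN : Fintype.card (idx M q) = NN M q := Fintype.card_coe _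
  have h1 : ∀ z : ℂ, ‖z‖ = 1 → ‖(D.minor M q q' ι).eval z‖ ≤
      (NN M q : ℝ) ^ NN M q * (K₀ ^ (NN M q * M ^ 2) *
        (2 * K₀ ^ 2 * M) ^ (VV M q + VV M q')) := by
    intro z hz
    have h2 : (D.minor M q q' ι).eval z =
        (Matrix.of fun i j : idx M q => (D.ent M (ι i).1 j.1).eval z).det := by
      unfold AD.minor
      rw [← coe_evalRingHom, RingHom.map_det]
      rfl
    rw [h2]
    refine (HtMinorL.det_le _ (fun i => K₀ ^ (M ^ 2) * (2 * K₀ ^ 2 * M) ^ (ι i).1.2)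
      (fun j => (2 * K₀ ^ 2 * M) ^ j.1.2) fun i j => ?_).trans ?_
    · have h3 := (hl.mem_idx M q' _).1 (ι i).2
      have h4 := (hl.mem_idx M q _).1 j.2
      have h5 : j.1.2 ≤ M ^ 2 :=
        h4.2.le.trans ((hl.mult_le M q _).trans (Nat.pow_le_pow_left hq 2))
      have h6 := h D K₀ M (ι i).1 j.1 z hD hM h3.1 h4.1 h5 hz
      rw [pow_add, ← mul_assoc] at h6
      exact h6
    · rw [prod_mul_distrib, prod_const, card_univ, hN, prod_pow_eq_pow_sum, prod_pow_eq_pow_sum,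
        ← pow_mul, mul_assoc, ← pow_add, mul_comm (M ^ 2)]
      have h3 : ((NN M q).factorial : ℝ) ≤ (NN M q : ℝ) ^ NN M q := by
        exact_mod_cast Nat.factorial_le_pow _
      have h4 : ∑ i, (ι i).1.2 + ∑ j : idx M q, j.1.2 ≤ VV M q + VV M q' := by
        have h5 := HtMinorL.sum_le M q q' ι hι
        have h6 : ∑ j : idx M q, j.1.2 = VV M q := sum_coe_sort (idx M q) fun p => p.2
        omega
      exact mul_le_mul h3 (mul_le_mul_of_nonneg_left (pow_le_pow_right₀ hb1 h4) (by positivity))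
        (by positivity) (by positivity)
  have h2 := mahlerStmt _ _ h1
  rw [logMahlerMeasure_eq_log_MahlerMeasure]
  refine (Real.log_le_log (mahlerMeasure_pos_of_ne_zero hne) h2).trans (le_of_eq ?_)
  have h3 : (NN M q : ℝ) ^ NN M q ≠ 0 := by
    rcases Nat.eq_zero_or_pos (NN M q) with h | h
    · simp [h]
    · positivity
  rw [Real.log_mul h3 (by positivity), Real.log_mul (by positivity) (by positivity), Real.log_pow,
    Real.log_pow, Real.log_pow]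
  push_cast
  ring

end LogPow2

end
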