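import Pool.Agent.Mg.F655169a.G47c8bf
import Pool.Agent.Mg.F655169a.G7edb1d

section

open Polynomial NumberField Finset

namespace LogPow2

open LogPow

namespace SelL

theorem h_unit {K : Type} [Field K] {φ : K →+* ℂ} {h : K[X] → ℝ} (H : IsHt φ h) {u : K[X]}
    (hu : IsUnit u) : h u = 0 := by
  obtain ⟨v, hv⟩ := hu.exists_right_inv
  have h1 := H.mul 1 1 one_ne_zero one_ne_zero
  rw [mul_one] at h1
  have u0 : u ≠ 0 := hu.ne_zero
  have v0 : v ≠ 0 := by
    rintro rfl
    simp at hv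
  have h2 := H.mul u v u0 v0
  rw [hv] at h2
  have := H.nonneg u u0
  have := H.nonneg v v0
  linarith

theorem pick {K : Type} [Field K] {φ : K →+* ℂ} {h : K[X] → ℝ} (H : IsHt φ h) (g : ℂ → ℝ)
    (k : ℝ) (P : K[X]) : P ≠ 0 →
    1.113 * (((P.natDegree : ℝ) * k + h P / k) / 2) < ((P.map φ).roots.map g).sum →
    ∃ Q : K[X], Irreducible Q ∧
      1.113 * (((Q.natDegree : ℝ) * k + h Q / k) / 2) < ((Q.map φ).roots.map g).sum := by
  induction P using WfDvdMonoid.induction_on_irreducible with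
  | zero => exact fun h => absurd rfl h
  | unit u hu =>
    intro _ h0
    obtain ⟨c, -, rfl⟩ := Polynomial.isUnit_iff.1 hu
    rw [h_unit H hu, map_C, roots_C, natDegree_C] at h0
    simp at h0
  | mul a i ha hi ih =>
    intro _ h0
    by_cases h1 : 1.113 * (((i.natDegree : ℝ) * k + h i / k) / 2) < ((i.map φ).roots.map g).sum
    · exact ⟨i, hi, h1⟩
    refine ih ha ?_
    rw [natDegree_mul hi.ne_zero ha, H.mul _ _ hi.ne_zero ha, Polynomial.map_mul,
      roots_mul (mul_ne_zero (map_ne_zero hi.ne_zero) (map_ne_zero ha)), Multiset.map_add,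
      Multiset.sum_add, add_div (h i)] at h0
    push_cast at h0
    linarith [not_lt.1 h1]

theorem test (h1 : ClMinStmt) (h2 : PsiStmt) (w : ℂ) {y : ℝ} (hy : 0 < y) (s : Multiset ℂ) :
    1 / 3 * (s.map (cl w (y ^ 2))).sum + 1 / 3 * (s.map (cl w (y ^ 2 / 4))).sum +
      20 / 33 * (s.map (cl w (y ^ 2 / 16))).sum + 441 / 440 * (s.map (cl w (y ^ 2 / 49))).sum +
      169 / 40 * (s.map (cl w (y ^ 2 / 169))).sum ≤
      y * (s.map fun γ => gg y (cl w (2 * y ^ 2) γ)).sum := by
  have h0 : 0 < y ^ 2 := by positivity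
  induction s using Multiset.induction_on with
  | empty => simp
  | cons γ s ih =>
    simp only [Multiset.map_cons, Multiset.sum_cons]
    have e := h2.test y _ hy (ClL.nonneg w γ (2 * y ^ 2) (by positivity))
    rw [← h1 w γ (2 * y ^ 2) (y ^ 2) (by positivity) (by linarith),
      ← h1 w γ (2 * y ^ 2) (y ^ 2 / 4) (by positivity) (by linarith),
      ← h1 w γ (2 * y ^ 2) (y ^ 2 / 16) (by positivity) (by linarith),
      ← h1 w γ (2 * y ^ 2) (y ^ 2 / 49) (by positivity) (by linarith),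
      ← h1 w γ (2 * y ^ 2) (y ^ 2 / 169) (by positivity) (by linarith)] at e
    rw [mul_add y]
    linarith

end SelL

theorem selStmt (h1 : ClMinStmt) (h2 : PsiStmt) : SelStmt := by
  intro K _ φ h H w y k Λ Δ hy hk hΛ hΔ hd hh h5
  refine SelL.pick H _ k Δ hΔ ?_
  have e := SelL.test h1 h2 w hy (Δ.map φ).roots
  obtain ⟨a1, a2, a3, a4, a5⟩ := h5
  unfold W at a1 a2 a3 a4 a5
  have b1 : h Δ / k ≤ Λ := by rwa [div_le_iff₀ hk]
  have b2 : 0 < Λ * y := mul_pos hΛ hy
  have b3 : y * (1.113 * Λ) <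
      y * ((Δ.map φ).roots.map fun γ => gg y (cl w (2 * y ^ 2) γ)).sum := by
    nlinarith
  have b4 := lt_of_mul_lt_mul_left b3 hy.le
  linarith

end LogPow2

end

section

open Polynomial NumberField Finset

namespace LogPow2

open LogPow

theorem embB : EmbStmt := by
  classical
  intro K _ _ φ h
  rw [NumberField.Embeddings.card K ℂ]
  rcases h with h | ⟨h, x, hx⟩
  · exact ⟨{φ}, singleton_nonempty _, fun σ hσ => Or.inl (mem_singleton.1 hσ), by simpa using h⟩
  · have hne : φ ≠ (starRingEnd ℂ).comp φ := fun e => hx (by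
      have h1 : φ x = (starRingEnd ℂ) (φ x) := DFunLike.congr_fun e x
      exact Complex.conj_eq_iff_im.1 h1.symm)
    refine ⟨{φ, (starRingEnd ℂ).comp φ}, insert_nonempty _ _, fun σ hσ => by simpa using hσ, ?_⟩
    rw [card_pair hne]
    exact h

theorem leadB (h1 : NormProdStmt) (h2 : HABasicStmt) : LeadStmt := by
  classical
  intro K _ _ φ G hG hG' hc P hP b hb
  obtain ⟨-, -, a3, a4⟩ := h2 K
  have g0 : (0 : ℝ) < G.card := by exact_mod_cast hG.card_pos
  have hn : G.card ≤ Fintype.card (K →+* ℂ) := card_le_univ G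
  have hn' : (G.card : ℝ) ≤ Fintype.card (K →+* ℂ) := by exact_mod_cast hn
  have hc' : (Fintype.card (K →+* ℂ) : ℝ) ≤ 2 * G.card := by exact_mod_cast hc
  have s1 : hA P ≤ Fintype.card (K →+* ℂ) * b := by
    refine (a4 P hP).trans ?_
    rw [← card_univ, ← nsmul_eq_mul]
    exact sum_le_card_nsmul _ _ _ fun σ _ => hb σ
  have b0 : 0 ≤ b := nonneg_of_mul_nonneg_right ((a3 P hP).trans s1) (by linarith)
  have hinj : ∀ σ : K →+* ℂ, Function.Injective (psi σ) := fun σ =>
    σ.injective.comp (IsFractionRing.injective (𝓞 K) K)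
  refine ⟨by rw [div_le_iff₀ g0]; nlinarith, ?_⟩
  rw [leadingCoeff_map_of_injective (hinj φ)]
  set x := ‖psi φ P.leadingCoeff‖ with hx
  have hl : P.leadingCoeff ≠ 0 := leadingCoeff_ne_zero.2 hP
  have n1 : (1 : ℝ) ≤ ∏ σ : K →+* ℂ, ‖psi σ P.leadingCoeff‖ := by
    rw [← h1 K]
    have : Ideal.absNorm (Ideal.span {P.leadingCoeff}) ≠ 0 := fun h0 =>
      hl (Ideal.span_singleton_eq_bot.1 (Ideal.absNorm_eq_zero_iff.1 h0))
    exact_mod_cast Nat.one_le_iff_ne_zero.2 this
  have n2 : ∏ σ ∈ G, ‖psi σ P.leadingCoeff‖ = x ^ G.card := by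
    rw [← prod_const]
    refine prod_congr rfl fun σ hσ => ?_
    rcases hG' σ hσ with rfl | rfl
    · rfl
    · exact Complex.norm_conj _
  have n3 : ∏ σ ∈ univ \ G, ‖psi σ P.leadingCoeff‖ ≤ Real.exp b ^ G.card := by
    calc _ ≤ ∏ _σ ∈ univ \ G, Real.exp b := by
          refine prod_le_prod (fun _ _ => norm_nonneg _) fun σ _ => ?_
          have a := (P.map (psi σ)).leadingCoeff_le_mahlerMeasure
          rw [leadingCoeff_map_of_injective (hinj σ)] at a
          refine a.trans ?_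
          have e := hb σ
          rwa [logMahlerMeasure_eq_log_MahlerMeasure, Real.log_le_iff_le_exp
            (mahlerMeasure_pos_of_ne_zero ((Polynomial.map_ne_zero_iff (hinj σ)).2 hP))] at e
      _ ≤ _ := by
          rw [prod_const, card_sdiff_of_subset (subset_univ G), card_univ]
          exact pow_le_pow_right₀ (Real.one_le_exp b0) (by omega)
  rw [← prod_sdiff (subset_univ G), n2] at n1
  have n4 : (1 : ℝ) ≤ (Real.exp b * x) ^ G.card := by
    rw [mul_pow]
    exact n1.trans (mul_le_mul_of_nonneg_right n3 (by positivity))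
  have n5 : 1 ≤ Real.exp b * x := by
    by_contra h0
    exact absurd n4 (not_le.2 (pow_lt_one₀ (by positivity) (not_le.1 h0) hG.card_pos.ne'))
  rw [Real.exp_neg, inv_le_iff_one_le_mul₀' (Real.exp_pos b)]
  exact n5

end LogPow2

end

section

/-! Truncated weighted norms and division by products of linear factors. -/

open Polynomial NumberField Finset

namespace LogPow2

open LogPow

namespace WtL

/-- Division by `P` costs at most the factor `c`. -/
def Q (η : ℝ) (t : ℕ) (P : ℂ[X]) (c : ℝ) : Prop :=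
  0 ≤ c ∧ ∀ f g : ℂ[X], X ^ t ∣ P * g - f → wn η t g ≤ c * wn η t f

lemma wn_nonneg {η : ℝ} (hη : 0 < η) (t : ℕ) (f : ℂ[X]) : 0 ≤ wn η t f :=
  sum_nonneg fun _ _ => by positivity

lemma q_one (η : ℝ) (t : ℕ) : Q η t 1 1 := by
  refine ⟨zero_le_one, fun f g h => ?_⟩
  rw [one_mul, X_pow_dvd_iff] at h
  rw [one_mul]
  refine le_of_eq (sum_congr rfl fun i hi => ?_)
  have := h i (mem_range.1 hi)
  rw [coeff_sub, sub_eq_zero] at this
  rw [this]

lemma q_mul {η : ℝ} {t : ℕ} {P P' : ℂ[X]} {c c' : ℝ} (h : Q η t P c) (h' : Q η t P' c') :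
    Q η t (P * P') (c * c') := by
  refine ⟨mul_nonneg h.1 h'.1, fun f g hd => ?_⟩
  rw [mul_assoc] at hd
  have h1 := h.2 f _ hd
  have h2 := h'.2 (P' * g) g (by simp)
  calc wn η t g ≤ c' * wn η t (P' * g) := h2
    _ ≤ c' * (c * wn η t f) := mul_le_mul_of_nonneg_left h1 h'.1
    _ = _ := by ring

lemma q_pow {η : ℝ} {t : ℕ} {P : ℂ[X]} {c : ℝ} (h : Q η t P c) (n : ℕ) :
    Q η t (P ^ n) (c ^ n) := by
  induction n with
  | zero => simpa using q_one η t
  | succ n ih => rw [pow_succ, pow_succ]; exact q_mul ih h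

lemma wn_X {η : ℝ} (hη : 0 < η) (t : ℕ) (g : ℂ[X]) : wn η t (X * g) ≤ η * wn η t g := by
  cases t with
  | zero => simp [wn]
  | succ t =>
    rw [wn, wn, sum_range_succ', sum_range_succ, mul_add, mul_sum]
    simp only [coeff_X_mul, mul_coeff_zero, coeff_X_zero, zero_mul, norm_zero, add_zero]
    have h1 : 0 ≤ η * (‖g.coeff t‖ * η ^ t) := by positivity
    have h2 : ∑ i ∈ range t, ‖g.coeff i‖ * η ^ (i + 1) =
        ∑ i ∈ range t, η * (‖g.coeff i‖ * η ^ i) := sum_congr rfl fun i _ => by ring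
    linarith

lemma q_lin {η : ℝ} (hη : 0 < η) (t : ℕ) (d : ℂ) (hd : 2 * η ≤ ‖d‖) :
    Q η t (X + C d) (2 / ‖d‖) := by
  have hd0 : 0 < ‖d‖ := by linarith
  refine ⟨by positivity, fun f g h => ?_⟩
  rw [X_pow_dvd_iff] at h
  have h1 : ‖d‖ * wn η t g ≤ wn η t f + wn η t (X * g) := by
    rw [wn, wn, wn, mul_sum, ← sum_add_distrib]
    refine sum_le_sum fun i hi => ?_
    have h2 := h i (mem_range.1 hi)
    rw [add_mul, coeff_sub, coeff_add, coeff_C_mul] at h2
    have h3 : d * g.coeff i = f.coeff i - (X * g).coeff i := by linear_combination h2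
    rw [← mul_assoc, ← norm_mul, h3, ← add_mul]
    exact mul_le_mul_of_nonneg_right (norm_sub_le _ _) (by positivity)
  have h2 := wn_X hη t g
  have h3 := wn_nonneg hη t g
  rw [div_mul_eq_mul_div, le_div_iff₀ hd0]
  nlinarith

end WtL

open WtL in
theorem wtStmt : WtStmt := by
  intro ι s δ e t η f g hη hs
  suffices h : Q η t (∏ b ∈ s, (X + C (δ b)) ^ e b) (∏ b ∈ s, (2 / ‖δ b‖) ^ e b) from h.2 f g
  classical
  induction s using Finset.induction_on with
  | empty => simpa using q_one η t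
  | insert a s ha ih =>
    rw [prod_insert ha, prod_insert ha]
    exact q_mul (q_pow (q_lin hη t _ (hs a (mem_insert_self _ _))) _)
      (ih fun b hb => hs b (mem_insert_of_mem hb))

end LogPow2

end
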