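import Pool.Agent.Mg.F655169a.G47c8bf

/-! The numerical bounds for the degree and for the height. -/

open Polynomial NumberField Finset

namespace LogPow2

open LogPow

namespace N23L

theorem basic {K₀ y k l M q q' : ℝ} (h : Rel2 K₀ y k l M q q') :
    0 < k ∧ 800000 ≤ l ∧ 800000 ≤ q ∧ q ≤ q' ∧ 800000 ≤ M ∧ 0 < y := by
  have hk : 0 < k := by linarith [h.hk]
  have hl : 800000 ≤ l := by
    have : (2 : ℝ) ^ 3 ≤ K₀ ^ 3 := pow_le_pow_left₀ (by norm_num) h.hK 3
    linarith [h.hl]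
  have hq : 800000 ≤ q := hl.trans h.hlq
  have hq' : q ≤ q' := by linarith [h.hq3]
  have hM : 800000 ≤ M := (hq.trans hq').trans h.hq5
  have hM0 : 0 < M := by linarith
  have : 0 < k * M ^ 2 := by positivity
  exact ⟨hk, hl, hq, hq', hM, by linarith [h.hM1]⟩

end N23L

theorem n2 : N2Stmt := by
  intro K₀ y k l M q q' N U V N' U' V' h ⟨_, _, hU, _⟩ ⟨_, _, hU', hV'⟩
  obtain ⟨hk, hl, hq, hq', hM, hy⟩ := N23L.basic h
  have hK := h.hK
  have hl0 : 0 < l := by linarith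
  have hM0 : 0 < M := by linarith
  have hq0 : 0 < q := by linarith
  have h3 : M ^ 3 ≤ M ^ 4 / 800000 := by
    have := mul_le_mul_of_nonneg_left hM (pow_pos hM0 3).le
    linarith [pow_succ M 3]
  have q2 : q' ^ 2 ≤ (1.001 * q) ^ 2 := pow_le_pow_left₀ (by linarith) h.hq4 2
  have q4 : q' ^ 4 ≤ (1.001 * q) ^ 4 := pow_le_pow_left₀ (by linarith) h.hq4 4
  have u1 : U ≤ (32 / 45 + 1 / 150000) * (q ^ 2 * M ^ 4) := by
    linarith [mul_le_mul_of_nonneg_left h3 (sq_nonneg q)]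
  have u2 : U' ≤ (32 / 45 + 1 / 150000) * (1.001 ^ 2 * (q ^ 2 * M ^ 4)) := by
    linarith [mul_le_mul_of_nonneg_left h3 (sq_nonneg q'),
      mul_le_mul_of_nonneg_right q2 (pow_pos hM0 4).le]
  have v2 : V' ≤ 128 / 225 * (1.001 ^ 4 * (q ^ 4 * M ^ 2)) := by
    linarith [mul_le_mul_of_nonneg_right q4 (sq_nonneg M)]
  have a : q ^ 2 * M ^ 4 * (k * l) ≤ 0.188538 * y ^ 3 := by
    have := mul_le_mul (pow_le_pow_left₀ (by positivity) h.hM1 2) h.hq1 (by positivity)
      (by positivity)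
    exact le_of_mul_le_mul_right (by linarith) hk
  have b : l ^ 2 * q ^ 4 * M ^ 2 ≤ 0.118188 * y ^ 3 * k := by
    have := mul_le_mul (pow_le_pow_left₀ (by positivity) h.hq1 2) h.hM1 (by positivity)
      (by positivity)
    exact le_of_mul_le_mul_right (by linarith) hk
  have c : 1000 * (q ^ 4 * M ^ 2 * (K₀ * (k * l))) ≤ y ^ 3 := by
    have h1 := mul_le_mul_of_nonneg_left b (show 0 ≤ K₀ * k by positivity)
    have h2 := mul_le_mul_of_nonneg_left h.hkc (pow_pos hy 3).le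
    have h4 : 0 < y ^ 3 * l := by positivity
    exact le_of_mul_le_mul_right (by linarith) hl0
  have hkl : 0 ≤ k * l := by positivity
  have d1 := mul_le_mul_of_nonneg_right u1 hkl
  have d2 := mul_le_mul_of_nonneg_right u2 hkl
  have d3 := mul_le_mul_of_nonneg_right v2 (show 0 ≤ K₀ * (k * l) by positivity)
  rw [le_div_iff₀ hl0]
  linarith [pow_pos hy 3]

theorem n3 : N3Stmt := by
  intro K₀ y k l M q q' N U V N' U' V' R ⟨b1, b2, _, b3⟩ ⟨_, _, _, b4⟩
  obtain ⟨hk0, hl, hq, hq', -, hy0⟩ := N23L.basic R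
  have hK := R.hK
  have hM : q ≤ M := hq'.trans R.hq5
  have hl0 : 0 < l := by linarith
  have hq0 : 0 < q := by linarith
  have hM0 : 0 < M := by linarith
  have hKM : 8 * M ≤ 2 * K₀ ^ 2 * M := by
    linarith [mul_le_mul_of_nonneg_right (pow_le_pow_left₀ (by norm_num) hK 2) hM0.le]
  have hL0 : 0 ≤ Real.log (2 * K₀ ^ 2 * M) := Real.log_nonneg (by linarith)
  have hlK : 0 ≤ Real.log K₀ := Real.log_nonneg (by linarith)
  have hN0 : 0 < N := lt_of_lt_of_le (pow_pos (mul_pos (by positivity) (by linarith)) 2) b1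
  have m1 := R.hM1
  have q1 := R.hq1
  have m2 : (k * M ^ 2) ^ 2 ≤ (0.67 * y) ^ 2 := pow_le_pow_left₀ (by positivity) m1 2
  have q2 : (l * q ^ 2) ^ 2 ≤ (0.42 * y * k) ^ 2 := pow_le_pow_left₀ (by positivity) q1 2
  have e1 : l ^ 2 * q ^ 4 * M ^ 2 ≤ 0.118188 * (y ^ 3 * k) := by
    have h := mul_le_mul m1 q2 (by positivity) (by positivity)
    exact le_of_mul_le_mul_left (by linarith) hk0
  have e2 : l * (M ^ 4 * q ^ 2 * k ^ 2) ≤ 0.188538 * (y ^ 3 * k) := by
    have h := mul_le_mul m2 q1 (by positivity) (by positivity)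
    linarith
  have e3 : l * (M ^ 2 * q ^ 2) ≤ 0.2814 * y ^ 2 := by
    have h := mul_le_mul m1 q1 (by positivity) (by positivity)
    exact le_of_mul_le_mul_left (by linarith) hk0
  have e4 : 100000 * (l * y ^ 2) ≤ y ^ 3 * k := by
    have h : 100000 * l ≤ y * k := by
      have := mul_le_mul_of_nonneg_left (pow_le_pow_left₀ (by norm_num) hq 2) hl0.le
      have h0 : 0 < y * k := by positivity
      linarith
    linarith [mul_le_mul_of_nonneg_left h (sq_nonneg y)]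
  have t1 : N * Real.log N ≤ 3 * y ^ 2 := by
    have h1 : N ≤ (2 * K₀ ^ 2 * M) ^ 4 := by
      have a1 : (8 * M) ^ 4 ≤ (2 * K₀ ^ 2 * M) ^ 4 := pow_le_pow_left₀ (by positivity) hKM 4
      have a2 : q ^ 2 ≤ M ^ 2 := pow_le_pow_left₀ hq0.le hM 2
      have a3 := mul_le_mul_of_nonneg_left a2 (sq_nonneg M)
      have a4 : 0 < M ^ 4 := by positivity
      linarith
    have h2 : Real.log N ≤ 4.0004 * l := by
      have := Real.log_le_log hN0 h1
      rw [Real.log_pow] at this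
      push_cast at this
      linarith [R.hlog1]
    calc N * Real.log N ≤ N * (4.0004 * l) := mul_le_mul_of_nonneg_left h2 hN0.le
      _ ≤ 16 / 9 * M ^ 2 * q ^ 2 * (4.0004 * l) := mul_le_mul_of_nonneg_right b2 (by positivity)
      _ ≤ 3 * y ^ 2 := by linarith [sq_nonneg y]
  have t2 : N * M ^ 2 * Real.log K₀ ≤ 16 / 9 / 2000 * (M ^ 4 * q ^ 2 * k ^ 2) :=
    calc N * M ^ 2 * Real.log K₀ ≤ 16 / 9 * M ^ 2 * q ^ 2 * M ^ 2 * (k ^ 2 / 2000) :=
          mul_le_mul (mul_le_mul_of_nonneg_right b2 (by positivity)) (by linarith [R.hkC]) hlK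
            (by positivity)
      _ = _ := by ring
  have t3 : (V + V') * Real.log (2 * K₀ ^ 2 * M) ≤
      128 / 225 * (1 + 1.001 ^ 4) * 1.0001 * (l * q ^ 4 * M ^ 2) := by
    have a1 : q' ^ 4 ≤ (1.001 * q) ^ 4 := pow_le_pow_left₀ (by linarith) R.hq4 4
    have a2 := mul_le_mul_of_nonneg_right a1 (sq_nonneg M)
    calc (V + V') * Real.log (2 * K₀ ^ 2 * M)
        ≤ (128 / 225 * (1 + 1.001 ^ 4) * (q ^ 4 * M ^ 2)) * (1.0001 * l) :=
          mul_le_mul (by linarith) R.hlog1 hL0 (by positivity)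
      _ = _ := by ring
  rw [div_mul_eq_mul_div, le_div_iff₀ hl0]
  have s := mul_le_mul_of_nonneg_right (add_le_add (add_le_add t1 t2) t3) hl0.le
  have hT : 0 < y ^ 3 * k := by positivity
  linarith

end LogPow2
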