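import Pool.Agent.Mg.F655169a.G47c8bf
import Pool.Agent.Mg.F655169a.Gfc2d0b

section

/-! The index set of the expansion: size, membership and two sums. -/

open Polynomial NumberField Finset

namespace LogPow2

open LogPow

namespace KsetL

lemma mem_kset (Kk m : ℕ) (t : ℕ × ℕ × ℕ) :
    t ∈ kset Kk m ↔ t.1 < Kk ∧ t.2.1 < m ∧ t.2.2 ≤ t.2.1 := by
  simp only [kset, mem_filter, mem_product, mem_range]
  omega

lemma sum_kset {A : Type*} [AddCommMonoid A] (Kk m : ℕ) (g : ℕ × ℕ × ℕ → A) :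
    ∑ t ∈ kset Kk m, g t = ∑ n ∈ range Kk, ∑ j ∈ range m, ∑ i ∈ range (j + 1), g (n, j, i) := by
  rw [kset, sum_filter, sum_product]
  refine sum_congr rfl fun n _ => ?_
  rw [sum_product]
  refine sum_congr rfl fun j hj => ?_
  rw [← sum_filter]
  refine sum_congr ?_ fun _ _ => rfl
  ext i
  simp only [mem_filter, mem_range] at hj ⊢
  omega

lemma tele (a l : ℝ) (ha : 0 ≤ a) (hl : 0 < l) (K : ℕ) :
    2 * l * ∑ n ∈ range (K + 1), max (a - n * l) 0 + max (a - K * l) 0 ^ 2 ≤ 2 * l * a + a ^ 2 := by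
  induction K with
  | zero => simp [max_eq_left ha]
  | succ K ih =>
    rw [sum_range_succ, mul_add]
    have h : 2 * l * max (a - ((K + 1 : ℕ) : ℝ) * l) 0 + max (a - ((K + 1 : ℕ) : ℝ) * l) 0 ^ 2 ≤
        max (a - K * l) 0 ^ 2 := by
      push_cast
      rcases le_total (a - ((K : ℝ) + 1) * l) 0 with h | h
      · rw [max_eq_right h]; simp
      · rw [max_eq_left h, max_eq_left (by linarith)]
        nlinarith [sq_nonneg l]
    linarith

lemma sum_max_le (a l : ℝ) (ha : 0 ≤ a) (hl : 0 < l) (K : ℕ) :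
    ∑ n ∈ range K, max (a - n * l) 0 ≤ a + a ^ 2 / (2 * l) := by
  have h1 : ∑ n ∈ range K, max (a - n * l) 0 ≤ ∑ n ∈ range (K + 1), max (a - n * l) 0 := by
    rw [sum_range_succ]; exact le_add_of_nonneg_right (le_max_right _ _)
  have h2 := tele a l ha hl K
  have h3 : a + a ^ 2 / (2 * l) = (2 * l * a + a ^ 2) / (2 * l) := by field_simp
  rw [h3, le_div_iff₀ (by positivity)]
  nlinarith [sq_nonneg (max (a - K * l) 0)]

lemma sum_poly (x A B : ℝ) (m : ℕ) :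
    ∑ j ∈ range m, ((j : ℝ) + 1) * ((x - j) * A + (x - j) ^ 2 * B) =
      A * (x * (m * (m + 1) / 2) - (m - 1) * m * (m + 1) / 3) +
      B * (x ^ 2 * (m * (m + 1) / 2) - 2 * x * ((m - 1) * m * (m + 1) / 3) +
        (m - 1) * m * (m + 1) * (3 * m - 2) / 12) := by
  induction m with
  | zero => simp
  | succ m ih => rw [sum_range_succ, ih]; push_cast; ring

end KsetL

open KsetL in
theorem ksetStmt : KsetStmt where
  card := fun Kk m => (card_filter_le _ _).trans (by simp [sq])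
  mem := mem_kset
  expand := fun Kk m f u v => by
    rw [sum_kset, sum_mul_sum]
    refine sum_congr rfl fun n _ => sum_congr rfl fun j _ => ?_
    rw [add_pow, sum_div, mul_sum]
    exact sum_congr rfl fun i _ => by ring
  sum := fun Kk m l Y hl hY => by
    rw [sum_kset, sum_comm]
    calc ∑ j ∈ range m, ∑ n ∈ range Kk, ∑ _i ∈ range (j + 1),
          max ((m : ℝ) * Y - (n * l + j * Y)) 0
        ≤ ∑ j ∈ range m, ((j : ℝ) + 1) * ((m - j) * Y + (m - j) ^ 2 * (Y ^ 2 / (2 * l))) := by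
          refine sum_le_sum fun j hj => ?_
          have hj' : (j : ℝ) ≤ m := by exact_mod_cast (mem_range.1 hj).le
          have h := sum_max_le ((m - j) * Y) l (mul_nonneg (by linarith) hY) hl Kk
          simp only [sum_const, card_range, nsmul_eq_mul]
          rw [← mul_sum]
          push_cast
          gcongr
          refine le_trans (le_of_eq (sum_congr rfl fun n _ => ?_)) (h.trans (le_of_eq ?_))
          · congr 1; ring
          · ring
      _ = _ := by rw [sum_poly]; field_simp; ring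

end LogPow2

end

section

/-! Smallness of the normalised determinant. -/

open Polynomial NumberField Finset

namespace LogPow2

open LogPow

namespace SmallNL

theorem comb (N k : ℕ) (hk : k ≤ 1458 * N) :
    ((k : ℝ) + 1) ^ N * (N.factorial : ℝ) ≤ Real.exp (8 * N + 2 * (N : ℝ) ^ 2) := by
  have a0 : (1458 : ℝ) ≤ Real.exp 8 := by
    have h1 : (2.7 : ℝ) ≤ Real.exp 1 := by linarith [Real.exp_one_gt_d9]
    calc (1458 : ℝ) ≤ 2.7 ^ 8 := by norm_num
      _ ≤ Real.exp 1 ^ 8 := pow_le_pow_left₀ (by norm_num) h1 8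
      _ = Real.exp 8 := by rw [← Real.exp_nat_mul]; norm_num
  have a1 : (N : ℝ) + 1 ≤ Real.exp N := Real.add_one_le_exp _
  have a2 : (N.factorial : ℝ) ≤ (N : ℝ) ^ N := by exact_mod_cast Nat.factorial_le_pow N
  have a3 : (N : ℝ) ≤ Real.exp N := by linarith
  have a4 : (k : ℝ) ≤ 1458 * N := by exact_mod_cast hk
  have a5 : (k : ℝ) + 1 ≤ Real.exp (8 + N) := by
    rw [Real.exp_add]
    calc (k : ℝ) + 1 ≤ 1458 * (N + 1) := by linarith
      _ ≤ _ := mul_le_mul a0 a1 (by positivity) (by positivity)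
  calc _ ≤ Real.exp (8 + N) ^ N * Real.exp N ^ N :=
        mul_le_mul (pow_le_pow_left₀ (by positivity) a5 _)
          (a2.trans (pow_le_pow_left₀ (by positivity) a3 _)) (by positivity) (by positivity)
    _ = _ := by
        rw [← Real.exp_nat_mul, ← Real.exp_nat_mul, ← Real.exp_add]
        congr 1
        ring

end SmallNL

open SmallNL in
theorem smallN (hd : Det2Stmt) (hk : KsetStmt) (he : ExpandStmt) : SmallNStmt := by
  intro la nu T l₁ l₂ K₀ Y M q q' m ι hK hq2 hqM hq'M hm1 hm9 hl0 hY hYN hT hla hnu hl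
  have hM' : (2 : ℝ) ≤ M := by exact_mod_cast hq2.trans hqM
  have hq' : (2 : ℝ) ≤ q := by exact_mod_cast hq2
  have hlog : 0 < Real.log q := Real.log_pos (by linarith)
  have hY0 : 0 ≤ Y := by
    have : 0 ≤ Real.log (2 * K₀ ^ 2 * M) := Real.log_nonneg (by nlinarith)
    linarith
  have mem : ∀ {t : ℕ}, t ≤ M → ∀ p : idx M t, p.1.1 ∈ box M ∧ p.1.2 ≤ M ^ 2 := fun {t} h p => by
    obtain ⟨a, b⟩ := (latStmt.mem_idx M t p.1).1 p.2
    exact ⟨a, (b.le.trans (latStmt.mult_le M t _)).trans (Nat.pow_le_pow_left h 2)⟩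
  set N := NN M q with hN
  set S : ℝ := K₀ ^ 3 * M ^ 2 * q ^ 2 with hS
  have hS4 : 4 ≤ S := by
    calc (4 : ℝ) ≤ 2 ^ 3 * 2 ^ 2 * 2 ^ 2 := by norm_num
      _ ≤ S := by rw [hS]; gcongr
  have hKk : (m : ℝ) * Y ≤ ((2 * m * N : ℕ) : ℝ) * (2 * Real.log q) := by
    calc (m : ℝ) * Y ≤ m * (4 * N * Real.log q) := mul_le_mul_of_nonneg_left hYN (by positivity)
      _ = _ := by push_cast; ring
  have ex := fun i j : idx M q => he la nu T l₁ l₂ K₀ Y M q m (2 * m * N) (ι i).1 j.1 hK hq2 hqM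
    hm1 hm9 hl0 hY hKk hT (mem hq'M (ι i)).1 (mem hq'M (ι i)).2 (mem hqM j).2
    (hla _ (mem hqM j).1) (hnu _ (mem hq'M (ι i)).1) (hl _ (mem hqM j).1).1 (hl _ (mem hqM j).1).2
  have key := hd (idx M q) (ℕ × ℕ × ℕ) (kset (2 * m * N) m)
    (Matrix.of fun i j : idx M q => nm la nu T l₁ l₂ (ι i).1 j.1)
    (fun i t => tc (nu (ι i).1.1) (ι i).1.2 t.1 *
      ((t.2.1.choose t.2.2 : ℂ) / (t.2.1.factorial : ℂ)) *
        (((ι i).1.1.1 : ℂ) ^ t.2.2 * ((ι i).1.1.2 : ℂ) ^ (t.2.1 - t.2.2)))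
    (fun t j => iteratedDeriv t.1 (fn la T j.1) 0 *
      (l₁ j.1.1 ^ t.2.2 * l₂ j.1.1 ^ (t.2.1 - t.2.2)))
    (fun i j => nm la nu T l₁ l₂ (ι i).1 j.1 - ∑ t ∈ kset (2 * m * N) m,
      (tc (nu (ι i).1.1) (ι i).1.2 t.1 * ((t.2.1.choose t.2.2 : ℂ) / (t.2.1.factorial : ℂ)) *
        (((ι i).1.1.1 : ℂ) ^ t.2.2 * ((ι i).1.1.2 : ℂ) ^ (t.2.1 - t.2.2))) *
      (iteratedDeriv t.1 (fn la T j.1) 0 * (l₁ j.1.1 ^ t.2.2 * l₂ j.1.1 ^ (t.2.1 - t.2.2))))
    (fun t => t.1 * (2 * Real.log q) + t.2.1 * Y) (Real.exp (9 * S)) (m * Y) (Real.exp_pos _).le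
    (fun i j => by rw [Matrix.of_apply, add_sub_cancel])
    (fun i j t ht => (ex i j).1 t ht) (fun i j => (ex i j).2)
  have e2 : Fintype.card (idx M q) = N := Fintype.card_coe _
  rw [e2] at key
  refine key.trans ?_
  have s1 := hk.sum (2 * m * N) m (2 * Real.log q) Y (by positivity) hY0
  have s0 : (kset (2 * m * N) m).card ≤ 1458 * N := by
    refine (hk.card _ _).trans ?_
    calc 2 * m * N * m ^ 2 ≤ 2 * 9 * N * 9 ^ 2 := by gcongr
      _ = 1458 * N := by ring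
  have s2 := comb N _ s0
  have s3 : 8 * (N : ℝ) ≤ 2 * S * N := by
    have : (0 : ℝ) ≤ N := Nat.cast_nonneg N
    nlinarith
  calc _ ≤ Real.exp (8 * N + 2 * (N : ℝ) ^ 2) * Real.exp (9 * S) ^ N *
        Real.exp (-(N * (m * Y) - (Y * (m * (m + 1) * (m + 2) / 6) +
          Y ^ 2 * (m * (m + 1) ^ 2 * (m + 2)) / (24 * (2 * Real.log q))))) := by gcongr
    _ ≤ _ := by
      rw [← Real.exp_nat_mul, ← Real.exp_add, ← Real.exp_add, Real.exp_le_exp]
      unfold gain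
      have e3 : 24 * (2 * Real.log q) = 48 * Real.log q := by ring
      rw [e3]
      linarith

end LogPow2

end

section

/-! Hermite interpolation: the bound for values. -/

open Polynomial NumberField Finset

namespace LogPow2

open LogPow

namespace HermValL

lemma wn_nonneg {η : ℝ} (hη : 0 ≤ η) (t : ℕ) (f : ℂ[X]) : 0 ≤ wn η t f :=
  sum_nonneg fun i _ => mul_nonneg (norm_nonneg _) (pow_nonneg hη i)

lemma wn_le_jets {η ε : ℝ} (h0 : 0 < η) (h1 : η ≤ 1) (hε : 0 ≤ ε) (t : ℕ) (f : ℂ[X]) (c : ℂ)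
    (hj : ∀ τ < t, ‖(derivative^[τ] f).eval c‖ ≤ ε) : wn η t (taylor c f) ≤ 3 * ε := by
  have key : ∀ i ∈ range t, ‖(taylor c f).coeff i‖ * η ^ i ≤ ε * (1 ^ i / (i.factorial : ℝ)) := by
    intro i hi
    have h2 := hj i (mem_range.1 hi)
    have h3 : derivative^[i] f = i.factorial • hasseDeriv i f := by
      rw [← factorial_smul_hasseDeriv]; rfl
    rw [h3, eval_smul, nsmul_eq_mul, norm_mul, Complex.norm_natCast] at h2
    have hf : (0 : ℝ) < i.factorial := by exact_mod_cast i.factorial_pos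
    rw [taylor_coeff, one_pow]
    have h4 : ‖(hasseDeriv i f).eval c‖ ≤ ε * (1 / (i.factorial : ℝ)) := by
      rw [mul_one_div, le_div_iff₀ hf]; linarith
    calc ‖(hasseDeriv i f).eval c‖ * η ^ i ≤ ‖(hasseDeriv i f).eval c‖ * 1 :=
          mul_le_mul_of_nonneg_left (pow_le_one₀ h0.le h1) (norm_nonneg _)
      _ ≤ _ := by rw [mul_one]; exact h4
  have h5 : ∑ i ∈ range t, (1 : ℝ) ^ i / (i.factorial : ℝ) ≤ 3 :=
    (Real.sum_le_exp_of_nonneg zero_le_one t).trans (by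
      have := Real.exp_one_lt_d9
      linarith)
  calc wn η t (taylor c f) ≤ ∑ i ∈ range t, ε * (1 ^ i / (i.factorial : ℝ)) := sum_le_sum key
    _ = ε * ∑ i ∈ range t, (1 : ℝ) ^ i / (i.factorial : ℝ) := by rw [mul_sum]
    _ ≤ ε * 3 := mul_le_mul_of_nonneg_left h5 hε
    _ = 3 * ε := mul_comm _ _

lemma eval_le_wn {η R : ℝ} (h0 : 0 < η) (hR : η ≤ R) {t T : ℕ} (ht : t ≤ T) (g : ℂ[X])
    (hg : g.degree < t) (w : ℂ) (hw : ‖w‖ ≤ R) : ‖g.eval w‖ ≤ wn η t g * (R / η) ^ T := by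
  have hq : 1 ≤ R / η := (one_le_div h0).2 hR
  by_cases hz : g = 0
  · rw [hz, eval_zero, norm_zero]
    exact mul_nonneg (wn_nonneg h0.le _ _) (by positivity)
  have hn : g.natDegree < t := (natDegree_lt_iff_degree_lt hz).2 hg
  rw [eval_eq_sum_range' hn, wn, sum_mul]
  refine (norm_sum_le _ _).trans (sum_le_sum fun i hi => ?_)
  have hi' : i ≤ T := (mem_range.1 hi).le.trans ht
  rw [norm_mul, norm_pow, mul_assoc]
  refine mul_le_mul_of_nonneg_left ?_ (norm_nonneg _)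
  calc ‖w‖ ^ i ≤ R ^ i := pow_le_pow_left₀ (norm_nonneg _) hw i
    _ = η ^ i * (R / η) ^ i := by rw [← mul_pow, mul_div_cancel₀ _ h0.ne']
    _ ≤ η ^ i * (R / η) ^ T :=
        mul_le_mul_of_nonneg_left (pow_le_pow_right₀ hq hi') (by positivity)

lemma split {ι : Type} [DecidableEq ι] (s : Finset ι) (ν : ι → ℂ) (t : ι → ℕ)
    (hν : ∀ a ∈ s, ∀ b ∈ s, a ≠ b → ν a ≠ ν b) (p : ℂ[X])
    (hp : p.degree < (∑ a ∈ s, t a : ℕ)) :
    ∃ r : ι → ℂ[X], (∀ a ∈ s, (r a).degree < t a) ∧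
      p = ∑ a ∈ s, r a * ∏ b ∈ s.erase a, (X - C (ν b)) ^ t b := by
  have hm : ∀ a, ((X - C (ν a)) ^ t a : ℂ[X]).Monic := fun a => (monic_X_sub_C _).pow _
  have hd : ∀ a, ((X - C (ν a)) ^ t a : ℂ[X]).natDegree = t a := fun a => by
    rw [natDegree_pow, natDegree_X_sub_C, mul_one]
  have hdeg : ∀ u : Finset ι, (∏ b ∈ u, (X - C (ν b)) ^ t b : ℂ[X]).degree =
      (∑ b ∈ u, t b : ℕ) := fun u => by
    rw [degree_eq_natDegree (monic_prod_of_monic _ _ fun b _ => hm b).ne_zero,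
      natDegree_prod_of_monic _ _ fun b _ => hm b]
    simp only [hd]
  obtain ⟨q, r, hr, hf⟩ := eq_quo_mul_prod_add_sum_rem_mul_prod (s := s) p
    (g := fun a => (X - C (ν a)) ^ t a) (fun a _ => hm a) (fun a ha b hb hab =>
      IsCoprime.pow (isCoprime_X_sub_C_of_isUnit_sub
        (sub_ne_zero.2 (hν a ha b hb hab)).isUnit))
  have hr' : ∀ a ∈ s, (r a).degree < t a := fun a ha => by
    have := hr a ha
    rwa [degree_eq_natDegree (hm a).ne_zero, hd] at this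
  have hs : (∑ a ∈ s, r a * ∏ b ∈ s.erase a, (X - C (ν b)) ^ t b).degree <
      (∑ a ∈ s, t a : ℕ) := by
    refine (degree_sum_le _ _).trans_lt ((Finset.sup_lt_iff (WithBot.bot_lt_coe _)).2 fun a ha => ?_)
    rw [degree_mul, hdeg, ← add_sum_erase s t ha, Nat.cast_add]
    exact WithBot.add_lt_add_right (WithBot.natCast_ne_bot _) (hr' a ha)
  have hq : q = 0 := by
    by_contra hq
    have h1 : q * ∏ a ∈ s, (X - C (ν a)) ^ t a =
        p - ∑ a ∈ s, r a * ∏ b ∈ s.erase a, (X - C (ν b)) ^ t b := by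
      rw [eq_sub_iff_add_eq]; exact hf.symm
    have h2 : (q * ∏ a ∈ s, (X - C (ν a)) ^ t a).degree < (∑ a ∈ s, t a : ℕ) := by
      rw [h1]; exact (degree_sub_le _ _).trans_lt (max_lt hp hs)
    rw [degree_mul, hdeg, degree_eq_natDegree hq, ← Nat.cast_add] at h2
    have h3 : q.natDegree + ∑ a ∈ s, t a < ∑ a ∈ s, t a := by exact_mod_cast h2
    omega
  refine ⟨r, hr', ?_⟩
  rw [hq, zero_mul, zero_add] at hf
  exact hf

lemma dvd_shift {ι : Type} [DecidableEq ι] (s : Finset ι) (ν : ι → ℂ) (t : ι → ℕ)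
    (r : ι → ℂ[X]) (p : ℂ[X])
    (hp : p = ∑ a ∈ s, r a * ∏ b ∈ s.erase a, (X - C (ν b)) ^ t b) (a : ι) (ha : a ∈ s) :
    X ^ t a ∣ (∏ b ∈ s.erase a, (X + C (ν a - ν b)) ^ t b) * taylor (ν a) (r a) -
      taylor (ν a) p := by
  have h1 : (X - C (ν a)) ^ t a ∣ (∏ b ∈ s.erase a, (X - C (ν b)) ^ t b) * r a - p := by
    rw [hp, ← add_sum_erase s _ ha, mul_comm (r a), sub_add_cancel_left, dvd_neg]
    refine dvd_sum fun c hc => Dvd.dvd.mul_left ?_ _
    exact dvd_prod_of_mem (fun b => (X - C (ν b)) ^ t b)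
      (mem_erase.2 ⟨(mem_erase.1 hc).1.symm, ha⟩)
  have h2 := map_dvd (taylorAlgHom (ν a)) h1
  have h3 : ∀ c : ℂ, taylorAlgHom (ν a) (X - C c) = X + C (ν a - c) := fun c => by
    rw [taylorAlgHom_apply, map_sub, taylor_X, taylor_C, map_sub]; ring
  rw [map_pow, h3, sub_self, map_zero, add_zero, map_sub, map_mul, map_prod] at h2
  simp only [map_pow, h3] at h2
  exact h2

end HermValL

open HermValL in
theorem hermVal (h : WtStmt) : HermValStmt := by
  intro ι _ s ν t T ρ η κ ε p hn hε hp hj z hz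
  have hη := hn.η0
  have hρ : 0 < ρ := hη.trans_le hn.ηρ
  have hκ := hn.κ0
  have hpos : ∀ a ∈ s, ∀ b ∈ s, a ≠ b → 0 < ‖ν a - ν b‖ := fun a ha b hb hab =>
    lt_of_lt_of_le (by positivity) (hn.sep a ha b hb hab)
  obtain ⟨r, hr, hf⟩ := split s ν t (fun a ha b hb hab =>
    sub_ne_zero.1 (norm_pos_iff.1 (hpos a ha b hb hab))) p hp
  have hzb : ∀ b ∈ s, ‖z - ν b‖ ≤ 2 * ρ := fun b hb =>
    (norm_sub_le _ _).trans (by have := hn.le b hb; linarith)
  have key : ∀ a ∈ s, ‖(r a * ∏ b ∈ s.erase a, (X - C (ν b)) ^ t b).eval z‖ ≤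
      3 * 2 ^ (∑ a ∈ s, t a) * (2 * ρ / η) ^ T / κ * ε := by
    intro a ha
    have h1 := h ι (s.erase a) (fun b => ν a - ν b) t (t a) η (taylor (ν a) p)
      (taylor (ν a) (r a)) hη
      (fun b hb => hn.sep a ha b (mem_erase.1 hb).2 (mem_erase.1 hb).1.symm)
      (dvd_shift s ν t r p hf a ha)
    have h2 := wn_le_jets hη hn.η1 hε (t a) p (ν a) (hj a ha)
    have h3 := eval_le_wn hη (R := 2 * ρ) (by have := hn.ηρ; linarith) (hn.tle a ha)
      (taylor (ν a) (r a)) (by rw [degree_taylor]; exact hr a ha) (z - ν a) (hzb a ha)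
    rw [taylor_eval_sub] at h3
    set A := ∏ b ∈ s.erase a, (2 / ‖ν a - ν b‖) ^ t b with hA
    have hA0 : 0 ≤ A := prod_nonneg fun b _ => by positivity
    have h4 : ‖(r a).eval z‖ ≤ A * (3 * ε) * (2 * ρ / η) ^ T :=
      h3.trans (mul_le_mul_of_nonneg_right (h1.trans (mul_le_mul_of_nonneg_left h2 hA0))
        (by positivity))
    have h5 : ‖(∏ b ∈ s.erase a, (X - C (ν b)) ^ t b).eval z‖ ≤
        ∏ b ∈ s.erase a, (2 * ρ) ^ t b := by
      rw [eval_prod, norm_prod]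
      refine prod_le_prod (fun b _ => norm_nonneg _) fun b hb => ?_
      rw [eval_pow, norm_pow, eval_sub, eval_X, eval_C]
      exact pow_le_pow_left₀ (norm_nonneg _) (hzb b (mem_erase.1 hb).2) _
    have h6 : A * (∏ b ∈ s.erase a, (2 * ρ) ^ t b) *
        ∏ b ∈ s.erase a, (‖ν a - ν b‖ / (2 * ρ)) ^ t b = 2 ^ ∑ b ∈ s.erase a, t b := by
      rw [hA, ← prod_mul_distrib, ← prod_mul_distrib, ← prod_pow_eq_pow_sum]
      refine prod_congr rfl fun b hb => ?_
      have := hpos a ha b (mem_erase.1 hb).2 (mem_erase.1 hb).1.symm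
      rw [← mul_pow, ← mul_pow]
      congr 1
      field_simp
    have h7 : A * ∏ b ∈ s.erase a, (2 * ρ) ^ t b ≤ 2 ^ (∑ a ∈ s, t a) / κ := by
      rw [le_div_iff₀ hκ]
      have h8 : 0 ≤ A * ∏ b ∈ s.erase a, (2 * ρ) ^ t b :=
        mul_nonneg hA0 (prod_nonneg fun b _ => by positivity)
      calc _ ≤ A * (∏ b ∈ s.erase a, (2 * ρ) ^ t b) *
            ∏ b ∈ s.erase a, (‖ν a - ν b‖ / (2 * ρ)) ^ t b :=
            mul_le_mul_of_nonneg_left (hn.prod a ha) h8
        _ = 2 ^ ∑ b ∈ s.erase a, t b := h6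
        _ ≤ 2 ^ ∑ a ∈ s, t a :=
            pow_le_pow_right₀ one_le_two (sum_le_sum_of_subset (erase_subset _ _))
    rw [eval_mul, norm_mul]
    calc _ ≤ A * (3 * ε) * (2 * ρ / η) ^ T * ∏ b ∈ s.erase a, (2 * ρ) ^ t b :=
          mul_le_mul h4 h5 (norm_nonneg _) (by positivity)
      _ = (A * ∏ b ∈ s.erase a, (2 * ρ) ^ t b) * (3 * ε * (2 * ρ / η) ^ T) := by ring
      _ ≤ 2 ^ (∑ a ∈ s, t a) / κ * (3 * ε * (2 * ρ / η) ^ T) :=
          mul_le_mul_of_nonneg_right h7 (by positivity)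
      _ = _ := by ring
  have h9 : p.eval z = ∑ a ∈ s, (r a * ∏ b ∈ s.erase a, (X - C (ν b)) ^ t b).eval z := by
    conv_lhs => rw [hf]
    rw [eval_finsetSum]
  rw [h9]
  refine (norm_sum_le _ _).trans ((sum_le_sum key).trans (le_of_eq ?_))
  rw [sum_const, nsmul_eq_mul, HC]
  ring

end LogPow2

end
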