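import Pool.Agent.Mg.F655169a.G47c8bf
import Pool.Agent.Mg.F655169a.G7edb1d

section

open Polynomial NumberField Finset

namespace LogPow2

open LogPow

namespace ConcL

theorem chord {f : ℝ → ℝ} (hf : ConcaveOn ℝ (Set.Ici 0) f) {a b X : ℝ} (ha : 0 ≤ a) (hab : a < b)
    (h1 : a ≤ X) (h2 : X ≤ b) : (b - X) * f a + (X - a) * f b ≤ (b - a) * f X := by
  have hd : 0 < b - a := by linarith
  have := hf.2 (Set.mem_Ici.2 ha) (Set.mem_Ici.2 (ha.trans hab.le))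
    (div_nonneg (sub_nonneg.2 h2) hd.le) (div_nonneg (sub_nonneg.2 h1) hd.le)
    (show (b - X) / (b - a) + (X - a) / (b - a) = 1 by field_simp; ring)
  simp only [smul_eq_mul] at this
  have e : (b - X) / (b - a) * a + (X - a) / (b - a) * b = X := by field_simp; ring
  rw [e] at this
  have h3 := mul_le_mul_of_nonneg_left this hd.le
  refine le_trans (le_of_eq ?_) h3
  field_simp

theorem seg {f : ℝ → ℝ} (hf : ConcaveOn ℝ (Set.Ici 0) f) {y Λ X : ℝ} (hy : 0 < y) (hΛ : 0 ≤ Λ)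
    (hX : 0 ≤ X) (a b u v : ℝ) (ha : 0 ≤ a) (hab : a < b) (h0 : 0 < b * u - a * v)
    (hd : (0.91 * (b - a)) ^ 2 ≤ 4 * (b * u - a * v) * (v - u))
    (hu : u * Λ * y ≤ f (a * y ^ 2)) (hv : v * Λ * y ≤ f (b * y ^ 2))
    (h1 : a * y ^ 2 ≤ X) (h2 : X ≤ b * y ^ 2) : 0.91 * Λ * Real.sqrt X ≤ f X := by
  have hy2 : 0 < y ^ 2 := by positivity
  have hc := chord hf (mul_nonneg ha hy2.le) (mul_lt_mul_of_pos_right hab hy2) h1 h2
  obtain ⟨s, hs⟩ : ∃ s, s = Real.sqrt X := ⟨_, rfl⟩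
  have hs2 : X = s ^ 2 := by rw [hs, Real.sq_sqrt hX]
  rw [← hs]
  have q1 : 0.91 * (b - a) * y * s ≤ (b * u - a * v) * y ^ 2 + (v - u) * s ^ 2 := by
    have q2 := mul_le_mul_of_nonneg_right hd (sq_nonneg s)
    have q3 := sq_nonneg (2 * (b * u - a * v) * y - 0.91 * (b - a) * s)
    have q4 : 0 ≤ (4 * (b * u - a * v)) *
        ((b * u - a * v) * y ^ 2 + (v - u) * s ^ 2 - 0.91 * (b - a) * y * s) := by
      nlinarith [q2, q3]
    by_contra hn
    have q5 : (b * u - a * v) * y ^ 2 + (v - u) * s ^ 2 - 0.91 * (b - a) * y * s < 0 := by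
      linarith [not_le.1 hn]
    have := mul_neg_of_pos_of_neg (show 0 < 4 * (b * u - a * v) by linarith) q5
    linarith
  have q6 := mul_le_mul_of_nonneg_left hu (sub_nonneg.2 h2)
  have q7 := mul_le_mul_of_nonneg_left hv (sub_nonneg.2 h1)
  have q8 := mul_le_mul_of_nonneg_left q1 (mul_nonneg hΛ hy.le)
  have hp : 0 < (b - a) * y ^ 2 := mul_pos (by linarith) hy2
  refine le_of_mul_le_mul_left ?_ hp
  have e1 : (b - a) * y ^ 2 * (0.91 * Λ * s) = Λ * y * (0.91 * (b - a) * y * s) := by ring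
  have e2 : Λ * y * ((b * u - a * v) * y ^ 2 + (v - u) * s ^ 2) =
      (b * y ^ 2 - X) * (u * Λ * y) + (X - a * y ^ 2) * (v * Λ * y) := by rw [hs2]; ring
  have e3 : (b - a) * y ^ 2 * f X = (b * y ^ 2 - a * y ^ 2) * f X := by ring
  rw [e1, e3]
  linarith

theorem abs' (f : ℝ → ℝ) (y Λ X : ℝ) (hf : ConcaveOn ℝ (Set.Ici 0) f)
    (hm : MonotoneOn f (Set.Ici 0)) (h0 : 0 ≤ f 0) (hy : 0 < y) (hΛ : 0 ≤ Λ) (hX : 0 ≤ X)
    (h1 : 0.915 * Λ * y ≤ f (y ^ 2)) (h2 : 0.571 * Λ * y ≤ f (y ^ 2 / 4))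
    (h3 : 0.278 * Λ * y ≤ f (y ^ 2 / 16)) (h4 : 0.149 * Λ * y ≤ f (y ^ 2 / 49))
    (h5 : 0.071 * Λ * y ≤ f (y ^ 2 / 169)) : 1.82 * Λ * gg y X ≤ f X := by
  have hy2 : 0 < y ^ 2 := by positivity
  have hL : 0 ≤ 1.82 * Λ := by positivity
  have g1 : 1.82 * Λ * gg y X ≤ 0.91 * Λ * Real.sqrt X := by
    have := mul_le_mul_of_nonneg_left (show gg y X ≤ Real.sqrt X / 2 from min_le_left _ _) hL
    linarith
  have g2 : 1.82 * Λ * gg y X ≤ 1.82 * Λ * (13 * X / (2 * y)) :=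
    mul_le_mul_of_nonneg_left ((min_le_right _ _).trans (min_le_left _ _)) hL
  have g3 : 1.82 * Λ * gg y X ≤ 1.82 * Λ * (y / 2) :=
    mul_le_mul_of_nonneg_left ((min_le_right _ _).trans (min_le_right _ _)) hL
  have e1 : y ^ 2 = 1 * y ^ 2 := by ring
  have e2 : y ^ 2 / 4 = 1 / 4 * y ^ 2 := by ring
  have e3 : y ^ 2 / 16 = 1 / 16 * y ^ 2 := by ring
  have e4 : y ^ 2 / 49 = 1 / 49 * y ^ 2 := by ring
  have e5 : y ^ 2 / 169 = 1 / 169 * y ^ 2 := by ring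
  rcases le_total (y ^ 2) X with c1 | c1
  · have := hm (Set.mem_Ici.2 hy2.le) (Set.mem_Ici.2 hX) c1
    have := mul_nonneg hΛ hy.le
    linarith
  rcases le_total (y ^ 2 / 4) X with c2 | c2
  · exact g1.trans (seg hf hy hΛ hX (1 / 4) 1 0.571 0.915 (by norm_num) (by norm_num)
      (by norm_num) (by norm_num) (e2 ▸ h2) (e1 ▸ h1) (e2 ▸ c2) (e1 ▸ c1))
  rcases le_total (y ^ 2 / 16) X with c3 | c3
  · exact g1.trans (seg hf hy hΛ hX (1 / 16) (1 / 4) 0.278 0.571 (by norm_num) (by norm_num)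
      (by norm_num) (by norm_num) (e3 ▸ h3) (e2 ▸ h2) (e3 ▸ c3) (e2 ▸ c2))
  rcases le_total (y ^ 2 / 49) X with c4 | c4
  · exact g1.trans (seg hf hy hΛ hX (1 / 49) (1 / 16) 0.149 0.278 (by norm_num) (by norm_num)
      (by norm_num) (by norm_num) (e4 ▸ h4) (e3 ▸ h3) (e4 ▸ c4) (e3 ▸ c3))
  rcases le_total (y ^ 2 / 169) X with c5 | c5
  · exact g1.trans (seg hf hy hΛ hX (1 / 169) (1 / 49) 0.071 0.149 (by norm_num) (by norm_num)
      (by norm_num) (by norm_num) (e5 ▸ h5) (e4 ▸ h4) (e5 ▸ c5) (e4 ▸ c4))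
  have hc := chord hf le_rfl (show (0 : ℝ) < y ^ 2 / 169 by positivity) hX c5
  have q1 := mul_nonneg (sub_nonneg.2 c5) h0
  have q2 := mul_le_mul_of_nonneg_left h5 hX
  refine g2.trans (le_of_mul_le_mul_left ?_ (show (0 : ℝ) < y ^ 2 / 169 by positivity))
  have e6 : y ^ 2 / 169 * (1.82 * Λ * (13 * X / (2 * y))) = 0.07 * (X * Λ * y) := by
    field_simp
    norm_num
    ring
  have q3 : 0 ≤ X * Λ * y := by positivity
  rw [e6]
  rw [sub_zero, sub_zero] at hc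
  linarith

theorem conc (h : ClMinStmt) (w ρ : ℂ) : ConcaveOn ℝ (Set.Ici 0) fun X => cl w X ρ := by
  refine ⟨convex_Ici 0, ?_⟩
  intro x hx z hz a b ha hb hab
  have hx' : 0 ≤ x := hx
  have hz' : 0 ≤ z := hz
  have h1 : a ≤ 1 := by linarith
  have h2 : b ≤ 1 := by linarith
  simp only [smul_eq_mul]
  rw [h w ρ (x + z) x hx' (by linarith), h w ρ (x + z) z hz' (by linarith),
    h w ρ (x + z) (a * x + b * z) (by positivity) (by nlinarith)]
  obtain ⟨c, hc⟩ : ∃ c, c = cl w (x + z) ρ := ⟨_, rfl⟩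
  rw [← hc]
  refine le_min ?_ ?_
  · have q1 := mul_le_mul_of_nonneg_left (min_le_left c x) ha
    have q2 := mul_le_mul_of_nonneg_left (min_le_left c z) hb
    have : a * c + b * c = c := by rw [← add_mul, hab, one_mul]
    linarith
  · have q1 := mul_le_mul_of_nonneg_left (min_le_right c x) ha
    have q2 := mul_le_mul_of_nonneg_left (min_le_right c z) hb
    linarith

theorem mono (h : ClMinStmt) (w ρ : ℂ) : MonotoneOn (fun X => cl w X ρ) (Set.Ici 0) := by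
  intro x hx z _ hxz
  show cl w x ρ ≤ cl w z ρ
  rw [h w ρ z x hx hxz]
  exact min_le_left _ _

theorem zero (w ρ : ℂ) : cl w 0 ρ = 0 := by
  rw [cl, neg_zero, Real.exp_zero, max_eq_right (min_le_left _ _), Real.log_one, neg_zero]

theorem sums (h : ClMinStmt) (w : ℂ) (s : Multiset ℂ) :
    ConcaveOn ℝ (Set.Ici 0) (fun X => (s.map (cl w X)).sum) ∧
      MonotoneOn (fun X => (s.map (cl w X)).sum) (Set.Ici 0) ∧ (s.map (cl w 0)).sum = 0 := by
  induction s using Multiset.induction_on with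
  | empty =>
    simp only [Multiset.map_zero, Multiset.sum_zero, and_true]
    exact ⟨concaveOn_const _ (convex_Ici 0), fun _ _ _ _ _ => le_rfl⟩
  | cons ρ s ih =>
    simp only [Multiset.map_cons, Multiset.sum_cons]
    refine ⟨(conc h w ρ).add ih.1, (mono h w ρ).add ih.2.1, ?_⟩
    rw [ih.2.2, zero, add_zero]

end ConcL

theorem concStmt (h : ClMinStmt) : ConcStmt := by
  refine ⟨ConcL.abs', ?_⟩
  intro w y Λ X P hy hΛ hX h5
  obtain ⟨s1, s2, s3⟩ := ConcL.sums h w P.roots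
  exact ConcL.abs' (fun X => W w X P) y Λ X s1 s2 s3.ge hy hΛ hX h5.1 h5.2.1 h5.2.2.1
    h5.2.2.2.1 h5.2.2.2.2

end LogPow2

end

section

/-! The criterion. -/

open Polynomial NumberField Finset

namespace LogPow2

open LogPow

namespace CritL

theorem gg_nonneg {y X : ℝ} (hy : 0 < y) (hX : 0 ≤ X) : 0 ≤ gg y X :=
  le_min (by positivity) (le_min (by positivity) (by positivity))

theorem exists_max (s : Multiset ℂ) (hs : s ≠ 0) (f : ℂ → ℝ) : ∃ a ∈ s, ∀ b ∈ s, f b ≤ f a := by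
  classical
  obtain ⟨a, ha, h⟩ := s.toFinset.exists_max_image f (Multiset.toFinset_nonempty.2 hs)
  exact ⟨a, Multiset.mem_toFinset.1 ha, fun b hb => h b (Multiset.mem_toFinset.2 hb)⟩

theorem fin {k Λ d d' hQ h' : ℝ} (hk : 100 ≤ k) (hΛ : 0 < Λ) (hd : 0 ≤ d) (hd' : 0 ≤ d')
    (hQ0 : 0 ≤ hQ) (h1 : d' * k ≤ Λ) (h2 : h' ≤ Λ * k) :
    d * h' + d' * hQ + 2 * Real.log 2 * (d' * d) ≤ 2.0003 * Λ * ((d * k + hQ / k) / 2) := by
  have hk0 : 0 < k := by linarith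
  have a1 : d' ≤ Λ / k := by rw [le_div_iff₀ hk0]; exact h1
  have a2 : d * h' ≤ Λ * (d * k) := by nlinarith
  have a3 : d' * hQ ≤ Λ * (hQ / k) := by
    calc d' * hQ ≤ Λ / k * hQ := by gcongr
      _ = _ := by ring
  have a4 : Real.log 2 ≤ 0.7 := by linarith [Real.log_two_lt_d9]
  have a5 : d' * 10000 ≤ Λ * k := by
    have : d' * k * k ≤ Λ * k := by gcongr
    have : d' * 10000 ≤ d' * (k * k) := by gcongr; nlinarith
    linarith
  have a6 : d' * d * 10000 ≤ Λ * (d * k) := by nlinarith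
  have a7 : 2 * Real.log 2 * (d' * d) ≤ 2 * 0.7 * (d' * d) := by gcongr
  have a8 : 0 ≤ Λ * (hQ / k) := by positivity
  have a9 : 0 ≤ Λ * (d * k) := by positivity
  have e : 2.0003 * Λ * ((d * k + hQ / k) / 2) =
      1.00015 * (Λ * (d * k)) + 1.00015 * (Λ * (hQ / k)) := by ring
  rw [e]
  linarith

end CritL

open CritL in
theorem crit2 (h2 : PsiStmt) (h3 : ConcStmt) (h4 : ResMinStmt) (h5 : SelStmt) : Crit2Stmt := by
  rintro K _ φ h H w ⟨k, y₀, hk, hA⟩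
  have hk0 : 0 < k := by linarith
  obtain ⟨y, hy1, hy2⟩ : ∃ y : ℝ, 1 ≤ y ∧ y₀ ^ 2 ≤ y := ⟨max 1 (y₀ ^ 2), le_max_left _ _, le_max_right _ _⟩
  have hy0 : 0 < y := by linarith
  have hyy : y ≤ y ^ 2 := by nlinarith
  have hy3 : y₀ ≤ y := by nlinarith [sq_nonneg (y₀ - 1), abs_le_abs (le_refl y) (by linarith : -y ≤ y)]
  obtain ⟨Δ, Λ, hΛ, hne, hd, hh, hF⟩ := hA y hy3 w (by
    rw [sub_self, norm_zero]; exact (Real.exp_pos _).le)
  have hΔ0 : Δ ≠ 0 := by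
    rintro rfl
    simp at hne
  obtain ⟨Q, hQ, hG⟩ := h5 K φ h H w y k Λ Δ hy0 hk0 hΛ hΔ0 hd hh hF
  set Xf : ℂ → ℝ := fun γ => cl w (2 * y ^ 2) γ with hXf
  have X0 : ∀ γ, 0 ≤ Xf γ := fun γ => ClL.nonneg _ _ _ (by positivity)
  set s := (Q.map φ).roots with hs
  set d : ℝ := (Q.natDegree : ℝ) with hdd
  have hd0 : 0 ≤ d := Nat.cast_nonneg _
  have hQ0 : 0 ≤ h Q := H.nonneg Q hQ.ne_zero
  have hc0 : 0 ≤ h Q / k := by positivity
  have hcard : (Multiset.card s : ℝ) = d := by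
    rw [hs, IsAlgClosed.card_roots_eq_natDegree, natDegree_map]
  have hs0 : s ≠ 0 := by
    intro h0
    rw [h0, Multiset.map_zero, Multiset.sum_zero] at hG
    have : 0 ≤ d * k := by positivity
    linarith
  have hd1 : 0 < d := by
    rw [← hcard]
    exact_mod_cast Multiset.card_pos.2 hs0
  obtain ⟨γ, hγ, hmax⟩ := exists_max s hs0 Xf
  have hG1 : (s.map fun γ => gg y (Xf γ)).sum ≤ d * (13 * Xf γ / (2 * y)) := by
    rw [← hcard, ← nsmul_eq_mul, ← Multiset.card_map (fun γ => gg y (Xf γ))]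
    refine Multiset.sum_le_card_nsmul _ _ fun x hx => ?_
    obtain ⟨b, hb, rfl⟩ := Multiset.mem_map.1 hx
    refine (h2.lin _ _).trans ?_
    have := hmax b hb
    gcongr
  have hX1 : 8 * y ≤ Xf γ := by
    have a1 : d * (1.113 * k / 2) < d * (13 * Xf γ / (2 * y)) := by nlinarith
    have a2 := lt_of_mul_lt_mul_left a1 hd0
    rw [lt_div_iff₀ (by positivity)] at a2
    nlinarith
  obtain ⟨y', hy'0, hy'⟩ : ∃ y' : ℝ, 0 ≤ y' ∧ y' ^ 2 = min (y ^ 2) (Xf γ / 1.01) :=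
    ⟨Real.sqrt _, Real.sqrt_nonneg _, Real.sq_sqrt (le_min (by positivity) (by
      have := X0 γ
      positivity))⟩
  have b1 : y ≤ y' ^ 2 := by
    rw [hy']
    exact le_min hyy (by rw [le_div_iff₀ (by norm_num)]; linarith)
  have b2 : 0 < y' := by
    rcases hy'0.eq_or_lt with e | e
    · rw [← e] at b1
      linarith
    · exact e
  have b3 : y₀ ≤ y' := le_of_sq_le_sq (hy2.trans b1) hy'0
  have b4 : y' ≤ y := le_of_sq_le_sq (by rw [hy']; exact min_le_left _ _) hy0.le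
  have b5 : 1.01 * y' ^ 2 ≤ Xf γ := by
    have : y' ^ 2 ≤ Xf γ / 1.01 := by rw [hy']; exact min_le_right _ _
    rw [le_div_iff₀ (by norm_num)] at this
    linarith
  obtain ⟨Δ', Λ', hΛ', hne', hd', hh', hF'⟩ := hA y' b3 γ
    ((ClL.dist w γ _ (by linarith : 0 < Xf γ)).trans (Real.exp_le_exp.2 (by linarith)))
  have hΔ0' : Δ' ≠ 0 := by
    rintro rfl
    simp at hne'
  have hcop : IsCoprime Δ' Q := by
    refine ((hQ.coprime_iff_not_dvd).2 ?_).symm
    rintro ⟨R, rfl⟩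
    apply hne'
    rw [Polynomial.map_mul, eval_mul, (isRoot_of_mem_roots hγ).eq_zero, zero_mul]
  have c1 := h4 K φ h H w (2 * y ^ 2) Δ' Q (by positivity) hΔ0' hQ.ne_zero hcop
  have c2 := fin hk hΛ' hd0 (Nat.cast_nonneg Δ'.natDegree) hQ0 hd' hh'
  have c3 : (s.map fun b => 1.82 / 1.005 * Λ' * gg y (Xf b)).sum ≤
      (s.map fun b => W w (Xf b) (Δ'.map φ)).sum := by
    refine Multiset.sum_map_le_sum_map _ _ fun b hb => ?_
    refine le_trans ?_ (h3.main w y' Λ' (Xf b) _ b2 hΛ'.le (X0 b) hF')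
    have e1 : gg y (Xf b) ≤ 1.005 * gg y' (Xf b) := by
      rcases le_total (y ^ 2) (Xf γ / 1.01) with e | e
      · rw [min_eq_left e] at hy'
        have : y' = y := le_antisymm b4 (le_of_sq_le_sq hy'.ge hy'0)
        have g0 := gg_nonneg hy0 (X0 b)
        rw [this]
        linarith
      · rw [min_eq_right e, eq_div_iff (by norm_num)] at hy'
        exact h2.comp y' y _ b2 b4 (X0 b) (by linarith [hmax b hb])
    calc 1.82 / 1.005 * Λ' * gg y (Xf b) ≤ 1.82 / 1.005 * Λ' * (1.005 * gg y' (Xf b)) := by gcongr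
      _ = _ := by ring
  rw [Multiset.sum_map_mul_left] at c3
  have c4 : Λ' * (1.82 / 1.005 * (s.map fun b => gg y (Xf b)).sum) ≤
      Λ' * (2.0003 * ((d * k + h Q / k) / 2)) := by linarith
  have c5 := le_of_mul_le_mul_left c4 hΛ'
  have c6 : 0 ≤ (d * k + h Q / k) / 2 := by positivity
  linarith

end LogPow2

end
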