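import Pool.Agent.Mg.F655169a.G47c8bf
import Pool.Agent.Mg.F655169a.Gc9f9fa
import Pool.Agent.Mg.F655169a.Gfc2d0b

section

open Polynomial NumberField Finset

namespace LogPow2

open LogPow

namespace Ht2L

open HtL

variable {K : Type} [Field K] [NumberField K]

theorem uniq (h1 : HABasicStmt) {P : K[X]} {P₁ P₂ : (𝓞 K)[X]} (h : Mult P P₁) (h' : Mult P P₂)
    (hP : P ≠ 0) : hA P₁ = hA P₂ := by
  obtain ⟨a1, a2, -, -⟩ := h1 K
  have n1 := h.ne hP
  have n2 := h'.ne hP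
  obtain ⟨b, hb, h⟩ := h
  obtain ⟨c, hc, h'⟩ := h'
  have e : C c * P₁ = C b * P₂ := Polynomial.map_injective _ inj (by
    rw [Polynomial.map_mul, Polynomial.map_mul, map_C, map_C, h, h']
    ring)
  have e1 := a1 _ _ (C_ne_zero.2 hc) n1
  rw [e, a1 _ _ (C_ne_zero.2 hb) n2, a2 b hb, a2 c hc] at e1
  linarith

theorem pair_eq (σ : K →+* ℂ) {P Q : K[X]} {P₁ Q₁ : (𝓞 K)[X]} (h : Mult P P₁) (h' : Mult Q Q₁) :
    pairSum (P₁.map (psi σ)) (Q₁.map (psi σ)) = pairSum (P.map σ) (Q.map σ) := by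
  unfold pairSum
  rw [h.roots, h'.roots]

theorem sum_low (h3 : PairStmt) (φ : K →+* ℂ) (G : Finset (K →+* ℂ))
    (hG : ∀ σ ∈ G, σ = φ ∨ σ = (starRingEnd ℂ).comp φ)
    (hc : Fintype.card (K →+* ℂ) ≤ 2 * G.card) {P Q : K[X]} (hPQ : IsCoprime P Q) :
    (G.card : ℝ) * (pairSum (P.map φ) (Q.map φ) -
      (P.natDegree : ℝ) * (Q.natDegree : ℝ) * Real.log 2) ≤
      ∑ σ : K →+* ℂ, pairSum (P.map σ) (Q.map σ) := by
  classical
  rw [← sum_sdiff (subset_univ G)]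
  have e1 : ∑ σ ∈ G, pairSum (P.map σ) (Q.map σ) = G.card * pairSum (P.map φ) (Q.map φ) := by
    rw [← nsmul_eq_mul, ← sum_const]
    refine sum_congr rfl fun σ hσ => ?_
    rcases hG σ hσ with rfl | rfl
    · rfl
    · rw [← Polynomial.map_map, ← Polynomial.map_map, h3.conj]
  obtain ⟨c, hc'⟩ : ∃ c, c = (P.natDegree : ℝ) * (Q.natDegree : ℝ) * Real.log 2 := ⟨_, rfl⟩
  have c0 : 0 ≤ c := by
    rw [hc']
    exact mul_nonneg (by positivity) (Real.log_nonneg one_le_two)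
  have e2 : (univ \ G).card • (-c) ≤ ∑ σ ∈ univ \ G, pairSum (P.map σ) (Q.map σ) := by
    refine card_nsmul_le_sum _ _ _ fun σ _ => ?_
    have := h3.low (P.map σ) (Q.map σ) (hPQ.map (mapRingHom σ))
    rwa [natDegree_map, natDegree_map, ← hc'] at this
  have e3 : (univ \ G).card ≤ G.card := by
    rw [card_univ_diff]
    omega
  have e4 : ((univ \ G).card : ℝ) ≤ G.card := by exact_mod_cast e3
  rw [nsmul_eq_mul] at e2
  rw [e1, ← hc']
  nlinarith [mul_le_mul_of_nonneg_right e4 c0]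

end Ht2L

open HtL Ht2L in
theorem ht2 (h1 : HABasicStmt) (h2 : HAResStmt) (h3 : PairStmt) (h4 : EmbStmt) (h5 : LeadStmt) :
    Ht2Stmt := by
  intro K _ _ φ hK
  obtain ⟨G, hne, hG, hc⟩ := h4 K φ hK
  choose f hf using ex (K := K)
  obtain ⟨a1, -, a3, -⟩ := h1 K
  have g0 : (0 : ℝ) < G.card := by exact_mod_cast hne.card_pos
  refine ⟨fun P => hA (f P) / G.card, ⟨fun P Q hP hQ => ?_,
    fun P hP => div_nonneg (a3 _ ((hf P).ne hP)) g0.le, fun P Q hP hQ hPQ => ?_⟩, ?_⟩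
  · rw [uniq h1 (hf (P * Q)) ((hf P).mul (hf Q)) (mul_ne_zero hP hQ),
      a1 _ _ ((hf P).ne hP) ((hf Q).ne hQ), add_div]
  · have e := h2 K _ _ ((hf P).ne hP) ((hf Q).ne hQ) ((hf P).cop (hf Q) hPQ)
    rw [(hf P).deg, (hf Q).deg, sum_congr rfl fun σ _ => pair_eq σ (hf P) (hf Q)] at e
    have e' := (sum_low h3 φ G hG hc hPQ).trans e
    rw [← sub_le_iff_le_add, ← mul_div_assoc, ← mul_div_assoc, ← add_div, le_div_iff₀' g0]
    exact e'
  · intro P hP b hb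
    have hm : Mult (P.map (algebraMap (𝓞 K) K)) P :=
      ⟨1, one_ne_zero, by rw [map_one, map_one, one_mul]⟩
    have hP' : P.map (algebraMap (𝓞 K) K) ≠ 0 := (Polynomial.map_ne_zero_iff inj).2 hP
    have := h5 K φ G hne hG hc P hP b hb
    rwa [← uniq h1 (hf _) hm hP'] at this

end LogPow2

end

section

open Polynomial NumberField Finset

namespace LogPow2

open LogPow

namespace HermExL

lemma eq_zero {ι : Type} (s : Finset ι) (ν : ι → ℂ) (t : ι → ℕ)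
    (hν : ∀ a ∈ s, ∀ b ∈ s, a ≠ b → ν a ≠ ν b) (p : ℂ[X])
    (hp : p.degree < (∑ b ∈ s, t b : ℕ))
    (h : ∀ b ∈ s, ∀ σ < t b, (derivative^[σ] p).eval (ν b) = 0) : p = 0 := by
  by_contra h0
  have hd : ∏ b ∈ s, (X - C (ν b)) ^ t b ∣ p := by
    refine Finset.prod_dvd_of_coprime (fun a ha b hb hab => ?_) fun b hb => ?_
    · exact (isCoprime_X_sub_C_of_isUnit_sub (sub_ne_zero.2 (hν a ha b hb hab)).isUnit).pow
    · rw [← le_rootMultiplicity_iff h0]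
      rcases hb' : t b with _ | n
      · exact Nat.zero_le _
      · exact lt_rootMultiplicity_of_isRoot_iterate_derivative h0 fun m hm =>
          h b hb m (by omega)
  have hm : ∀ b ∈ s, ((X - C (ν b)) ^ t b).Monic := fun b _ => (monic_X_sub_C _).pow _
  have hn : (∏ b ∈ s, (X - C (ν b)) ^ t b).natDegree = ∑ b ∈ s, t b := by
    rw [natDegree_prod_of_monic _ _ hm]
    exact sum_congr rfl fun b _ => by rw [natDegree_pow, natDegree_X_sub_C, mul_one]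
  have h1 := natDegree_le_of_dvd hd h0
  have h2 := (natDegree_lt_iff_degree_lt h0).2 hp
  omega

/-- the jet map -/
noncomputable def jet {ι : Type} (s : Finset ι) (ν : ι → ℂ) (t : ι → ℕ) :
    degreeLT ℂ (∑ b ∈ s, t b) →ₗ[ℂ] ((Σ b : s, Fin (t b)) → ℂ) :=
  LinearMap.pi fun x => (leval (ν x.1)) ∘ₗ ((derivative : ℂ[X] →ₗ[ℂ] ℂ[X]) ^ (x.2 : ℕ)) ∘ₗ
    (degreeLT ℂ (∑ b ∈ s, t b)).subtype

lemma jet_apply {ι : Type} (s : Finset ι) (ν : ι → ℂ) (t : ι → ℕ)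
    (p : degreeLT ℂ (∑ b ∈ s, t b)) (x : Σ b : s, Fin (t b)) :
    jet s ν t p x = (derivative^[(x.2 : ℕ)] (p : ℂ[X])).eval (ν x.1) := by
  simp [jet, Module.End.pow_apply]

end HermExL

theorem hermEx : HermExStmt := by
  intro ι _ s ν t hν a ha τ hτ
  have hinj : Function.Injective (HermExL.jet s ν t) := by
    refine (injective_iff_map_eq_zero _).2 fun p hp => Subtype.ext ?_
    refine HermExL.eq_zero s ν t hν p (mem_degreeLT.1 p.2) fun b hb σ hσ => ?_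
    have := congrFun hp ⟨⟨b, hb⟩, ⟨σ, hσ⟩⟩
    rwa [HermExL.jet_apply] at this
  have : FiniteDimensional ℂ (degreeLT ℂ (∑ b ∈ s, t b)) :=
    (degreeLTEquiv ℂ (∑ b ∈ s, t b)).symm.finiteDimensional
  have hr : Module.finrank ℂ (degreeLT ℂ (∑ b ∈ s, t b)) =
      Module.finrank ℂ ((Σ b : s, Fin (t b)) → ℂ) := by
    rw [(degreeLTEquiv ℂ (∑ b ∈ s, t b)).finrank_eq, Module.finrank_fintype_fun_eq_card,
      Module.finrank_fintype_fun_eq_card, Fintype.card_fin, Fintype.card_sigma]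
    simp only [Fintype.card_fin]
    exact (sum_coe_sort s t).symm
  obtain ⟨p, hp⟩ := (LinearMap.injective_iff_surjective_of_finrank_eq_finrank hr).1 hinj
    fun x => if (x.1 : ι) = a ∧ (x.2 : ℕ) = τ then 1 else 0
  refine ⟨p, mem_degreeLT.1 p.2, fun b hb σ hσ => ?_⟩
  have := congrFun hp ⟨⟨b, hb⟩, ⟨σ, hσ⟩⟩
  rwa [HermExL.jet_apply] at this

end LogPow2

end

section

/-! The Hermite data of the box. -/

open Polynomial NumberField Finset

namespace LogPow2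

open LogPow

namespace BoxHNL

theorem card_box (M : ℕ) : (LogPow.box M).card = (2 * M + 1) ^ 2 := by
  have : (Icc (-(M : ℤ)) M).card = 2 * M + 1 := by
    rw [Int.card_Icc]; omega
  unfold LogPow.box
  rw [card_product, this, sq]

theorem hn (ν : ℤ × ℤ → ℂ) (θ : ℂ) (K₀ : ℝ) (M q : ℕ) (hN : Nodes ν M K₀) (hK : 2 ≤ K₀)
    (hM : 1 ≤ M) (hθ : θ ≠ 0) (hθK : ‖θ‖ ≤ K₀) :
    HN (box M) (fun x => θ * ν x) (mult M q) (q ^ 2) (‖θ‖ * (K₀ * M)) (‖θ‖ / (4 * K₀ * M))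
      (Real.exp (-(30 * K₀ * M ^ 2 * q ^ 2))) := by
  have hM' : (1 : ℝ) ≤ M := by exact_mod_cast hM
  have h0 : 0 < ‖θ‖ := norm_pos_iff.2 hθ
  have hKM : 2 ≤ K₀ * M := by nlinarith
  have hd : ∀ a b, ‖θ * ν a - θ * ν b‖ = ‖θ‖ * ‖ν a - ν b‖ := fun a b => by
    rw [← mul_sub, norm_mul]
  refine ⟨by positivity, ?_, ?_, Real.exp_pos _, fun a ha => ?_,
    fun a _ => latStmt.mult_le M q a, fun a ha b hb hab => ?_, fun a ha => ?_⟩
  · rw [div_le_one (by positivity)]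
    nlinarith
  · rw [div_le_iff₀ (by positivity), mul_assoc]
    refine le_mul_of_one_le_right h0.le ?_
    nlinarith
  · rw [norm_mul]
    exact mul_le_mul_of_nonneg_left (hN.le a ha) h0.le
  · rw [hd]
    refine le_trans (le_of_eq ?_) (mul_le_mul_of_nonneg_left (hN.sep a ha b hb hab) h0.le)
    field_simp
    ring
  · have e : Real.exp (-(30 * K₀ * M ^ 2 * q ^ 2)) =
        Real.exp (-(30 * K₀ * M ^ 2)) ^ (q ^ 2) := by
      rw [← Real.exp_nat_mul]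
      congr 1
      push_cast
      ring
    rw [e]
    refine (pow_le_pow_left₀ (Real.exp_pos _).le (hN.prod a ha) _).trans ?_
    rw [← prod_pow]
    refine prod_le_prod (fun b _ => by positivity) fun b hb => ?_
    have e2 : ‖θ * ν a - θ * ν b‖ / (2 * (‖θ‖ * (K₀ * M))) = ‖ν a - ν b‖ / (2 * K₀ * M) := by
      rw [hd]
      field_simp
    rw [e2]
    refine pow_le_pow_of_le_one (by positivity) ?_ (latStmt.mult_le M q b)
    rw [div_le_one (by positivity)]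
    have h1 := hN.le a ha
    have h2 := hN.le b (mem_of_mem_erase hb)
    have h3 := norm_sub_le (ν a) (ν b)
    linarith

theorem hc (t K₀ : ℝ) (M q N : ℕ) (hK : 2 ≤ K₀) (hq : 2 ≤ q) (hqM : q ≤ M)
    (hl : Real.log (2 * K₀ ^ 2 * M) ≤ (M : ℝ) ^ 2) (ht : 0 < t)
    (hN : (N : ℝ) ≤ 2 * M ^ 2 * q ^ 2) :
    HC ((2 * M + 1) ^ 2) N (q ^ 2) (t * (K₀ * M)) (t / (4 * K₀ * M))
      (Real.exp (-(30 * K₀ * M ^ 2 * q ^ 2))) ≤ Real.exp (9 * (K₀ ^ 3 * M ^ 2 * q ^ 2)) := by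
  have hq' : (2 : ℝ) ≤ q := by exact_mod_cast hq
  have hM' : (2 : ℝ) ≤ M := by exact_mod_cast hq.trans hqM
  have hq2 : (4 : ℝ) ≤ (q : ℝ) ^ 2 := by nlinarith
  have hM2 : (2 : ℝ) * M ≤ (M : ℝ) ^ 2 := by nlinarith
  have hS : 4 * (M : ℝ) ^ 2 ≤ (M : ℝ) ^ 2 * q ^ 2 := by nlinarith
  have a1 : (((2 * M + 1) ^ 2 : ℕ) : ℝ) ≤ Real.exp (M ^ 2 * q ^ 2) := by
    have h1 := Real.add_one_le_exp (2 * (M : ℝ))
    push_cast
    refine (pow_le_pow_left₀ (by positivity) h1 2).trans ?_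
    rw [← Real.exp_nat_mul, Real.exp_le_exp]
    push_cast
    linarith
  have a2 : (3 : ℝ) * 2 ^ N ≤ Real.exp (3 * (M ^ 2 * q ^ 2)) := by
    have h1 : (3 : ℝ) ≤ Real.exp 2 := by linarith [Real.add_one_le_exp 2]
    have h2 : (2 : ℝ) ≤ Real.exp 1 := by linarith [Real.add_one_le_exp 1]
    refine (mul_le_mul h1 (pow_le_pow_left₀ (by norm_num) h2 N) (by positivity)
      (Real.exp_pos _).le).trans ?_
    rw [← Real.exp_nat_mul, ← Real.exp_add, Real.exp_le_exp]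
    linarith
  have a3 : (2 * (t * (K₀ * M)) / (t / (4 * K₀ * M))) ^ (q ^ 2) ≤
      Real.exp (2 * (M ^ 2 * q ^ 2)) := by
    have h1 : 2 * K₀ ^ 2 * M ≤ Real.exp (M ^ 2) := by
      rwa [← Real.log_le_iff_le_exp (by positivity)]
    have h2 : 2 * (t * (K₀ * M)) / (t / (4 * K₀ * M)) = 8 * (K₀ * M) ^ 2 := by
      field_simp
      ring
    have h3 : 8 * (K₀ * M) ^ 2 ≤ (2 * K₀ ^ 2 * M) ^ 2 := by
      have : (2 * K₀ ^ 2 * M) ^ 2 = 4 * K₀ ^ 2 * (K₀ * M) ^ 2 := by ring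
      rw [this]
      exact mul_le_mul_of_nonneg_right (by nlinarith) (by positivity)
    rw [h2]
    refine (pow_le_pow_left₀ (by positivity)
      (h3.trans (pow_le_pow_left₀ (by positivity) h1 2)) _).trans ?_
    rw [← Real.exp_nat_mul, ← Real.exp_nat_mul, Real.exp_le_exp]
    push_cast
    linarith
  rw [HC, Real.exp_neg, div_inv_eq_mul]
  refine (mul_le_mul a1 (mul_le_mul_of_nonneg_right (mul_le_mul a2 a3 (by positivity)
    (Real.exp_pos _).le) (Real.exp_pos _).le) (by positivity) (Real.exp_pos _).le).trans ?_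
  rw [← Real.exp_add, ← Real.exp_add, ← Real.exp_add, Real.exp_le_exp]
  have h1 : 6 + 30 * K₀ ≤ 9 * K₀ ^ 3 := by
    have : 4 ≤ K₀ ^ 2 := by nlinarith
    nlinarith
  have h2 := mul_le_mul_of_nonneg_right h1 (show (0 : ℝ) ≤ M ^ 2 * q ^ 2 by positivity)
  linarith

end BoxHNL

theorem boxHN : BoxHNStmt := by
  intro ν θ K₀ M q hN hK hq hqM hl hθ hθK hNN
  refine ⟨BoxHNL.hn ν θ K₀ M q hN hK (by omega) hθ hθK, ?_⟩
  rw [BoxHNL.card_box]
  exact BoxHNL.hc _ K₀ M q _ hK hq hqM hl (norm_pos_iff.2 hθ) hNN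

end LogPow2

end
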