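import Pool.Agent.Mg.F655169a.G47c8bf
import Pool.Agent.Mg.F655169a.G7edb1d
import Pool.Agent.Mg.F655169a.Gfc2d0b
import Pool.Agent.Mg.F655169a.G7c4118
import Pool.Agent.Mg.F655169a.Gc9f9fa

/-! Assembly of the auxiliary determinants and of the theorem. -/

open Polynomial NumberField Finset

namespace LogPow2

open LogPow

theorem jensen2 (P : ℂ[X]) (w : ℂ) (Y b b₁ : ℝ) (hb : Real.exp (-b) ≤ ‖P.leadingCoeff‖)
    (hY : 0 ≤ Y) (h : ∀ z : ℂ, ‖z - w‖ = Real.exp (-Y) → ‖P.eval z‖ ≤ Real.exp (-b₁)) :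
    b₁ - b ≤ W w Y P := by
  have e0 : ((Real.exp b : ℝ) : ℂ) ≠ 0 := by exact_mod_cast (Real.exp_pos b).ne'
  have e1 : ‖((Real.exp b : ℝ) : ℂ)‖ = Real.exp b := by
    rw [Complex.norm_real, Real.norm_of_nonneg (Real.exp_pos b).le]
  have h1 := jensenStmt mahlerStmt (C ((Real.exp b : ℝ) : ℂ) * P) w Y (b₁ - b) (by
    rw [leadingCoeff_mul, leadingCoeff_C, norm_mul, e1]
    calc (1 : ℝ) = Real.exp b * Real.exp (-b) := by rw [← Real.exp_add]; simp
      _ ≤ _ := by gcongr) hY (fun z hz => by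
    rw [eval_mul, eval_C, norm_mul, e1]
    calc _ ≤ Real.exp b * Real.exp (-b₁) := mul_le_mul_of_nonneg_left (h z hz) (Real.exp_pos b).le
      _ = _ := by rw [← Real.exp_add]; congr 1; ring)
  unfold W at h1 ⊢
  rwa [roots_C_mul _ e0] at h1

theorem aux2Stmt (hl : Lat2Stmt) (hD : Deg2Stmt) (hH : HtMinor2Stmt) (hS : Small2Stmt)
    (hR : Rank2Stmt) (n0 : N0Stmt) (n1 : N1Stmt) (n2 : N2Stmt) (n3 : N3Stmt) (n4 : N4Stmt) :
    Aux2Stmt := by
  intro K _ _ φ h D L K₀ hI hB hA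
  have hK := hA.bnd.hK
  obtain ⟨y₀, hy₀⟩ := n0 K₀ hK
  refine ⟨100 * K₀, y₀, by linarith, fun y hy γ hγ => ?_⟩
  obtain ⟨M, q, q', hrel⟩ := hy₀ y hy
  set l := Real.log y / 2 with hldef
  have hq : (100000 : ℝ) ≤ q := by
    have h1 := hrel.hl
    have h8 : (2 : ℝ) ^ 3 ≤ K₀ ^ 3 := by gcongr
    have := hrel.hlq
    linarith
  have hqq : (q : ℝ) ≤ q' := by have := hrel.hq3; linarith
  have hq'M : q' ≤ M := by exact_mod_cast hrel.hq5
  have hqq' : q ≤ q' := by exact_mod_cast hqq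
  have hq3 : 3 ≤ q := by
    have : (3 : ℝ) ≤ q := by linarith
    exact_mod_cast this
  have hqM : q ≤ M := hqq'.trans hq'M
  have hM1 : 1 ≤ M := by omega
  have b1 := profStmt latStmt M q hq3 hqM
  have b2 := profStmt latStmt M q' (hq3.trans hqq') hq'M
  obtain ⟨hl0, hy0, -, -, t0, t1, t2, t3, t4, t5, t6, t7⟩ := n1 _ _ _ _ _ _ _ _ _ _ _ _ _ hrel b1 b2
  have t0' : q' ≤ 2 * q := by exact_mod_cast t0
  set E := D.map (psi φ) with hE
  have hrank := hR E L K₀ M q q' γ hA (by omega) hqq' t0' hq'M t1 t4 t5 t6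
    (hγ.trans (Real.exp_le_exp.2 (by linarith)))
  obtain ⟨ι, hι, hdet⟩ := minorStmt _ _ _ hrank
  have hev : (E.minor M q q' ι).eval γ ≠ 0 := by
    have : (E.minor M q q' ι).eval γ = ((Matrix.of fun (i : idx M q') (j : idx M q) =>
        (E.ent M i.1 j.1).eval γ).submatrix ι id).det := by
      unfold AD.minor
      rw [← Polynomial.coe_evalRingHom, RingHom.map_det]
      rfl
    rw [this]; exact hdet
  have hmap : ∀ σ : K →+* ℂ, (D.minor M q q' ι).map (psi σ) = (D.map (psi σ)).minor M q q' ι :=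
    fun σ => hl.map_minor _ _ _ D M q q' ι
  have hne : D.minor M q q' ι ≠ 0 := by
    intro h0
    rw [hE, ← hmap, h0] at hev
    simp at hev
  have hinj : ∀ σ : K →+* ℂ, Function.Injective (psi σ) := fun σ =>
    σ.injective.comp (IsFractionRing.injective (𝓞 K) K)
  set b : ℝ := NN M q * Real.log (NN M q) + NN M q * M ^ 2 * Real.log K₀ +
    (VV M q + VV M q') * Real.log (2 * K₀ ^ 2 * M) with hb
  obtain ⟨i1, i2⟩ := hI _ hne b fun σ => by
    rw [hmap]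
    refine hH _ K₀ M q q' ι (hB σ) hι hM1 hqM ?_
    rw [← hmap]
    exact (Polynomial.map_ne_zero_iff (hinj σ)).2 hne
  have hb3 := n3 _ _ _ _ _ _ _ _ _ _ _ _ _ hrel b1 b2
  rw [← hb] at hb3
  have hΔ : ((D.minor M q q' ι).map (algebraMap (𝓞 K) K)).map φ = E.minor M q q' ι := by
    rw [Polynomial.map_map, hE, ← hmap]
    rfl
  rw [hmap, ← hE] at i2
  have herr := n4.err _ _ _ _ _ _ _ _ _ _ hrel b1
  have key : ∀ (u c : ℝ) (m : ℕ), 1 / 169 ≤ u → u ≤ 1 → 1 ≤ m → m ≤ 9 →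
      0.272 * c + 0.00003 ≤ m * u / 2 - u ^ 2 * (m * (m + 1) ^ 2 * (m + 2)) / (48 * 0.999) →
      c * (0.272 * y ^ 3 / l) * y ≤
        W (Complex.exp (psi φ D.β * L)) (u * y ^ 2) (E.minor M q q' ι) := by
    intro u c m u1 u2 m1 m9 hc
    have hy2 : 0 < y ^ 2 := by positivity
    have a1 : y ^ 2 / 169 ≤ u * y ^ 2 := by nlinarith
    have a2 : u * y ^ 2 ≤ y ^ 2 := by nlinarith
    have a3 := n4.main _ _ _ _ _ _ _ _ _ _ u m c hrel b1 (by linarith) u2 (by positivity)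
      (by exact_mod_cast m9) hc
    have a4 := jensen2 _ (Complex.exp (psi φ D.β * L)) (u * y ^ 2) b _ i2 (by linarith)
      (hS E L K₀ (u * y ^ 2) M q q' m ι hA (by omega) hqM hq'M m1 m9 t1 (t2.trans a1)
        (a2.trans t3))
    have e : 0.136 * y ^ 3 / l * (100 * K₀) = 0.272 * y ^ 3 / l * (100 * K₀) / 2 := by ring
    linarith
  refine ⟨(D.minor M q q' ι).map (algebraMap (𝓞 K) K), 0.272 * y ^ 3 / l, by positivity,
    by rw [hΔ]; exact hev, ?_, i1.trans hb3, ?_⟩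
  · refine le_trans ?_ (n2 _ _ _ _ _ _ _ _ _ _ _ _ _ hrel b1 b2)
    have h1 := hD E K₀ M q q' ι hA.bnd hι
    rw [← hΔ, natDegree_map] at h1
    gcongr
  · rw [hΔ]
    have k1 := key 1 0.915 1 (by norm_num) (by norm_num) (by norm_num) (by norm_num) (by norm_num)
    have k2 := key (1 / 4) 0.571 2 (by norm_num) (by norm_num) (by norm_num) (by norm_num)
      (by norm_num)
    have k3 := key (1 / 16) 0.278 4 (by norm_num) (by norm_num) (by norm_num) (by norm_num)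
      (by norm_num)
    have k4 := key (1 / 49) 0.149 6 (by norm_num) (by norm_num) (by norm_num) (by norm_num)
      (by norm_num)
    have k5 := key (1 / 169) 0.071 9 (by norm_num) (by norm_num) (by norm_num) (by norm_num)
      (by norm_num)
    rw [one_mul] at k1
    rw [one_div_mul_eq_div] at k2 k3 k4 k5
    exact ⟨k1, k2, k3, k4, k5⟩

theorem clear1 {K : Type} [Field K] [NumberField K] (φ : K →+* ℂ) (x : K) :
    ∃ (n : ℕ) (z : 𝓞 K), 1 ≤ n ∧ psi φ z = n * φ x := by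
  obtain ⟨n, hn, z, hz⟩ := ClearL.one φ x
  exact ⟨n, z, hn, hz⟩

theorem mainOf (hC : Crit2Stmt) (hA : Aux2Stmt) (hH : Ht2Stmt) (hKB : KBndStmt) (hKL : KLipStmt)
    (β : ℂ) (a b : ℤ) (hβ : β ^ 2 = a * β + b) (hirr : ∀ r : ℚ, β ≠ r) (L : ℂ) (hL : L ≠ 0)
    (F : IntermediateField ℚ ℂ) [FiniteDimensional ℚ F] (hβF : β ∈ F) (hα : Complex.exp L ∈ F)
    (hF : Module.finrank ℚ F ≤ 2 ∨ (Module.finrank ℚ F ≤ 4 ∧ ∃ x ∈ F, x.im ≠ 0)) :
    L ∉ IntermediateField.adjoin F {Complex.exp (β * L)} := by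
  intro hmem
  have : NumberField F := NumberField.mk
  set φ : F →+* ℂ := algebraMap F ℂ with hφ
  set w := Complex.exp (β * L) with hw
  obtain ⟨h, h1, h2⟩ := hH F φ (hF.imp id fun ⟨p, x, hx, hx'⟩ => ⟨p, ⟨x, hx⟩, hx'⟩)
  obtain ⟨r, s, hrs⟩ := (IntermediateField.mem_adjoin_simple_iff F L).1 hmem
  have hs0 : aeval w s ≠ 0 := by
    intro h0; rw [h0, div_zero] at hrs; exact hL hrs
  obtain ⟨r₁, cr, hcr, hr⟩ := HtL.ex r
  obtain ⟨s₁, cs, hcs, hs⟩ := HtL.ex s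
  have hαinv : Complex.exp (-L) ∈ F := by
    rw [Complex.exp_neg]; exact F.inv_mem hα
  obtain ⟨m1, z1, hm1, hz1⟩ := clear1 φ ⟨_, hα⟩
  obtain ⟨m2, z2, hm2, hz2⟩ := clear1 φ ⟨_, hαinv⟩
  have hβi : IsIntegral ℤ (⟨β, hβF⟩ : F) := by
    refine (isIntegral_algHom_iff φ.toIntAlgHom φ.injective).1 ⟨X ^ 2 - (C a * X + C b), ?_, ?_⟩
    · apply Polynomial.monic_X_pow_sub
      exact lt_of_le_of_lt Polynomial.degree_linear_le (by norm_num)
    · rw [eval₂_sub, eval₂_add, eval₂_mul, eval₂_pow, eval₂_X, eval₂_C, eval₂_C]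
      exact sub_eq_zero.2 hβ
  let D : AD (𝓞 F) := ⟨⟨_, hβi⟩, m2 * z1, m1 * z2, a, b, m1 * m2, C cr * s₁, C cs * r₁⟩
  have hn : 1 ≤ m1 * m2 := Nat.mul_pos hm1 hm2
  have hinj : Function.Injective (psi φ) := φ.injective.comp (IsFractionRing.injective (𝓞 F) F)
  have ev : ∀ (p : F[X]) (p₁ : (𝓞 F)[X]) (c c' : 𝓞 F),
      p₁.map (algebraMap (𝓞 F) F) = C (algebraMap (𝓞 F) F c) * p →
      ((C c' * p₁).map (psi φ)).eval w = psi φ c' * psi φ c * aeval w p := by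
    intro p p₁ c c' e
    rw [Polynomial.map_mul, map_C, eval_mul, eval_C, psi, ← Polynomial.map_map, e,
      Polynomial.map_mul, map_C, eval_mul, eval_C, hφ, Polynomial.eval_map_algebraMap, mul_assoc]
    rfl
  have eA := ev s s₁ cs cr hs
  have eB := ev r r₁ cr cs hr
  have c1 : psi φ cr ≠ 0 := (map_ne_zero_iff _ hinj).2 hcr
  have c2 : psi φ cs ≠ 0 := (map_ne_zero_iff _ hinj).2 hcs
  have k1 : ∀ᶠ K₀ : ℝ in Filter.atTop, ∀ σ : F →+* ℂ, Bnd (D.map (psi σ)) K₀ :=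
    Filter.eventually_all.2 fun σ => hKB _ hn
  have k2 := hKL ((C cr * s₁).map (psi φ)) ((C cs * r₁).map (psi φ)) w L (Complex.exp_ne_zero _) hL
    (by rw [eA]; exact mul_ne_zero (mul_ne_zero c1 c2) hs0)
    (by rw [eA, eB, hrs]; field_simp)
  obtain ⟨K₀, k3, k4⟩ := (k1.and k2).exists
  have k5 := k3 φ
  refine hC F φ h h1 w (hA F φ h D L K₀ h2 k3 ⟨⟨hβ, hirr, k5.hK, k5.h₁, k5.h₂⟩, k5, ?_, ?_, k4⟩)
  · change psi φ (m2 * z1) = ((m1 * m2 : ℕ) : ℂ) * Complex.exp L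
    rw [map_mul, map_natCast, hz1]
    push_cast
    change (m2 : ℂ) * (m1 * Complex.exp L) = _
    ring
  · change psi φ (m1 * z2) = ((m1 * m2 : ℕ) : ℂ) * Complex.exp (-L)
    rw [map_mul, map_natCast, hz2]
    push_cast
    change (m1 : ℂ) * (m2 * Complex.exp (-L)) = _
    ring

end LogPow2
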