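import Pool.Agent.Mg.F655169a.G47c8bf
import Pool.Agent.Mg.F655169a.G9096a3
import Pool.Agent.Mg.F655169a.Gc9f9fa
import Pool.Agent.Mg.F655169a.Gfd6a10
import Pool.Agent.Mg.F655169a.Gd6b95f
import Pool.Agent.Mg.F655169a.G41d083
import Pool.Agent.Mg.F655169a.Gabaf6b
import Pool.Agent.Mg.F655169a.G94cfc6
import Pool.Agent.Mg.F655169a.Gdedddc
import Pool.Agent.Mg.F655169a.G3efcdb
import Pool.Agent.Mg.F655169a.Ga7267f
import Pool.Agent.Mg.F655169a.G918cea
import Pool.Agent.Mg.F655169a.Gd3f214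
import Pool.Agent.Mg.F655169a.G8ac1dd
import Pool.Agent.Mg.F655169a.G0e1328
import Pool.Agent.Mg.F655169a.G8ed703
import Pool.Agent.Mg.F655169a.G70aab0
import Pool.Agent.Mg.F655169a.G0799d5
import Pool.Agent.Mg.F655169a.Gb1a2f5
import Pool.Agent.Mg.F655169a.G5921ff

section

open Polynomial NumberField Finset

namespace LogPow2

open LogPow

namespace Det2L

theorem opt_sum {n κ : Type} [Fintype n] [Fintype κ] (φ : n → Option κ) (g : κ → ℝ)
    (hg : ∀ t, 0 ≤ g t) (h : ∀ i i' m, φ i = some m → φ i' = some m → i = i') :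
    ∑ i, (φ i).elim 0 g ≤ ∑ t, g t := by
  classical
  have e : ∀ i, (φ i).elim 0 g = ∑ t, if φ i = some t then g t else 0 := fun i => by
    rcases φ i with _ | m <;> simp
  rw [sum_congr rfl fun i _ => e i, sum_comm]
  refine sum_le_sum fun t _ => ?_
  rw [← sum_filter, sum_const, nsmul_eq_mul]
  refine mul_le_of_le_one_left (hg t) (Nat.cast_le_one.2 (card_le_one.2 fun i hi i' hi' => ?_))
  exact h i i' t (mem_filter.1 hi).2 (mem_filter.1 hi').2

end Det2L

theorem det2 : Det2Stmt := by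
  intro n κ _ _ S Mx cc v r cost B s hB hM hc hr
  let c : n → Option S → ℂ := fun i o => o.elim 1 fun m => cc i m
  let u : n → Option S → n → ℂ := fun i o => o.elim (r i) fun m => v m
  have h1 : Mx = fun i => ∑ o, c i o • u i o := by
    funext i j
    rw [hM, Fintype.sum_option, add_comm, ← sum_coe_sort]
    simp [c, u, Finset.sum_apply]
  have h2 : Mx.det = ∑ φ : n → Option S,
      Matrix.det (Matrix.of fun i => c i (φ i) • u i (φ i)) := by
    rw [h1]
    exact (Matrix.detRowAlternating (n := n) (R := ℂ)).toMultilinearMap.map_sum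
      fun i o => c i o • u i o
  rw [h2]
  refine (norm_sum_le _ _).trans ?_
  refine (sum_le_card_nsmul _ _ ((Fintype.card n).factorial * B ^ Fintype.card n *
    Real.exp (-(Fintype.card n * s - ∑ t ∈ S, max (s - cost t) 0))) fun φ _ => ?_).trans ?_
  swap
  · rw [card_univ, Fintype.card_fun, Fintype.card_option, Fintype.card_coe, nsmul_eq_mul]
    push_cast
    exact le_of_eq (by ring)
  by_cases h3 : ∃ i i' m, i ≠ i' ∧ φ i = some m ∧ φ i' = some m
  · obtain ⟨i, i', m, h4, h5, h6⟩ := h3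
    have h7 : Matrix.det (Matrix.of fun i => c i (φ i) • u i (φ i)) = 0 := by
      have h8 := (Matrix.detRowAlternating (n := n) (R := ℂ)).toMultilinearMap.map_smul_univ
        (fun i => c i (φ i)) fun i => u i (φ i)
      have h9 := (Matrix.detRowAlternating (n := n) (R := ℂ)).map_eq_zero_of_eq
        (fun i => u i (φ i)) (i := i) (j := i') (by simp [u, h5, h6]) h4
      exact h8.trans (by rw [AlternatingMap.coe_multilinearMap, h9, smul_zero])
    rw [h7, norm_zero]
    positivity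
  have h4 := Det2L.opt_sum φ (fun t => max (s - cost t) 0) (fun t => le_max_right _ _)
    fun i i' m a b => not_not.1 fun h => h3 ⟨i, i', m, h, a, b⟩
  rw [sum_coe_sort S fun t => max (s - cost t) 0] at h4
  refine (DetL.det_le _ (fun i => B * Real.exp (-(s - (φ i).elim 0 fun t => max (s - cost t) 0)))
    fun i j => ?_).trans ?_
  · rcases h5 : φ i with _ | m
    · simp only [Matrix.of_apply, c, u, h5, Option.elim, one_smul, sub_zero]
      exact hr i j
    · simp only [Matrix.of_apply, c, u, h5, Option.elim, Pi.smul_apply, smul_eq_mul]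
      exact (hc i j m m.2).trans (mul_le_mul_of_nonneg_left
        (Real.exp_le_exp.2 (by linarith [le_max_left (s - cost m) 0])) hB)
  · rw [prod_mul_distrib, prod_const, card_univ, ← Real.exp_sum, sum_neg_distrib, ← mul_assoc,
      sum_sub_distrib, sum_const, card_univ, nsmul_eq_mul]
    exact mul_le_mul_of_nonneg_left (Real.exp_le_exp.2 (by linarith)) (by positivity)

end LogPow2

end

section

/-! Hermite interpolation: coefficient bound and its dual form. -/

open Polynomial NumberField Finset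

namespace LogPow2

open LogPow

namespace HermL

lemma iter_eval (p : ℂ[X]) (n : ℕ) :
    iteratedDeriv n (fun z => p.eval z) = fun z => (derivative^[n] p).eval z := by
  induction n with
  | zero => simp
  | succ n ih =>
    rw [iteratedDeriv_succ, ih, Function.iterate_succ_apply']
    funext z
    exact Polynomial.deriv _

lemma cauchy (p : ℂ[X]) {ρ C : ℝ} (hρ : 0 < ρ) (h : ∀ z : ℂ, ‖z‖ ≤ ρ → ‖p.eval z‖ ≤ C) (n : ℕ) :
    ‖p.coeff n‖ * ρ ^ n ≤ C := by
  have h1 := Complex.norm_iteratedDeriv_le_of_forall_mem_sphere_norm_le (c := 0) (C := C)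
    (f := fun z => p.eval z) n hρ p.differentiable.diffContOnCl
    (fun z hz => h z (le_of_eq (by simpa using hz)))
  rw [iter_eval] at h1
  beta_reduce at h1
  rw [← coeff_zero_eq_eval_zero, coeff_iterate_derivative, zero_add, Nat.descFactorial_self,
    nsmul_eq_mul, norm_mul, Complex.norm_natCast, le_div_iff₀ (pow_pos hρ n), mul_assoc] at h1
  exact le_of_mul_le_mul_left h1 (by exact_mod_cast n.factorial_pos)

lemma jet_eq (p : ℂ[X]) (N : ℕ) (hp : p.degree < N) (σ : ℕ) (v : ℂ) :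
    (derivative^[σ] p).eval v =
      ∑ n ∈ range N, p.coeff n * ((n.descFactorial σ : ℂ) * v ^ (n - σ)) := by
  have e : p = ∑ n ∈ range N, C (p.coeff n) * X ^ n := by
    by_cases h0 : p = 0
    · simp [h0]
    · exact as_sum_range_C_mul_X_pow' p ((natDegree_lt_iff_degree_lt h0).2 hp)
  conv_lhs => rw [e, iterate_derivative_sum, eval_finsetSum]
  refine sum_congr rfl fun n _ => ?_
  rw [iterate_derivative_C_mul, iterate_derivative_X_pow_eq_natCast_mul]
  simp

end HermL

theorem hermStmt (h : HermValStmt) : HermStmt := by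
  intro ι _ s ν t T ρ η κ ε p hN hε hp hv n
  exact HermL.cauchy p (hN.η0.trans_le hN.ηρ) (h ι s ν t T ρ η κ ε p hN hε hp hv) n

theorem dualStmt (h1 : HermStmt) (h2 : HermExStmt) : DualStmt := by
  intro ι _ s ν t T ρ η κ mm c hN hmm hm a ha τ hτ
  have hne : ∀ a ∈ s, ∀ b ∈ s, a ≠ b → ν a ≠ ν b := fun a ha b hb hab e => by
    have := hN.sep a ha b hb hab
    rw [e, sub_self, norm_zero] at this
    linarith [hN.η0]
  obtain ⟨p, hp, hj⟩ := h2 ι s ν t hne a ha τ hτ
  have hc := h1 ι s ν t T ρ η κ 1 p hN zero_le_one hp fun b hb σ hσ => by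
    rw [hj b hb σ hσ]
    split_ifs <;> simp
  have e1 : c a τ = ∑ b ∈ s, ∑ σ ∈ range (t b), c b σ * (derivative^[σ] p).eval (ν b) := by
    rw [sum_eq_single_of_mem a ha, sum_eq_single_of_mem τ (mem_range.2 hτ)]
    · rw [hj a ha τ hτ, if_pos ⟨rfl, rfl⟩, mul_one]
    · intro σ hσ hne
      rw [hj a ha σ (mem_range.1 hσ), if_neg fun h => hne h.2, mul_zero]
    · intro b hb hne
      refine sum_eq_zero fun σ hσ => ?_
      rw [hj b hb σ (mem_range.1 hσ), if_neg fun h => hne h.1, mul_zero]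
  have e2 : c a τ = ∑ n ∈ range (∑ b ∈ s, t b), p.coeff n * ∑ b ∈ s, ∑ σ ∈ range (t b),
      c b σ * ((n.descFactorial σ : ℂ) * ν b ^ (n - σ)) := by
    rw [e1]
    simp only [HermL.jet_eq p _ hp, mul_sum]
    rw [sum_comm (s := range (∑ b ∈ s, t b))]
    refine sum_congr rfl fun b _ => ?_
    rw [sum_comm]
    exact sum_congr rfl fun n _ => sum_congr rfl fun σ _ => by ring
  rw [e2, mul_assoc, ← nsmul_eq_mul]
  refine (norm_sum_le _ _).trans ((sum_le_card_nsmul _ _ _ fun n hn => ?_).trans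
    (le_of_eq (by rw [card_range])))
  rw [norm_mul]
  refine (mul_le_mul_of_nonneg_left (hm n (mem_range.1 hn)) (norm_nonneg _)).trans ?_
  have := mul_le_mul_of_nonneg_right (hc n) hmm
  linarith

end LogPow2

end

section

/-! The choice of the constant `K₀`. -/

open Polynomial NumberField Finset

namespace LogPow2

open LogPow

namespace K0L

/-- A function differentiable at `w` is Lipschitz at `w` on a small closed ball. -/
theorem lip_of_diff {f : ℂ → ℂ} {w : ℂ} (hf : DifferentiableAt ℂ f w) :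
    ∃ C : ℝ, 0 < C ∧ ∀ᶠ z in nhds w, ‖f z - f w‖ ≤ C * ‖z - w‖ := by
  obtain ⟨C, hC, h⟩ := hf.isBigO_sub.exists_pos
  exact ⟨C, hC, h.bound⟩

theorem log_bd {w z : ℂ} (hw : w ≠ 0) (h : ‖z - w‖ ≤ ‖w‖ / 2) :
    z = w * Complex.exp (Complex.log (z / w)) ∧
      ‖Complex.log (z / w)‖ ≤ 3 / (2 * ‖w‖) * ‖z - w‖ := by
  have hw0 : 0 < ‖w‖ := norm_pos_iff.2 hw
  have hz : z ≠ 0 := by
    rintro rfl
    rw [zero_sub, norm_neg] at h
    linarith
  have e : z / w = 1 + (z - w) / w := by field_simp; ring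
  have hn : ‖(z - w) / w‖ = ‖z - w‖ / ‖w‖ := norm_div _ _
  have h2 : ‖(z - w) / w‖ ≤ 1 / 2 := by
    rw [hn, div_le_iff₀ hw0]
    linarith
  refine ⟨?_, ?_⟩
  · rw [Complex.exp_log (div_ne_zero hz hw)]
    field_simp
  · rw [e]
    refine (Complex.norm_log_one_add_half_le_self h2).trans_eq ?_
    rw [hn]
    field_simp

end K0L

theorem kBnd : KBndStmt := by
  intro D hn
  filter_upwards [Filter.eventually_ge_atTop (2 : ℝ),
    Filter.eventually_ge_atTop (1 + ‖D.β‖), Filter.eventually_ge_atTop (1 + ‖D.β - D.a‖),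
    Filter.eventually_ge_atTop (‖D.αp‖ ^ D.cc), Filter.eventually_ge_atTop (‖D.αm‖ ^ D.cc),
    Filter.eventually_ge_atTop ((D.n₀ : ℝ) ^ D.cc),
    ClearL.bd_ev D.A 1, ClearL.bd_ev D.B 1,
    Filter.eventually_ge_atTop (D.A.natDegree : ℝ),
    Filter.eventually_ge_atTop (D.B.natDegree : ℝ)] with K₀ h1 h2 h3 h4 h5 h6 h7 h8 h9 h10
  exact ⟨h1, h2, h3, hn, h4, h5, h6, fun ζ hζ => ⟨h7 ζ hζ.le, h8 ζ hζ.le⟩, h9, h10⟩

theorem kLip : KLipStmt := by
  intro A B w L hw hL hA hB
  have hw0 : 0 < ‖w‖ := norm_pos_iff.2 hw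
  have hL0 : 0 < ‖L‖ := norm_pos_iff.2 hL
  have hd : DifferentiableAt ℂ (fun z => B.eval z / A.eval z) w :=
    (B.differentiable w).div (A.differentiable w) hA
  obtain ⟨C, hC, hlip⟩ := K0L.lip_of_diff hd
  have hne : ∀ᶠ z in nhds w, A.eval z ≠ 0 := A.continuous.continuousAt.eventually_ne hA
  obtain ⟨r, hr, hball⟩ := Metric.eventually_nhds_iff.1 (hlip.and hne)
  have hval : B.eval w / A.eval w = L := by
    rw [hB]
    field_simp
  filter_upwards [Filter.eventually_ge_atTop (1 : ℝ), ClearL.inv_ev (half_pos hr),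
    ClearL.inv_ev (half_pos hw0), Filter.eventually_ge_atTop C,
    Filter.eventually_ge_atTop (3 / (2 * ‖w‖)), Filter.eventually_ge_atTop (2 * ‖L‖),
    ClearL.inv_ev (half_pos hL0), Filter.eventually_ge_atTop (‖w‖ + 1),
    ClearL.bd_ev A (‖w‖ + 1), ClearL.inv_ev (div_pos (half_pos hL0) hC)]
    with K₀ h1 h2 h3 h4 h5 h6 h7 h8 h9 h10
  intro z hz
  have hK : 0 < K₀ := by linarith
  have small : ∀ c : ℝ, 1 ≤ K₀ * c → ‖z - w‖ ≤ c := fun c hc => by
    refine hz.trans ?_
    rw [div_le_iff₀ hK]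
    linarith
  have hzr : dist z w < r := by
    rw [dist_eq_norm]
    have := small _ h2
    linarith
  obtain ⟨hz1, hz2⟩ := hball hzr
  rw [hval] at hz1
  obtain ⟨e1, e2⟩ := K0L.log_bd hw (small _ h3)
  have hn : 0 ≤ ‖z - w‖ := norm_nonneg _
  have hT : ‖B.eval z / A.eval z - L‖ ≤ ‖L‖ / 2 := by
    refine hz1.trans ?_
    have := small _ h10
    rw [le_div_iff₀ hC] at this
    linarith
  have hT1 : ‖B.eval z / A.eval z‖ ≤ ‖B.eval z / A.eval z - L‖ + ‖L‖ := by
    simpa using norm_add_le (B.eval z / A.eval z - L) L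
  have hT2 : ‖L‖ ≤ ‖B.eval z / A.eval z‖ + ‖B.eval z / A.eval z - L‖ := by
    simpa using norm_sub_le (B.eval z / A.eval z) (B.eval z / A.eval z - L)
  have hz3 : ‖z‖ ≤ ‖w‖ + 1 := by
    have a1 : ‖z‖ ≤ ‖z - w‖ + ‖w‖ := by simpa using norm_add_le (z - w) w
    have a2 := small 1 (by linarith)
    linarith
  refine ⟨Complex.log (z / w), B.eval z / A.eval z, e1, hz2, by field_simp,
    e2.trans (mul_le_mul_of_nonneg_right h5 hn), hz1.trans (mul_le_mul_of_nonneg_right h4 hn),
    by linarith, h7.trans (mul_le_mul_of_nonneg_left (by linarith) hK.le), hz3.trans h8,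
    h9 z hz3⟩

end LogPow2

end

section

/-! All the pieces together. -/

namespace LogPow2

theorem critAll : Crit2Stmt :=
  crit2 psiStmt (concStmt clMin) (resMin clMin) (selStmt clMin psiStmt)

theorem htAll : Ht2Stmt :=
  ht2 (hABasic normProd) (hARes normProd) pairStmt embB (leadB normProd (hABasic normProd))

theorem hermAll : HermStmt := hermStmt (hermVal wtStmt)

theorem nodesAll : NodesStmt := nodesStmt lat2 lineStmt sepStmt

theorem smallNAll : SmallNStmt := smallN det2 ksetStmt (expandStmt ksetStmt sizeStmt)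

theorem rankNAll : RankNStmt :=
  rankN sizeStmt (momStmt hermAll boxHN) (coefStmt (dualStmt hermAll hermEx) boxHN sizeStmt)

theorem auxAll : Aux2Stmt :=
  aux2Stmt lat2 deg2 (htMinor2 (entBd2 lat2)) (small2 lat2 (factStmt lat2) smallNAll)
    (rank2 nodesAll (factStmt lat2) rankNAll) n0 n1 n2 n3 n4

theorem main (β : ℂ) (a b : ℤ) (hβ : β ^ 2 = a * β + b) (hirr : ∀ r : ℚ, β ≠ r) (L : ℂ)
    (hL : L ≠ 0) (F : IntermediateField ℚ ℂ) [FiniteDimensional ℚ F] (hβF : β ∈ F)
    (hα : Complex.exp L ∈ F)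
    (hF : Module.finrank ℚ F ≤ 2 ∨ (Module.finrank ℚ F ≤ 4 ∧ ∃ x ∈ F, x.im ≠ 0)) :
    L ∉ IntermediateField.adjoin F {Complex.exp (β * L)} :=
  mainOf critAll auxAll htAll kBnd kLip β a b hβ hirr L hL F hβF hα hF

end LogPow2

end
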